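import Pool.Agent.Run7.h10.QS.K1

/-!
# The closure of a point over the algebraic numbers is irreducible over the complex numbers; linear images
-/

set_option autoImplicit false
set_option linter.unusedSectionVars false

open NumberField Filter Topology

namespace Pool.Agent.Run7.h10.QS

open Pool.Agent.Y890.MV Pool.Agent.Y890.SP

section point
variable {σ : Type} [Fintype σ]

/-- a functional applied to the coefficients -/
noncomputable def coefL (l : ℂ →ₗ[Qbar] Qbar) (A : MvPolynomial σ ℂ) : MvPolynomial σ Qbar :=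
  ∑ m ∈ A.support, MvPolynomial.monomial m (l (A.coeff m))

theorem aeval_coefL (l : ℂ →ₗ[Qbar] Qbar) (A : MvPolynomial σ ℂ) (c : σ → ℂ) :
    MvPolynomial.aeval c (coefL l A) = ∑ m ∈ A.support, (l (A.coeff m) : ℂ) * ∏ i, c i ^ m i := by
  unfold coefL
  rw [map_sum]
  refine Finset.sum_congr rfl fun m _ => ?_
  rw [MvPolynomial.aeval_monomial, Finsupp.prod_fintype _ _ (fun i => pow_zero _)]
  rfl

theorem l_eval (l : ℂ →ₗ[Qbar] Qbar) (A : MvPolynomial σ ℂ) (b : σ → Qbar) :
    ((l (MvPolynomial.eval (fun i => (b i : ℂ)) A) : Qbar) : ℂ) = MvPolynomial.aeval (fun i => (b i : ℂ)) (coefL l A) := by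
  rw [aeval_coefL, MvPolynomial.eval_eq', map_sum]
  have h1 : ((∑ m ∈ A.support, l (A.coeff m * ∏ i, (b i : ℂ) ^ m i) : Qbar) : ℂ) =
      ∑ m ∈ A.support, ((l (A.coeff m * ∏ i, (b i : ℂ) ^ m i) : Qbar) : ℂ) := map_sum (algebraMap Qbar ℂ) _ _
  rw [h1]
  refine Finset.sum_congr rfl fun m _ => ?_
  have h2 : A.coeff m * ∏ i, (b i : ℂ) ^ m i = (∏ i, b i ^ m i : Qbar) • A.coeff m := by
    rw [Algebra.smul_def, map_prod, mul_comm]
    congr 1
  rw [h2, map_smul, smul_eq_mul]
  have h3 : (((∏ i, b i ^ m i) * l (A.coeff m) : Qbar) : ℂ) = ((∏ i, b i ^ m i : Qbar) : ℂ) * (l (A.coeff m) : ℂ) :=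
    map_mul (algebraMap Qbar ℂ) _ _
  rw [h3, mul_comm]
  congr 1
  have h4 : ((∏ i, b i ^ m i : Qbar) : ℂ) = ∏ i, ((b i ^ m i : Qbar) : ℂ) := map_prod (algebraMap Qbar ℂ) _ _
  rw [h4]
  exact Finset.prod_congr rfl fun i _ => map_pow (algebraMap Qbar ℂ) (b i) (m i)

theorem zero_of_coef (A : MvPolynomial σ ℂ) (c : σ → ℂ)
    (h : ∀ l : ℂ →ₗ[Qbar] Qbar, MvPolynomial.aeval c (coefL l A) = 0) : MvPolynomial.eval c A = 0 := by
  classical
  let e := Module.Basis.ofVectorSpace Qbar ℂ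
  let S := A.support.biUnion fun m => (e.repr (A.coeff m)).support
  have h1 : ∀ m ∈ A.support, A.coeff m = ∑ i ∈ S, ((e.repr (A.coeff m) i : Qbar) : ℂ) * e i := by
    intro m hm
    have h2 := e.linearCombination_repr (A.coeff m)
    rw [Finsupp.linearCombination_apply, Finsupp.sum] at h2
    have h3 : (e.repr (A.coeff m)).support ⊆ S := fun i hi => Finset.mem_biUnion.2 ⟨m, hm, hi⟩
    rw [Finset.sum_subset h3] at h2
    · refine h2.symm.trans (Finset.sum_congr rfl fun i _ => ?_)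
      rw [Algebra.smul_def]
      rfl
    · intro i _ hi
      rw [Finsupp.notMem_support_iff.1 hi, zero_smul]
  rw [MvPolynomial.eval_eq']
  have h2 : ∀ m ∈ A.support, A.coeff m * ∏ i, c i ^ m i =
      ∑ i ∈ S, e i * (((e.repr (A.coeff m) i : Qbar) : ℂ) * ∏ j, c j ^ m j) := by
    intro m hm
    conv_lhs => rw [h1 m hm]
    rw [Finset.sum_mul]
    exact Finset.sum_congr rfl fun i _ => by ring
  rw [Finset.sum_congr rfl h2, Finset.sum_comm]
  refine Finset.sum_eq_zero fun i _ => ?_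
  rw [← Finset.mul_sum]
  have h3 := h (e.coord i)
  rw [aeval_coefL] at h3
  have h4 : ∑ m ∈ A.support, ((e.repr (A.coeff m) i : Qbar) : ℂ) * ∏ j, c j ^ m j = 0 := h3
  rw [h4, mul_zero]

/-- The closure of a point over the field of algebraic numbers is irreducible over the field of complex numbers. -/
theorem irr_point (a : σ → ℂ) :
    IsIrred {c : σ → ℂ | ∀ R : MvPolynomial σ Qbar, MvPolynomial.aeval a R = 0 → MvPolynomial.aeval c R = 0} := by
  classical
  have : IsAlgClosed Qbar := (algebraicClosure.isAlgClosure ℚ ℂ).isAlgClosed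
  intro A B hAB
  let I : Ideal (MvPolynomial σ Qbar) := RingHom.ker (MvPolynomial.aeval a : MvPolynomial σ Qbar →ₐ[Qbar] ℂ)
  have hI : I.IsPrime := RingHom.ker_isPrime _
  have key : ∀ l m : ℂ →ₗ[Qbar] Qbar, coefL l A ∈ I ∨ coefL m B ∈ I := by
    intro l m
    apply hI.mem_or_mem
    rw [← hI.radical, ← MvPolynomial.vanishingIdeal_zeroLocus_eq_radical (K := Qbar)]
    intro b hb
    have hbZ : ∀ R : MvPolynomial σ Qbar, MvPolynomial.aeval a R = 0 →
        MvPolynomial.aeval (fun i => (b i : ℂ)) R = 0 := by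
      intro R hR
      have h1 : MvPolynomial.aeval b R = 0 := hb R hR
      have h2 : MvPolynomial.aeval (fun i => (b i : ℂ)) R = algebraMap Qbar ℂ (MvPolynomial.aeval b R) :=
        MvPolynomial.aeval_algebraMap_apply ℂ b R
      rw [h2, h1, map_zero]
    have h1 := hAB (fun i => (b i : ℂ)) hbZ
    have h2 : ((MvPolynomial.aeval b (coefL l A * coefL m B) : Qbar) : ℂ) = 0 := by
      have h3 : ((MvPolynomial.aeval b (coefL l A * coefL m B) : Qbar) : ℂ) =
          MvPolynomial.aeval (fun i => (b i : ℂ)) (coefL l A * coefL m B) :=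
        (MvPolynomial.aeval_algebraMap_apply ℂ b _).symm
      rw [h3, map_mul, ← l_eval, ← l_eval]
      rcases mul_eq_zero.1 h1 with h4 | h4
      · rw [h4, map_zero]
        simp
      · rw [h4, map_zero]
        simp
    exact_mod_cast h2
  by_cases h : ∀ l, coefL l A ∈ I
  · left
    intro c hc
    exact zero_of_coef A c fun l => hc _ (h l)
  · right
    push Not at h
    obtain ⟨l, hl⟩ := h
    intro c hc
    exact zero_of_coef B c fun m => hc _ ((key l m).resolve_left hl)

end point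

section lin
variable {ι : Type} [Fintype ι] [DecidableEq ι]

/-- substitution of the product with a matrix -/
noncomputable def linS (M : Matrix ι ι ℂ) (A : MvPolynomial (ι × ι) ℂ) : MvPolynomial (ι × ι) ℂ :=
  MvPolynomial.bind₁ (fun e : ι × ι => ∑ k, MvPolynomial.C (M e.1 k) * MvPolynomial.X (k, e.2)) A

theorem eval_linS (M Y : Matrix ι ι ℂ) (A : MvPolynomial (ι × ι) ℂ) :
    MvPolynomial.eval (fun e => Y e.1 e.2) (linS M A) = MvPolynomial.eval (fun e => (M * Y) e.1 e.2) A := by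
  unfold linS
  rw [MvPolynomial.eval, MvPolynomial.eval₂Hom_bind₁]
  congr 2
  funext e
  simp only [MvPolynomial.coe_eval₂Hom, MvPolynomial.eval₂_sum, MvPolynomial.eval₂_mul, MvPolynomial.eval₂_C,
    MvPolynomial.eval₂_X, RingHom.id_apply, Matrix.mul_apply]

end lin

theorem few_mono' {X : Type} [Fintype X]
    {E E' : (K : Type) → [Field K] → [NumberField K] → (K →+* ℂ) → ℕ → ℝ → Set (X → K)} (h : Few E)
    (hE : ∀ (K : Type) [Field K] [NumberField K] (io : K →+* ℂ) (k : ℕ) (T : ℝ), 0 < k → E' K io k T ⊆ E K io k T) :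
    Few E' := by
  obtain ⟨ω, T₀, h1, h2, h3⟩ := h
  refine ⟨ω, T₀, h1, h2, fun T hT => ⟨(h3 T hT).1, fun K _ _ hK io => ?_⟩⟩
  obtain ⟨a1, a2, a3⟩ := (h3 T hT).2 K hK io
  have hs := hE K io (ω T) T (h3 T hT).1
  refine ⟨a1.mono le_rfl le_rfl (Set.image_mono hs), a2.subset hs, le_trans ?_ a3⟩
  exact_mod_cast Set.ncard_le_ncard hs a2

end Pool.Agent.Run7.h10.QS
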