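import Pool.Agent.Run7.h10.QS.G1
import Pool.Agent.Y890.SP.Field

/-!
# The norm form of a linear combination of monomials in algebraically independent elements
-/

set_option autoImplicit false
set_option linter.unusedSectionVars false

open Polynomial

namespace Pool.Agent.Run7.h10.QS

open Pool.Agent.Y890.SP (evI)

attribute [local instance] MvPolynomial.algebraMvPolynomial

section comm

variable {A ρ Λ : Type} [CommRing A]

/-- exchange of the variables -/
noncomputable def swp : MvPolynomial Λ (MvPolynomial ρ A) →+* MvPolynomial ρ (MvPolynomial Λ A) :=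
  (MvPolynomial.commAlgEquiv A Λ ρ : _ ≃ₐ[A] _).toRingEquiv.toRingHom

theorem swp_spec {k : Type} [CommRing k] (g : A →+* k) (c : Λ → k) (G : MvPolynomial Λ (MvPolynomial ρ A)) :
    MvPolynomial.eval₂Hom (MvPolynomial.map g) (fun l => MvPolynomial.C (c l)) G =
      MvPolynomial.map (MvPolynomial.eval₂Hom g c) (swp G) := by
  have h : MvPolynomial.eval₂Hom (MvPolynomial.map (σ := ρ) g) (fun l => MvPolynomial.C (c l)) =
      (MvPolynomial.map (MvPolynomial.eval₂Hom g c)).comp swp := by
    apply MvPolynomial.ringHom_ext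
    · intro p
      simp only [MvPolynomial.eval₂Hom_C, RingHom.comp_apply, swp]
      change _ = MvPolynomial.map (MvPolynomial.eval₂Hom g c) (MvPolynomial.commAlgEquiv A Λ ρ (MvPolynomial.C p))
      rw [MvPolynomial.commAlgEquiv_C, MvPolynomial.map_map]
      have h1 : (MvPolynomial.eval₂Hom g c).comp (MvPolynomial.C (σ := Λ)) = g := by
        apply RingHom.ext
        intro a
        simp
      rw [h1]
    · intro l
      simp only [MvPolynomial.eval₂Hom_X', RingHom.comp_apply, swp]
      change _ = MvPolynomial.map (MvPolynomial.eval₂Hom g c) (MvPolynomial.commAlgEquiv A Λ ρ (MvPolynomial.X l))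
      rw [MvPolynomial.commAlgEquiv_X, MvPolynomial.map_C]
      simp
  exact RingHom.congr_fun h G

end comm

/-- From the absence of solutions over the algebraic closure of the fraction field to the absence of solutions at
almost all points. -/
theorem spread {A ρ Λ : Type} [CommRing A] [IsDomain A] [Fintype Λ] (G : MvPolynomial Λ (MvPolynomial ρ A))
    (hG : ∀ (Ω : Type) [Field Ω] [Algebra A Ω] [FaithfulSMul A Ω] [Algebra.IsAlgebraic A Ω] (c : Λ → Ω),
      MvPolynomial.eval₂Hom (MvPolynomial.map (algebraMap A Ω)) (fun l => MvPolynomial.C (c l)) G = 0 → c = 0) :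
    ∃ Δ : A, Δ ≠ 0 ∧ ∀ (k : Type) [CommRing k] [IsDomain k] (g : A →+* k) (c : Λ → k), g Δ ≠ 0 →
      MvPolynomial.eval₂Hom (MvPolynomial.map g) (fun l => MvPolynomial.C (c l)) G = 0 → c = 0 := by
  classical
  let F := FractionRing A
  let Ω := AlgebraicClosure F
  have : FaithfulSMul A Ω := by
    rw [faithfulSMul_iff_algebraMap_injective, IsScalarTower.algebraMap_eq A F Ω]
    exact (algebraMap F Ω).injective.comp (IsFractionRing.injective A F)
  have : Algebra.IsAlgebraic A F := IsFractionRing.comap_isAlgebraic_iff.2 (inferInstance : Algebra.IsAlgebraic F F)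
  have : Algebra.IsAlgebraic A Ω := Algebra.IsAlgebraic.trans A F Ω
  let I : Ideal (MvPolynomial Λ A) := Ideal.span (Set.range fun m => (swp G).coeff m)
  let IF : Ideal (MvPolynomial Λ F) := I.map (algebraMap (MvPolynomial Λ A) (MvPolynomial Λ F))
  have hz : ∀ c ∈ MvPolynomial.zeroLocus Ω IF, c = 0 := by
    intro c hc
    refine hG Ω c ?_
    rw [swp_spec]
    ext m
    rw [MvPolynomial.coeff_map, MvPolynomial.coeff_zero]
    have h1 := hc (algebraMap (MvPolynomial Λ A) (MvPolynomial Λ F) ((swp G).coeff m))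
      (Ideal.mem_map_of_mem _ (Ideal.subset_span ⟨m, rfl⟩))
    rw [MvPolynomial.algebraMap_def, MvPolynomial.aeval_map_algebraMap] at h1
    exact h1
  have hrad : ∀ l, (MvPolynomial.X l : MvPolynomial Λ F) ∈ IF.radical := by
    intro l
    rw [← MvPolynomial.vanishingIdeal_zeroLocus_eq_radical (K := Ω)]
    intro c hc
    rw [hz c hc]
    simp
  have hden : ∀ l, ∃ (Δ : A) (N : ℕ), Δ ≠ 0 ∧ MvPolynomial.C Δ * MvPolynomial.X l ^ N ∈ I := by
    intro l
    obtain ⟨N, hN⟩ := hrad l
    rw [IsLocalization.mem_map_algebraMap_iff ((nonZeroDivisors A).map (MvPolynomial.C (σ := Λ)))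
      (MvPolynomial Λ F)] at hN
    obtain ⟨⟨⟨x, hx⟩, ⟨_, ⟨Δ, hΔ, rfl⟩⟩⟩, h1⟩ := hN
    refine ⟨Δ, N, nonZeroDivisors.ne_zero hΔ, ?_⟩
    have hinj : Function.Injective (algebraMap (MvPolynomial Λ A) (MvPolynomial Λ F)) :=
      MvPolynomial.map_injective _ (IsFractionRing.injective A F)
    have h2 : MvPolynomial.C Δ * MvPolynomial.X l ^ N = x := by
      apply hinj
      rw [← h1, map_mul, mul_comm]
      congr 1
      rw [map_pow, MvPolynomial.algebraMap_def, MvPolynomial.map_X]
    rw [h2]
    exact hx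
  choose Δ N hΔ hmem using hden
  refine ⟨∏ l, Δ l, Finset.prod_ne_zero_iff.2 fun l _ => hΔ l, ?_⟩
  intro k _ _ g c hg hc
  rw [swp_spec] at hc
  have hker : I ≤ RingHom.ker (MvPolynomial.eval₂Hom g c) := by
    refine Ideal.span_le.2 ?_
    rintro _ ⟨m, rfl⟩
    change MvPolynomial.eval₂Hom g c ((swp G).coeff m) = 0
    rw [← MvPolynomial.coeff_map, hc, MvPolynomial.coeff_zero]
  funext l
  have h1 : MvPolynomial.eval₂Hom g c (MvPolynomial.C (Δ l) * MvPolynomial.X l ^ N l) = 0 := hker (hmem l)
  rw [map_mul, map_pow, MvPolynomial.eval₂Hom_C, MvPolynomial.eval₂Hom_X'] at h1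
  have h2 : g (Δ l) ≠ 0 := by
    intro h0
    apply hg
    rw [map_prod]
    exact Finset.prod_eq_zero (Finset.mem_univ l) h0
  have h3 := (mul_eq_zero.1 h1).resolve_left h2
  exact eq_zero_of_pow_eq_zero h3

end Pool.Agent.Run7.h10.QS
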