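import Pool.Agent.Run7.h10.QS.A2

/-!
# The norm form of a linear combination of monomials in algebraically independent elements
-/

set_option autoImplicit false
set_option linter.unusedSectionVars false

open Polynomial

namespace Pool.Agent.Run7.h10.QS

open Pool.Agent.Y890.SP (evI)

attribute [local instance] MvPolynomial.algebraMvPolynomial

/-- The prime ideal argument. -/
theorem norm_zero {A B0 L ρ J Λ : Type} [CommRing A] [IsDomain A] [UniqueFactorizationMonoid A] [CommRing B0]
    [IsDomain B0] [Algebra (MvPolynomial ρ A) B0] [FaithfulSMul (MvPolynomial ρ A) B0]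
    [Algebra.IsIntegral (MvPolynomial ρ A) B0] [Field L] [Algebra B0 L] [IsFractionRing B0 L] [Algebra A L]
    (htow : ∀ a, algebraMap A L a = algebraMap B0 L (algebraMap (MvPolynomial ρ A) B0 (MvPolynomial.C a)))
    [Fintype Λ] (y : J → L)
    (hy : AlgebraicIndependent A y) (lm : Λ → (J →₀ ℕ)) (hlm : Function.Injective lm) (t : Λ → B0)
    (D : MvPolynomial ρ A) (hD : D ≠ 0)
    (ht : ∀ l, algebraMap B0 L (t l) = algebraMap B0 L (algebraMap (MvPolynomial ρ A) B0 D) *
      (lm l).prod fun j n => y j ^ n)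
    (G : MvPolynomial Λ (MvPolynomial ρ A))
    (hG : G = (minpoly (MvPolynomial Λ (MvPolynomial ρ A))
      (∑ l, MvPolynomial.X l * MvPolynomial.C (t l) : MvPolynomial Λ B0)).coeff 0)
    (Ω : Type) [Field Ω] [Algebra A Ω] [FaithfulSMul A Ω] [Algebra.IsAlgebraic A Ω] (c : Λ → Ω)
    (hc : MvPolynomial.eval₂Hom (MvPolynomial.map (algebraMap A Ω)) (fun l => MvPolynomial.C (c l)) G = 0) :
    c = 0 := by
  classical
  have hSB0 : Function.Injective (algebraMap (MvPolynomial ρ A) B0) := FaithfulSMul.algebraMap_injective _ B0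
  have : FaithfulSMul (MvPolynomial Λ (MvPolynomial ρ A)) (MvPolynomial Λ B0) :=
    (faithfulSMul_iff_algebraMap_injective _ _).2 (MvPolynomial.map_injective _ hSB0)
  have hAΩ : Function.Injective (algebraMap A Ω) := FaithfulSMul.algebraMap_injective A Ω
  rw [hG] at hc
  obtain ⟨E, _, _, θ, hθT, -, hθ⟩ := exists_dom _ _ hc
  let θ0 : B0 →+* E := θ.comp MvPolynomial.C
  have hθ0 : ∀ r : MvPolynomial ρ A, θ0 (algebraMap (MvPolynomial ρ A) B0 r) = 0 → r = 0 := by
    intro r hr
    have h1 : θ (algebraMap (MvPolynomial Λ (MvPolynomial ρ A)) (MvPolynomial Λ B0) (MvPolynomial.C r)) = 0 := by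
      rw [MvPolynomial.algebraMap_def, MvPolynomial.map_C]
      exact hr
    rw [hθ, MvPolynomial.eval₂Hom_C] at h1
    exact (map_eq_zero_iff _ (MvPolynomial.map_injective _ hAΩ)).1 h1
  have hker : RingHom.ker θ0 = ⊥ := by
    apply Ideal.eq_bot_of_comap_eq_bot (R := MvPolynomial ρ A)
    rw [eq_bot_iff]
    intro r hr
    exact hθ0 r hr
  have hθ0i : Function.Injective θ0 := (RingHom.injective_iff_ker_eq_bot θ0).2 hker
  let FE := FractionRing E
  have hEFE : Function.Injective (algebraMap E FE) := IsFractionRing.injective E FE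
  let θ1 : B0 →+* FE := (algebraMap E FE).comp θ0
  have hθ1 : Function.Injective θ1 := hEFE.comp hθ0i
  let Φ : L →+* FE := IsFractionRing.lift hθ1
  have hΦ : ∀ b : B0, Φ (algebraMap B0 L b) = θ1 b := fun b => IsFractionRing.lift_algebraMap hθ1 b
  let algA : Algebra A FE := (Φ.comp (algebraMap A L)).toAlgebra
  have hmapA : ∀ a : A, algebraMap A FE a = Φ (algebraMap A L a) := fun a => rfl
  let Φa : L →ₐ[A] FE := { Φ with commutes' := fun a => rfl }
  have hy' : AlgebraicIndependent A (Φa ∘ y) := hy.map' (f := Φa) Φ.injective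
  have hmapA' : ∀ a : A, algebraMap A FE a = algebraMap E FE (θ
      (algebraMap (MvPolynomial Λ (MvPolynomial ρ A)) (MvPolynomial Λ B0) (MvPolynomial.C (MvPolynomial.C a)))) := by
    intro a
    rw [hmapA, htow, hΦ, MvPolynomial.algebraMap_def, MvPolynomial.map_C]
    rfl
  have hy'' : AlgebraicIndependent (Subalgebra.algebraicClosure A FE) (Φa ∘ y) := hy'.subalgebraAlgebraicClosure
  let c' : Λ → FE := fun l => algebraMap E FE (θ (MvPolynomial.X l))
  have hc'a : ∀ l, IsAlgebraic A (c' l) := by
    intro l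
    obtain ⟨p, hp, hp0⟩ := Algebra.IsAlgebraic.isAlgebraic (R := A) (c l)
    refine ⟨p, hp, ?_⟩
    let j : A →+* MvPolynomial Λ (MvPolynomial ρ A) := (MvPolynomial.C).comp MvPolynomial.C
    have h1 : MvPolynomial.eval₂Hom (MvPolynomial.map (σ := ρ) (algebraMap A Ω)) (fun l => MvPolynomial.C (c l))
        (Polynomial.eval₂ j (MvPolynomial.X l) p) = 0 := by
      rw [Polynomial.hom_eval₂]
      have h2 : (MvPolynomial.eval₂Hom (MvPolynomial.map (σ := ρ) (algebraMap A Ω))
          (fun l => MvPolynomial.C (c l))).comp j = (MvPolynomial.C).comp (algebraMap A Ω) := by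
        apply RingHom.ext
        intro a
        simp [j]
      rw [h2, MvPolynomial.eval₂Hom_X', ← Polynomial.hom_eval₂]
      have h4 : Polynomial.eval₂ (algebraMap A Ω) (c l) p = 0 := hp0
      rw [h4, map_zero]
    rw [← hθ] at h1
    have h5 : Polynomial.aeval (c' l) p = algebraMap E FE (θ
        (algebraMap (MvPolynomial Λ (MvPolynomial ρ A)) (MvPolynomial Λ B0)
          (Polynomial.eval₂ j (MvPolynomial.X l) p))) := by
      rw [Polynomial.hom_eval₂, Polynomial.hom_eval₂, Polynomial.hom_eval₂, Polynomial.aeval_def]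
      congr 1
      · apply RingHom.ext
        intro a
        exact hmapA' a
      · rw [MvPolynomial.algebraMap_def, MvPolynomial.map_X]
    rw [h5, h1, map_zero]
  have hsum : ∑ l, c' l * (lm l).prod (fun j n => (Φa ∘ y) j ^ n) = 0 := by
    have h1 : algebraMap E FE (θ (∑ l, MvPolynomial.X l * MvPolynomial.C (t l))) = 0 := by rw [hθT, map_zero]
    have h2 : algebraMap E FE (θ (∑ l, MvPolynomial.X l * MvPolynomial.C (t l))) =
        Φ (algebraMap B0 L (algebraMap (MvPolynomial ρ A) B0 D)) *
          ∑ l, c' l * (lm l).prod (fun j n => (Φa ∘ y) j ^ n) := by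
      rw [map_sum, map_sum, Finset.mul_sum]
      refine Finset.sum_congr rfl fun l _ => ?_
      rw [map_mul, map_mul]
      have h3 : algebraMap E FE (θ (MvPolynomial.C (t l))) = Φ (algebraMap B0 L (t l)) := by
        rw [hΦ]
        rfl
      rw [h3, ht, map_mul]
      have h5 : Φ ((lm l).prod fun j n => y j ^ n) = (lm l).prod (fun j n => (Φa ∘ y) j ^ n) := by
        rw [Finsupp.prod, Finsupp.prod, map_prod]
        refine Finset.prod_congr rfl fun j _ => ?_
        rw [map_pow]
        rfl
      rw [h5]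
      ring
    rw [h2] at h1
    have h6 : Φ (algebraMap B0 L (algebraMap (MvPolynomial ρ A) B0 D)) ≠ 0 := by
      rw [Ne, map_eq_zero, map_eq_zero_iff _ (IsFractionRing.injective B0 L), map_eq_zero_iff _ hSB0]
      exact hD
    exact (mul_eq_zero.1 h1).resolve_left h6
  let c0 : Λ → Subalgebra.algebraicClosure A FE := fun l => ⟨c' l, hc'a l⟩
  let P : MvPolynomial J (Subalgebra.algebraicClosure A FE) := ∑ l, MvPolynomial.monomial (lm l) (c0 l)
  have hP : MvPolynomial.aeval (Φa ∘ y) P = 0 := by
    rw [map_sum, ← hsum]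
    refine Finset.sum_congr rfl fun l _ => ?_
    rw [MvPolynomial.aeval_monomial]
    rfl
  have hP0 : P = 0 := by
    apply hy''
    rw [map_zero]
    exact hP
  have hc0 : ∀ l, c0 l = 0 := by
    intro l
    have h1 := congrArg (MvPolynomial.coeff (lm l)) hP0
    rw [MvPolynomial.coeff_sum, MvPolynomial.coeff_zero, Finset.sum_eq_single l] at h1
    · rw [MvPolynomial.coeff_monomial, if_pos rfl] at h1
      exact h1
    · intro l' _ hl'
      rw [MvPolynomial.coeff_monomial, if_neg fun h => hl' (hlm h)]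
    · intro h
      exact absurd (Finset.mem_univ l) h
  funext l
  have h1 : θ (MvPolynomial.X l) = 0 := by
    apply hEFE
    rw [map_zero]
    exact congrArg Subtype.val (hc0 l)
  have h2 : MvPolynomial.eval₂Hom (MvPolynomial.map (σ := ρ) (algebraMap A Ω)) (fun l => MvPolynomial.C (c l))
      (MvPolynomial.X l) = 0 := by
    rw [← hθ, MvPolynomial.algebraMap_def, MvPolynomial.map_X]
    exact h1
  rw [MvPolynomial.eval₂Hom_X', MvPolynomial.C_eq_zero] at h2
  exact h2

end Pool.Agent.Run7.h10.QS
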