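import Pool.Agent.Run7.h10.QS.A3

/-!
# The norm form of a linear combination of monomials in algebraically independent elements: existence
-/

set_option autoImplicit false
set_option linter.unusedSectionVars false

open Polynomial

namespace Pool.Agent.Run7.h10.QS

open Pool.Agent.Y890.SP (evI)

attribute [local instance] MvPolynomial.algebraMvPolynomial

theorem map_min {S B0 L Λ : Type} [CommRing S] [IsDomain S] [CommRing B0] [IsDomain B0] [Algebra S B0] [Field L]
    [Algebra B0 L] [Fintype Λ] (t : Λ → B0) (φ : S →+* L) (hφ : ∀ s, φ s = algebraMap B0 L (algebraMap S B0 s)) :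
    eval₂ (MvPolynomial.map φ) (∑ l, MvPolynomial.X l * MvPolynomial.C (algebraMap B0 L (t l)) : MvPolynomial Λ L)
      (minpoly (MvPolynomial Λ S) (∑ l, MvPolynomial.X l * MvPolynomial.C (t l) : MvPolynomial Λ B0)) = 0 := by
  set T : MvPolynomial Λ B0 := ∑ l, MvPolynomial.X l * MvPolynomial.C (t l) with hT
  have h1 : Polynomial.eval₂ (algebraMap (MvPolynomial Λ S) (MvPolynomial Λ B0)) T
    (minpoly (MvPolynomial Λ S) T) = 0 := minpoly.aeval _ T
  have h2 := congrArg (MvPolynomial.map (σ := Λ) (algebraMap B0 L)) h1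
  rw [map_zero, Polynomial.hom_eval₂] at h2
  rw [← h2]
  congr 1
  · apply MvPolynomial.ringHom_ext
    · intro p
      simp only [RingHom.comp_apply, MvPolynomial.map_C]
      rw [MvPolynomial.algebraMap_def, MvPolynomial.map_C, MvPolynomial.map_C, hφ]
    · intro l
      simp only [RingHom.comp_apply, MvPolynomial.map_X]
      rw [MvPolynomial.algebraMap_def, MvPolynomial.map_X, MvPolynomial.map_X]
  · rw [hT, map_sum]
    refine Finset.sum_congr rfl fun l _ => ?_
    rw [map_mul, MvPolynomial.map_X, MvPolynomial.map_C]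

theorem normForm {A L ρ J Λ : Type} [CommRing A] [IsDomain A] [UniqueFactorizationMonoid A] [Field L] [Algebra A L]
    [FaithfulSMul A L] [Fintype Λ] (v : ρ → L) (hv : IsTranscendenceBasis A v) (y : J → L)
    (hy : AlgebraicIndependent A y) (lm : Λ → (J →₀ ℕ)) (hlm : Function.Injective lm) :
    ∃ (D : MvPolynomial ρ A) (q : Polynomial (MvPolynomial Λ (MvPolynomial ρ A))),
      eval₂ (MvPolynomial.map (evI v))
        (∑ l, MvPolynomial.X l * MvPolynomial.C (evI v D * (lm l).prod fun j n => y j ^ n) : MvPolynomial Λ L) q = 0 ∧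
      ∃ Δ : A, Δ ≠ 0 ∧ ∀ (k : Type) [CommRing k] [IsDomain k] (g : A →+* k) (c : Λ → k), g Δ ≠ 0 →
        MvPolynomial.eval₂Hom (MvPolynomial.map g) (fun l => MvPolynomial.C (c l)) (q.coeff 0) = 0 → c = 0 := by
  classical
  let algS : Algebra (MvPolynomial ρ A) L := (evI v).toAlgebra
  have hmapS : ∀ p : MvPolynomial ρ A, algebraMap (MvPolynomial ρ A) L p = evI v p := fun p => rfl
  have hSinj : Function.Injective (algebraMap (MvPolynomial ρ A) L) := hv.1
  have : FaithfulSMul (MvPolynomial ρ A) L := (faithfulSMul_iff_algebraMap_injective _ L).2 hSinj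
  have htower : IsScalarTower A (MvPolynomial ρ A) L := IsScalarTower.of_algebraMap_eq fun a => by
    rw [hmapS]
    exact (MvPolynomial.aeval_C v a).symm
  -- algebraic
  have halg1 : Algebra.IsAlgebraic (MvPolynomial ρ A) L := by
    have h1 := hv.isAlgebraic
    refine ⟨fun l => ?_⟩
    have h2 : IsAlgebraic (Algebra.adjoin A (Set.range v)) l := h1.isAlgebraic l
    exact h2.ringHom_of_comp_eq (hv.1.aevalEquiv.symm : _ →+* MvPolynomial ρ A) (RingHom.id L)
      (hv.1.aevalEquiv.symm.injective) (by
        ext y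
        obtain ⟨z, rfl⟩ := hv.1.aevalEquiv.surjective y
        simp only [RingHom.comp_apply]
        change algebraMap (MvPolynomial ρ A) L (hv.1.aevalEquiv.symm (hv.1.aevalEquiv z)) = _
        rw [AlgEquiv.symm_apply_apply, hmapS]
        exact (hv.1.algebraMap_aevalEquiv z).symm)
  have hmul : ∀ l : Λ, ∃ b : MvPolynomial ρ A, b ≠ 0 ∧
      IsIntegral (MvPolynomial ρ A) (algebraMap (MvPolynomial ρ A) L b * (lm l).prod fun j n => y j ^ n) := by
    intro l
    obtain ⟨b, hb, hb'⟩ := (halg1.isAlgebraic ((lm l).prod fun j n => y j ^ n)).exists_integral_multiple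
    refine ⟨b, hb, ?_⟩
    rw [← Algebra.smul_def]
    exact hb'
  choose b hb hbi using hmul
  obtain ⟨D, hD⟩ : ∃ D, D = ∏ l, b l := ⟨_, rfl⟩
  have hDi : ∀ l, IsIntegral (MvPolynomial ρ A)
      (algebraMap (MvPolynomial ρ A) L D * (lm l).prod fun j n => y j ^ n) := by
    intro l
    have h1 : D = (∏ k ∈ Finset.univ.erase l, b k) * b l := by
      rw [hD, mul_comm]
      exact (Finset.mul_prod_erase _ _ (Finset.mem_univ l)).symm
    rw [h1, map_mul, mul_assoc]
    exact isIntegral_algebraMap.mul (hbi l)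
  have hD0 : D ≠ 0 := by
    rw [hD]
    exact Finset.prod_ne_zero_iff.2 fun l _ => hb l
  have hfr : IsFractionRing (integralClosure (MvPolynomial ρ A) L) L :=
    integralClosure.isFractionRing_of_algebraic (fun x hx => by
      rw [← map_zero (algebraMap (MvPolynomial ρ A) L)] at hx
      exact hSinj hx)
  let t : Λ → integralClosure (MvPolynomial ρ A) L := fun l => ⟨_, hDi l⟩
  have ht : ∀ l, algebraMap (integralClosure (MvPolynomial ρ A) L) L (t l) =
      evI v D * (lm l).prod fun j n => y j ^ n := fun l => rfl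
  refine ⟨D, minpoly (MvPolynomial Λ (MvPolynomial ρ A)) (∑ l, MvPolynomial.X l * MvPolynomial.C (t l) :
    MvPolynomial Λ (integralClosure (MvPolynomial ρ A) L)), ?_, ?_⟩
  · have h1 := map_min (S := MvPolynomial ρ A) (B0 := integralClosure (MvPolynomial ρ A) L) (L := L) (Λ := Λ) t
      (evI v) (fun s => rfl)
    simp only [ht] at h1
    exact h1
  · apply spread
    intro Ω _ _ _ _ c hc
    exact norm_zero (B0 := integralClosure (MvPolynomial ρ A) L) (L := L) (fun a => (MvPolynomial.aeval_C v a).symm)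
      y hy lm hlm t D hD0 (fun l => rfl) _ rfl Ω c hc

end Pool.Agent.Run7.h10.QS
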