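import Pool.Agent.Run7.h10.QS.A4
import Pool.Agent.N207.GS.Comp

/-!
# Transcendence bases of the constants
-/

set_option autoImplicit false
set_option linter.unusedSectionVars false

namespace Pool.Agent.Run7.h10.QS

attribute [local instance] MvPolynomial.algebraMvPolynomial

theorem swp_inj {A ρ Λ : Type} [CommRing A] : Function.Injective (swp : MvPolynomial Λ (MvPolynomial ρ A) →+* _) :=
  (MvPolynomial.commAlgEquiv A Λ ρ).injective

/-- A transcendence basis of `ℂ` over `k` is one of `ℂ[X]` over `k[X]`. -/
theorem basisX {k X Cι : Type} [Field k] [Algebra k ℂ] (b : Cι → ℂ) (hb : IsTranscendenceBasis k b) :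
    IsTranscendenceBasis (MvPolynomial X k) (fun c => MvPolynomial.C (b c) : Cι → MvPolynomial X ℂ) := by
  have hmap : ∀ a : k, algebraMap (MvPolynomial X k) (MvPolynomial X ℂ) (MvPolynomial.C a) =
      MvPolynomial.C (algebraMap k ℂ a) := by
    intro a
    rw [MvPolynomial.algebraMap_def, MvPolynomial.map_C]
  rw [isTranscendenceBasis_iff_algebraicIndependent_isAlgebraic]
  constructor
  · intro p p' h
    apply swp_inj
    have hinj : Function.Injective (MvPolynomial.map (σ := X) (MvPolynomial.eval₂Hom (algebraMap k ℂ) b)) :=
      MvPolynomial.map_injective _ hb.1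
    apply hinj
    rw [← swp_spec, ← swp_spec]
    exact h
  · refine ⟨fun p => ?_⟩
    have hA : ∀ a : k, ∃ x : Algebra.adjoin (MvPolynomial X k)
        (Set.range (fun c => MvPolynomial.C (b c) : Cι → MvPolynomial X ℂ)),
        (x : MvPolynomial X ℂ) = MvPolynomial.C (algebraMap k ℂ a) := by
      intro a
      exact ⟨algebraMap (MvPolynomial X k) _ (MvPolynomial.C a), (hmap a)⟩
    have hmem : ∀ x ∈ Algebra.adjoin k (Set.range b), (MvPolynomial.C x : MvPolynomial X ℂ) ∈
        Algebra.adjoin (MvPolynomial X k) (Set.range (fun c => MvPolynomial.C (b c) : Cι → MvPolynomial X ℂ)) := by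
      intro x hx
      induction hx using Algebra.adjoin_induction with
      | mem x hx =>
        obtain ⟨c, rfl⟩ := hx
        exact Algebra.subset_adjoin ⟨c, rfl⟩
      | algebraMap a =>
        obtain ⟨x, hx⟩ := hA a
        rw [← hx]
        exact x.2
      | add x y _ _ h1 h2 =>
        rw [map_add]
        exact Subalgebra.add_mem _ h1 h2
      | mul x y _ _ h1 h2 =>
        rw [map_mul]
        exact Subalgebra.mul_mem _ h1 h2
    let f : Algebra.adjoin k (Set.range b) →+* Algebra.adjoin (MvPolynomial X k)
        (Set.range (fun c => MvPolynomial.C (b c) : Cι → MvPolynomial X ℂ)) :=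
      RingHom.codRestrict ((MvPolynomial.C (σ := X)).comp (Algebra.adjoin k (Set.range b)).val.toRingHom)
        _ (fun x => hmem _ x.2)
    have hf : Function.Injective f := by
      intro x y hxy
      apply Subtype.ext
      apply MvPolynomial.C_injective X ℂ
      exact congrArg Subtype.val hxy
    have halg := hb.isAlgebraic
    induction p using MvPolynomial.induction_on with
    | C a =>
      exact (halg.isAlgebraic a).ringHom_of_comp_eq f (MvPolynomial.C (σ := X)) hf rfl
    | add p q hp hq => exact hp.add hq
    | mul_X p i hp =>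
      refine hp.mul ?_
      have h1 : (MvPolynomial.X i : MvPolynomial X ℂ) = algebraMap (Algebra.adjoin (MvPolynomial X k)
          (Set.range (fun c => MvPolynomial.C (b c) : Cι → MvPolynomial X ℂ))) (MvPolynomial X ℂ)
            (algebraMap (MvPolynomial X k) _ (MvPolynomial.X i)) := by
        change _ = algebraMap (MvPolynomial X k) (MvPolynomial X ℂ) (MvPolynomial.X i)
        rw [MvPolynomial.algebraMap_def, MvPolynomial.map_X]
      rw [h1]
      exact isAlgebraic_algebraMap _

/-- the constants and the variables are independent -/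
theorem chi_inj {k t Cι : Type} [Field k] [Algebra k ℂ] (b : Cι → ℂ) (hb : AlgebraicIndependent k b) :
    Function.Injective (MvPolynomial.eval₂Hom ((MvPolynomial.C (σ := t)).comp (algebraMap k ℂ))
      (Sum.elim MvPolynomial.X fun c => MvPolynomial.C (b c))) := by
  have h1 : AlgebraicIndependent k (Sum.elim (MvPolynomial.X : t → MvPolynomial t ℂ)
      (algebraMap ℂ (MvPolynomial t ℂ) ∘ b)) :=
    hb.sumElim_comp (MvPolynomial.algebraicIndependent_X t ℂ)
  exact h1

end Pool.Agent.Run7.h10.QS
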