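import Pool.Agent.Run7.h10.QS.B1

/-!
# The norm of a polynomial over `k` in functions independent over `k[X]`
-/

set_option autoImplicit false
set_option linter.unusedSectionVars false

open NumberField

namespace Pool.Agent.Run7.h10.QS

open Pool.Agent.Y890.MV Pool.Agent.Y890.SP
open Pool.Agent.N207.GS

attribute [local instance] MvPolynomial.algebraMvPolynomial

/-- coefficients in `k` as complex coefficients -/
noncomputable def mC (k X : Type) [Field k] [Algebra k ℂ] : MvPolynomial X k →+* MvPolynomial X ℂ :=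
  MvPolynomial.map (algebraMap k ℂ)

theorem mC_inj (k X : Type) [Field k] [Algebra k ℂ] : Function.Injective (mC k X) :=
  MvPolynomial.map_injective _ (algebraMap k ℂ).injective

section algebra

variable {k X J Λ I Cι : Type} [Field k] [Algebra k ℂ]

/-- the coordinates and the constants -/
noncomputable def tau (ι : I → J) (b : Cι → ℂ) :
    MvPolynomial (I ⊕ Cι) (MvPolynomial X k) →+* MvPolynomial J (MvPolynomial X ℂ) :=
  MvPolynomial.eval₂Hom ((MvPolynomial.C).comp (mC k X))
    (Sum.elim (fun i => MvPolynomial.X (ι i)) fun c => MvPolynomial.C (MvPolynomial.C (b c)))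

/-- the coordinates and the constants, with room for the parameters -/
noncomputable def phi (b : Cι → ℂ) :
    MvPolynomial (I ⊕ Cι) (MvPolynomial X k) →+* MvPolynomial I (MvPolynomial Λ (MvPolynomial X ℂ)) :=
  MvPolynomial.eval₂Hom ((MvPolynomial.C).comp ((MvPolynomial.C).comp (mC k X)))
    (Sum.elim MvPolynomial.X fun c => MvPolynomial.C (MvPolynomial.C (MvPolynomial.C (b c))))

theorem tau_aeval {L : Type} [Field L] [Algebra (MvPolynomial X ℂ) L] [Algebra (MvPolynomial X k) L]
    (htow : ∀ a : MvPolynomial X k, algebraMap (MvPolynomial X k) L a = algebraMap (MvPolynomial X ℂ) L (mC k X a))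
    (F : J → L) (ι : I → J) (b : Cι → ℂ) :
    ((MvPolynomial.aeval F : MvPolynomial J (MvPolynomial X ℂ) →ₐ[MvPolynomial X ℂ] L).toRingHom).comp
      (tau (k := k) (X := X) ι b) =
      evI (A := MvPolynomial X k) (Sum.elim (F ∘ ι) (algebraMap (MvPolynomial X ℂ) L ∘ fun c => MvPolynomial.C (b c))) := by
  apply MvPolynomial.ringHom_ext
  · intro a
    change MvPolynomial.aeval F (tau ι b (MvPolynomial.C a)) = MvPolynomial.aeval _ (MvPolynomial.C a)
    rw [tau, MvPolynomial.eval₂Hom_C, MvPolynomial.aeval_C, htow]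
    exact MvPolynomial.aeval_C F _
  · rintro (i | c)
    · change MvPolynomial.aeval F (tau ι b (MvPolynomial.X (Sum.inl i))) = MvPolynomial.aeval _ (MvPolynomial.X _)
      rw [tau, MvPolynomial.eval₂Hom_X', MvPolynomial.aeval_X, Sum.elim_inl, Sum.elim_inl, MvPolynomial.aeval_X]
      rfl
    · change MvPolynomial.aeval F (tau ι b (MvPolynomial.X (Sum.inr c))) = MvPolynomial.aeval _ (MvPolynomial.X _)
      rw [tau, MvPolynomial.eval₂Hom_X', MvPolynomial.aeval_X, Sum.elim_inr, Sum.elim_inr]
      exact MvPolynomial.aeval_C F _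

/-- evaluation of coefficients commutes with the passage to the complex numbers -/
theorem ev_mC (s : X → k) (c : Λ → k) :
    (MvPolynomial.eval₂Hom (MvPolynomial.eval fun i => algebraMap k ℂ (s i)) fun l => algebraMap k ℂ (c l)).comp
      (MvPolynomial.map (mC k X)) = (algebraMap k ℂ).comp (MvPolynomial.eval₂Hom (MvPolynomial.eval s) c) := by
  apply MvPolynomial.ringHom_ext
  · intro a
    simp only [RingHom.comp_apply, MvPolynomial.map_C, MvPolynomial.eval₂Hom_C, mC]
    rw [MvPolynomial.eval_map]
    exact (MvPolynomial.eval₂_comp_left (algebraMap k ℂ) (RingHom.id k) s a).symm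
  · intro l
    simp only [RingHom.comp_apply, MvPolynomial.map_X, MvPolynomial.eval₂Hom_X']

theorem ev_mC0 (s : X → k) (a : MvPolynomial X k) :
    MvPolynomial.eval (fun i => algebraMap k ℂ (s i)) (mC k X a) = algebraMap k ℂ (MvPolynomial.eval s a) := by
  rw [mC, MvPolynomial.eval_map]
  exact (MvPolynomial.eval₂_comp_left (algebraMap k ℂ) (RingHom.id k) s a).symm

/-- The specialization of the norm. -/
theorem spc_norm {M : Type} (b : Cι → ℂ) (co : M → MvPolynomial Λ (MvPolynomial X k)) (s : X → k) (c : Λ → k)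
    (q : MvPolynomial M (MvPolynomial (I ⊕ Cι) (MvPolynomial X k))) :
    spc (MvPolynomial.eval₂Hom (phi b) (fun m => MvPolynomial.C (MvPolynomial.map (mC k X) (co m))) q)
      (fun i => algebraMap k ℂ (s i)) (fun l => algebraMap k ℂ (c l)) =
    MvPolynomial.eval₂Hom ((MvPolynomial.C (σ := I)).comp (algebraMap k ℂ))
      (Sum.elim MvPolynomial.X fun c => MvPolynomial.C (b c))
      (MvPolynomial.eval₂Hom (MvPolynomial.map (MvPolynomial.eval s))
        (fun m => MvPolynomial.C (MvPolynomial.eval₂Hom (MvPolynomial.eval s) c (co m))) q) := by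
  have h : (MvPolynomial.map (MvPolynomial.eval₂Hom (MvPolynomial.eval fun i => algebraMap k ℂ (s i))
        fun l => algebraMap k ℂ (c l))).comp
      (MvPolynomial.eval₂Hom (phi (I := I) b) (fun m => MvPolynomial.C (MvPolynomial.map (mC k X) (co m)))) =
    (MvPolynomial.eval₂Hom ((MvPolynomial.C (σ := I)).comp (algebraMap k ℂ))
      (Sum.elim MvPolynomial.X fun c => MvPolynomial.C (b c))).comp
      (MvPolynomial.eval₂Hom (MvPolynomial.map (MvPolynomial.eval s))
        (fun m => MvPolynomial.C (MvPolynomial.eval₂Hom (MvPolynomial.eval s) c (co m)))) := by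
    apply MvPolynomial.ringHom_ext
    · intro p
      simp only [RingHom.comp_apply, MvPolynomial.eval₂Hom_C]
      have h2 : (MvPolynomial.map (MvPolynomial.eval₂Hom (MvPolynomial.eval fun i => algebraMap k ℂ (s i))
          fun l => algebraMap k ℂ (c l))).comp (phi (I := I) (Λ := Λ) b) =
          (MvPolynomial.eval₂Hom ((MvPolynomial.C (σ := I)).comp (algebraMap k ℂ))
            (Sum.elim MvPolynomial.X fun c => MvPolynomial.C (b c))).comp
            (MvPolynomial.map (MvPolynomial.eval s)) := by
        apply MvPolynomial.ringHom_ext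
        · intro a
          simp only [RingHom.comp_apply, phi, MvPolynomial.eval₂Hom_C, MvPolynomial.map_C, ev_mC0]
        · rintro (i | c')
          · simp only [RingHom.comp_apply, phi, MvPolynomial.eval₂Hom_X', Sum.elim_inl, MvPolynomial.map_X]
          · simp only [RingHom.comp_apply, phi, MvPolynomial.eval₂Hom_X', Sum.elim_inr, MvPolynomial.map_X,
              MvPolynomial.map_C, MvPolynomial.eval₂Hom_C, MvPolynomial.eval_C]
      exact RingHom.congr_fun h2 p
    · intro m
      simp only [RingHom.comp_apply, MvPolynomial.eval₂Hom_X', MvPolynomial.map_C, MvPolynomial.eval₂Hom_C]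
      congr 1
      exact RingHom.congr_fun (ev_mC s c) (co m)
  exact RingHom.congr_fun h q

/-- The value of the norm. -/
theorem eval_norm {M : Type} (ι : I → J) (b : Cι → ℂ) (co : M → MvPolynomial Λ (MvPolynomial X k)) (s : X → k)
    (c : Λ → k) (a : J → ℂ) (q : MvPolynomial M (MvPolynomial (I ⊕ Cι) (MvPolynomial X k))) :
    MvPolynomial.eval (a ∘ ι)
      (spc (MvPolynomial.eval₂Hom (phi b) (fun m => MvPolynomial.C (MvPolynomial.map (mC k X) (co m))) q)
      (fun i => algebraMap k ℂ (s i)) (fun l => algebraMap k ℂ (c l))) =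
    ((MvPolynomial.eval fun m => algebraMap k ℂ (MvPolynomial.eval₂Hom (MvPolynomial.eval s) c (co m))).comp
      ((MvPolynomial.map (MvPolynomial.eval₂Hom (MvPolynomial.eval fun i => algebraMap k ℂ (s i)) a)).comp
        (MvPolynomial.map (tau (k := k) (X := X) ι b)))) q := by
  have h : ((MvPolynomial.eval (a ∘ ι)).comp (MvPolynomial.map (MvPolynomial.eval₂Hom
        (MvPolynomial.eval fun i => algebraMap k ℂ (s i)) fun l => algebraMap k ℂ (c l)))).comp
      (MvPolynomial.eval₂Hom (phi (I := I) b) (fun m => MvPolynomial.C (MvPolynomial.map (mC k X) (co m)))) =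
    ((MvPolynomial.eval fun m => algebraMap k ℂ (MvPolynomial.eval₂Hom (MvPolynomial.eval s) c (co m))).comp
      ((MvPolynomial.map (MvPolynomial.eval₂Hom (MvPolynomial.eval fun i => algebraMap k ℂ (s i)) a)).comp
        (MvPolynomial.map (tau (k := k) (X := X) ι b)))) := by
    apply MvPolynomial.ringHom_ext
    · intro p
      simp only [RingHom.comp_apply, MvPolynomial.eval₂Hom_C, MvPolynomial.map_C, MvPolynomial.eval_C]
      have h2 : ((MvPolynomial.eval (a ∘ ι)).comp (MvPolynomial.map (MvPolynomial.eval₂Hom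
          (MvPolynomial.eval fun i => algebraMap k ℂ (s i)) fun l => algebraMap k ℂ (c l)))).comp
            (phi (I := I) (Λ := Λ) b) =
          (MvPolynomial.eval₂Hom (MvPolynomial.eval fun i => algebraMap k ℂ (s i)) a).comp (tau (k := k) (X := X) ι b) := by
        apply MvPolynomial.ringHom_ext
        · intro a
          simp only [RingHom.comp_apply, phi, tau, MvPolynomial.eval₂Hom_C, MvPolynomial.map_C, MvPolynomial.eval_C]
        · rintro (i | c')
          · simp only [RingHom.comp_apply, phi, tau, MvPolynomial.eval₂Hom_X', Sum.elim_inl, MvPolynomial.map_X,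
              MvPolynomial.eval_X]
            rfl
          · simp only [RingHom.comp_apply, phi, tau, MvPolynomial.eval₂Hom_X', Sum.elim_inr,
              MvPolynomial.map_C, MvPolynomial.eval₂Hom_C, MvPolynomial.eval_C]
      exact RingHom.congr_fun h2 p
    · intro m
      simp only [RingHom.comp_apply, MvPolynomial.eval₂Hom_X', MvPolynomial.map_C, MvPolynomial.eval_C,
        MvPolynomial.map_X, MvPolynomial.eval_X]
      exact RingHom.congr_fun (ev_mC s c) (co m)
  exact RingHom.congr_fun h q

end algebra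

/-- **The norm.** -/
theorem normQ {k X J Λ L : Type} [Field k] [Algebra k ℂ] [Fintype J] [DecidableEq J] [Field L]
    [Algebra (MvPolynomial X ℂ) L] [FaithfulSMul (MvPolynomial X ℂ) L]
    (𝒢 : MvPolynomial J (MvPolynomial Λ (MvPolynomial X k))) (F : J → L)
    (hfrac : ∀ l : L, ∃ p q : MvPolynomial J (MvPolynomial X ℂ), MvPolynomial.aeval F q ≠ 0 ∧
      MvPolynomial.aeval F q * l = MvPolynomial.aeval F p)
    (hind : ∀ p : MvPolynomial J (MvPolynomial X k), MvPolynomial.aeval F (MvPolynomial.map (mC k X) p) = 0 → p = 0) :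
    ∃ (I : Type) (_ : Fintype I) (_ : DecidableEq I) (ι : I → J)
      (𝒢' : MvPolynomial I (MvPolynomial Λ (MvPolynomial X ℂ))) (Δ : MvPolynomial X k),
      AlgebraicIndependent (MvPolynomial X ℂ) (F ∘ ι) ∧ Δ ≠ 0 ∧
      (∀ (s : X → k) (c : Λ → k), MvPolynomial.eval s Δ ≠ 0 →
        spc 𝒢' (fun i => algebraMap k ℂ (s i)) (fun l => algebraMap k ℂ (c l)) = 0 →
        spc (MvPolynomial.map (MvPolynomial.map (mC k X)) 𝒢) (fun i => algebraMap k ℂ (s i))
          (fun l => algebraMap k ℂ (c l)) = 0) ∧
      ∀ (s : X → k) (c : Λ → k) (a : J → ℂ), (∀ p : MvPolynomial J (MvPolynomial X ℂ), MvPolynomial.aeval F p = 0 →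
          evX (fun i => algebraMap k ℂ (s i)) a p = 0) →
        MvPolynomial.eval a (spc (MvPolynomial.map (MvPolynomial.map (mC k X)) 𝒢) (fun i => algebraMap k ℂ (s i))
          (fun l => algebraMap k ℂ (c l))) = 0 →
        MvPolynomial.eval (a ∘ ι) (spc 𝒢' (fun i => algebraMap k ℂ (s i)) (fun l => algebraMap k ℂ (c l))) = 0 := by
  classical
  -- the transcendence basis over `ℂ[X]`
  have halg0 : Algebra.IsAlgebraic (Algebra.adjoin (MvPolynomial X ℂ) (Set.range F)) L := by
    refine ⟨fun l => ?_⟩
    obtain ⟨p, q, hq, hl⟩ := hfrac l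
    have hmem : ∀ p : MvPolynomial J (MvPolynomial X ℂ),
        MvPolynomial.aeval F p ∈ Algebra.adjoin (MvPolynomial X ℂ) (Set.range F) := by
      intro p
      rw [Algebra.adjoin_range_eq_range_aeval]
      exact ⟨p, rfl⟩
    refine ⟨Polynomial.C ⟨_, hmem q⟩ * Polynomial.X - Polynomial.C ⟨_, hmem p⟩, ?_, ?_⟩
    · intro h
      have h1 := congrArg (fun r => Polynomial.coeff r 1) h
      simp only [Polynomial.coeff_sub, Polynomial.coeff_C_mul, Polynomial.coeff_X_one, mul_one,
        Polynomial.coeff_C_succ, sub_zero, Polynomial.coeff_zero] at h1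
      exact hq (congrArg Subtype.val h1)
    · rw [map_sub, map_mul, Polynomial.aeval_C, Polynomial.aeval_X, Polynomial.aeval_C, sub_eq_zero]
      exact hl
  obtain ⟨t, ht, htb⟩ := exists_isTranscendenceBasis_subset (R := MvPolynomial X ℂ) (Set.range F)
  have hfinI : Finite t := (Set.finite_range F).subset ht
  let finI : Fintype t := Fintype.ofFinite t
  choose ι hι using fun x : t => ht x.2
  have hFι : F ∘ ι = ((↑) : t → L) := funext hι
  rw [← hFι] at htb
  -- the constants
  have hkC : FaithfulSMul k ℂ := (faithfulSMul_iff_algebraMap_injective k ℂ).2 (algebraMap k ℂ).injective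
  obtain ⟨Cι, b, hb⟩ := exists_isTranscendenceBasis' k ℂ
  have hbX := basisX (X := X) b hb
  let algA : Algebra (MvPolynomial X k) L := ((algebraMap (MvPolynomial X ℂ) L).comp (mC k X)).toAlgebra
  have htow : IsScalarTower (MvPolynomial X k) (MvPolynomial X ℂ) L := IsScalarTower.of_algebraMap_eq fun a => rfl
  have htow' : ∀ a : MvPolynomial X k, algebraMap (MvPolynomial X k) L a =
      algebraMap (MvPolynomial X ℂ) L (mC k X a) := fun a => rfl
  have hfaith : FaithfulSMul (MvPolynomial X k) L := (faithfulSMul_iff_algebraMap_injective _ L).2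
    ((FaithfulSMul.algebraMap_injective (MvPolynomial X ℂ) L).comp (mC_inj k X))
  have hv := hbX.sumElim_comp htb
  have hFi : AlgebraicIndependent (MvPolynomial X k) F := by
    rw [AlgebraicIndependent, injective_iff_map_eq_zero]
    intro p hp
    apply hind
    rw [← hp]
    exact MvPolynomial.aeval_map_algebraMap (MvPolynomial X ℂ) F p
  obtain ⟨D, q, hq, Δ, hΔ, hsp⟩ := normForm _ hv F hFi (fun m : 𝒢.support => (m : J →₀ ℕ)) Subtype.val_injective
  refine ⟨t, finI, inferInstance, ι, MvPolynomial.eval₂Hom (phi b)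
    (fun m : 𝒢.support => MvPolynomial.C (MvPolynomial.map (mC k X) (𝒢.coeff m))) (q.coeff 0), Δ, htb.1, hΔ, ?_, ?_⟩
  · intro s c hs h0
    rw [spc_norm] at h0
    have h1 := (map_eq_zero_iff _ (chi_inj b hb.1)).1 h0
    have h2 := hsp k (MvPolynomial.eval s) _ hs h1
    ext m
    rw [MvPolynomial.coeff_zero, spc, MvPolynomial.map_map, MvPolynomial.coeff_map, ev_mC]
    by_cases hm : m ∈ 𝒢.support
    · have h3 := congrFun h2 ⟨m, hm⟩
      simp only [Pi.zero_apply] at h3
      rw [RingHom.comp_apply, h3, map_zero]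
    · rw [MvPolynomial.notMem_support_iff.1 hm, map_zero]
  · intro s c a ha h0
    rw [eval_norm]
    set H : MvPolynomial 𝒢.support (MvPolynomial J (MvPolynomial X ℂ)) :=
      Polynomial.eval₂ (MvPolynomial.map (tau (k := k) (X := X) ι b)) (∑ m : 𝒢.support, MvPolynomial.X m *
        MvPolynomial.C (tau ι b D * (m : J →₀ ℕ).prod fun j n => MvPolynomial.X j ^ n)) q with hH
    let aF : MvPolynomial J (MvPolynomial X ℂ) →+* L :=
      (MvPolynomial.aeval F : MvPolynomial J (MvPolynomial X ℂ) →ₐ[MvPolynomial X ℂ] L).toRingHom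
    have haF : aF.comp (tau (k := k) (X := X) ι b) = evI (A := MvPolynomial X k)
      (Sum.elim (F ∘ ι) (algebraMap (MvPolynomial X ℂ) L ∘ fun c => MvPolynomial.C (b c))) := tau_aeval htow' F ι b
    have h1 : MvPolynomial.map aF H = 0 := by
      rw [hH, Polynomial.hom_eval₂]
      have h2 : (MvPolynomial.map (σ := 𝒢.support) aF).comp (MvPolynomial.map (tau (k := k) (X := X) ι b)) =
          MvPolynomial.map (aF.comp (tau (k := k) (X := X) ι b)) := by
        apply RingHom.ext
        intro p
        rw [RingHom.comp_apply, MvPolynomial.map_map]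
      rw [h2, haF, ← hq]
      congr 1
      rw [map_sum]
      refine Finset.sum_congr rfl fun m _ => ?_
      rw [map_mul, MvPolynomial.map_X, MvPolynomial.map_C, map_mul, ← haF, RingHom.comp_apply]
      congr 3
      rw [Finsupp.prod, Finsupp.prod, map_prod]
      refine Finset.prod_congr rfl fun j _ => ?_
      rw [map_pow]
      congr 1
      exact MvPolynomial.aeval_X F j
    let eX : MvPolynomial J (MvPolynomial X ℂ) →+* ℂ :=
      MvPolynomial.eval₂Hom (MvPolynomial.eval fun i => algebraMap k ℂ (s i)) a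
    have h2 : MvPolynomial.map eX H = 0 := by
      ext ν
      rw [MvPolynomial.coeff_map, MvPolynomial.coeff_zero]
      apply ha
      have h3 := congrArg (MvPolynomial.coeff ν) h1
      rw [MvPolynomial.coeff_map, MvPolynomial.coeff_zero] at h3
      exact h3
    have h3 := congrArg (MvPolynomial.eval fun m : 𝒢.support => algebraMap k ℂ
      (MvPolynomial.eval₂Hom (MvPolynomial.eval s) c (𝒢.coeff m))) h2
    rw [map_zero, hH, Polynomial.hom_eval₂, Polynomial.hom_eval₂] at h3
    have h4 : MvPolynomial.eval (fun m : 𝒢.support => algebraMap k ℂ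
        (MvPolynomial.eval₂Hom (MvPolynomial.eval s) c (𝒢.coeff m))) (MvPolynomial.map eX
        (∑ m : 𝒢.support, MvPolynomial.X m *
        MvPolynomial.C (tau ι b D * (m : J →₀ ℕ).prod fun j n => MvPolynomial.X j ^ n))) = 0 := by
      have h5 : MvPolynomial.eval a (spc (MvPolynomial.map (MvPolynomial.map (mC k X)) 𝒢)
          (fun i => algebraMap k ℂ (s i)) (fun l => algebraMap k ℂ (c l))) =
          ∑ m : 𝒢.support, algebraMap k ℂ (MvPolynomial.eval₂Hom (MvPolynomial.eval s) c (𝒢.coeff m)) *
            ∏ j ∈ (m : J →₀ ℕ).support, a j ^ ((m : J →₀ ℕ) j) := by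
        rw [spc, MvPolynomial.map_map, ev_mC, MvPolynomial.eval_map, MvPolynomial.eval₂_eq]
        rw [← Finset.sum_coe_sort 𝒢.support]
        rfl
      rw [map_sum, map_sum]
      have h6 : ∀ m : 𝒢.support, MvPolynomial.eval (fun m : 𝒢.support => algebraMap k ℂ
        (MvPolynomial.eval₂Hom (MvPolynomial.eval s) c (𝒢.coeff m))) (MvPolynomial.map eX (MvPolynomial.X m *
        MvPolynomial.C (tau ι b D * (m : J →₀ ℕ).prod fun j n => MvPolynomial.X j ^ n))) =
          eX (tau ι b D) * (algebraMap k ℂ (MvPolynomial.eval₂Hom (MvPolynomial.eval s) c (𝒢.coeff m)) *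
            ∏ j ∈ (m : J →₀ ℕ).support, a j ^ ((m : J →₀ ℕ) j)) := by
        intro m
        rw [map_mul, map_mul, MvPolynomial.map_X, MvPolynomial.map_C, MvPolynomial.eval_X, MvPolynomial.eval_C,
          map_mul]
        have h7 : eX ((m : J →₀ ℕ).prod fun j n => MvPolynomial.X j ^ n) =
            ∏ j ∈ (m : J →₀ ℕ).support, a j ^ ((m : J →₀ ℕ) j) := by
          rw [Finsupp.prod, map_prod]
          refine Finset.prod_congr rfl fun j _ => ?_
          rw [map_pow]
          congr 1
          exact MvPolynomial.eval₂Hom_X' _ _ _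
        rw [h7]
        ring
      rw [Finset.sum_congr rfl fun m _ => h6 m, ← Finset.mul_sum, ← h5, h0, mul_zero]
    rw [h4, Polynomial.eval₂_at_zero] at h3
    exact h3

end Pool.Agent.Run7.h10.QS
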