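import Pool.Agent.Run7.h10.QS.B2

/-!
# Counting for functions independent over `k[X]` and relations with algebraic coefficients
-/

set_option autoImplicit false
set_option linter.unusedSectionVars false

open NumberField

namespace Pool.Agent.Run7.h10.QS

open Pool.Agent.Y890.MV Pool.Agent.Y890.SP
open Pool.Agent.Y124 (Cov)
open Pool.Agent.N207.GS

/-- the field `k` contains all algebraic numbers -/
def AllAlg (k : Type) [Field k] [Algebra k ℂ] : Prop :=
  ∀ (K : Type) [Field K] [NumberField K] (io : K →+* ℂ) (a : K), ∃ b : k, algebraMap k ℂ b = io a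

theorem cov_zero {X : Type} [Fintype X] (P : MvPolynomial X ℂ) (hP : P ≠ 0) :
    Cov P.totalDegree 1 {t : X → ℂ | MvPolynomial.eval t P = 0} := by
  refine ⟨{P}, by simp, ?_, ?_⟩
  · intro Q hQ
    rw [Finset.mem_singleton] at hQ
    subst hQ
    exact ⟨hP, le_rfl⟩
  · intro t ht
    exact ⟨P, Finset.mem_singleton_self _, ht⟩

/-- **Counting.** -/
theorem countQ {k X J Λ : Type} [Field k] [Algebra k ℂ] (hk : AllAlg k) [Fintype X] [DecidableEq X] [Nonempty X]
    [Fintype J] [DecidableEq J] [Fintype Λ] [DecidableEq Λ]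
    (𝒢 : MvPolynomial J (MvPolynomial Λ (MvPolynomial X k))) {U : Set (X → ℂ)} (hU : IsPreconnected U)
    (hUo : IsOpen U) (hne : U.Nonempty) (y : J → (X → ℂ) → ℂ) (hy : ∀ j, AnalyticOnNhd ℂ (y j) U)
    (hind : ∀ p : MvPolynomial J (MvPolynomial X k), (∀ z ∈ U, evM y z (MvPolynomial.map (mC k X) p) = 0) → p = 0)
    (Lc : Set (X → ℂ)) (hLc : IsCompact Lc) (hLU : Lc ⊆ U) (m : ℕ) (A ε : ℝ) (hε : 0 < ε) :
    ∃ (D : ℕ) (C T₀ : ℝ), 0 ≤ C ∧ 2 ≤ T₀ ∧
      ∀ (K : Type) [Field K] [NumberField K], Module.finrank ℚ K ≤ m → ∀ (io : K →+* ℂ) (T : ℝ),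
        T₀ ≤ T → Cov D ⌊C * T ^ ε⌋₊ ((fun (s : X → K) i => io (s i)) ''
          BadG (MvPolynomial.map (MvPolynomial.map (mC k X)) 𝒢) y Lc K io (fun _ : Unit => 1) A T) := by
  classical
  obtain ⟨L, _, _, _, F, hz, hfrac⟩ := exists_fieldM hU hUo hne hy
  obtain ⟨I, _, _, ι, 𝒢', Δ, hI, hΔ, h1, h2⟩ := normQ 𝒢 F hfrac (fun p hp => hind p ((hz _).1 hp))
  have hloc : ∀ t ∈ Lc, LocIndM (fun (i : I) t => y (ι i) t) t := fun t ht => locIndM_of hU hy F hz ι hI t (hLU ht)
  obtain ⟨D, C, T₀, hC, hT₀, H⟩ := count 𝒢' (fun (i : I) t => y (ι i) t) Lc hLc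
    (fun i t ht => hy _ t (hLU ht)) hloc Unit m A ε hε
  refine ⟨D + (mC k X Δ).totalDegree, C + 1, T₀, by positivity, hT₀, ?_⟩
  intro K _ _ hm io T hT
  have h3 := H K hm io (fun _ => 1) T hT
  have hT1 : 1 ≤ T := by linarith
  have hTp : 0 < T := by linarith
  have h6 : (1 : ℝ) ≤ T ^ ε := Real.one_le_rpow hT1 hε.le
  have hΔ' : mC k X Δ ≠ 0 := by
    rw [Ne, map_eq_zero_iff _ (mC_inj k X)]
    exact hΔ
  have h4 := (h3.mono (Nat.le_add_right D (mC k X Δ).totalDegree) le_rfl (Set.Subset.refl _)).union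
    ((cov_zero _ hΔ').mono (Nat.le_add_left _ D) le_rfl (Set.Subset.refl _))
  refine h4.mono le_rfl ?_ ?_
  · apply Nat.le_floor
    push_cast
    have h8 : ((⌊C * T ^ ε⌋₊ : ℕ) : ℝ) ≤ C * T ^ ε := Nat.floor_le (by positivity)
    calc (⌊C * T ^ ε⌋₊ : ℝ) + 1 ≤ C * T ^ ε + T ^ ε := add_le_add h8 h6
      _ = _ := by ring
  · rintro _ ⟨s, ⟨hs1, hs2, c, hc1, hc2, hc3⟩, rfl⟩
    choose s' hs' using fun i => hk K io (s i)
    choose c' hc' using fun l => hk K io (c l () : K)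
    have e1 : (fun i => io (s i)) = fun i => algebraMap k ℂ (s' i) := funext fun i => (hs' i).symm
    have e2 : (fun l => ∑ i : Unit, (fun _ : Unit => (1 : ℂ)) i * io (c l i : K)) =
        fun l => algebraMap k ℂ (c' l) := by
      funext l
      rw [Finset.univ_unique, Finset.sum_singleton, one_mul]
      exact (hc' l).symm
    by_cases h0 : MvPolynomial.eval s' Δ = 0
    · right
      change MvPolynomial.eval (fun i => io (s i)) (mC k X Δ) = 0
      rw [e1, ev_mC0, h0, map_zero]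
    · left
      refine ⟨s, ⟨hs1, hs2, c, hc1, ?_, ?_⟩, rfl⟩
      · intro h5
        apply hc2
        rw [e1, e2] at h5 ⊢
        exact h1 s' c' h0 h5
      · rw [e1, e2] at hc3 ⊢
        refine h2 s' c' (fun j => y j fun i => algebraMap k ℂ (s' i)) ?_ hc3
        intro p hp
        have h7 := (hz p).1 hp (fun i => algebraMap k ℂ (s' i)) (by
          rw [← e1]
          exact hLU hs2)
        exact h7

end Pool.Agent.Run7.h10.QS
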