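import Pool.Agent.Run7.h10.QS.B3

/-!
# Relations with algebraic coefficients at almost all algebraic points hold on the components of the fibres of the
closure of the graph over the algebraic numbers
-/

set_option autoImplicit false
set_option linter.unusedSectionVars false

open NumberField

namespace Pool.Agent.Run7.h10.QS

open Pool.Agent.Y890.MV Pool.Agent.Y890.SP
open Pool.Agent.Y124 (Cov)
open Pool.Agent.N207.GS

/-- the fibre over `x` of the closure over `k` of the graph -/
def FibQ {X σ : Type} (k : Type) [Field k] [Algebra k ℂ] (U : Set (X → ℂ)) (f : σ → (X → ℂ) → ℂ) (x : X → ℂ) :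
    Set (σ → ℂ) :=
  {a | ∀ p : MvPolynomial σ (MvPolynomial X k), (∀ z ∈ U, evM f z (MvPolynomial.map (mC k X) p) = 0) →
    evX x a (MvPolynomial.map (mC k X) p) = 0}

/-- the exceptional points: some relation with coefficients in `K` at `s` does not hold on an irreducible subset of
the fibre -/
def ExcQ {X σ : Type} [Fintype σ] [DecidableEq σ] (k : Type) [Field k] [Algebra k ℂ] (δ : ℕ) (U : Set (X → ℂ))
    (f : σ → (X → ℂ) → ℂ) (Lc : Set (X → ℂ)) (K : Type) [Field K] [NumberField K] (io : K →+* ℂ)
    (A T : ℝ) : Set (X → K) :=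
  {s | (∀ i, Y120.HtLe K T (s i)) ∧ (fun i => io (s i)) ∈ Lc ∧ ∃ c : (σ → Fin (δ + 1)) → 𝓞 K,
    (∀ l (φ : K →+* ℂ), ‖φ (c l : K)‖ ≤ T ^ A) ∧
    ∑ l, io (c l : K) * ∏ y, f y (fun i => io (s i)) ^ (l y : ℕ) = 0 ∧
    ∃ S : Set (σ → ℂ), Irr S ∧ (fun y => f y fun i => io (s i)) ∈ S ∧ S ⊆ FibQ k U f (fun i => io (s i)) ∧
      ∃ a ∈ S, ∑ l, io (c l : K) * ∏ y, a y ^ (l y : ℕ) ≠ 0}

/-- the field generated by the functions over `k(X)` -/
theorem exists_fieldQ {X σ : Type} [Fintype X] (k : Type) [Field k] [Algebra k ℂ] {U : Set (X → ℂ)}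
    {f : σ → (X → ℂ) → ℂ} (hU : IsPreconnected U) (hUo : IsOpen U) (hne : U.Nonempty)
    (hf : ∀ i, AnalyticOnNhd ℂ (f i) U) :
    ∃ (L : Type) (_ : Field L) (_ : Algebra (MvPolynomial X k) L) (_ : FaithfulSMul (MvPolynomial X k) L) (F : σ → L),
      (∀ p : MvPolynomial σ (MvPolynomial X k), MvPolynomial.aeval F p = 0 ↔
        ∀ x ∈ U, evM f x (MvPolynomial.map (mC k X) p) = 0) ∧
      ∀ l : L, ∃ p q : MvPolynomial σ (MvPolynomial X k), MvPolynomial.aeval F q ≠ 0 ∧
        MvPolynomial.aeval F q * l = MvPolynomial.aeval F p := by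
  classical
  have hprime0 : (relM U f).IsPrime := relM_prime hU hUo hne hf
  let rel : Ideal (MvPolynomial σ (MvPolynomial X k)) := (relM U f).comap (MvPolynomial.map (mC k X))
  have hprime : rel.IsPrime := Ideal.comap_isPrime _ _
  let B : Type := MvPolynomial σ (MvPolynomial X k) ⧸ rel
  let iB : CommRing B := Ideal.Quotient.commRing rel
  have hdom : IsDomain B := Ideal.Quotient.isDomain rel
  let L : Type := FractionRing B
  let F : σ → L := fun i => algebraMap B L (Ideal.Quotient.mk rel (MvPolynomial.X i))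
  have hF : ∀ p : MvPolynomial σ (MvPolynomial X k),
      MvPolynomial.aeval F p = algebraMap B L (Ideal.Quotient.mk rel p) := by
    intro p
    induction p using MvPolynomial.induction_on with
    | C a =>
      rw [MvPolynomial.aeval_C, IsScalarTower.algebraMap_apply (MvPolynomial X k) B L]
      rfl
    | add p q hp hq => rw [map_add, map_add, map_add, hp, hq]
    | mul_X p i hp => rw [map_mul, map_mul, map_mul, hp, MvPolynomial.aeval_X]
  have hinj : Function.Injective (algebraMap B L) := IsFractionRing.injective B L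
  have hz : ∀ p : MvPolynomial σ (MvPolynomial X k), MvPolynomial.aeval F p = 0 ↔
      ∀ x ∈ U, evM f x (MvPolynomial.map (mC k X) p) = 0 := by
    intro p
    rw [hF, map_eq_zero_iff _ hinj, Ideal.Quotient.eq_zero_iff_mem]
    rfl
  refine ⟨L, inferInstance, inferInstance, ?_, F, hz, ?_⟩
  · rw [faithfulSMul_iff_algebraMap_injective, injective_iff_map_eq_zero]
    intro a ha
    have h1 : MvPolynomial.aeval F (MvPolynomial.C a) = 0 := by
      rw [MvPolynomial.aeval_C]
      exact ha
    rw [hz] at h1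
    apply mC_inj k X
    rw [map_zero]
    refine poly_zero hUo hne _ fun x hx => ?_
    rw [← evM_C (f := f), ← MvPolynomial.map_C (mC k X)]
    exact h1 x hx
  · intro l
    obtain ⟨a, b, hb, rfl⟩ := IsFractionRing.div_surjective (A := B) l
    obtain ⟨p, rfl⟩ := Ideal.Quotient.mk_surjective a
    obtain ⟨q, rfl⟩ := Ideal.Quotient.mk_surjective b
    have hq : MvPolynomial.aeval F q ≠ 0 := by
      rw [hF, Ne, map_eq_zero_iff _ hinj]
      exact nonZeroDivisors.ne_zero hb
    refine ⟨p, q, hq, ?_⟩
    rw [← hF, ← hF, mul_div_cancel₀ _ hq]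

section swap
variable {X I Λ k : Type} [Field k] [Algebra k ℂ]

theorem sw_evalQ (p : MvPolynomial Λ (MvPolynomial I (MvPolynomial X k))) (t : X → ℂ) (P : Λ → ℂ) (y : I → ℂ) :
    MvPolynomial.eval y (spc (MvPolynomial.map (MvPolynomial.map (mC k X)) (swp p)) t P) =
      MvPolynomial.eval₂ ((MvPolynomial.eval₂Hom (MvPolynomial.eval t) y).comp (MvPolynomial.map (mC k X))) P p := by
  have h : (((MvPolynomial.eval y).comp (MvPolynomial.map (MvPolynomial.eval₂Hom (MvPolynomial.eval t) P))).comp
      (MvPolynomial.map (MvPolynomial.map (mC k X)))).comp swp =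
      MvPolynomial.eval₂Hom ((MvPolynomial.eval₂Hom (MvPolynomial.eval t) y).comp (MvPolynomial.map (mC k X))) P := by
    apply MvPolynomial.ringHom_ext
    · intro a
      have h0 : swp (MvPolynomial.C a : MvPolynomial Λ (MvPolynomial I (MvPolynomial X k))) =
        MvPolynomial.map MvPolynomial.C a := MvPolynomial.commAlgEquiv_C _
      simp only [RingHom.comp_apply, MvPolynomial.eval₂Hom_C]
      rw [h0]
      clear h0
      induction a using MvPolynomial.induction_on with
      | C a => simp
      | add p q hp hq => simp only [map_add, hp, hq]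
      | mul_X p i hp => simp only [map_mul, hp]; simp
    · intro l
      have h0 : swp (MvPolynomial.X l : MvPolynomial Λ (MvPolynomial I (MvPolynomial X k))) =
        MvPolynomial.C (MvPolynomial.X l) := MvPolynomial.commAlgEquiv_X _
      simp only [RingHom.comp_apply]
      rw [h0]
      simp
  exact RingHom.congr_fun h p

end swap

theorem identQ {X σ Λ I L k : Type} [Field k] [Algebra k ℂ] [Fintype Λ] [Field L] [Algebra (MvPolynomial X k) L]
    [FaithfulSMul (MvPolynomial X k) L] {U : Set (X → ℂ)} {f : σ → (X → ℂ) → ℂ} (F : σ → L)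
    (hz : ∀ p : MvPolynomial σ (MvPolynomial X k), MvPolynomial.aeval F p = 0 ↔
      ∀ x ∈ U, evM f x (MvPolynomial.map (mC k X) p) = 0)
    (lm : Λ → MvPolynomial σ (MvPolynomial X k)) (ι : I → σ) (D : MvPolynomial I (MvPolynomial X k))
    (q : Polynomial (MvPolynomial Λ (MvPolynomial I (MvPolynomial X k))))
    (hq : Polynomial.eval₂ (MvPolynomial.map (evI (F ∘ ι)))
        (∑ l, MvPolynomial.X l * MvPolynomial.C (evI (F ∘ ι) D * MvPolynomial.aeval F (lm l)) : MvPolynomial Λ L)
        q = 0) (x : X → ℂ) (a : σ → ℂ) (ha : a ∈ FibQ k U f x) (P : Λ → ℂ) :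
    ∑ j ∈ Finset.range (q.natDegree + 1), MvPolynomial.eval (a ∘ ι)
      (spc (MvPolynomial.map (MvPolynomial.map (mC k X)) (swp (q.coeff j))) x P) *
      (evX x (a ∘ ι) (MvPolynomial.map (mC k X) D) * ∑ l, P l * evX x a (MvPolynomial.map (mC k X) (lm l))) ^ j =
      0 := by
  classical
  set φ : MvPolynomial Λ (MvPolynomial I (MvPolynomial X k)) →+* MvPolynomial Λ (MvPolynomial σ (MvPolynomial X k)) :=
    MvPolynomial.map (MvPolynomial.rename ι : MvPolynomial I (MvPolynomial X k) →ₐ[MvPolynomial X k]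
      MvPolynomial σ (MvPolynomial X k)).toRingHom with hφ
  set θ : MvPolynomial Λ (MvPolynomial σ (MvPolynomial X k)) :=
    ∑ l, MvPolynomial.X l * MvPolynomial.C (MvPolynomial.rename ι D * lm l) with hθ
  set H := Polynomial.eval₂ φ θ q with hH
  let aF : MvPolynomial σ (MvPolynomial X k) →+* L := (MvPolynomial.aeval F).toRingHom
  have hcomp : (MvPolynomial.map (σ := Λ) aF).comp φ = MvPolynomial.map (evI (F ∘ ι)) := by
    apply MvPolynomial.ringHom_ext
    · intro p
      simp only [RingHom.comp_apply, hφ, MvPolynomial.map_C]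
      congr 1
      exact (evI_rename F ι p).symm
    · intro l
      simp [hφ]
  have h1 : MvPolynomial.map aF H = 0 := by
    rw [hH, Polynomial.hom_eval₂, hcomp, ← hq]
    congr 1
    rw [hθ, map_sum]
    refine Finset.sum_congr rfl fun l _ => ?_
    rw [map_mul, MvPolynomial.map_X, MvPolynomial.map_C, map_mul]
    congr 3
    exact (evI_rename F ι D).symm
  let eX : MvPolynomial σ (MvPolynomial X k) →+* ℂ :=
    (MvPolynomial.eval₂Hom (MvPolynomial.eval x) a).comp (MvPolynomial.map (mC k X))
  have heXr : ∀ p : MvPolynomial I (MvPolynomial X k), eX (MvPolynomial.rename ι p) =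
      evX x (a ∘ ι) (MvPolynomial.map (mC k X) p) := by
    intro p
    change MvPolynomial.eval₂ (MvPolynomial.eval x) a (MvPolynomial.map (mC k X) (MvPolynomial.rename ι p)) = _
    rw [MvPolynomial.map_rename, MvPolynomial.eval₂_rename]
    rfl
  have h2 : MvPolynomial.map eX H = 0 := by
    ext ν
    rw [MvPolynomial.coeff_map, MvPolynomial.coeff_zero]
    apply ha
    rw [← hz]
    have h3 := congrArg (MvPolynomial.coeff ν) h1
    rw [MvPolynomial.coeff_map, MvPolynomial.coeff_zero] at h3
    exact h3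
  have h3 := congrArg (MvPolynomial.eval P) h2
  rw [map_zero, hH, Polynomial.hom_eval₂, Polynomial.hom_eval₂, Polynomial.eval₂_eq_sum_range] at h3
  rw [← h3]
  refine Finset.sum_congr rfl fun j _ => ?_
  congr 1
  · rw [sw_evalQ]
    have h4 : ((MvPolynomial.eval P).comp ((MvPolynomial.map eX).comp φ)) =
        MvPolynomial.eval₂Hom ((MvPolynomial.eval₂Hom (MvPolynomial.eval x) (a ∘ ι)).comp
          (MvPolynomial.map (mC k X))) P := by
      apply MvPolynomial.ringHom_ext
      · intro p
        simp only [RingHom.comp_apply, hφ, MvPolynomial.map_C, MvPolynomial.eval_C, MvPolynomial.eval₂Hom_C]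
        exact heXr p
      · intro l
        simp [hφ]
    exact (RingHom.congr_fun h4 (q.coeff j)).symm
  · congr 1
    rw [hθ, map_sum, map_sum, Finset.mul_sum]
    refine Finset.sum_congr rfl fun l _ => ?_
    rw [map_mul, map_mul, MvPolynomial.map_X, MvPolynomial.map_C, MvPolynomial.eval_X, MvPolynomial.eval_C, map_mul]
    have h6 : eX (lm l) = evX x a (MvPolynomial.map (mC k X) (lm l)) := rfl
    rw [heXr, h6]
    ring

end Pool.Agent.Run7.h10.QS
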