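import Pool.Agent.Run7.h10.QS.B4

/-!
# Relations with algebraic coefficients at almost all algebraic points hold on the components of the fibres of the
closure of the graph over the algebraic numbers
-/

set_option autoImplicit false
set_option linter.unusedSectionVars false

open NumberField

namespace Pool.Agent.Run7.h10.QS

open Pool.Agent.Y890.MV Pool.Agent.Y890.SP
open Pool.Agent.Y124 (Cov)
open Pool.Agent.N207.GS

/-- **The relations at almost all points hold on the irreducible subsets of the fibre through the point.** -/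
theorem compQ {k X σ : Type} [Field k] [Algebra k ℂ] (hk : AllAlg k) [Fintype X] [DecidableEq X] [Nonempty X]
    [Fintype σ] [DecidableEq σ] {U : Set (X → ℂ)}
    {f : σ → (X → ℂ) → ℂ} (hU : IsPreconnected U) (hUo : IsOpen U) (hne : U.Nonempty)
    (hf : ∀ i, AnalyticOnNhd ℂ (f i) U) (Lc : Set (X → ℂ)) (hLc : IsCompact Lc) (hLU : Lc ⊆ U) (δ : ℕ)
    (m : ℕ) (A ε : ℝ) (hε : 0 < ε) :
    ∃ (D : ℕ) (C T₀ : ℝ), 0 ≤ C ∧ 2 ≤ T₀ ∧
      ∀ (K : Type) [Field K] [NumberField K], Module.finrank ℚ K ≤ m → ∀ (io : K →+* ℂ) (T : ℝ),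
        T₀ ≤ T → Cov D ⌊C * T ^ ε⌋₊ ((fun (s : X → K) i => io (s i)) '' ExcQ k δ U f Lc K io A T) := by
  classical
  obtain ⟨L, _, _, _, F, hz, hfrac⟩ := exists_fieldQ k hU hUo hne hf
  let Λ := σ → Fin (δ + 1)
  let lm : Λ → MvPolynomial σ (MvPolynomial X k) := fun l => ∏ y, MvPolynomial.X y ^ (l y : ℕ)
  have hlm : ∀ l x (a : σ → ℂ), evX x a (MvPolynomial.map (mC k X) (lm l)) = ∏ y, a y ^ (l y : ℕ) := by
    intro l x a
    rw [evX, map_prod, MvPolynomial.eval₂_prod]
    refine Finset.prod_congr rfl fun y _ => ?_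
    rw [map_pow, MvPolynomial.map_X, MvPolynomial.eval₂_pow, MvPolynomial.eval₂_X]
  obtain ⟨I, _, _, ι, D, q, hind, hD, hq, hq0⟩ := exists_char F hfrac lm
  have hid := fun x a ha P => identQ F hz lm ι D q hq0 x a ha P
  set e := q.natDegree with he
  have han : ∀ i : I, AnalyticOnNhd ℂ ((fun (i : I) t => f (ι i) t) i) U := fun i => hf _
  have hind' : ∀ p : MvPolynomial I (MvPolynomial X k),
      (∀ z ∈ U, evM (fun (i : I) t => f (ι i) t) z (MvPolynomial.map (mC k X) p) = 0) → p = 0 := by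
    intro p hp
    apply hind
    rw [map_zero]
    have h1 : MvPolynomial.aeval (F ∘ ι) p = MvPolynomial.aeval F (MvPolynomial.rename ι p) := by
      rw [MvPolynomial.aeval_rename]
    rw [h1, hz]
    intro z hzU
    rw [MvPolynomial.map_rename, evM, MvPolynomial.eval₂_rename]
    exact hp z hzU
  -- the counts
  let 𝒢 : Option (Fin (e + 1)) → MvPolynomial I (MvPolynomial Λ (MvPolynomial X k)) := fun o =>
    o.elim (MvPolynomial.map MvPolynomial.C D) (fun k => swp (q.coeff k))
  choose DD C T₀ hC hT₀ Hc using fun o => countQ hk (𝒢 o) hU hUo hne (fun (i : I) t => f (ι i) t) han hind' Lc hLc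
    hLU m A ε hε
  have hDC : MvPolynomial.map (mC k X) D ≠ 0 := by
    rw [Ne, map_eq_zero_iff _ (MvPolynomial.map_injective _ (mC_inj k X))]
    exact hD
  obtain ⟨α₀, hα₀⟩ := MvPolynomial.ne_zero_iff.1 hDC
  refine ⟨(∑ o, DD o) + ((MvPolynomial.map (mC k X) D).coeff α₀).totalDegree,
    (Fintype.card (Option (Fin (e + 1)))) * (∑ o, C o) + 1, 2 + ∑ o, T₀ o, ?_, ?_, ?_⟩
  · have : 0 ≤ ∑ o, C o := Finset.sum_nonneg fun o _ => hC o
    positivity
  · have : 0 ≤ ∑ o, T₀ o := Finset.sum_nonneg fun o _ => by linarith [hT₀ o]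
    linarith
  intro K _ _ hm io T hT
  have hTT : ∀ o, T₀ o ≤ T := by
    intro o
    have h1 := Finset.single_le_sum (f := T₀) (fun o _ => by linarith [hT₀ o]) (Finset.mem_univ o)
    linarith
  have hT1 : 1 ≤ T := by linarith [hT₀ none, hTT none]
  have hTp : 0 < T := by linarith
  have h6 : (1 : ℝ) ≤ T ^ ε := Real.one_le_rpow hT1 hε.le
  set Z : Set (X → ℂ) := {t | MvPolynomial.eval t ((MvPolynomial.map (mC k X) D).coeff α₀) = 0} with hZ
  have hZcov : Cov ((MvPolynomial.map (mC k X) D).coeff α₀).totalDegree 1 Z := cov_zero _ hα₀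
  let Bd : Option (Fin (e + 1)) → Set (X → ℂ) := fun o => (fun (s : X → K) i => io (s i)) ''
    BadG (MvPolynomial.map (MvPolynomial.map (mC k X)) (𝒢 o)) (fun (i : I) t => f (ι i) t) Lc K io
      (fun _ : Unit => 1) A T
  have hBd : ∀ o, Cov (∑ o, DD o) ⌊(∑ o, C o) * T ^ ε⌋₊ (Bd o) := by
    intro o
    refine (Hc o K hm io T (hTT o)).mono (Finset.single_le_sum (f := DD) (fun _ _ => Nat.zero_le _)
      (Finset.mem_univ o)) (Nat.floor_le_floor ?_) (Set.Subset.refl _)
    exact mul_le_mul_of_nonneg_right (Finset.single_le_sum (f := C) (fun o _ => hC o) (Finset.mem_univ o))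
      (by positivity)
  have hun := Cov.biUnion (Finset.univ : Finset (Option (Fin (e + 1)))) Bd (fun o _ => hBd o)
  have hsub : (fun (s : X → K) i => io (s i)) '' ExcQ k δ U f Lc K io A T ⊆ (⋃ o ∈ Finset.univ, Bd o) ∪ Z := by
    rintro _ ⟨s, ⟨hs1, hs2, c, hc1, hc2, S, hS, hfS, hSF, a, haS, ha⟩, rfl⟩
    set t : X → ℂ := fun i => io (s i) with ht
    set P : Λ → ℂ := fun l => io (c l : K) with hP
    have hPP : (fun l : Λ => ∑ i : Unit, (fun _ : Unit => (1 : ℂ)) i * io ((fun _ : Unit => c l) i : K)) = P := by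
      funext l
      rw [Finset.univ_unique, Finset.sum_singleton, one_mul]
    by_contra hcon
    rw [Set.mem_union, not_or] at hcon
    obtain ⟨hcon1, hcon2⟩ := hcon
    have hno : ∀ o, spc (MvPolynomial.map (MvPolynomial.map (mC k X)) (𝒢 o)) t P ≠ 0 →
        MvPolynomial.eval (fun i => f (ι i) t) (spc (MvPolynomial.map (MvPolynomial.map (mC k X)) (𝒢 o)) t P) ≠ 0 := by
      intro o h1 h2
      refine hcon1 (Set.mem_iUnion₂.2 ⟨o, Finset.mem_univ _, s, ⟨hs1, hs2, fun l _ => c l, fun l _ φ => hc1 l φ,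
        ?_, ?_⟩, rfl⟩)
      · rw [hPP]
        exact h1
      · rw [hPP]
        exact h2
    -- the polynomials on the space
    set Dx : MvPolynomial I ℂ := MvPolynomial.map (MvPolynomial.eval t) (MvPolynomial.map (mC k X) D) with hDx
    have hDxs : spc (MvPolynomial.map (MvPolynomial.map (mC k X)) (𝒢 none)) t P = Dx := by
      change MvPolynomial.map (MvPolynomial.eval₂Hom (MvPolynomial.eval t) P)
        (MvPolynomial.map (MvPolynomial.map (mC k X)) (MvPolynomial.map MvPolynomial.C D)) = _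
      rw [MvPolynomial.map_map, MvPolynomial.map_map, hDx, MvPolynomial.map_map]
      have h0 : ((MvPolynomial.eval₂Hom (MvPolynomial.eval t) P).comp (MvPolynomial.map (mC k X))).comp
          MvPolynomial.C = (MvPolynomial.eval t).comp (mC k X) := by
        refine RingHom.ext fun y => ?_
        change (MvPolynomial.eval₂Hom (MvPolynomial.eval t) P) (MvPolynomial.map (mC k X) (MvPolynomial.C y)) =
          MvPolynomial.eval t (mC k X y)
        rw [MvPolynomial.map_C, MvPolynomial.eval₂Hom_C]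
      rw [h0]
    have hDx0 : Dx ≠ 0 := by
      intro h0
      apply hcon2
      have h1 := congrArg (MvPolynomial.coeff α₀) h0
      rw [hDx, MvPolynomial.coeff_map, MvPolynomial.coeff_zero] at h1
      exact h1
    have hDxe : ∀ a : σ → ℂ, MvPolynomial.eval a (MvPolynomial.rename ι Dx) =
        evX t (a ∘ ι) (MvPolynomial.map (mC k X) D) := by
      intro a
      rw [MvPolynomial.eval_rename, hDx, MvPolynomial.eval_map]
      rfl
    set Rp : MvPolynomial σ ℂ := ∑ l, MvPolynomial.C (P l) * ∏ y, MvPolynomial.X y ^ (l y : ℕ) with hRp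
    have hRpe : ∀ a : σ → ℂ, MvPolynomial.eval a Rp = ∑ l, P l * ∏ y, a y ^ (l y : ℕ) := by
      intro a
      rw [hRp, map_sum]
      refine Finset.sum_congr rfl fun l _ => ?_
      rw [map_mul, MvPolynomial.eval_C, map_prod]
      congr 1
      refine Finset.prod_congr rfl fun y _ => ?_
      rw [map_pow, MvPolynomial.eval_X]
    set Tp : MvPolynomial σ ℂ := MvPolynomial.rename ι Dx * Rp with hTpd
    have hTpe : ∀ a : σ → ℂ, MvPolynomial.eval a Tp = evX t (a ∘ ι) (MvPolynomial.map (mC k X) D) *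
        ∑ l, P l * evX t a (MvPolynomial.map (mC k X) (lm l)) := by
      intro a
      rw [hTpd, map_mul, hDxe, hRpe]
      congr 1
      refine Finset.sum_congr rfl fun l _ => ?_
      rw [hlm]
    set 𝓡 : ℕ → MvPolynomial I ℂ := fun j => spc (MvPolynomial.map (MvPolynomial.map (mC k X)) (swp (q.coeff j))) t P
      with h𝓡
    have h𝓡e : 𝓡 e ≠ 0 := by
      have h1 : q.coeff e = 1 := hq
      simp only [h𝓡, h1, map_one, spc]
      exact one_ne_zero
    have hex : ∃ j, 𝓡 j ≠ 0 := ⟨e, h𝓡e⟩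
    classical
    set k₀ := Nat.find hex with hk₀
    have hk0 : 𝓡 k₀ ≠ 0 := Nat.find_spec hex
    have hkmin : ∀ j < k₀, 𝓡 j = 0 := by
      intro j hj
      by_contra h0
      exact Nat.find_min hex hj h0
    have hke : k₀ ≤ e := Nat.find_min' hex h𝓡e
    have hkv : MvPolynomial.eval (fun i => f (ι i) t) (𝓡 k₀) ≠ 0 :=
      hno (some ⟨k₀, Nat.lt_succ_of_le hke⟩) hk0
    set Sp : MvPolynomial σ ℂ := ∑ j ∈ Finset.range (e + 1 - k₀), MvPolynomial.rename ι (𝓡 (j + k₀)) * Tp ^ j with hSp
    have hprod : ∀ b ∈ S, MvPolynomial.eval b (Tp ^ k₀) * MvPolynomial.eval b Sp = 0 := by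
      intro b hb
      have h1 := hid t b (hSF hb) P
      have h4 : ∀ g : ℕ → ℂ, (∀ j < k₀, g j = 0) →
          ∑ j ∈ Finset.range (e + 1), g j = ∑ j ∈ Finset.range (e + 1 - k₀), g (k₀ + j) := by
        intro g hg
        have h2 : e + 1 = k₀ + (e + 1 - k₀) := by omega
        conv_lhs => rw [h2, Finset.sum_range_add]
        rw [Finset.sum_eq_zero (fun j hj => hg j (Finset.mem_range.1 hj)), zero_add]
      rw [h4 _ (fun j hj => by
        have h3 := hkmin j hj
        simp only [h𝓡] at h3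
        rw [h3, map_zero, zero_mul])] at h1
      rw [← h1, map_pow, hSp, map_sum, Finset.mul_sum]
      refine Finset.sum_congr rfl fun j _ => ?_
      have h5 : MvPolynomial.eval b (MvPolynomial.rename ι (𝓡 (j + k₀)) * Tp ^ j) =
          MvPolynomial.eval (b ∘ ι) (𝓡 (j + k₀)) * MvPolynomial.eval b Tp ^ j := by
        rw [map_mul, map_pow, MvPolynomial.eval_rename]
      have h3 : spc (MvPolynomial.map (MvPolynomial.map (mC k X)) (swp (q.coeff (k₀ + j)))) t P = 𝓡 (j + k₀) := by
        rw [add_comm j k₀]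
      rw [h5, h3, hTpe, pow_add]
      ring
    have hT0 : MvPolynomial.eval (fun y => f y t) Tp = 0 := by
      rw [hTpd, map_mul, hRpe]
      have h1 : ∑ l, P l * ∏ y, (fun y => f y t) y ^ (l y : ℕ) = 0 := hc2
      rw [h1, mul_zero]
    rcases hS _ _ hprod with h1 | h1
    · -- `T ^ k` vanishes
      have hkpos : k₀ ≠ 0 := by
        intro h0
        have h2 := h1 _ hfS
        rw [h0, pow_zero, map_one] at h2
        exact one_ne_zero h2
      have h2 : ∀ b ∈ S, MvPolynomial.eval b (MvPolynomial.rename ι Dx) * MvPolynomial.eval b Rp = 0 := by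
        intro b hb
        have h3 := h1 b hb
        rw [map_pow] at h3
        have h4 := pow_eq_zero_iff hkpos |>.1 h3
        rw [hTpd, map_mul] at h4
        exact h4
      rcases hS _ _ h2 with h3 | h3
      · have h4 := h3 _ hfS
        rw [MvPolynomial.eval_rename] at h4
        refine hno none ?_ ?_
        · rw [hDxs]
          exact hDx0
        · rw [hDxs]
          exact h4
      · apply ha
        have h4 := h3 a haS
        rw [hRpe] at h4
        exact h4
    · have h2 := h1 _ hfS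
      rw [hSp, map_sum] at h2
      have h3 : e + 1 - k₀ = (e - k₀) + 1 := by omega
      rw [h3, Finset.sum_range_succ'] at h2
      rw [Finset.sum_eq_zero, zero_add] at h2
      · rw [map_mul, pow_zero, map_one, mul_one, MvPolynomial.eval_rename, zero_add] at h2
        exact hkv h2
      · intro j _
        rw [map_mul, map_pow, hT0]
        simp
  have h1 := (hun.mono (Nat.le_add_right _ ((MvPolynomial.map (mC k X) D).coeff α₀).totalDegree) le_rfl
    (Set.Subset.refl _)).union (hZcov.mono (Nat.le_add_left _ (∑ o, DD o)) le_rfl (Set.Subset.refl _))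
  refine h1.mono le_rfl ?_ hsub
  rw [Finset.card_univ]
  have hCs : 0 ≤ ∑ o, C o := Finset.sum_nonneg fun o _ => hC o
  apply Nat.le_floor
  push_cast
  have h8 : ((⌊(∑ o, C o) * T ^ ε⌋₊ : ℕ) : ℝ) ≤ (∑ o, C o) * T ^ ε := Nat.floor_le (by positivity)
  have h9 : (0 : ℝ) ≤ (Fintype.card (Option (Fin (e + 1))) : ℝ) := Nat.cast_nonneg _
  calc (Fintype.card (Option (Fin (e + 1))) : ℝ) * (⌊(∑ o, C o) * T ^ ε⌋₊ : ℝ) + 1 ≤
        (Fintype.card (Option (Fin (e + 1))) : ℝ) * ((∑ o, C o) * T ^ ε) + T ^ ε :=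
        add_le_add (mul_le_mul_of_nonneg_left h8 h9) h6
    _ = _ := by ring

end Pool.Agent.Run7.h10.QS
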