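import Pool.Agent.Run7.h10.QS.B5
import Pool.Agent.N207.GS.Om

/-!
# All degrees, heights and number fields at once
-/

set_option autoImplicit false
set_option linter.unusedSectionVars false

open NumberField Filter

namespace Pool.Agent.Run7.h10.QS

open Pool.Agent.Y890.MV Pool.Agent.Y890.SP
open Pool.Agent.Y124 (Cov)
open Pool.Agent.N207.GS

/-- **The relations with algebraic coefficients at almost all points hold on the irreducible subsets of the fibre
over `k` through the point, all degrees and heights at once.** -/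
theorem compQ_few {k X σ : Type} [Field k] [Algebra k ℂ] (hk : AllAlg k) [Fintype X] [DecidableEq X] [Nonempty X]
    [Fintype σ] [DecidableEq σ] {U : Set (X → ℂ)}
    {f : σ → (X → ℂ) → ℂ} (hU : IsPreconnected U) (hUo : IsOpen U) (hne : U.Nonempty)
    (hf : ∀ i, AnalyticOnNhd ℂ (f i) U) :
    Few (X := X) fun K _ _ io n _ T => ExcQ k n U f (InnerM U n) K io n T := by
  refine few_of _ (fun K _ _ io n ξ T s hs => hs.1) fun n ε hn hε => ?_
  obtain ⟨D, C, T₀, hC, hT₀, H⟩ := compQ hk hU hUo hne hf (InnerM U n) (innerM_compact _ _) (innerM_sub _ hn) n n n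
    ε hε
  exact ⟨D, C, T₀, hC, hT₀, fun K _ _ hm io _ T hT => H K hm io T hT⟩


end Pool.Agent.Run7.h10.QS
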