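import Mathlib

/-!
# Very general points
-/

set_option autoImplicit false
set_option linter.unusedSectionVars false

open Filter Topology

namespace Pool.Agent.Run7.h10.QS

variable {X τ : Type} [Fintype X] {U : Set (X → ℂ)} {g : (X → ℂ) → τ → ℂ}

theorem val_an (hg : ∀ i, AnalyticOnNhd ℂ (fun z => g z i) U) (R : MvPolynomial (X ⊕ τ) ℚ) :
    AnalyticOnNhd ℂ (fun z => MvPolynomial.aeval (Sum.elim z (g z)) R) U := by
  intro x hx
  induction R using MvPolynomial.induction_on with
  | C a =>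
    simp only [MvPolynomial.aeval_C]
    exact analyticAt_const
  | add p q hp hq =>
    simp only [map_add]
    exact hp.add hq
  | mul_X p i hp =>
    simp only [map_mul, MvPolynomial.aeval_X]
    refine hp.mul ?_
    rcases i with i | i
    · simp only [Sum.elim_inl]
      exact (ContinuousLinearMap.proj (R := ℂ) (φ := fun _ : X => ℂ) i).analyticAt x
    · simp only [Sum.elim_inr]
      exact hg i x hx

/-- **A very general point.** -/
theorem exists_gen [Countable τ] (hU : IsPreconnected U) (hUo : IsOpen U) (hne : U.Nonempty)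
    (hg : ∀ i, AnalyticOnNhd ℂ (fun z => g z i) U)
    (h : ∀ R : MvPolynomial (X ⊕ τ) ℚ, R ≠ 0 → ∃ z ∈ U, MvPolynomial.aeval (Sum.elim z (g z)) R ≠ 0) :
    ∃ z ∈ U, AlgebraicIndependent ℚ (Sum.elim z (g z)) := by
  classical
  have hcount : Countable (MvPolynomial (X ⊕ τ) ℚ) :=
    (MvPolynomial.basisMonomials (X ⊕ τ) ℚ).repr.toEquiv.countable_iff.2 inferInstance
  let D : {R : MvPolynomial (X ⊕ τ) ℚ // R ≠ 0} → Set (X → ℂ) := fun R =>
    {z | z ∈ U ∧ MvPolynomial.aeval (Sum.elim z (g z)) R.1 ≠ 0} ∪ (closure U)ᶜ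
  have hDo : ∀ R, IsOpen (D R) := by
    intro R
    refine IsOpen.union ?_ isClosed_closure.isOpen_compl
    exact (val_an hg R.1).continuousOn.isOpen_inter_preimage hUo isOpen_compl_singleton
  have hDd : ∀ R, Dense (D R) := by
    intro R
    rw [dense_iff_inter_open]
    intro V hV hVne
    by_cases hVU : (V ∩ U).Nonempty
    · by_contra hcon
      obtain ⟨z0, hz0V, hz0U⟩ := hVU
      obtain ⟨z, hz, hzR⟩ := h R.1 R.2
      apply hzR
      refine (val_an hg R.1).eqOn_zero_of_preconnected_of_eventuallyEq_zero hU hz0U ?_ hz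
      filter_upwards [(hV.inter hUo).mem_nhds ⟨hz0V, hz0U⟩] with y hy
      by_contra hy0
      exact hcon ⟨y, hy.1, Or.inl ⟨hy.2, hy0⟩⟩
    · obtain ⟨z, hz⟩ := hVne
      refine ⟨z, hz, Or.inr ?_⟩
      intro hcl
      rw [mem_closure_iff] at hcl
      exact hVU (hcl V hV hz)
  have hdense := dense_iInter_of_isOpen hDo hDd
  obtain ⟨z, hzU, hz⟩ := hdense.inter_open_nonempty U hUo hne
  refine ⟨z, hzU, ?_⟩
  rw [AlgebraicIndependent, injective_iff_map_eq_zero]
  intro R hR
  by_contra hR0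
  have h1 := Set.mem_iInter.1 hz ⟨R, hR0⟩
  rcases h1 with h1 | h1
  · exact h1.2 hR
  · exact h1 (subset_closure hzU)

end Pool.Agent.Run7.h10.QS
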