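import Pool.Agent.Run7.h10.QS.B6
import Pool.Agent.Run7.h10.QS.C1

/-!
# The transcendence degree at one point bounds the number of independent functions
-/

set_option autoImplicit false
set_option linter.unusedSectionVars false

open NumberField

namespace Pool.Agent.Run7.h10.QS

open Pool.Agent.Y890.MV Pool.Agent.Y890.SP
open Pool.Agent.N207.GS

/-- polynomials over `ℚ` in all the variables as polynomials in the functions -/
noncomputable def psi (X σ : Type) : MvPolynomial (X ⊕ σ) ℚ →+* MvPolynomial σ (MvPolynomial X Qbar) :=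
  MvPolynomial.eval₂Hom ((MvPolynomial.C).comp ((MvPolynomial.C).comp (algebraMap ℚ Qbar)))
    (Sum.elim (fun i => MvPolynomial.C (MvPolynomial.X i)) MvPolynomial.X)

theorem psi_evM {X σ : Type} (f : σ → (X → ℂ) → ℂ) (z : X → ℂ) (W : MvPolynomial (X ⊕ σ) ℚ) :
    evM f z (MvPolynomial.map (mC Qbar X) (psi X σ W)) = MvPolynomial.aeval (Sum.elim z fun i => f i z) W := by
  have h : ((MvPolynomial.eval₂Hom (MvPolynomial.eval z) fun i => f i z).comp
      (MvPolynomial.map (mC Qbar X))).comp (psi X σ) =
      (MvPolynomial.aeval (Sum.elim z fun i => f i z) : MvPolynomial (X ⊕ σ) ℚ →ₐ[ℚ] ℂ).toRingHom := by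
    apply MvPolynomial.ringHom_ext
    · intro a
      simp only [RingHom.comp_apply, psi, MvPolynomial.eval₂Hom_C, MvPolynomial.map_C, mC, MvPolynomial.eval_C]
      exact (MvPolynomial.aeval_C _ a).symm
    · rintro (i | i)
      · simp only [RingHom.comp_apply, psi, MvPolynomial.eval₂Hom_X', Sum.elim_inl, MvPolynomial.map_C, mC,
          MvPolynomial.map_X, MvPolynomial.eval₂Hom_C, MvPolynomial.eval_X]
        exact (MvPolynomial.aeval_X (Sum.elim z fun i => f i z) (Sum.inl i)).symm
      · simp only [RingHom.comp_apply, psi, MvPolynomial.eval₂Hom_X', Sum.elim_inr, MvPolynomial.map_X]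
        exact (MvPolynomial.aeval_X (Sum.elim z fun i => f i z) (Sum.inr i)).symm
  exact RingHom.congr_fun h W

theorem exists_sub {X σ : Type} [Fintype X] [DecidableEq X] [Fintype σ] [DecidableEq σ] {U : Set (X → ℂ)}
    {f : σ → (X → ℂ) → ℂ} (hU : IsPreconnected U) (hUo : IsOpen U)
    (hf : ∀ i, AnalyticOnNhd ℂ (f i) U) {z : X → ℂ} (hzU : z ∈ U) (d : ℕ)
    (hd : ((Fintype.card X + d : ℕ) : Cardinal) ≤
      Algebra.trdeg ℚ (Algebra.adjoin ℚ (Set.range z ∪ Set.range fun i => f i z))) :
    ∃ ι : Fin d → σ, Function.Injective ι ∧ ∀ p : MvPolynomial (Fin d) (MvPolynomial X Qbar),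
      (∀ z ∈ U, evM (fun i => f (ι i)) z (MvPolynomial.map (mC Qbar X) p) = 0) → p = 0 := by
  classical
  obtain ⟨L, _, _, _, F, hz, hfrac⟩ := exists_fieldQ Qbar hU hUo ⟨z, hzU⟩ hf
  -- a transcendence basis of `L` over the polynomials in the coordinates
  have halg0 : Algebra.IsAlgebraic (Algebra.adjoin (MvPolynomial X Qbar) (Set.range F)) L := by
    refine ⟨fun l => ?_⟩
    obtain ⟨p, q, hq, hl⟩ := hfrac l
    have hmem : ∀ p : MvPolynomial σ (MvPolynomial X Qbar),
        MvPolynomial.aeval F p ∈ Algebra.adjoin (MvPolynomial X Qbar) (Set.range F) := by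
      intro p
      rw [Algebra.adjoin_range_eq_range_aeval]
      exact ⟨p, rfl⟩
    refine ⟨Polynomial.C ⟨_, hmem q⟩ * Polynomial.X - Polynomial.C ⟨_, hmem p⟩, ?_, ?_⟩
    · intro h
      have h1 := congrArg (fun r => Polynomial.coeff r 1) h
      simp only [Polynomial.coeff_sub, Polynomial.coeff_C_mul, Polynomial.coeff_X_one, mul_one,
        Polynomial.coeff_C_succ, Polynomial.coeff_zero] at h1
      apply hq
      have h2 := congrArg Subtype.val h1
      simpa using h2
    · rw [map_sub, map_mul, Polynomial.aeval_C, Polynomial.aeval_X, Polynomial.aeval_C, sub_eq_zero]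
      exact hl
  obtain ⟨t, ht, htb⟩ := exists_isTranscendenceBasis_subset (R := MvPolynomial X Qbar) (Set.range F)
  have hfinI : Finite t := (Set.finite_range F).subset ht
  let finI : Fintype t := Fintype.ofFinite t
  choose ι hι using fun x : t => ht x.2
  have hFι : F ∘ ι = ((↑) : t → L) := funext hι
  rw [← hFι] at htb
  have hιinj : Function.Injective ι := by
    intro a b hab
    have h1 : (F ∘ ι) a = (F ∘ ι) b := congrArg F hab
    rw [hFι] at h1
    exact Subtype.ext h1
  -- the transcendence degree of `L` over the rational numbers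
  let algQ : Algebra Qbar L := ((algebraMap (MvPolynomial X Qbar) L).comp MvPolynomial.C).toAlgebra
  have tow1 : IsScalarTower Qbar (MvPolynomial X Qbar) L := IsScalarTower.of_algebraMap_eq fun a => rfl
  let algR : Algebra ℚ L := ((algebraMap Qbar L).comp (algebraMap ℚ Qbar)).toAlgebra
  have tow2 : IsScalarTower ℚ Qbar L := IsScalarTower.of_algebraMap_eq fun a => rfl
  have hb1 := (IsTranscendenceBasis.mvPolynomial X Qbar).sumElim_comp htb
  have halgQ : Algebra.IsAlgebraic ℚ Qbar := algebraicClosure.isAlgebraic ℚ ℂ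
  have hb2 : IsTranscendenceBasis ℚ (Sum.elim (F ∘ ι) (algebraMap (MvPolynomial X Qbar) L ∘ MvPolynomial.X)) :=
    (Algebra.IsAlgebraic.isTranscendenceBasis_iff (R := ℚ) (S := Qbar)).2 hb1
  have htr : Algebra.trdeg ℚ L = ((Fintype.card t + Fintype.card X : ℕ) : Cardinal) := by
    rw [← hb2.cardinalMk_eq_trdeg, Cardinal.mk_fintype, Fintype.card_sum]
  -- independent elements at the point
  set A0 := Algebra.adjoin ℚ (Set.range z ∪ Set.range fun i => f i z) with hA0
  obtain ⟨κ, w, hw⟩ := exists_isTranscendenceBasis' ℚ A0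
  rw [← hw.cardinalMk_eq_trdeg] at hd
  have hemb : Nonempty (Fin (Fintype.card X + d) ↪ κ) := by
    rw [← Cardinal.le_def, Cardinal.mk_fin]
    exact hd
  obtain ⟨j⟩ := hemb
  have hw' : AlgebraicIndependent ℚ (w ∘ j) := hw.1.comp j j.injective
  have hlift : ∀ a : A0, ∃ W : MvPolynomial (X ⊕ σ) ℚ,
      MvPolynomial.aeval (Sum.elim z fun i => f i z) W = (a : ℂ) := by
    intro a
    have h1 : (a : ℂ) ∈ Algebra.adjoin ℚ (Set.range (Sum.elim z fun i => f i z)) := by
      rw [Set.Sum.elim_range]
      exact a.2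
    rw [Algebra.adjoin_range_eq_range_aeval] at h1
    exact h1
  choose W hW using hlift
  let V : Fin (Fintype.card X + d) → MvPolynomial (X ⊕ σ) ℚ := fun i => W (w (j i))
  let AF : MvPolynomial (X ⊕ σ) ℚ →+* L := (MvPolynomial.aeval F :
    MvPolynomial σ (MvPolynomial X Qbar) →ₐ[MvPolynomial X Qbar] L).toRingHom.comp (psi X σ)
  have hAF0 : ∀ p, AF p = 0 → MvPolynomial.aeval (Sum.elim z fun i => f i z) p = 0 := by
    intro p hp
    rw [← psi_evM]
    exact (hz (psi X σ p)).1 hp z hzU
  have hind : AlgebraicIndependent ℚ (fun i => AF (V i)) := by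
    rw [AlgebraicIndependent, injective_iff_map_eq_zero]
    intro g hg
    have h1 : MvPolynomial.aeval (fun i => AF (V i)) g = AF (MvPolynomial.aeval V g) := by
      have h2 : (MvPolynomial.aeval (fun i => AF (V i)) : MvPolynomial _ ℚ →ₐ[ℚ] L).toRingHom =
          AF.comp (MvPolynomial.aeval V : MvPolynomial _ ℚ →ₐ[ℚ] MvPolynomial (X ⊕ σ) ℚ).toRingHom := by
        apply MvPolynomial.ringHom_ext
        · intro a
          have h3 : MvPolynomial.aeval V (MvPolynomial.C a : MvPolynomial _ ℚ) =
              (MvPolynomial.C a : MvPolynomial (X ⊕ σ) ℚ) := MvPolynomial.aeval_C V a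
          change MvPolynomial.aeval _ (MvPolynomial.C a) = AF (MvPolynomial.aeval V (MvPolynomial.C a))
          rw [h3, MvPolynomial.aeval_C]
          have h4 : psi X σ (MvPolynomial.C a) = MvPolynomial.C (MvPolynomial.C (algebraMap ℚ Qbar a)) :=
            MvPolynomial.eval₂Hom_C _ _ _
          change _ = MvPolynomial.aeval F (psi X σ (MvPolynomial.C a))
          rw [h4, MvPolynomial.aeval_C]
          rfl
        · intro i
          change MvPolynomial.aeval _ (MvPolynomial.X i) = AF (MvPolynomial.aeval V (MvPolynomial.X i))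
          rw [MvPolynomial.aeval_X, MvPolynomial.aeval_X]
      exact RingHom.congr_fun h2 g
    rw [h1] at hg
    have h2 := hAF0 _ hg
    have h3 : MvPolynomial.aeval (Sum.elim z fun i => f i z) (MvPolynomial.aeval V g) =
        ((MvPolynomial.aeval (w ∘ j) g : A0) : ℂ) := by
      have h4 : (MvPolynomial.aeval (Sum.elim z fun i => f i z) : MvPolynomial _ ℚ →ₐ[ℚ] ℂ).comp
          (MvPolynomial.aeval V) = A0.val.comp (MvPolynomial.aeval (w ∘ j)) := by
        apply MvPolynomial.algHom_ext
        intro i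
        simp only [AlgHom.comp_apply, MvPolynomial.aeval_X]
        exact hW _
      exact AlgHom.congr_fun h4 g
    rw [h3] at h2
    have h5 : MvPolynomial.aeval (w ∘ j) g = 0 := Subtype.ext h2
    exact (injective_iff_map_eq_zero _).1 hw' g h5
  have hle : d ≤ Fintype.card t := by
    have h1 := hind.cardinalMk_le_trdeg
    rw [htr, Cardinal.mk_fin] at h1
    have h2 : Fintype.card X + d ≤ Fintype.card t + Fintype.card X := by exact_mod_cast h1
    omega
  have hemb2 : Nonempty (Fin d ↪ t) := by
    rw [Function.Embedding.nonempty_iff_card_le, Fintype.card_fin]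
    exact hle
  obtain ⟨e⟩ := hemb2
  refine ⟨fun i => ι (e i), hιinj.comp e.injective, ?_⟩
  intro p hp
  have h1 : AlgebraicIndependent (MvPolynomial X Qbar) ((F ∘ ι) ∘ e) := htb.1.comp e e.injective
  apply (injective_iff_map_eq_zero _).1 h1
  have h2 : MvPolynomial.aeval ((F ∘ ι) ∘ e) p = MvPolynomial.aeval F (MvPolynomial.rename (fun i => ι (e i)) p) := by
    rw [MvPolynomial.aeval_rename]
    rfl
  rw [h2, hz]
  intro y hy
  rw [MvPolynomial.map_rename, evM, MvPolynomial.eval₂_rename]
  exact hp y hy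

end Pool.Agent.Run7.h10.QS
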