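import Pool.Agent.Y890.MV.Main

/-!
# The closure of the graph over the algebraic numbers and new relations at algebraic points: definitions
-/

set_option autoImplicit false
set_option linter.unusedSectionVars false

open NumberField Filter

namespace Pool.Agent.Run7.h10.QS

open Pool.Agent.Y890.MV (InnerM)
open Pool.Agent.Y124 (Cov)

section
variable {X σ : Type}

/-- The fibre over `x` of the Zariski closure, over the field of algebraic numbers, of the graph `{(z, f z) : z ∈ U}`. -/
def Fibre (U : Set (X → ℂ)) (f : (X → ℂ) → σ → ℂ) (x : X → ℂ) : Set (σ → ℂ) :=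
  {a | ∀ R : MvPolynomial (X ⊕ σ) (algebraicClosure ℚ ℂ),
    (∀ z ∈ U, MvPolynomial.aeval (Sum.elim z (f z)) R = 0) → MvPolynomial.aeval (Sum.elim x a) R = 0}

/-- The set `S` is irreducible in the Zariski topology (or empty): if the product of two polynomials vanishes on `S`, then
one of the two does. -/
def IsIrred (S : Set (σ → ℂ)) : Prop :=
  ∀ A B : MvPolynomial σ ℂ, (∀ a ∈ S, MvPolynomial.eval a A * MvPolynomial.eval a B = 0) →
    (∀ a ∈ S, MvPolynomial.eval a A = 0) ∨ ∀ a ∈ S, MvPolynomial.eval a B = 0

variable (K : Type) [Field K] [NumberField K]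

/-- the value at `a` of a polynomial over the integers of the number field `K`, which is embedded in `ℂ` by `io` -/
noncomputable def value {K : Type} [Field K] [NumberField K] (io : K →+* ℂ) (R : MvPolynomial σ (𝓞 K))
    (a : σ → ℂ) : ℂ :=
  MvPolynomial.eval₂ (io.comp (algebraMap (𝓞 K) K)) a R

/-- The polynomial `R` over the integers of `K` has degree at most `k` in each variable, and all the conjugates of its
coefficients have absolute value at most `T ^ k`. -/
def Bounded (k : ℕ) (T : ℝ) (R : MvPolynomial σ (𝓞 K)) : Prop :=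
  (∀ i, R.degreeOf i ≤ k) ∧ ∀ (m : σ →₀ ℕ) (φ : K →+* ℂ), ‖φ ((R.coeff m : 𝓞 K) : K)‖ ≤ T ^ k

variable [Fintype X]

/-- The points of `U` with coordinates in `K` of height at most `T` (quotients of integers of `K` of house at most `T`), of
norm at most `k` and distance at least `1 / k` from the complement of `U`. -/
def Points (U : Set (X → ℂ)) (io : K →+* ℂ) (k : ℕ) (T : ℝ) : Set (X → K) :=
  {s | (∀ i, Y120.HtLe K T (s i)) ∧ (fun i => io (s i)) ∈ InnerM U k}

/-- The points with new relations: some relation of degree at most `k` and size at most `T ^ k` over `K` at the point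
`f s` does not hold on an irreducible subset through this point of the fibre over `s` of the closure of the graph. -/
def New (U : Set (X → ℂ)) (f : (X → ℂ) → σ → ℂ) (io : K →+* ℂ) (k : ℕ) (T : ℝ) : Set (X → K) :=
  {s | s ∈ Points K U io k T ∧ ∃ R : MvPolynomial σ (𝓞 K), Bounded K k T R ∧ value io R (f fun i => io (s i)) = 0 ∧
    ∃ S : Set (σ → ℂ), IsIrred S ∧ (f fun i => io (s i)) ∈ S ∧ S ⊆ Fibre U f (fun i => io (s i)) ∧
      ∃ a ∈ S, value io R a ≠ 0}

/-- The points at which the values of the functions `f` satisfy a nontrivial relation of degree at most `k` and size at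
most `T ^ k` over `K`. -/
def Dependent (U : Set (X → ℂ)) (f : (X → ℂ) → σ → ℂ) (io : K →+* ℂ) (k : ℕ) (T : ℝ) : Set (X → K) :=
  {s | s ∈ Points K U io k T ∧ ∃ R : MvPolynomial σ (𝓞 K), Bounded K k T R ∧ R ≠ 0 ∧
    value io R (f fun i => io (s i)) = 0}

end

/-- The sets `E K io k T` of points over number fields have few points: there is a function `ω` tending to infinity such
that for all large `T` and all number fields `K` of degree at most `ω T`, embedded in `ℂ`, the set `E K io (ω T) T` is
contained in the union of at most `T ^ (1 / ω T)` hypersurfaces of degree at most `T ^ (1 / ω T)`, and has at most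
`T ^ (1 / ω T) * N ^ (|X| - 1)` elements, where `N` is the number of elements of `K` of height at most `T`. -/
def Few {X : Type} [Fintype X]
    (E : (K : Type) → [Field K] → [NumberField K] → (K →+* ℂ) → ℕ → ℝ → Set (X → K)) : Prop :=
  ∃ (ω : ℝ → ℕ) (T₀ : ℝ), Tendsto ω atTop atTop ∧ Monotone ω ∧ ∀ T, T₀ ≤ T → 0 < ω T ∧
    ∀ (K : Type) [Field K] [NumberField K], Module.finrank ℚ K ≤ ω T → ∀ io : K →+* ℂ,
      Cov ⌊T ^ ((ω T : ℝ)⁻¹)⌋₊ ⌊T ^ ((ω T : ℝ)⁻¹)⌋₊ ((fun (s : X → K) j => io (s j)) '' E K io (ω T) T) ∧
      (E K io (ω T) T).Finite ∧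
      ((E K io (ω T) T).ncard : ℝ) ≤
        T ^ ((ω T : ℝ)⁻¹) * ({x : K | Y120.HtLe K T x}.ncard : ℝ) ^ (Fintype.card X - 1)

end Pool.Agent.Run7.h10.QS
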