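import Pool.Agent.Run7.h10.QS.D1
import Pool.Agent.Run7.h10.QS.C2
import Pool.Agent.Y119.PLM.Main

/-!
# New relations at algebraic points are rare
-/

set_option autoImplicit false
set_option linter.unusedSectionVars false

open NumberField Filter

namespace Pool.Agent.Run7.h10.QS

open Pool.Agent.Y890.MV Pool.Agent.Y890.SP
open Pool.Agent.N207.GS (Irr)

theorem allAlg_Qbar : AllAlg Qbar := fun _ _ _ io a => ⟨ioQ io a, ioQ_coe io a⟩

/-- polynomials in the functions as polynomials in all the variables -/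
theorem fibre_sub {X σ : Type} (U : Set (X → ℂ)) (f : (X → ℂ) → σ → ℂ) (x : X → ℂ) :
    Fibre U f x ⊆ FibQ Qbar U (fun i z => f z i) x := by
  intro a ha p hp
  let R : MvPolynomial (X ⊕ σ) Qbar := MvPolynomial.rename Sum.swap ((MvPolynomial.sumAlgEquiv Qbar σ X).symm p)
  have key : ∀ (z : X → ℂ) (b : σ → ℂ), MvPolynomial.aeval (Sum.elim z b) R =
      evX z b (MvPolynomial.map (mC Qbar X) p) := by
    intro z b
    have h : ((MvPolynomial.aeval (Sum.elim z b) : MvPolynomial (X ⊕ σ) Qbar →ₐ[Qbar] ℂ).toRingHom.comp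
        (MvPolynomial.rename Sum.swap : MvPolynomial (σ ⊕ X) Qbar →ₐ[Qbar] _).toRingHom).comp
        (MvPolynomial.sumAlgEquiv Qbar σ X).symm.toRingEquiv.toRingHom =
        (MvPolynomial.eval₂Hom (MvPolynomial.eval z) b).comp (MvPolynomial.map (mC Qbar X)) := by
      apply MvPolynomial.ringHom_ext
      · intro q
        induction q using MvPolynomial.induction_on with
        | C c =>
          change MvPolynomial.aeval (Sum.elim z b) (MvPolynomial.rename Sum.swap
            ((MvPolynomial.sumAlgEquiv Qbar σ X).symm (MvPolynomial.C (MvPolynomial.C c)))) = _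
          rw [MvPolynomial.sumAlgEquiv_symm_C_C, MvPolynomial.rename_C, MvPolynomial.aeval_C]
          simp only [RingHom.comp_apply, MvPolynomial.map_C, MvPolynomial.eval₂Hom_C, mC, MvPolynomial.eval_C]
        | add q r hq hr => simp only [map_add, hq, hr]
        | mul_X q i hq =>
          rw [map_mul, map_mul, hq, map_mul]
          congr 1
          change MvPolynomial.aeval (Sum.elim z b) (MvPolynomial.rename Sum.swap
            ((MvPolynomial.sumAlgEquiv Qbar σ X).symm (MvPolynomial.C (MvPolynomial.X i)))) = _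
          rw [MvPolynomial.sumAlgEquiv_symm_C_X, MvPolynomial.rename_X, MvPolynomial.aeval_X]
          simp only [RingHom.comp_apply, MvPolynomial.map_C, MvPolynomial.eval₂Hom_C, mC, MvPolynomial.map_X,
            MvPolynomial.eval_X, Sum.swap_inr, Sum.elim_inl]
      · intro i
        change MvPolynomial.aeval (Sum.elim z b) (MvPolynomial.rename Sum.swap
            ((MvPolynomial.sumAlgEquiv Qbar σ X).symm (MvPolynomial.X i))) = _
        rw [MvPolynomial.sumAlgEquiv_symm_X, MvPolynomial.rename_X, MvPolynomial.aeval_X]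
        simp only [RingHom.comp_apply, MvPolynomial.map_X, MvPolynomial.eval₂Hom_X', Sum.swap_inl, Sum.elim_inr]
    exact RingHom.congr_fun h p
  rw [← key]
  apply ha
  intro z hz
  rw [key]
  exact hp z hz

theorem few_conv {X : Type} [Fintype X]
    {E : (K : Type) → [Field K] → [NumberField K] → (K →+* ℂ) → ℕ → ℝ → Set (X → K)}
    (h : Pool.Agent.N207.GS.Few (X := X) fun K _ _ io k _ T => E K io k T) : Few E := by
  obtain ⟨ω, T₀, h1, h2, h3⟩ := h
  exact ⟨ω, T₀, h1, h2, fun T hT => ⟨(h3 T hT).1, fun K _ _ hK io => (h3 T hT).2 K hK io 0⟩⟩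

theorem value_eq {σ K : Type} [Fintype σ] [DecidableEq σ] [Field K] [NumberField K] (io : K →+* ℂ)
    (R : MvPolynomial σ (𝓞 K)) {k : ℕ} (hR : ∀ i, R.degreeOf i ≤ k) (a : σ → ℂ) :
    ∑ l : σ → Fin (k + 1), io ((R.coeff (Finsupp.equivFunOnFinite.symm fun y => (l y : ℕ)) : 𝓞 K) : K) *
      ∏ y, a y ^ (l y : ℕ) = value io R a := by
  have h1 : ∀ y, (MvPolynomial.map (io.comp (algebraMap (𝓞 K) K)) R).degreeOf y ≤ k := by
    intro y
    refine le_trans ?_ (hR y)
    rw [MvPolynomial.degreeOf_le_iff]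
    intro m hm
    exact MvPolynomial.degreeOf_le_iff.1 le_rfl m (MvPolynomial.support_map_subset _ _ hm)
  have h2 := Y119.PLM.sum_expM h1 a
  rw [MvPolynomial.eval_map] at h2
  rw [value, ← h2]
  refine Finset.sum_congr rfl fun l _ => ?_
  rw [MvPolynomial.coeff_map]
  rfl

theorem new_few {X σ : Type} [Fintype X] [DecidableEq X] [Nonempty X] [Fintype σ] [DecidableEq σ]
    {U : Set (X → ℂ)} {f : (X → ℂ) → σ → ℂ} (hU : IsPreconnected U) (hUo : IsOpen U) (hne : U.Nonempty)
    (hf : ∀ i, AnalyticOnNhd ℂ (fun z => f z i) U) : Few fun K _ _ io k T => New K U f io k T := by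
  apply few_conv
  refine (compQ_few allAlg_Qbar hU hUo hne hf).mono fun K _ _ io k ξ T => ?_
  rintro s ⟨⟨h1, h2⟩, R, ⟨h3, h4⟩, h5, S, h6, h7, h8, a, h9, h10⟩
  refine ⟨h1, h2, fun l => R.coeff (Finsupp.equivFunOnFinite.symm fun y => (l y : ℕ)), ?_, ?_, S, h6, h7,
    h8.trans (fibre_sub U f _), a, h9, ?_⟩
  · intro l φ
    rw [Real.rpow_natCast]
    exact h4 _ φ
  · exact (value_eq io R h3 _).trans h5
  · rw [value_eq io R h3]
    exact h10

theorem irr_univ {σ : Type} : Irr (Set.univ : Set (σ → ℂ)) := by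
  intro P Q h
  have h1 : P * Q = 0 := by
    apply MvPolynomial.funext
    intro a
    rw [map_mul, map_zero]
    exact h a trivial
  rcases mul_eq_zero.1 h1 with h2 | h2
  · left
    intro a _
    rw [h2, map_zero]
  · right
    intro a _
    rw [h2, map_zero]

/-- the values of functions independent over the algebraic numbers -/
theorem dep_few {X σ : Type} [Fintype X] [DecidableEq X] [Nonempty X] [Fintype σ] [DecidableEq σ]
    {U : Set (X → ℂ)} {f : (X → ℂ) → σ → ℂ} (hU : IsPreconnected U) (hUo : IsOpen U) (hne : U.Nonempty)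
    (hf : ∀ i, AnalyticOnNhd ℂ (fun z => f z i) U)
    (hind : ∀ p : MvPolynomial σ (MvPolynomial X Qbar),
      (∀ z ∈ U, evM (fun i z => f z i) z (MvPolynomial.map (mC Qbar X) p) = 0) → p = 0) :
    Few fun K _ _ io k T => Dependent K U f io k T := by
  apply few_conv
  refine (compQ_few allAlg_Qbar hU hUo hne hf).mono fun K _ _ io k ξ T => ?_
  rintro s ⟨⟨h1, h2⟩, R, ⟨h3, h4⟩, h5, h6⟩
  refine ⟨h1, h2, fun l => R.coeff (Finsupp.equivFunOnFinite.symm fun y => (l y : ℕ)), ?_, ?_, Set.univ, irr_univ,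
    trivial, ?_, ?_⟩
  · intro l φ
    rw [Real.rpow_natCast]
    exact h4 _ φ
  · exact (value_eq io R h3 _).trans h6
  · intro a _ p hp
    rw [hind p hp, map_zero]
    exact MvPolynomial.eval₂_zero _ _
  · by_contra hcon
    push Not at hcon
    apply h5
    have hinj : Function.Injective (io.comp (algebraMap (𝓞 K) K)) :=
      io.injective.comp (FaithfulSMul.algebraMap_injective (𝓞 K) K)
    apply MvPolynomial.map_injective _ hinj
    rw [map_zero]
    apply MvPolynomial.funext
    intro a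
    rw [map_zero, MvPolynomial.eval_map]
    have h7 := hcon a trivial
    rw [value_eq io R h3] at h7
    exact h7

theorem exists_ratl {X σ : Type} [Fintype X] [DecidableEq X] [Fintype σ] {U : Set (X → ℂ)}
    {f : (X → ℂ) → σ → ℂ} (hU : IsPreconnected U) (hUo : IsOpen U) (hne : U.Nonempty)
    (hf : ∀ i, AnalyticOnNhd ℂ (fun z => f z i) U) (d : ℕ)
    (hd : ∀ z ∈ U, Algebra.trdeg ℚ (Algebra.adjoin ℚ (Set.range z ∪ Set.range (f z))) <
      ((Fintype.card X + d : ℕ) : Cardinal)) (ι : Fin d → σ) :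
    ∃ R : MvPolynomial (X ⊕ Fin d) ℚ, R ≠ 0 ∧
      ∀ z ∈ U, MvPolynomial.aeval (Sum.elim z fun i => f z (ι i)) R = 0 := by
  classical
  by_contra hcon
  push Not at hcon
  obtain ⟨z, hz, hind⟩ := exists_gen (g := fun z i => f z (ι i)) hU hUo hne (fun i => hf _) hcon
  have h1 := hd z hz
  set A0 := Algebra.adjoin ℚ (Set.range z ∪ Set.range (f z)) with hA0
  have hmem : ∀ j, Sum.elim z (fun i => f z (ι i)) j ∈ A0 := by
    rintro (j | j)
    · exact Algebra.subset_adjoin (Or.inl ⟨j, rfl⟩)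
    · exact Algebra.subset_adjoin (Or.inr ⟨ι j, rfl⟩)
  have h2 : AlgebraicIndependent ℚ (fun j => (⟨_, hmem j⟩ : A0)) := by
    have h3 : AlgebraicIndependent ℚ (A0.val ∘ fun j => (⟨_, hmem j⟩ : A0)) := hind
    exact AlgebraicIndependent.of_comp A0.val h3
  have h3 := h2.cardinalMk_le_trdeg
  rw [Cardinal.mk_fintype, Fintype.card_sum, Fintype.card_fin] at h3
  exact absurd h1 (not_lt.2 h3)

end Pool.Agent.Run7.h10.QS
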