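import Pool.Agent.Run7.h10.QS.D1

/-!
# The dimension of the space of periods: definitions
-/

set_option autoImplicit false
set_option linter.unusedSectionVars false

namespace Pool.Agent.Run7.h10.QS

section
variable {X σ : Type}

/-- The algebraic closure in `ℂ` of the field generated by the coordinates of `z`. If the coordinates of `z` are
algebraic numbers, this is the field of algebraic numbers (`mem_const_iff`). -/
noncomputable abbrev Const (z : X → ℂ) : IntermediateField (IntermediateField.adjoin ℚ (Set.range z)) ℂ :=
  algebraicClosure (IntermediateField.adjoin ℚ (Set.range z)) ℂ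

/-- The dimension over the field `Const z` of the space generated by the numbers `f z i`. -/
noncomputable def dim (f : (X → ℂ) → σ → ℂ) (z : X → ℂ) : ℕ :=
  Module.finrank (Const z) (Submodule.span (Const z) (Set.range (f z)))

/-- The point `z` is very general: all relations with algebraic coefficients between the coordinates of `z` and the
numbers `f z i` hold on the whole graph. -/
def VeryGeneral (U : Set (X → ℂ)) (f : (X → ℂ) → σ → ℂ) (z : X → ℂ) : Prop :=
  ∀ R : MvPolynomial (X ⊕ σ) (algebraicClosure ℚ ℂ), MvPolynomial.aeval (Sum.elim z (f z)) R = 0 →
    ∀ w ∈ U, MvPolynomial.aeval (Sum.elim w (f w)) R = 0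

end

end Pool.Agent.Run7.h10.QS
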