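import Pool.Agent.Run7.h10.QS.A4

/-!
# The norm form of a linear combination of elements which are linearly independent over the algebraic closure
-/

set_option autoImplicit false
set_option linter.unusedSectionVars false

open Polynomial

namespace Pool.Agent.Run7.h10.QS

open Pool.Agent.Y890.SP (evI)

attribute [local instance] MvPolynomial.algebraMvPolynomial

/-- The elements `y l` of the field `L` over the ring `A` remain linearly independent over the algebraic closure of `A`
in every extension of `L`. -/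
def SLI (A : Type) {L Λ : Type} [CommRing A] [Field L] [Algebra A L] [Fintype Λ] (y : Λ → L) : Prop :=
  ∀ (E : Type) [Field E] (Φ : L →+* E) (c : Λ → E),
    (∀ l, ∃ p : Polynomial A, p ≠ 0 ∧ p.eval₂ (Φ.comp (algebraMap A L)) (c l) = 0) →
    ∑ l, c l * Φ (y l) = 0 → c = 0

/-- The prime ideal argument. -/
theorem norm_zero2 {A B0 L ρ Λ : Type} [CommRing A] [IsDomain A] [UniqueFactorizationMonoid A] [CommRing B0]
    [IsDomain B0] [Algebra (MvPolynomial ρ A) B0] [FaithfulSMul (MvPolynomial ρ A) B0]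
    [Algebra.IsIntegral (MvPolynomial ρ A) B0] [Field L] [Algebra B0 L] [IsFractionRing B0 L] [Algebra A L]
    (htow : ∀ a, algebraMap A L a = algebraMap B0 L (algebraMap (MvPolynomial ρ A) B0 (MvPolynomial.C a)))
    [Fintype Λ] (y : Λ → L) (hy : SLI A y) (t : Λ → B0)
    (D : MvPolynomial ρ A) (hD : D ≠ 0)
    (ht : ∀ l, algebraMap B0 L (t l) = algebraMap B0 L (algebraMap (MvPolynomial ρ A) B0 D) *
      y l)
    (G : MvPolynomial Λ (MvPolynomial ρ A))
    (hG : G = (minpoly (MvPolynomial Λ (MvPolynomial ρ A))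
      (∑ l, MvPolynomial.X l * MvPolynomial.C (t l) : MvPolynomial Λ B0)).coeff 0)
    (Ω : Type) [Field Ω] [Algebra A Ω] [FaithfulSMul A Ω] [Algebra.IsAlgebraic A Ω] (c : Λ → Ω)
    (hc : MvPolynomial.eval₂Hom (MvPolynomial.map (algebraMap A Ω)) (fun l => MvPolynomial.C (c l)) G = 0) :
    c = 0 := by
  classical
  have hSB0 : Function.Injective (algebraMap (MvPolynomial ρ A) B0) := FaithfulSMul.algebraMap_injective _ B0
  have : FaithfulSMul (MvPolynomial Λ (MvPolynomial ρ A)) (MvPolynomial Λ B0) :=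
    (faithfulSMul_iff_algebraMap_injective _ _).2 (MvPolynomial.map_injective _ hSB0)
  have hAΩ : Function.Injective (algebraMap A Ω) := FaithfulSMul.algebraMap_injective A Ω
  rw [hG] at hc
  obtain ⟨E, _, _, θ, hθT, -, hθ⟩ := exists_dom _ _ hc
  let θ0 : B0 →+* E := θ.comp MvPolynomial.C
  have hθ0 : ∀ r : MvPolynomial ρ A, θ0 (algebraMap (MvPolynomial ρ A) B0 r) = 0 → r = 0 := by
    intro r hr
    have h1 : θ (algebraMap (MvPolynomial Λ (MvPolynomial ρ A)) (MvPolynomial Λ B0) (MvPolynomial.C r)) = 0 := by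
      rw [MvPolynomial.algebraMap_def, MvPolynomial.map_C]
      exact hr
    rw [hθ, MvPolynomial.eval₂Hom_C] at h1
    exact (map_eq_zero_iff _ (MvPolynomial.map_injective _ hAΩ)).1 h1
  have hker : RingHom.ker θ0 = ⊥ := by
    apply Ideal.eq_bot_of_comap_eq_bot (R := MvPolynomial ρ A)
    rw [eq_bot_iff]
    intro r hr
    exact hθ0 r hr
  have hθ0i : Function.Injective θ0 := (RingHom.injective_iff_ker_eq_bot θ0).2 hker
  let FE := FractionRing E
  have hEFE : Function.Injective (algebraMap E FE) := IsFractionRing.injective E FE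
  let θ1 : B0 →+* FE := (algebraMap E FE).comp θ0
  have hθ1 : Function.Injective θ1 := hEFE.comp hθ0i
  let Φ : L →+* FE := IsFractionRing.lift hθ1
  have hΦ : ∀ b : B0, Φ (algebraMap B0 L b) = θ1 b := fun b => IsFractionRing.lift_algebraMap hθ1 b
  let algA : Algebra A FE := (Φ.comp (algebraMap A L)).toAlgebra
  have hmapA : ∀ a : A, algebraMap A FE a = Φ (algebraMap A L a) := fun a => rfl
  have hmapA' : ∀ a : A, algebraMap A FE a = algebraMap E FE (θ
      (algebraMap (MvPolynomial Λ (MvPolynomial ρ A)) (MvPolynomial Λ B0) (MvPolynomial.C (MvPolynomial.C a)))) := by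
    intro a
    rw [hmapA, htow, hΦ, MvPolynomial.algebraMap_def, MvPolynomial.map_C]
    rfl
  let c' : Λ → FE := fun l => algebraMap E FE (θ (MvPolynomial.X l))
  have hc'a : ∀ l, IsAlgebraic A (c' l) := by
    intro l
    obtain ⟨p, hp, hp0⟩ := Algebra.IsAlgebraic.isAlgebraic (R := A) (c l)
    refine ⟨p, hp, ?_⟩
    let j : A →+* MvPolynomial Λ (MvPolynomial ρ A) := (MvPolynomial.C).comp MvPolynomial.C
    have h1 : MvPolynomial.eval₂Hom (MvPolynomial.map (σ := ρ) (algebraMap A Ω)) (fun l => MvPolynomial.C (c l))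
        (Polynomial.eval₂ j (MvPolynomial.X l) p) = 0 := by
      rw [Polynomial.hom_eval₂]
      have h2 : (MvPolynomial.eval₂Hom (MvPolynomial.map (σ := ρ) (algebraMap A Ω))
          (fun l => MvPolynomial.C (c l))).comp j = (MvPolynomial.C).comp (algebraMap A Ω) := by
        apply RingHom.ext
        intro a
        simp [j]
      rw [h2, MvPolynomial.eval₂Hom_X', ← Polynomial.hom_eval₂]
      have h4 : Polynomial.eval₂ (algebraMap A Ω) (c l) p = 0 := hp0
      rw [h4, map_zero]
    rw [← hθ] at h1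
    have h5 : Polynomial.aeval (c' l) p = algebraMap E FE (θ
        (algebraMap (MvPolynomial Λ (MvPolynomial ρ A)) (MvPolynomial Λ B0)
          (Polynomial.eval₂ j (MvPolynomial.X l) p))) := by
      rw [Polynomial.hom_eval₂, Polynomial.hom_eval₂, Polynomial.hom_eval₂, Polynomial.aeval_def]
      congr 1
      · apply RingHom.ext
        intro a
        exact hmapA' a
      · rw [MvPolynomial.algebraMap_def, MvPolynomial.map_X]
    rw [h5, h1, map_zero]
  have hsum : ∑ l, c' l * Φ (y l) = 0 := by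
    have h1 : algebraMap E FE (θ (∑ l, MvPolynomial.X l * MvPolynomial.C (t l))) = 0 := by rw [hθT, map_zero]
    have h2 : algebraMap E FE (θ (∑ l, MvPolynomial.X l * MvPolynomial.C (t l))) =
        Φ (algebraMap B0 L (algebraMap (MvPolynomial ρ A) B0 D)) * ∑ l, c' l * Φ (y l) := by
      rw [map_sum, map_sum, Finset.mul_sum]
      refine Finset.sum_congr rfl fun l _ => ?_
      rw [map_mul, map_mul]
      have h3 : algebraMap E FE (θ (MvPolynomial.C (t l))) = Φ (algebraMap B0 L (t l)) := by
        rw [hΦ]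
        rfl
      rw [h3, ht, map_mul]
      ring
    rw [h2] at h1
    have h6 : Φ (algebraMap B0 L (algebraMap (MvPolynomial ρ A) B0 D)) ≠ 0 := by
      rw [Ne, map_eq_zero, map_eq_zero_iff _ (IsFractionRing.injective B0 L), map_eq_zero_iff _ hSB0]
      exact hD
    exact (mul_eq_zero.1 h1).resolve_left h6
  have hc0 : c' = 0 := hy FE Φ c' hc'a hsum
  funext l
  have h1 : θ (MvPolynomial.X l) = 0 := by
    apply hEFE
    rw [map_zero]
    exact congrFun hc0 l
  have h2 : MvPolynomial.eval₂Hom (MvPolynomial.map (σ := ρ) (algebraMap A Ω)) (fun l => MvPolynomial.C (c l))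
      (MvPolynomial.X l) = 0 := by
    rw [← hθ, MvPolynomial.algebraMap_def, MvPolynomial.map_X]
    exact h1
  rw [MvPolynomial.eval₂Hom_X', MvPolynomial.C_eq_zero] at h2
  exact h2

theorem normForm2 {A L ρ Λ : Type} [CommRing A] [IsDomain A] [UniqueFactorizationMonoid A] [Field L] [Algebra A L]
    [FaithfulSMul A L] [Fintype Λ] (v : ρ → L) (hv : IsTranscendenceBasis A v) (y : Λ → L)
    (hy : SLI A y) :
    ∃ (D : MvPolynomial ρ A) (q : Polynomial (MvPolynomial Λ (MvPolynomial ρ A))),
      eval₂ (MvPolynomial.map (evI v))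
        (∑ l, MvPolynomial.X l * MvPolynomial.C (evI v D * y l) : MvPolynomial Λ L) q = 0 ∧
      ∃ Δ : A, Δ ≠ 0 ∧ ∀ (k : Type) [CommRing k] [IsDomain k] (g : A →+* k) (c : Λ → k), g Δ ≠ 0 →
        MvPolynomial.eval₂Hom (MvPolynomial.map g) (fun l => MvPolynomial.C (c l)) (q.coeff 0) = 0 → c = 0 := by
  classical
  let algS : Algebra (MvPolynomial ρ A) L := (evI v).toAlgebra
  have hmapS : ∀ p : MvPolynomial ρ A, algebraMap (MvPolynomial ρ A) L p = evI v p := fun p => rfl
  have hSinj : Function.Injective (algebraMap (MvPolynomial ρ A) L) := hv.1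
  have : FaithfulSMul (MvPolynomial ρ A) L := (faithfulSMul_iff_algebraMap_injective _ L).2 hSinj
  have htower : IsScalarTower A (MvPolynomial ρ A) L := IsScalarTower.of_algebraMap_eq fun a => by
    rw [hmapS]
    exact (MvPolynomial.aeval_C v a).symm
  -- algebraic
  have halg1 : Algebra.IsAlgebraic (MvPolynomial ρ A) L := by
    have h1 := hv.isAlgebraic
    refine ⟨fun l => ?_⟩
    have h2 : IsAlgebraic (Algebra.adjoin A (Set.range v)) l := h1.isAlgebraic l
    exact h2.ringHom_of_comp_eq (hv.1.aevalEquiv.symm : _ →+* MvPolynomial ρ A) (RingHom.id L)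
      (hv.1.aevalEquiv.symm.injective) (by
        ext y
        obtain ⟨z, rfl⟩ := hv.1.aevalEquiv.surjective y
        simp only [RingHom.comp_apply]
        change algebraMap (MvPolynomial ρ A) L (hv.1.aevalEquiv.symm (hv.1.aevalEquiv z)) = _
        rw [AlgEquiv.symm_apply_apply, hmapS]
        exact (hv.1.algebraMap_aevalEquiv z).symm)
  have hmul : ∀ l : Λ, ∃ b : MvPolynomial ρ A, b ≠ 0 ∧
      IsIntegral (MvPolynomial ρ A) (algebraMap (MvPolynomial ρ A) L b * y l) := by
    intro l
    obtain ⟨b, hb, hb'⟩ := (halg1.isAlgebraic (y l)).exists_integral_multiple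
    refine ⟨b, hb, ?_⟩
    rw [← Algebra.smul_def]
    exact hb'
  choose b hb hbi using hmul
  obtain ⟨D, hD⟩ : ∃ D, D = ∏ l, b l := ⟨_, rfl⟩
  have hDi : ∀ l, IsIntegral (MvPolynomial ρ A)
      (algebraMap (MvPolynomial ρ A) L D * y l) := by
    intro l
    have h1 : D = (∏ k ∈ Finset.univ.erase l, b k) * b l := by
      rw [hD, mul_comm]
      exact (Finset.mul_prod_erase _ _ (Finset.mem_univ l)).symm
    rw [h1, map_mul, mul_assoc]
    exact isIntegral_algebraMap.mul (hbi l)
  have hD0 : D ≠ 0 := by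
    rw [hD]
    exact Finset.prod_ne_zero_iff.2 fun l _ => hb l
  have hfr : IsFractionRing (integralClosure (MvPolynomial ρ A) L) L :=
    integralClosure.isFractionRing_of_algebraic (fun x hx => by
      rw [← map_zero (algebraMap (MvPolynomial ρ A) L)] at hx
      exact hSinj hx)
  let t : Λ → integralClosure (MvPolynomial ρ A) L := fun l => ⟨_, hDi l⟩
  have ht : ∀ l, algebraMap (integralClosure (MvPolynomial ρ A) L) L (t l) =
      evI v D * y l := fun l => rfl
  refine ⟨D, minpoly (MvPolynomial Λ (MvPolynomial ρ A)) (∑ l, MvPolynomial.X l * MvPolynomial.C (t l) :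
    MvPolynomial Λ (integralClosure (MvPolynomial ρ A) L)), ?_, ?_⟩
  · have h1 := map_min (S := MvPolynomial ρ A) (B0 := integralClosure (MvPolynomial ρ A) L) (L := L) (Λ := Λ) t
      (evI v) (fun s => rfl)
    simp only [ht] at h1
    exact h1
  · apply spread
    intro Ω _ _ _ _ c hc
    exact norm_zero2 (B0 := integralClosure (MvPolynomial ρ A) L) (L := L) (fun a => (MvPolynomial.aeval_C v a).symm)
      y hy t D hD0 (fun l => rfl) _ rfl Ω c hc

end Pool.Agent.Run7.h10.QS
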