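import Pool.Agent.Run7.h10.QS.E1

/-!
# Linear independence over the algebraic elements of the field implies linear independence over the algebraic closure
-/

set_option autoImplicit false
set_option linter.unusedSectionVars false

open Polynomial IntermediateField

namespace Pool.Agent.Run7.h10.QS

theorem sli_field {F L Λ : Type} [Field F] [Field L] [CharZero L] [Algebra F L] [Fintype Λ] (y : Λ → L)
    (h : ∀ a : Λ → L, (∀ l, IsAlgebraic F (a l)) → ∑ l, a l * y l = 0 → a = 0) (E : Type) [Field E] [Algebra L E]
    [Algebra F E] [IsScalarTower F L E] (c : Λ → E) (hc : ∀ l, IsAlgebraic F (c l))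
    (hsum : ∑ l, c l * algebraMap L E (y l) = 0) : c = 0 := by
  classical
  let Ω := algebraicClosure F L
  have hc' : ∀ l, IsIntegral Ω (c l) := fun l => (hc l).isIntegral.tower_top
  have : CharZero Ω := ((algebraMap Ω L).charZero_iff (algebraMap Ω L).injective).2 inferInstance
  let W := IntermediateField.adjoin Ω (Set.range c)
  have : FiniteDimensional Ω W := IntermediateField.finiteDimensional_adjoin (by
    rintro _ ⟨l, rfl⟩
    exact hc' l)
  let pb := Field.powerBasisOfFiniteOfSeparable Ω W
  set α : W := pb.gen with hα
  set θ : E := (α : E) with hθ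
  have hθi : IsIntegral Ω θ := by
    have h1 : IsIntegral Ω α := Algebra.IsIntegral.isIntegral α
    exact h1.map W.val
  have hθL : IsIntegral L θ := hθi.tower_top
  have hmin : minpoly Ω α = minpoly Ω θ := (minpoly.algebraMap_eq (algebraMap W E).injective α).symm
  -- the degree does not drop
  have hdeg : (minpoly Ω θ).natDegree ≤ (minpoly L θ).natDegree := by
    have hdvd : minpoly L θ ∣ (minpoly Ω θ).map (algebraMap Ω L) := minpoly.dvd_map_of_isScalarTower Ω L θ
    have hco : ∀ i, IsIntegral Ω ((minpoly L θ).coeff i) := fun i =>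
      Polynomial.isIntegral_coeff_of_dvd _ _ (minpoly.monic hθi) (minpoly.monic hθL) hdvd i
    have hmem : ∀ i, (minpoly L θ).coeff i ∈ Ω := by
      intro i
      rw [mem_algebraicClosure_iff]
      have h1 : IsIntegral F ((minpoly L θ).coeff i) := isIntegral_trans (R := F) (A := Ω) _ (hco i)
      exact h1.isAlgebraic
    have hl : minpoly L θ ∈ Polynomial.lifts (algebraMap Ω L) := by
      rw [Polynomial.lifts_iff_coeff_lifts]
      intro i
      exact ⟨⟨_, hmem i⟩, rfl⟩
    obtain ⟨g, hg, hgd, hgm⟩ := Polynomial.lifts_and_natDegree_eq_and_monic hl (minpoly.monic hθL)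
    have hg0 : aeval θ g = 0 := by
      have h1 : aeval θ (g.map (algebraMap Ω L)) = aeval θ g := Polynomial.aeval_map_algebraMap L θ g
      rw [← h1, hg, minpoly.aeval]
    have h2 := Polynomial.natDegree_le_of_dvd (minpoly.dvd Ω θ hg0) hgm.ne_zero
    rw [hgd] at h2
    exact h2
  -- coordinates
  have hcW : ∀ l, c l ∈ W := fun l => IntermediateField.subset_adjoin _ _ ⟨l, rfl⟩
  have hpb : pb.dim = (minpoly Ω α).natDegree := pb.natDegree_minpoly.symm
  have hco : ∀ l, ∃ f : Polynomial Ω, f.natDegree < pb.dim ∧ (⟨c l, hcW l⟩ : W) = aeval α f := fun l =>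
    pb.exists_eq_aeval _
  choose f hfd hf using hco
  have hdpos : 0 < pb.dim := by
    by_contra h0
    have h1 : pb.dim = 0 := by omega
    have h2 : 0 < (minpoly Ω α).natDegree := minpoly.natDegree_pos (Algebra.IsIntegral.isIntegral α)
    omega
  set G : Polynomial L := ∑ l, Polynomial.C (y l) * (f l).map (algebraMap Ω L) with hG
  have hGθ : aeval θ G = 0 := by
    rw [hG, map_sum, ← hsum]
    refine Finset.sum_congr rfl fun l _ => ?_
    rw [map_mul, Polynomial.aeval_C, Polynomial.aeval_map_algebraMap, mul_comm]
    congr 1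
    have h1 := congrArg (algebraMap W E) (hf l)
    rw [← Polynomial.aeval_algebraMap_apply] at h1
    exact h1.symm
  have hGd : G.degree < (minpoly L θ).degree := by
    have h1 : G.natDegree < (minpoly L θ).natDegree := by
      have h2 : G.natDegree ≤ pb.dim - 1 := by
        rw [hG]
        refine Polynomial.natDegree_sum_le_of_forall_le _ _ fun l _ => ?_
        refine (Polynomial.natDegree_C_mul_le _ _).trans ?_
        rw [Polynomial.natDegree_map]
        have := hfd l
        omega
      rw [← hmin] at hdeg
      omega
    exact Polynomial.degree_lt_degree h1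
  have hG0 : G = 0 := by
    by_contra hne
    exact absurd hGd (not_lt.2 (minpoly.degree_le_of_ne_zero L θ hne hGθ))
  have hf0 : ∀ l, f l = 0 := by
    have h1 : ∀ i, (fun l => ((f l).coeff i : L)) = 0 := by
      intro i
      apply h
      · intro l
        exact mem_algebraicClosure_iff.1 ((f l).coeff i).2
      · have h2 := congrArg (fun p : Polynomial L => p.coeff i) hG0
        simp only [hG, Polynomial.finsetSum_coeff, Polynomial.coeff_C_mul, Polynomial.coeff_map,
          Polynomial.coeff_zero] at h2
        rw [← h2]
        refine Finset.sum_congr rfl fun l _ => ?_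
        rw [mul_comm]
        rfl
    intro l
    ext i
    exact congrFun (h1 i) l
  funext l
  have h1 := hf l
  rw [hf0 l, map_zero] at h1
  exact congrArg Subtype.val h1

theorem sli_of {A L Λ : Type} [CommRing A] [IsDomain A] [Field L] [CharZero L] [Algebra A L] [FaithfulSMul A L]
    [Fintype Λ] (y : Λ → L) (h : ∀ a : Λ → L, (∀ l, IsAlgebraic A (a l)) → ∑ l, a l * y l = 0 → a = 0) :
    SLI A y := by
  intro E _ Φ c hc hsum
  let F := FractionRing A
  have hinj : Function.Injective (algebraMap A L) := FaithfulSMul.algebraMap_injective A L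
  let aF : Algebra F L := (IsFractionRing.lift hinj).toAlgebra
  have tow : IsScalarTower A F L := IsScalarTower.of_algebraMap_eq fun a =>
    (IsFractionRing.lift_algebraMap hinj a).symm
  let aL : Algebra L E := Φ.toAlgebra
  let aE : Algebra F E := (Φ.comp (algebraMap F L)).toAlgebra
  have tow2 : IsScalarTower F L E := IsScalarTower.of_algebraMap_eq fun a => rfl
  let aA : Algebra A E := (Φ.comp (algebraMap A L)).toAlgebra
  have tow3 : IsScalarTower A F E := IsScalarTower.of_algebraMap_eq fun a => by
    change Φ (algebraMap A L a) = Φ (algebraMap F L (algebraMap A F a))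
    rw [← IsScalarTower.algebraMap_apply A F L]
  refine sli_field (F := F) y (fun a ha => h a fun l => ?_) E c (fun l => ?_) hsum
  · exact (IsFractionRing.isAlgebraic_iff A F L).2 (ha l)
  · have h1 : IsAlgebraic A (c l) := by
      obtain ⟨p, hp, hp0⟩ := hc l
      exact ⟨p, hp, hp0⟩
    exact (IsFractionRing.isAlgebraic_iff A F E).1 h1

end Pool.Agent.Run7.h10.QS
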