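import Pool.Agent.Run7.h10.QS.E2
import Pool.Agent.Run7.h10.QS.B6

/-!
# Counting linear relations between functions which are linearly independent over the algebraic functions
-/

set_option autoImplicit false
set_option linter.unusedSectionVars false

open NumberField

namespace Pool.Agent.Run7.h10.QS

open Pool.Agent.Y890.MV Pool.Agent.Y890.SP
open Pool.Agent.Y124 (Cov)
open Pool.Agent.N207.GS

theorem exists_basis {A L σ : Type} [CommRing A] [IsDomain A] [Field L] [Algebra A L] [FaithfulSMul A L]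
    [Fintype σ] [DecidableEq σ] (F : σ → L)
    (hfrac : ∀ l : L, ∃ p q : MvPolynomial σ A, MvPolynomial.aeval F q ≠ 0 ∧
      MvPolynomial.aeval F q * l = MvPolynomial.aeval F p) :
    ∃ (I : Type) (_ : Fintype I) (_ : DecidableEq I) (ι : I → σ), IsTranscendenceBasis A (F ∘ ι) := by
  classical
  have halg0 : Algebra.IsAlgebraic (Algebra.adjoin A (Set.range F)) L := by
    refine ⟨fun l => ?_⟩
    obtain ⟨p, q, hq, hl⟩ := hfrac l
    have hmem : ∀ p : MvPolynomial σ A, MvPolynomial.aeval F p ∈ Algebra.adjoin A (Set.range F) := by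
      intro p
      rw [Algebra.adjoin_range_eq_range_aeval]
      exact ⟨p, rfl⟩
    refine ⟨Polynomial.C ⟨_, hmem q⟩ * Polynomial.X - Polynomial.C ⟨_, hmem p⟩, ?_, ?_⟩
    · intro h
      have h1 := congrArg (fun r => Polynomial.coeff r 1) h
      simp only [Polynomial.coeff_sub, Polynomial.coeff_C_mul, Polynomial.coeff_X_one, mul_one,
        Polynomial.coeff_C_succ, Polynomial.coeff_zero] at h1
      apply hq
      have h2 := congrArg Subtype.val h1
      simpa using h2
    · rw [map_sub, map_mul, Polynomial.aeval_C, Polynomial.aeval_X, Polynomial.aeval_C, sub_eq_zero]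
      exact hl
  obtain ⟨t, ht, htb⟩ := exists_isTranscendenceBasis_subset (R := A) (Set.range F)
  have hfinI : Finite t := (Set.finite_range F).subset ht
  let finI : Fintype t := Fintype.ofFinite t
  choose ι hι using fun x : t => ht x.2
  have hFι : F ∘ ι = ((↑) : t → L) := funext hι
  rw [← hFι] at htb
  exact ⟨t, finI, inferInstance, ι, htb⟩

/-- zeros of a polynomial in functions independent over `k` -/
theorem cov_alg {k X I : Type} [Field k] [Algebra k ℂ] (hk : AllAlg k) [Fintype X] [DecidableEq X] [Nonempty X]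
    [Fintype I] [DecidableEq I] (r : MvPolynomial I (MvPolynomial X k)) (hr : r ≠ 0) {U : Set (X → ℂ)}
    (hU : IsPreconnected U) (hUo : IsOpen U) (hne : U.Nonempty) (y : I → (X → ℂ) → ℂ)
    (hy : ∀ j, AnalyticOnNhd ℂ (y j) U)
    (hind : ∀ p : MvPolynomial I (MvPolynomial X k), (∀ z ∈ U, evM y z (MvPolynomial.map (mC k X) p) = 0) → p = 0)
    (Lc : Set (X → ℂ)) (hLc : IsCompact Lc) (hLU : Lc ⊆ U) (m : ℕ) (ε : ℝ) (hε : 0 < ε) :
    ∃ (D : ℕ) (C T₀ : ℝ), 0 ≤ C ∧ 2 ≤ T₀ ∧
      ∀ (K : Type) [Field K] [NumberField K], Module.finrank ℚ K ≤ m → ∀ (io : K →+* ℂ) (T : ℝ),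
        T₀ ≤ T → Cov D ⌊C * T ^ ε⌋₊ ((fun (s : X → K) i => io (s i)) ''
          {s | (∀ i, Y120.HtLe K T (s i)) ∧ (fun i => io (s i)) ∈ Lc ∧
            evM y (fun i => io (s i)) (MvPolynomial.map (mC k X) r) = 0}) := by
  classical
  obtain ⟨D, C, T₀, hC, hT₀, H⟩ := countQ hk (MvPolynomial.map (MvPolynomial.C (σ := Unit)) r) hU hUo hne y hy hind Lc
    hLc hLU m 0 ε hε
  have hrC : MvPolynomial.map (mC k X) r ≠ 0 := by
    rw [Ne, map_eq_zero_iff _ (MvPolynomial.map_injective _ (mC_inj k X))]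
    exact hr
  obtain ⟨α₀, hα₀⟩ := MvPolynomial.ne_zero_iff.1 hrC
  refine ⟨D + ((MvPolynomial.map (mC k X) r).coeff α₀).totalDegree, C + 1, T₀, by positivity, hT₀, ?_⟩
  intro K _ _ hm io T hT
  have h3 := H K hm io T hT
  have hT1 : 1 ≤ T := by linarith
  have hTp : 0 < T := by linarith
  have h6 : (1 : ℝ) ≤ T ^ ε := Real.one_le_rpow hT1 hε.le
  have h4 := (h3.mono (Nat.le_add_right D ((MvPolynomial.map (mC k X) r).coeff α₀).totalDegree) le_rfl
    (Set.Subset.refl _)).union ((cov_zero _ hα₀).mono (Nat.le_add_left _ D) le_rfl (Set.Subset.refl _))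
  refine h4.mono le_rfl ?_ ?_
  · apply Nat.le_floor
    push_cast
    have h8 : ((⌊C * T ^ ε⌋₊ : ℕ) : ℝ) ≤ C * T ^ ε := Nat.floor_le (by positivity)
    calc (⌊C * T ^ ε⌋₊ : ℝ) + 1 ≤ C * T ^ ε + T ^ ε := add_le_add h8 h6
      _ = _ := by ring
  · rintro _ ⟨s, ⟨hs1, hs2, hs3⟩, rfl⟩
    by_cases h0 : MvPolynomial.eval (fun i => io (s i)) ((MvPolynomial.map (mC k X) r).coeff α₀) = 0
    · exact Or.inr h0
    · left
      have hspc : spc (MvPolynomial.map (MvPolynomial.map (mC k X)) (MvPolynomial.map (MvPolynomial.C (σ := Unit)) r))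
          (fun i => io (s i)) (fun l : Unit => ∑ i : Unit, (1 : ℂ) * io ((fun _ _ => (0 : 𝓞 K)) l i : K)) =
          MvPolynomial.map (MvPolynomial.eval fun i => io (s i)) (MvPolynomial.map (mC k X) r) := by
        rw [spc, MvPolynomial.map_map, MvPolynomial.map_map, MvPolynomial.map_map]
        have h1 : ((MvPolynomial.eval₂Hom (MvPolynomial.eval fun i => io (s i))
            (fun l : Unit => ∑ i : Unit, (1 : ℂ) * io ((fun _ _ => (0 : 𝓞 K)) l i : K))).comp
            (MvPolynomial.map (mC k X))).comp MvPolynomial.C =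
            (MvPolynomial.eval fun i => io (s i)).comp (mC k X) := by
          refine RingHom.ext fun y => ?_
          change (MvPolynomial.eval₂Hom _ _) (MvPolynomial.map (mC k X) (MvPolynomial.C y)) =
            MvPolynomial.eval _ (mC k X y)
          rw [MvPolynomial.map_C, MvPolynomial.eval₂Hom_C]
        rw [h1]
      refine ⟨s, ⟨hs1, hs2, fun _ _ => 0, ?_, ?_, ?_⟩, rfl⟩
      · intro l i φ
        simp
      · rw [hspc]
        intro h1
        apply h0
        have h2 := congrArg (MvPolynomial.coeff α₀) h1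
        rw [MvPolynomial.coeff_map, MvPolynomial.coeff_zero] at h2
        exact h2
      · rw [hspc, MvPolynomial.eval_map]
        exact hs3

/-- zeros of a nonzero function in the ring generated by the functions -/
theorem cov_ring {k X σ : Type} [Field k] [Algebra k ℂ] (hk : AllAlg k) [Fintype X] [DecidableEq X] [Nonempty X]
    [Fintype σ] [DecidableEq σ] {U : Set (X → ℂ)} {f : σ → (X → ℂ) → ℂ} (hU : IsPreconnected U) (hUo : IsOpen U)
    (hne : U.Nonempty) (hf : ∀ i, AnalyticOnNhd ℂ (f i) U) (p : MvPolynomial σ (MvPolynomial X k))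
    (hp : ∃ z ∈ U, evM f z (MvPolynomial.map (mC k X) p) ≠ 0)
    (Lc : Set (X → ℂ)) (hLc : IsCompact Lc) (hLU : Lc ⊆ U) (m : ℕ) (ε : ℝ) (hε : 0 < ε) :
    ∃ (D : ℕ) (C T₀ : ℝ), 0 ≤ C ∧ 2 ≤ T₀ ∧
      ∀ (K : Type) [Field K] [NumberField K], Module.finrank ℚ K ≤ m → ∀ (io : K →+* ℂ) (T : ℝ),
        T₀ ≤ T → Cov D ⌊C * T ^ ε⌋₊ ((fun (s : X → K) i => io (s i)) ''
          {s | (∀ i, Y120.HtLe K T (s i)) ∧ (fun i => io (s i)) ∈ Lc ∧
            evM f (fun i => io (s i)) (MvPolynomial.map (mC k X) p) = 0}) := by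
  classical
  obtain ⟨L, _, _, _, F, hz, hfrac⟩ := exists_fieldQ k hU hUo hne hf
  obtain ⟨I, _, _, ι, hb⟩ := exists_basis F hfrac
  have hpF : MvPolynomial.aeval F p ≠ 0 := by
    rw [Ne, hz]
    push Not
    exact hp
  let algS : Algebra (MvPolynomial I (MvPolynomial X k)) L := (evI (F ∘ ι)).toAlgebra
  have hmapS : ∀ p : MvPolynomial I (MvPolynomial X k), algebraMap _ L p = evI (F ∘ ι) p := fun p => rfl
  have halg1 : IsAlgebraic (MvPolynomial I (MvPolynomial X k)) (MvPolynomial.aeval F p) := by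
    have h2 : IsAlgebraic (Algebra.adjoin (MvPolynomial X k) (Set.range (F ∘ ι))) (MvPolynomial.aeval F p) :=
      hb.isAlgebraic.isAlgebraic _
    exact h2.ringHom_of_comp_eq (hb.1.aevalEquiv.symm : _ →+* MvPolynomial I (MvPolynomial X k)) (RingHom.id L)
      (hb.1.aevalEquiv.symm.injective) (by
        ext y
        obtain ⟨z, rfl⟩ := hb.1.aevalEquiv.surjective y
        simp only [RingHom.comp_apply]
        change algebraMap (MvPolynomial I (MvPolynomial X k)) L (hb.1.aevalEquiv.symm (hb.1.aevalEquiv z)) = _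
        rw [AlgEquiv.symm_apply_apply, hmapS]
        exact (hb.1.algebraMap_aevalEquiv z).symm)
  obtain ⟨t, ht, r, hr, hqt⟩ := halg1.exists_nonzero_eq_adjoin_mul (mem_nonZeroDivisors_of_ne_zero hpF)
  have h2 : ∃ P : MvPolynomial σ (MvPolynomial X k), t = MvPolynomial.aeval F P := by
    refine Algebra.adjoin_induction (p := fun t _ => ∃ P : MvPolynomial σ (MvPolynomial X k),
      t = MvPolynomial.aeval F P) ?_ ?_ ?_ ?_ ht
    · rintro x hx
      rw [Set.mem_singleton_iff] at hx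
      exact ⟨p, hx⟩
    · intro a
      exact ⟨MvPolynomial.rename ι a, by rw [hmapS, evI_rename]⟩
    · rintro x y _ _ ⟨P, rfl⟩ ⟨Q, rfl⟩
      exact ⟨P + Q, (map_add _ _ _).symm⟩
    · rintro x y _ _ ⟨P, rfl⟩ ⟨Q, rfl⟩
      exact ⟨P * Q, (map_mul _ _ _).symm⟩
  obtain ⟨P, rfl⟩ := h2
  have hrel : MvPolynomial.aeval F (MvPolynomial.rename ι r - p * P) = 0 := by
    rw [map_sub, map_mul, sub_eq_zero, ← evI_rename, ← hmapS, ← hqt]
  have hind' : ∀ p : MvPolynomial I (MvPolynomial X k),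
      (∀ z ∈ U, evM (fun (i : I) t => f (ι i) t) z (MvPolynomial.map (mC k X) p) = 0) → p = 0 := by
    intro p hp
    apply hb.1
    rw [map_zero]
    have h1 : MvPolynomial.aeval (F ∘ ι) p = MvPolynomial.aeval F (MvPolynomial.rename ι p) := by
      rw [MvPolynomial.aeval_rename]
    rw [h1, hz]
    intro z hzU
    rw [MvPolynomial.map_rename, evM, MvPolynomial.eval₂_rename]
    exact hp z hzU
  obtain ⟨D, C, T₀, hC, hT₀, H⟩ := cov_alg hk r hr hU hUo hne (fun (i : I) t => f (ι i) t) (fun i => hf _) hind' Lc hLc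
    hLU m ε hε
  refine ⟨D, C, T₀, hC, hT₀, fun K _ _ hm io T hT => (H K hm io T hT).mono le_rfl le_rfl ?_⟩
  refine Set.image_mono ?_
  rintro s ⟨hs1, hs2, hs3⟩
  refine ⟨hs1, hs2, ?_⟩
  have h5 := (hz _).1 hrel _ (hLU hs2)
  have h6 : evM f (fun i => io (s i)) (MvPolynomial.map (mC k X) (MvPolynomial.rename ι r - p * P)) =
      evM f (fun i => io (s i)) (MvPolynomial.map (mC k X) (MvPolynomial.rename ι r)) -
        evM f (fun i => io (s i)) (MvPolynomial.map (mC k X) p) *
          evM f (fun i => io (s i)) (MvPolynomial.map (mC k X) P) := by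
    rw [map_sub, map_mul, evM, evM, evM, evM, MvPolynomial.eval₂_sub, MvPolynomial.eval₂_mul]
  rw [h6, hs3, zero_mul, sub_zero, MvPolynomial.map_rename, evM, MvPolynomial.eval₂_rename] at h5
  exact h5

end Pool.Agent.Run7.h10.QS
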