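import Pool.Agent.Run7.h10.QS.E4

/-!
# A maximal family of functions which is linearly independent over the algebraic functions
-/

set_option autoImplicit false
set_option linter.unusedSectionVars false

namespace Pool.Agent.Run7.h10.QS

theorem common_den {A L σ τ : Type} [CommRing A] [Field L] [Algebra A L] [Fintype τ] (F : σ → L)
    (hfrac : ∀ l : L, ∃ p q : MvPolynomial σ A, MvPolynomial.aeval F q ≠ 0 ∧
      MvPolynomial.aeval F q * l = MvPolynomial.aeval F p) (x : τ → L) :
    ∃ (Q : MvPolynomial σ A) (P : τ → MvPolynomial σ A), MvPolynomial.aeval F Q ≠ 0 ∧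
      ∀ t, MvPolynomial.aeval F Q * x t = MvPolynomial.aeval F (P t) := by
  classical
  choose p q hq hx using fun t => hfrac (x t)
  refine ⟨∏ t, q t, fun t => (∏ t' ∈ Finset.univ.erase t, q t') * p t, ?_, ?_⟩
  · rw [map_prod]
    exact Finset.prod_ne_zero_iff.2 fun t _ => hq t
  · intro t
    rw [← Finset.prod_erase_mul _ _ (Finset.mem_univ t), map_mul, map_mul, mul_assoc, hx]

theorem homog {A σ M : Type} [CommRing A] [Field M] (θ : MvPolynomial σ A →+* M) (P Q : MvPolynomial σ A)
    (hQ : θ Q ≠ 0) (R : Polynomial A) :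
    θ (∑ n ∈ Finset.range (R.natDegree + 1), MvPolynomial.C (R.coeff n) * P ^ n * Q ^ (R.natDegree - n)) =
      θ Q ^ R.natDegree * R.eval₂ (θ.comp MvPolynomial.C) (θ P / θ Q) := by
  rw [map_sum, Polynomial.eval₂_eq_sum_range, Finset.mul_sum]
  refine Finset.sum_congr rfl fun n hn => ?_
  have h1 : R.natDegree = n + (R.natDegree - n) := by
    have := Finset.mem_range.1 hn
    omega
  rw [map_mul, map_mul, map_pow, map_pow, RingHom.comp_apply]
  conv_rhs => rw [h1, pow_add]
  rw [div_pow]
  field_simp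

theorem exists_fam {A L σ : Type} [CommRing A] [IsDomain A] [Field L] [CharZero L] [Algebra A L] [FaithfulSMul A L]
    [Fintype σ] [DecidableEq σ] (F : σ → L)
    (hfrac : ∀ l : L, ∃ p q : MvPolynomial σ A, MvPolynomial.aeval F q ≠ 0 ∧
      MvPolynomial.aeval F q * l = MvPolynomial.aeval F p) :
    ∃ (r : ℕ) (J : Fin r → σ) (Q : MvPolynomial σ A) (Δ : A), Function.Injective J ∧ SLI A (F ∘ J) ∧
      MvPolynomial.aeval F Q ≠ 0 ∧ Δ ≠ 0 ∧
      ∀ (E : Type) [Field E] (ψ : MvPolynomial σ A →+* E), (∀ p, MvPolynomial.aeval F p = 0 → ψ p = 0) →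
        ψ Q ≠ 0 → ψ (MvPolynomial.C Δ) ≠ 0 →
        ∃ α : σ → Fin r → E, (∀ i l, ∃ p : Polynomial A, p.map (ψ.comp MvPolynomial.C) ≠ 0 ∧
          p.eval₂ (ψ.comp MvPolynomial.C) (α i l) = 0) ∧
          ∀ i, ψ (MvPolynomial.X i) = ∑ l, α i l * ψ (MvPolynomial.X (J l)) := by
  classical
  let F0 := FractionRing A
  have hinj : Function.Injective (algebraMap A L) := FaithfulSMul.algebraMap_injective A L
  let aF : Algebra F0 L := (IsFractionRing.lift hinj).toAlgebra
  have tow : IsScalarTower A F0 L := IsScalarTower.of_algebraMap_eq fun a =>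
    (IsFractionRing.lift_algebraMap hinj a).symm
  let Ω := algebraicClosure F0 L
  obtain ⟨κ, a, hainj, haspan, hali⟩ := exists_linearIndependent' Ω F
  have hfin : Finite κ := Finite.of_injective a hainj
  let fin : Fintype κ := Fintype.ofFinite κ
  let e := Fintype.equivFin κ
  let J : Fin (Fintype.card κ) → σ := fun l => a (e.symm l)
  have hJinj : Function.Injective J := hainj.comp e.symm.injective
  have hli : LinearIndependent Ω (F ∘ J) := hali.comp e.symm e.symm.injective
  have hrange : Set.range (F ∘ J) = Set.range (F ∘ a) := by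
    ext x
    constructor
    · rintro ⟨l, rfl⟩
      exact ⟨e.symm l, rfl⟩
    · rintro ⟨l, rfl⟩
      exact ⟨e l, by simp [J]⟩
  have hspan : ∀ i, ∃ g : Fin (Fintype.card κ) → Ω, ∑ l, g l • F (J l) = F i := by
    intro i
    have h1 : F i ∈ Submodule.span Ω (Set.range (F ∘ J)) := by
      rw [hrange, haspan]
      exact Submodule.subset_span ⟨i, rfl⟩
    exact (Submodule.mem_span_range_iff_exists_fun Ω).1 h1
  choose g hg using hspan
  obtain ⟨Q, P, hQ, hP⟩ := common_den F hfrac (fun t : σ × Fin (Fintype.card κ) => (g t.1 t.2 : L))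
  have halg : ∀ t : σ × Fin (Fintype.card κ), IsAlgebraic A (g t.1 t.2 : L) := fun t =>
    (IsFractionRing.isAlgebraic_iff A F0 L).2 (mem_algebraicClosure_iff.1 (g t.1 t.2).2)
  choose R hR hR0 using halg
  refine ⟨Fintype.card κ, J, Q, ∏ t, (R t).leadingCoeff, hJinj, ?_, hQ, ?_, ?_⟩
  · apply sli_of
    intro b hb hsum
    have h1 : ∀ l, b l ∈ Ω := fun l =>
      mem_algebraicClosure_iff.2 ((IsFractionRing.isAlgebraic_iff A F0 L).1 (hb l))
    have h2 := Fintype.linearIndependent_iff.1 hli (fun l => ⟨b l, h1 l⟩) hsum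
    funext l
    exact congrArg Subtype.val (h2 l)
  · exact Finset.prod_ne_zero_iff.2 fun t _ => Polynomial.leadingCoeff_ne_zero.2 (hR t)
  · intro E _ ψ hψ hψQ hψΔ
    have hlc : ∀ t, ψ (MvPolynomial.C (R t).leadingCoeff) ≠ 0 := by
      intro t h0
      apply hψΔ
      rw [map_prod, map_prod]
      exact Finset.prod_eq_zero (Finset.mem_univ t) h0
    refine ⟨fun i l => ψ (P (i, l)) / ψ Q, ?_, ?_⟩
    · intro i l
      refine ⟨R (i, l), ?_, ?_⟩
      · intro h0
        have h1 := congrArg (fun p => Polynomial.coeff p (R (i, l)).natDegree) h0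
        simp only [Polynomial.coeff_map, Polynomial.coeff_natDegree, Polynomial.coeff_zero] at h1
        exact hlc (i, l) h1
      · have h1 := homog (MvPolynomial.aeval F : MvPolynomial σ A →ₐ[A] L).toRingHom (P (i, l)) Q hQ (R (i, l))
        have h2 : (MvPolynomial.aeval F : MvPolynomial σ A →ₐ[A] L).toRingHom (P (i, l)) /
            (MvPolynomial.aeval F : MvPolynomial σ A →ₐ[A] L).toRingHom Q = (g i l : L) := by
          change MvPolynomial.aeval F (P (i, l)) / MvPolynomial.aeval F Q = _
          rw [div_eq_iff hQ, mul_comm]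
          exact (hP (i, l)).symm
        have h3 : ((MvPolynomial.aeval F : MvPolynomial σ A →ₐ[A] L).toRingHom).comp MvPolynomial.C =
            algebraMap A L := by
          apply RingHom.ext
          intro a
          exact MvPolynomial.aeval_C F a
        have h4 : Polynomial.eval₂ (algebraMap A L) (g i l : L) (R (i, l)) = 0 := hR0 (i, l)
        rw [h2, h3, h4, mul_zero] at h1
        have h5 := hψ _ h1
        rw [homog ψ _ _ hψQ] at h5
        exact (mul_eq_zero.1 h5).resolve_left (pow_ne_zero _ hψQ)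
    · intro i
      have h1 : MvPolynomial.aeval F (Q * MvPolynomial.X i - ∑ l, P (i, l) * MvPolynomial.X (J l)) = 0 := by
        rw [map_sub, map_mul, MvPolynomial.aeval_X, map_sum, ← hg i, Finset.mul_sum, sub_eq_zero]
        refine Finset.sum_congr rfl fun l _ => ?_
        rw [map_mul, MvPolynomial.aeval_X, ← hP (i, l)]
        have h2 : g i l • F (J l) = (g i l : L) * F (J l) := rfl
        rw [h2, mul_assoc]
      have h2 := hψ _ h1
      rw [map_sub, map_mul, map_sum, sub_eq_zero] at h2
      have h3 : ψ (MvPolynomial.X i) = (∑ l, ψ (P (i, l) * MvPolynomial.X (J l))) / ψ Q := by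
        rw [eq_div_iff hψQ, mul_comm]
        exact h2
      rw [h3, Finset.sum_div]
      refine Finset.sum_congr rfl fun l _ => ?_
      rw [map_mul]
      ring

theorem exists_ext {A L σ E : Type} [CommRing A] [Field L] [Algebra A L] [Field E] (F : σ → L)
    (hfrac : ∀ l : L, ∃ p q : MvPolynomial σ A, MvPolynomial.aeval F q ≠ 0 ∧
      MvPolynomial.aeval F q * l = MvPolynomial.aeval F p) (ψ : MvPolynomial σ A →+* E)
    (hψ : ∀ p, MvPolynomial.aeval F p = 0 ↔ ψ p = 0) : ∃ Φ : L →+* E, ∀ p, Φ (MvPolynomial.aeval F p) = ψ p := by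
  classical
  let S := (MvPolynomial.aeval F : MvPolynomial σ A →ₐ[A] L).range
  let π : MvPolynomial σ A →+* S := (MvPolynomial.aeval F : MvPolynomial σ A →ₐ[A] L).rangeRestrict.toRingHom
  have hπ : Function.Surjective π := (MvPolynomial.aeval F : MvPolynomial σ A →ₐ[A] L).rangeRestrict_surjective
  have hπv : ∀ p, (π p : L) = MvPolynomial.aeval F p := fun p => rfl
  have hπ0 : ∀ p, π p = 0 ↔ ψ p = 0 := by
    intro p
    rw [← hψ, ← hπv]
    exact ⟨fun h => by rw [h]; rfl, fun h => Subtype.ext h⟩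
  have hker : RingHom.ker π ≤ RingHom.ker ψ := fun p hp => (hπ0 p).1 hp
  let g : S →+* E := RingHom.liftOfSurjective π hπ ⟨ψ, hker⟩
  have hg : ∀ p, g (π p) = ψ p := fun p =>
    RingHom.liftOfRightInverse_comp_apply π (Function.surjInv hπ) (Function.rightInverse_surjInv hπ) ⟨ψ, hker⟩ p
  have hginj : Function.Injective g := by
    rw [injective_iff_map_eq_zero]
    intro x hx
    obtain ⟨p, rfl⟩ := hπ x
    rw [hg] at hx
    exact (hπ0 p).2 hx
  have hfS : FaithfulSMul S L := (faithfulSMul_iff_algebraMap_injective S L).2 Subtype.val_injective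
  have hfr : IsFractionRing S L := by
    apply IsFractionRing.of_field
    intro l
    obtain ⟨p, q, hq, hl⟩ := hfrac l
    refine ⟨π p, π q, ?_⟩
    change l = MvPolynomial.aeval F p / MvPolynomial.aeval F q
    rw [eq_div_iff hq, mul_comm]
    exact hl
  refine ⟨IsFractionRing.lift hginj, fun p => ?_⟩
  have h1 : (MvPolynomial.aeval F p : L) = algebraMap S L (π p) := rfl
  rw [h1, IsFractionRing.lift_algebraMap, hg]

end Pool.Agent.Run7.h10.QS
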