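import Pool.Agent.Run7.h10.QS.E5
import Pool.Agent.Run7.h10.QS.D2
import Pool.Agent.Run7.h10.QS.D3

/-!
# Very general points and their constants
-/

set_option autoImplicit false
set_option linter.unusedSectionVars false

open NumberField Filter

namespace Pool.Agent.Run7.h10.QS

open Pool.Agent.Y890.MV Pool.Agent.Y890.SP

/-- a polynomial in the functions as a polynomial in all the variables -/
noncomputable def flat {X σ : Type} (p : MvPolynomial σ (MvPolynomial X Qbar)) : MvPolynomial (X ⊕ σ) Qbar :=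
  MvPolynomial.rename Sum.swap ((MvPolynomial.sumAlgEquiv Qbar σ X).symm p)

theorem flat_eval {X σ : Type} (p : MvPolynomial σ (MvPolynomial X Qbar)) (z : X → ℂ) (b : σ → ℂ) :
    MvPolynomial.aeval (Sum.elim z b) (flat p) = evX z b (MvPolynomial.map (mC Qbar X) p) := by
  have h : ((MvPolynomial.aeval (Sum.elim z b) : MvPolynomial (X ⊕ σ) Qbar →ₐ[Qbar] ℂ).toRingHom.comp
      (MvPolynomial.rename Sum.swap : MvPolynomial (σ ⊕ X) Qbar →ₐ[Qbar] _).toRingHom).comp
      (MvPolynomial.sumAlgEquiv Qbar σ X).symm.toRingEquiv.toRingHom =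
      (MvPolynomial.eval₂Hom (MvPolynomial.eval z) b).comp (MvPolynomial.map (mC Qbar X)) := by
    apply MvPolynomial.ringHom_ext
    · intro q
      induction q using MvPolynomial.induction_on with
      | C c =>
        change MvPolynomial.aeval (Sum.elim z b) (MvPolynomial.rename Sum.swap
          ((MvPolynomial.sumAlgEquiv Qbar σ X).symm (MvPolynomial.C (MvPolynomial.C c)))) = _
        rw [MvPolynomial.sumAlgEquiv_symm_C_C, MvPolynomial.rename_C, MvPolynomial.aeval_C]
        simp only [RingHom.comp_apply, MvPolynomial.map_C, MvPolynomial.eval₂Hom_C, mC, MvPolynomial.eval_C]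
      | add q r hq hr => simp only [map_add, hq, hr]
      | mul_X q i hq =>
        rw [map_mul, map_mul, hq, map_mul]
        congr 1
        change MvPolynomial.aeval (Sum.elim z b) (MvPolynomial.rename Sum.swap
          ((MvPolynomial.sumAlgEquiv Qbar σ X).symm (MvPolynomial.C (MvPolynomial.X i)))) = _
        rw [MvPolynomial.sumAlgEquiv_symm_C_X, MvPolynomial.rename_X, MvPolynomial.aeval_X]
        simp only [RingHom.comp_apply, MvPolynomial.map_C, MvPolynomial.eval₂Hom_C, mC, MvPolynomial.map_X,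
          MvPolynomial.eval_X, Sum.swap_inr, Sum.elim_inl]
    · intro i
      change MvPolynomial.aeval (Sum.elim z b) (MvPolynomial.rename Sum.swap
          ((MvPolynomial.sumAlgEquiv Qbar σ X).symm (MvPolynomial.X i))) = _
      rw [MvPolynomial.sumAlgEquiv_symm_X, MvPolynomial.rename_X, MvPolynomial.aeval_X]
      simp only [RingHom.comp_apply, MvPolynomial.map_X, MvPolynomial.eval₂Hom_X', Sum.swap_inl, Sum.elim_inr]
  exact RingHom.congr_fun h p

/-- the value of the coefficients -/
noncomputable def evz {X : Type} (z : X → ℂ) : MvPolynomial X Qbar →+* ℂ :=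
  (MvPolynomial.eval z).comp (mC Qbar X)

theorem evz_C {X : Type} (z : X → ℂ) (a : Qbar) : evz z (MvPolynomial.C a) = (a : ℂ) := by
  simp [evz, mC]

theorem evz_X {X : Type} (z : X → ℂ) (i : X) : evz z (MvPolynomial.X i) = z i := by
  simp [evz, mC]

open scoped IntermediateField.algebraAdjoinAdjoin in
theorem alg_of_const {X : Type} (z : X → ℂ) (c : ℂ) (hc : c ∈ Const z) :
    ∃ p : Polynomial (MvPolynomial X Qbar), p.map (evz z) ≠ 0 ∧ p.eval₂ (evz z) c = 0 := by
  have h1 : IsAlgebraic (IntermediateField.adjoin ℚ (Set.range z)) c := mem_algebraicClosure_iff.1 hc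
  have h2 : IsAlgebraic (Algebra.adjoin ℚ (Set.range z)) c :=
    (IsFractionRing.isAlgebraic_iff (Algebra.adjoin ℚ (Set.range z)) (IntermediateField.adjoin ℚ (Set.range z)) ℂ).2 h1
  obtain ⟨p, hp, hp0⟩ := h2
  have hmem : ∀ q : MvPolynomial X ℚ, MvPolynomial.aeval z q ∈ Algebra.adjoin ℚ (Set.range z) := by
    intro q
    rw [Algebra.adjoin_range_eq_range_aeval]
    exact ⟨q, rfl⟩
  let π : MvPolynomial X ℚ →+* Algebra.adjoin ℚ (Set.range z) :=
    ((MvPolynomial.aeval z : MvPolynomial X ℚ →ₐ[ℚ] ℂ).codRestrict _ hmem).toRingHom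
  have hπ : Function.Surjective π := by
    rintro ⟨x, hx⟩
    have hx' := hx
    rw [Algebra.adjoin_range_eq_range_aeval] at hx'
    obtain ⟨q, hq⟩ := hx'
    exact ⟨q, Subtype.ext hq⟩
  obtain ⟨p', hp'⟩ := Polynomial.map_surjective π hπ p
  have hcomp : (evz z).comp (MvPolynomial.map (algebraMap ℚ Qbar)) =
      (algebraMap (Algebra.adjoin ℚ (Set.range z)) ℂ).comp π := by
    apply MvPolynomial.ringHom_ext
    · intro a
      rw [RingHom.comp_apply, MvPolynomial.map_C, evz_C]
      exact (MvPolynomial.aeval_C z a).symm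
    · intro i
      rw [RingHom.comp_apply, MvPolynomial.map_X, evz_X]
      exact (MvPolynomial.aeval_X z i).symm
  refine ⟨p'.map (MvPolynomial.map (algebraMap ℚ Qbar)), ?_, ?_⟩
  · rw [Polynomial.map_map, hcomp, ← Polynomial.map_map, hp']
    intro h0
    apply hp
    apply Polynomial.map_injective (algebraMap (Algebra.adjoin ℚ (Set.range z)) ℂ) Subtype.val_injective
    rw [h0, Polynomial.map_zero]
  · rw [Polynomial.eval₂_map, hcomp, ← Polynomial.eval₂_map, hp']
    exact hp0

theorem evz_mem {X : Type} (z : X → ℂ) (a : MvPolynomial X Qbar) : evz z a ∈ Const z := by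
  induction a using MvPolynomial.induction_on with
  | C a =>
    rw [evz_C, mem_algebraicClosure_iff]
    have h1 : IsAlgebraic ℚ (a : ℂ) := mem_algebraicClosure_iff.1 a.2
    exact h1.tower_top (IntermediateField.adjoin ℚ (Set.range z))
  | add p q hp hq =>
    rw [map_add]
    exact add_mem hp hq
  | mul_X p i hp =>
    rw [map_mul, evz_X]
    refine mul_mem hp ?_
    exact (algebraicClosure _ ℂ).algebraMap_mem (⟨z i, IntermediateField.subset_adjoin _ _ ⟨i, rfl⟩⟩ :
      IntermediateField.adjoin ℚ (Set.range z))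

theorem const_of_alg {X : Type} (z : X → ℂ) (c : ℂ) (p : Polynomial (MvPolynomial X Qbar)) (hp : p.map (evz z) ≠ 0)
    (hp0 : p.eval₂ (evz z) c = 0) : c ∈ Const z := by
  let ev' : MvPolynomial X Qbar →+* Const z := (evz z).codRestrict _ (evz_mem z)
  have hev : (algebraMap (Const z) ℂ).comp ev' = evz z := RingHom.ext fun a => rfl
  have h1 : IsAlgebraic (Const z) c := by
    refine ⟨p.map ev', ?_, ?_⟩
    · intro h0
      apply hp
      rw [← hev, ← Polynomial.map_map, h0, Polynomial.map_zero]
    · rw [Polynomial.aeval_def, Polynomial.eval₂_map, hev, hp0]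
  rw [mem_algebraicClosure_iff]
  exact h1.restrictScalars (IntermediateField.adjoin ℚ (Set.range z))

/-- the constants at an algebraic point -/
theorem mem_const_iff {X : Type} {z : X → ℂ} (hz : ∀ i, IsAlgebraic ℚ (z i)) (x : ℂ) :
    x ∈ Const z ↔ IsAlgebraic ℚ x := by
  rw [mem_algebraicClosure_iff]
  constructor
  · intro h
    have : Algebra.IsAlgebraic ℚ (IntermediateField.adjoin ℚ (Set.range z)) :=
      IntermediateField.isAlgebraic_adjoin (by
        rintro _ ⟨i, rfl⟩
        exact (hz i).isIntegral)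
    exact h.restrictScalars ℚ
  · intro h
    exact h.tower_top _

theorem countable_Qbar : Countable Qbar := by
  have h := Algebraic.countable ℚ ℂ
  have h2 : ((algebraicClosure ℚ ℂ : IntermediateField ℚ ℂ) : Set ℂ).Countable := by
    refine h.mono fun x hx => ?_
    exact mem_algebraicClosure_iff.1 hx
  exact h2.to_subtype

theorem val_anQ {X σ : Type} [Fintype X] {U : Set (X → ℂ)} {f : (X → ℂ) → σ → ℂ}
    (hf : ∀ i, AnalyticOnNhd ℂ (fun z => f z i) U) (R : MvPolynomial (X ⊕ σ) Qbar) :
    AnalyticOnNhd ℂ (fun z => MvPolynomial.aeval (Sum.elim z (f z)) R) U := by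
  intro x hx
  induction R using MvPolynomial.induction_on with
  | C a =>
    simp only [MvPolynomial.aeval_C]
    exact analyticAt_const
  | add p q hp hq =>
    simp only [map_add]
    exact hp.add hq
  | mul_X p i hp =>
    simp only [map_mul, MvPolynomial.aeval_X]
    refine hp.mul ?_
    rcases i with i | i
    · simp only [Sum.elim_inl]
      exact (ContinuousLinearMap.proj (R := ℂ) (φ := fun _ : X => ℂ) i).analyticAt x
    · simp only [Sum.elim_inr]
      exact hf i x hx

/-- **Very general points are dense.** -/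
theorem exists_vg {X σ : Type} [Fintype X] [Fintype σ] {U : Set (X → ℂ)} {f : (X → ℂ) → σ → ℂ}
    (hU : IsPreconnected U) (hUo : IsOpen U) (hf : ∀ i, AnalyticOnNhd ℂ (fun z => f z i) U)
    {V : Set (X → ℂ)} (hV : IsOpen V) (hVU : (V ∩ U).Nonempty) :
    ∃ z ∈ V ∩ U, VeryGeneral U f z := by
  classical
  have hcQ := countable_Qbar
  have hcount : Countable (MvPolynomial (X ⊕ σ) Qbar) :=
    (MvPolynomial.basisMonomials (X ⊕ σ) Qbar).repr.toEquiv.countable_iff.2 inferInstance
  let D : {R : MvPolynomial (X ⊕ σ) Qbar // ∃ w ∈ U, MvPolynomial.aeval (Sum.elim w (f w)) R ≠ 0} →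
    Set (X → ℂ) := fun R =>
    {z | z ∈ U ∧ MvPolynomial.aeval (Sum.elim z (f z)) R.1 ≠ 0} ∪ (closure U)ᶜ
  have hDo : ∀ R, IsOpen (D R) := by
    intro R
    refine IsOpen.union ?_ isClosed_closure.isOpen_compl
    exact (val_anQ hf R.1).continuousOn.isOpen_inter_preimage hUo isOpen_compl_singleton
  have hDd : ∀ R, Dense (D R) := by
    intro R
    rw [dense_iff_inter_open]
    intro V hV hVne
    by_cases hVU : (V ∩ U).Nonempty
    · by_contra hcon
      obtain ⟨z0, hz0V, hz0U⟩ := hVU
      obtain ⟨z, hz, hzR⟩ := R.2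
      apply hzR
      refine (val_anQ hf R.1).eqOn_zero_of_preconnected_of_eventuallyEq_zero hU hz0U ?_ hz
      filter_upwards [(hV.inter hUo).mem_nhds ⟨hz0V, hz0U⟩] with y hy
      by_contra hy0
      exact hcon ⟨y, hy.1, Or.inl ⟨hy.2, hy0⟩⟩
    · obtain ⟨z, hz⟩ := hVne
      refine ⟨z, hz, Or.inr ?_⟩
      intro hcl
      rw [mem_closure_iff] at hcl
      exact hVU (hcl V hV hz)
  have hdense := dense_iInter_of_isOpen hDo hDd
  obtain ⟨z, hzU, hz⟩ := hdense.inter_open_nonempty (V ∩ U) (hV.inter hUo) hVU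
  refine ⟨z, hzU, ?_⟩
  intro R hR
  by_contra hR0
  push Not at hR0
  have h1 := Set.mem_iInter.1 hz ⟨R, hR0⟩
  rcases h1 with h1 | h1
  · exact h1.2 hR
  · exact h1 (subset_closure hzU.2)

end Pool.Agent.Run7.h10.QS
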