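import Pool.Agent.Run7.h10.QS.E6

/-!
# The dimension of the space of periods at very general points and at almost all algebraic points
-/

set_option autoImplicit false
set_option linter.unusedSectionVars false

open NumberField Filter

namespace Pool.Agent.Run7.h10.QS

open Pool.Agent.Y890.MV Pool.Agent.Y890.SP
open Pool.Agent.Y124 (Cov)

theorem dim_le {X σ : Type} [Finite σ] {r : ℕ} (f : (X → ℂ) → σ → ℂ) (z : X → ℂ) (J : Fin r → σ)
    (α : σ → Fin r → ℂ) (hα : ∀ i l, α i l ∈ Const z) (h : ∀ i, f z i = ∑ l, α i l * f z (J l)) :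
    dim f z ≤ r := by
  have hfin : FiniteDimensional (Const z) (Submodule.span (Const z) (Set.range fun l => f z (J l))) :=
    FiniteDimensional.span_of_finite (Const z) (Set.finite_range _)
  have h1 : Submodule.span (Const z) (Set.range (f z)) ≤
      Submodule.span (Const z) (Set.range fun l => f z (J l)) := by
    rw [Submodule.span_le]
    rintro _ ⟨i, rfl⟩
    rw [h i]
    refine Submodule.sum_mem _ fun l _ => ?_
    exact Submodule.smul_mem _ (⟨α i l, hα i l⟩ : Const z) (Submodule.subset_span ⟨l, rfl⟩)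
  refine (Submodule.finrank_mono h1).trans ?_
  have h2 := finrank_range_le_card (R := Const z) (fun l => f z (J l))
  rw [Fintype.card_fin] at h2
  exact h2

theorem le_dim {X σ : Type} [Finite σ] {r : ℕ} (f : (X → ℂ) → σ → ℂ) (z : X → ℂ) (J : Fin r → σ)
    (h : LinearIndependent (Const z) fun l => f z (J l)) : r ≤ dim f z := by
  have hfin : FiniteDimensional (Const z) (Submodule.span (Const z) (Set.range (f z))) :=
    FiniteDimensional.span_of_finite (Const z) (Set.finite_range _)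
  have h1 : Submodule.span (Const z) (Set.range fun l => f z (J l)) ≤
      Submodule.span (Const z) (Set.range (f z)) := by
    rw [Submodule.span_le]
    rintro _ ⟨l, rfl⟩
    exact Submodule.subset_span ⟨J l, rfl⟩
  have h2 := finrank_span_eq_card h
  rw [Fintype.card_fin] at h2
  rw [← h2]
  exact Submodule.finrank_mono h1

/-- **The main theorem.** -/
theorem dim_main {X σ : Type} [Fintype X] [DecidableEq X] [Nonempty X] [Fintype σ] [DecidableEq σ]
    {U : Set (X → ℂ)} {f : (X → ℂ) → σ → ℂ} (hU : IsPreconnected U) (hUo : IsOpen U) (hne : U.Nonempty)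
    (hf : ∀ i, AnalyticOnNhd ℂ (fun z => f z i) U) :
    ∃ (r : ℕ) (J : Fin r → σ), Function.Injective J ∧
      (∀ z ∈ U, VeryGeneral U f z → LinearIndependent (Const z) fun l => f z (J l)) ∧
      (∀ z ∈ U, VeryGeneral U f z → dim f z = r) ∧
      (∃ R : MvPolynomial (X ⊕ σ) Qbar, (∃ z ∈ U, MvPolynomial.aeval (Sum.elim z (f z)) R ≠ 0) ∧
        ∀ z ∈ U, MvPolynomial.aeval (Sum.elim z (f z)) R ≠ 0 → dim f z ≤ r) ∧
      (Few fun K _ _ io k T => {s : X → K | s ∈ Points K U io k T ∧ r < dim f fun i => io (s i)}) ∧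
      Few fun K _ _ io k T => {s : X → K | s ∈ Points K U io k T ∧ ∃ c : Fin r → 𝓞 K, c ≠ 0 ∧
        (∀ l (φ : K →+* ℂ), ‖φ (c l : K)‖ ≤ T ^ k) ∧ ∑ l, io (c l : K) * f (fun i => io (s i)) (J l) = 0} := by
  classical
  obtain ⟨L, _, _, _, F, hz, hfrac⟩ := exists_fieldQ Qbar hU hUo hne hf
  have hcA : CharZero (MvPolynomial X Qbar) := inferInstance
  have hcL : CharZero L :=
    ((algebraMap (MvPolynomial X Qbar) L).charZero_iff (FaithfulSMul.algebraMap_injective _ L)).1 hcA
  obtain ⟨r, J, Q, Δ, hJ, hsli, hQ, hΔ, H⟩ := exists_fam F hfrac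
  -- evaluation at a point
  let ψ : (X → ℂ) → MvPolynomial σ (MvPolynomial X Qbar) →+* ℂ := fun z =>
    (MvPolynomial.eval₂Hom (MvPolynomial.eval z) (f z)).comp (MvPolynomial.map (mC Qbar X))
  have hψ : ∀ z p, ψ z p = MvPolynomial.aeval (Sum.elim z (f z)) (flat p) := fun z p => (flat_eval p z (f z)).symm
  have hψC : ∀ z, (ψ z).comp MvPolynomial.C = evz z := by
    intro z
    apply RingHom.ext
    intro a
    simp only [ψ, RingHom.comp_apply, MvPolynomial.map_C, MvPolynomial.eval₂Hom_C, evz]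
  have hψX : ∀ z i, ψ z (MvPolynomial.X i) = f z i := by
    intro z i
    simp only [ψ, RingHom.comp_apply, MvPolynomial.map_X, MvPolynomial.eval₂Hom_X']
  have hψ0 : ∀ z ∈ U, ∀ p, MvPolynomial.aeval F p = 0 → ψ z p = 0 := by
    intro z hzU p hp
    exact (hz p).1 hp z hzU
  have hψvg : ∀ z ∈ U, VeryGeneral U f z → ∀ p, MvPolynomial.aeval F p = 0 ↔ ψ z p = 0 := by
    intro z hzU hvg p
    refine ⟨hψ0 z hzU p, fun hp => ?_⟩
    rw [hψ] at hp
    rw [hz]
    intro w hw
    have h1 := hvg _ hp w hw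
    rw [← hψ] at h1
    exact h1
  -- the upper bound
  have hup : ∀ z ∈ U, ψ z (Q * MvPolynomial.C Δ) ≠ 0 → dim f z ≤ r := by
    intro z hzU h0
    rw [map_mul] at h0
    obtain ⟨α, hα, hα2⟩ := H ℂ (ψ z) (hψ0 z hzU) (left_ne_zero_of_mul h0) (right_ne_zero_of_mul h0)
    refine dim_le f z J α (fun i l => ?_) (fun i => ?_)
    · obtain ⟨p, hp, hp0⟩ := hα i l
      rw [hψC] at hp hp0
      exact const_of_alg z _ p hp hp0
    · have h1 := hα2 i
      rw [hψX] at h1
      rw [h1]
      refine Finset.sum_congr rfl fun l _ => ?_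
      rw [hψX]
  have hR0 : MvPolynomial.aeval F (Q * MvPolynomial.C Δ) ≠ 0 := by
    rw [map_mul, MvPolynomial.aeval_C]
    refine mul_ne_zero hQ ?_
    rw [Ne, map_eq_zero_iff _ (FaithfulSMul.algebraMap_injective _ L)]
    exact hΔ
  have hR1 : ∃ z ∈ U, ψ z (Q * MvPolynomial.C Δ) ≠ 0 := by
    by_contra hcon
    push Not at hcon
    exact hR0 ((hz _).2 hcon)
  -- the lower bound
  have hlow : ∀ z ∈ U, VeryGeneral U f z → LinearIndependent (Const z) fun l => f z (J l) := by
    intro z hzU hvg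
    obtain ⟨Φ, hΦ⟩ := exists_ext F hfrac (ψ z) (hψvg z hzU hvg)
    rw [Fintype.linearIndependent_iff]
    intro c hc
    have hΦA : Φ.comp (algebraMap (MvPolynomial X Qbar) L) = evz z := by
      rw [← hψC]
      apply RingHom.ext
      intro a
      rw [RingHom.comp_apply, RingHom.comp_apply, ← hΦ, MvPolynomial.aeval_C]
    have h1 := hsli ℂ Φ (fun l => (c l : ℂ)) (fun l => by
      obtain ⟨p, hp, hp0⟩ := alg_of_const z _ (c l).2
      rw [hΦA]
      exact ⟨p, fun h => hp (by rw [h, Polynomial.map_zero]), hp0⟩) (by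
      rw [← hc]
      refine Finset.sum_congr rfl fun l _ => ?_
      have h2 : Φ ((F ∘ J) l) = f z (J l) := by
        have h3 := hΦ (MvPolynomial.X (J l))
        rw [MvPolynomial.aeval_X, hψX] at h3
        exact h3
      rw [h2]
      rfl)
    intro l
    exact Subtype.ext (congrFun h1 l)
  refine ⟨r, J, hJ, hlow, ?_, ⟨flat (Q * MvPolynomial.C Δ), ?_, ?_⟩, ?_, ?_⟩
  · intro z hzU hvg
    refine le_antisymm (hup z hzU ?_) (le_dim f z J (hlow z hzU hvg))
    intro h0
    exact hR0 ((hψvg z hzU hvg _).2 h0)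
  · obtain ⟨z, hzU, h0⟩ := hR1
    refine ⟨z, hzU, ?_⟩
    rw [← hψ]
    exact h0
  · intro z hzU h0
    rw [← hψ] at h0
    exact hup z hzU h0
  · apply few_conv
    refine N207.GS.few_of _ (fun K _ _ io n ξ T s hs => hs.1.1) fun n ε hn hε => ?_
    obtain ⟨D, C, T₀, hC, hT₀, H2⟩ := cov_ring allAlg_Qbar hU hUo hne hf (Q * MvPolynomial.C Δ) hR1
      (InnerM U n) (innerM_compact _ _) (innerM_sub _ hn) n ε hε
    refine ⟨D, C, T₀, hC, hT₀, fun K _ _ hm io _ T hT => (H2 K hm io T hT).mono le_rfl le_rfl ?_⟩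
    refine Set.image_mono ?_
    rintro s ⟨⟨hs1, hs2⟩, hs3⟩
    refine ⟨hs1, hs2, ?_⟩
    by_contra h0
    exact absurd hs3 (not_lt.2 (hup _ (innerM_sub _ hn hs2) h0))
  · apply few_conv
    refine N207.GS.few_of _ (fun K _ _ io n ξ T s hs => hs.1.1) fun n ε hn hε => ?_
    obtain ⟨D, C, T₀, hC, hT₀, H2⟩ := linQ allAlg_Qbar hU hUo hne hf F hz hfrac J hsli
      (InnerM U n) (innerM_compact _ _) (innerM_sub _ hn) n n ε hε
    refine ⟨D, C, T₀, hC, hT₀, fun K _ _ hm io _ T hT => (H2 K hm io T hT).mono le_rfl le_rfl ?_⟩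
    refine Set.image_mono ?_
    rintro s ⟨⟨hs1, hs2⟩, c, hc0, hc1, hc2⟩
    refine ⟨hs1, hs2, c, hc0, fun l φ => ?_, hc2⟩
    rw [Real.rpow_natCast]
    exact hc1 l φ

end Pool.Agent.Run7.h10.QS
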