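import Pool.Agent.Run7.h10.QS.E6

/-!
# A zero-one law: numbers which are algebraic over the periods of many members of a family
-/

set_option autoImplicit false
set_option linter.unusedSectionVars false

open NumberField Filter

namespace Pool.Agent.Run7.h10.QS

open Pool.Agent.Y890.MV Pool.Agent.Y890.SP
open Pool.Agent.N207.GS (Irr)

/-- evaluation at a point of the graph -/
noncomputable def psz {X σ : Type} (f : (X → ℂ) → σ → ℂ) (z : X → ℂ) : MvPolynomial σ (MvPolynomial X Qbar) →+* ℂ :=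
  (MvPolynomial.eval₂Hom (MvPolynomial.eval z) (f z)).comp (MvPolynomial.map (mC Qbar X))

theorem psz_flat {X σ : Type} (f : (X → ℂ) → σ → ℂ) (z : X → ℂ) (p : MvPolynomial σ (MvPolynomial X Qbar)) :
    psz f z p = MvPolynomial.aeval (Sum.elim z (f z)) (flat p) := (flat_eval p z (f z)).symm

theorem few_pos {X : Type} [Fintype X]
    {E : (K : Type) → [Field K] → [NumberField K] → (K →+* ℂ) → (k : ℕ) → (Fin k → ℂ) → ℝ → Set (X → K)}
    {E' : (K : Type) → [Field K] → [NumberField K] → (K →+* ℂ) → ℕ → ℝ → Set (X → K)}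
    (h : Pool.Agent.N207.GS.Few E)
    (hs : ∀ (K : Type) [Field K] [NumberField K] (io : K →+* ℂ) (k : ℕ) (ξ : Fin k → ℂ) (T : ℝ), 0 < k →
      E' K io k T ⊆ E K io k ξ T) : Few E' := by
  obtain ⟨ω, T₀, h1, h2, h3⟩ := h
  refine ⟨ω, T₀, h1, h2, fun T hT => ⟨(h3 T hT).1, fun K _ _ hK io => ?_⟩⟩
  have h7 := (h3 T hT).1
  obtain ⟨h4, h5, h6⟩ := (h3 T hT).2 K hK io 0
  refine ⟨h4.mono le_rfl le_rfl (Set.image_mono (hs K io _ 0 T h7)), h5.subset (hs K io _ 0 T h7), le_trans ?_ h6⟩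
  exact_mod_cast Set.ncard_le_ncard (hs K io _ 0 T h7) h5

theorem irr_slice {σ τ : Type} (a : σ → ℂ) : Irr (Set.range fun b : τ → ℂ => (Sum.elim b a : τ ⊕ σ → ℂ)) := by
  intro P Q h
  let φ : MvPolynomial (τ ⊕ σ) ℂ →+* MvPolynomial τ ℂ :=
    MvPolynomial.eval₂Hom MvPolynomial.C (Sum.elim MvPolynomial.X fun i => MvPolynomial.C (a i))
  have hφ : ∀ (b : τ → ℂ) (P : MvPolynomial (τ ⊕ σ) ℂ), MvPolynomial.eval b (φ P) =
      MvPolynomial.eval (Sum.elim b a) P := by
    intro b P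
    have h1 : (MvPolynomial.eval b).comp φ = MvPolynomial.eval (Sum.elim b a) := by
      apply MvPolynomial.ringHom_ext
      · intro c
        simp [φ]
      · rintro (i | i)
        · simp [φ]
        · simp [φ]
    exact RingHom.congr_fun h1 P
  have h1 : φ P * φ Q = 0 := by
    apply MvPolynomial.funext
    intro b
    rw [map_mul, map_zero, hφ, hφ]
    exact h _ ⟨b, rfl⟩
  rcases mul_eq_zero.1 h1 with h2 | h2
  · left
    rintro _ ⟨b, rfl⟩
    rw [← hφ, h2, map_zero]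
  · right
    rintro _ ⟨b, rfl⟩
    rw [← hφ, h2, map_zero]

theorem sum_eval {X σ τ : Type} (f : (X → ℂ) → σ → ℂ) (z : X → ℂ) (b : τ → ℂ)
    (p : MvPolynomial (τ ⊕ σ) (MvPolynomial X Qbar)) :
    MvPolynomial.eval₂ (psz f z) b (MvPolynomial.sumAlgEquiv (MvPolynomial X Qbar) τ σ p) =
      evX z (Sum.elim b (f z)) (MvPolynomial.map (mC Qbar X) p) := by
  have h : (MvPolynomial.eval₂Hom (psz f z) b).comp
      (MvPolynomial.sumAlgEquiv (MvPolynomial X Qbar) τ σ).toRingEquiv.toRingHom =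
      (MvPolynomial.eval₂Hom (MvPolynomial.eval z) (Sum.elim b (f z))).comp (MvPolynomial.map (mC Qbar X)) := by
    apply MvPolynomial.ringHom_ext
    · intro a
      change MvPolynomial.eval₂Hom (psz f z) b (MvPolynomial.sumAlgEquiv _ τ σ (MvPolynomial.C a)) = _
      rw [MvPolynomial.sumAlgEquiv_C_inl, MvPolynomial.eval₂Hom_C]
      simp only [psz, RingHom.comp_apply, MvPolynomial.map_C, MvPolynomial.eval₂Hom_C]
    · rintro (i | i)
      · change MvPolynomial.eval₂Hom (psz f z) b (MvPolynomial.sumAlgEquiv _ τ σ (MvPolynomial.X (Sum.inl i))) = _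
        rw [MvPolynomial.sumAlgEquiv_X_inl, MvPolynomial.eval₂Hom_X']
        simp only [RingHom.comp_apply, MvPolynomial.map_X, MvPolynomial.eval₂Hom_X', Sum.elim_inl]
      · change MvPolynomial.eval₂Hom (psz f z) b (MvPolynomial.sumAlgEquiv _ τ σ (MvPolynomial.X (Sum.inr i))) = _
        rw [MvPolynomial.sumAlgEquiv_X_inr, MvPolynomial.eval₂Hom_C]
        simp only [psz, RingHom.comp_apply, MvPolynomial.map_X, MvPolynomial.eval₂Hom_X', Sum.elim_inr]
  exact RingHom.congr_fun h p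

/-- The numbers `ξ j` are algebraically independent over the field of the functions. -/
def GenInd {X σ τ : Type} (U : Set (X → ℂ)) (f : (X → ℂ) → σ → ℂ) (ξ : τ → ℂ) : Prop :=
  ∀ p : MvPolynomial τ (MvPolynomial σ (MvPolynomial X Qbar)), (∀ z ∈ U, MvPolynomial.eval₂ (psz f z) ξ p = 0) →
    ∀ m, ∀ z ∈ U, psz f z (p.coeff m) = 0

theorem law_few {X σ τ : Type} [Fintype X] [DecidableEq X] [Nonempty X] [Fintype σ] [DecidableEq σ] [Fintype τ]
    [DecidableEq τ] {U : Set (X → ℂ)} {f : (X → ℂ) → σ → ℂ} (hU : IsPreconnected U) (hUo : IsOpen U)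
    (hne : U.Nonempty) (hf : ∀ i, AnalyticOnNhd ℂ (fun z => f z i) U) (ξ : τ → ℂ) (h : GenInd U f ξ) :
    Few fun K _ _ io k T => {s : X → K | s ∈ Points K U io k T ∧ ∃ R : MvPolynomial (τ ⊕ σ) (𝓞 K),
      Bounded K k T R ∧ value io R (Sum.elim ξ (f fun i => io (s i))) = 0 ∧
      ∃ b : τ → ℂ, value io R (Sum.elim b (f fun i => io (s i))) ≠ 0} := by
  have hg : ∀ j : τ ⊕ σ, AnalyticOnNhd ℂ ((fun (j : τ ⊕ σ) z => (Sum.elim ξ (f z) : τ ⊕ σ → ℂ) j) j) U := by
    rintro (j | j)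
    · exact fun x _ => analyticAt_const
    · exact hf j
  refine few_pos (compQ_few allAlg_Qbar hU hUo hne hg) fun K _ _ io k _ T hk => ?_
  rintro s ⟨⟨h1, h2⟩, R, ⟨h3, h4⟩, h5, b, h6⟩
  refine ⟨h1, h2, fun l => R.coeff (Finsupp.equivFunOnFinite.symm fun y => (l y : ℕ)), ?_, ?_,
    Set.range fun b : τ → ℂ => (Sum.elim b (f fun i => io (s i)) : τ ⊕ σ → ℂ), irr_slice _, ⟨ξ, rfl⟩, ?_,
    Sum.elim b (f fun i => io (s i)), ⟨b, rfl⟩, ?_⟩
  · intro l φ
    rw [Real.rpow_natCast]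
    exact h4 _ φ
  · exact (value_eq io R h3 _).trans h5
  · rintro _ ⟨b', rfl⟩ p hp
    have hsU : (fun i => io (s i)) ∈ U := innerM_sub _ hk h2
    have h8 := h (MvPolynomial.sumAlgEquiv (MvPolynomial X Qbar) τ σ p) (fun z hz => by
      rw [sum_eval]
      exact hp z hz)
    rw [← sum_eval, MvPolynomial.eval₂_eq]
    refine Finset.sum_eq_zero fun m _ => ?_
    rw [h8 m _ hsU, zero_mul]
  · rw [value_eq io R h3]
    exact h6

/-- the field generated by the coordinates and the values of the functions over the algebraic numbers -/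
noncomputable abbrev ValField {X σ : Type} (f : (X → ℂ) → σ → ℂ) (z : X → ℂ) : IntermediateField Qbar ℂ :=
  IntermediateField.adjoin Qbar (Set.range z ∪ Set.range (f z))

theorem psz_mem {X σ : Type} (f : (X → ℂ) → σ → ℂ) (z : X → ℂ) (p : MvPolynomial σ (MvPolynomial X Qbar)) :
    psz f z p ∈ ValField f z := by
  have hC : ∀ a : MvPolynomial X Qbar, psz f z (MvPolynomial.C a) ∈ ValField f z := by
    intro a
    induction a using MvPolynomial.induction_on with
    | C a =>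
      have h1 : psz f z (MvPolynomial.C (MvPolynomial.C a)) = algebraMap Qbar ℂ a := by
        simp [psz, mC]
      rw [h1]
      exact (ValField f z).algebraMap_mem a
    | add p q hp hq =>
      rw [map_add, map_add]
      exact add_mem hp hq
    | mul_X p i hp =>
      rw [map_mul, map_mul]
      refine mul_mem hp ?_
      have h1 : psz f z (MvPolynomial.C (MvPolynomial.X i)) = z i := by
        simp [psz, mC]
      rw [h1]
      exact IntermediateField.subset_adjoin _ _ (Or.inl ⟨i, rfl⟩)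
  induction p using MvPolynomial.induction_on with
  | C a => exact hC a
  | add p q hp hq =>
    rw [map_add]
    exact add_mem hp hq
  | mul_X p i hp =>
    rw [map_mul]
    refine mul_mem hp ?_
    have h1 : psz f z (MvPolynomial.X i) = f z i := by
      simp [psz]
    rw [h1]
    exact IntermediateField.subset_adjoin _ _ (Or.inr ⟨i, rfl⟩)

theorem dep_of_not {X σ τ : Type} {U : Set (X → ℂ)} {f : (X → ℂ) → σ → ℂ} {ξ : τ → ℂ} (h : ¬GenInd U f ξ) :
    ∃ a : MvPolynomial σ (MvPolynomial X Qbar), (∃ z ∈ U, psz f z a ≠ 0) ∧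
      ∀ z ∈ U, psz f z a ≠ 0 → ¬AlgebraicIndependent (ValField f z) ξ := by
  rw [GenInd] at h
  push Not at h
  obtain ⟨p, hp, m, z0, hz0, hm⟩ := h
  refine ⟨p.coeff m, ⟨z0, hz0, hm⟩, fun z hz hne hind => ?_⟩
  let φ : MvPolynomial σ (MvPolynomial X Qbar) →+* ValField f z := (psz f z).codRestrict _ (psz_mem f z)
  have hφ : (algebraMap (ValField f z) ℂ).comp φ = psz f z := RingHom.ext fun a => rfl
  have h1 : MvPolynomial.aeval ξ (MvPolynomial.map φ p) = 0 := by
    rw [MvPolynomial.aeval_def, MvPolynomial.eval₂_map, hφ]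
    exact hp z hz
  have h2 := (injective_iff_map_eq_zero _).1 hind _ h1
  apply hne
  have h3 := congrArg (MvPolynomial.coeff m) h2
  rw [MvPolynomial.coeff_map, MvPolynomial.coeff_zero] at h3
  have h4 := congrArg (algebraMap (ValField f z) ℂ) h3
  rw [map_zero] at h4
  exact h4

/-- **The zero-one law.** -/
theorem law {X σ τ : Type} [Fintype X] [DecidableEq X] [Nonempty X] [Fintype σ] [DecidableEq σ] [Fintype τ]
    [DecidableEq τ] {U : Set (X → ℂ)} {f : (X → ℂ) → σ → ℂ} (hU : IsPreconnected U) (hUo : IsOpen U)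
    (hne : U.Nonempty) (hf : ∀ i, AnalyticOnNhd ℂ (fun z => f z i) U) (ξ : τ → ℂ) :
    ((∃ a : MvPolynomial (X ⊕ σ) Qbar, (∃ z ∈ U, MvPolynomial.aeval (Sum.elim z (f z)) a ≠ 0) ∧
        ∀ z ∈ U, MvPolynomial.aeval (Sum.elim z (f z)) a ≠ 0 → ¬AlgebraicIndependent (ValField f z) ξ) ∧
      Few fun K _ _ io k T => {s : X → K | s ∈ Points K U io k T ∧
        AlgebraicIndependent (ValField f fun i => io (s i)) ξ}) ∨
    Few fun K _ _ io k T => {s : X → K | s ∈ Points K U io k T ∧ ∃ R : MvPolynomial (τ ⊕ σ) (𝓞 K),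
      Bounded K k T R ∧ value io R (Sum.elim ξ (f fun i => io (s i))) = 0 ∧
      ∃ b : τ → ℂ, value io R (Sum.elim b (f fun i => io (s i))) ≠ 0} := by
  by_cases h : GenInd U f ξ
  · exact Or.inr (law_few hU hUo hne hf ξ h)
  · left
    obtain ⟨a, ha, ha2⟩ := dep_of_not h
    refine ⟨⟨flat a, ?_, ?_⟩, ?_⟩
    · obtain ⟨z, hz, h0⟩ := ha
      refine ⟨z, hz, ?_⟩
      rw [← psz_flat]
      exact h0
    · intro z hz h0
      rw [← psz_flat] at h0
      exact ha2 z hz h0
    · apply few_conv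
      refine N207.GS.few_of _ (fun K _ _ io n ξ T s hs => hs.1.1) fun n ε hn hε => ?_
      obtain ⟨D, C, T₀, hC, hT₀, H2⟩ := cov_ring allAlg_Qbar hU hUo hne hf a ha
        (InnerM U n) (innerM_compact _ _) (innerM_sub _ hn) n ε hε
      refine ⟨D, C, T₀, hC, hT₀, fun K _ _ hm io _ T hT => (H2 K hm io T hT).mono le_rfl le_rfl ?_⟩
      refine Set.image_mono ?_
      rintro s ⟨⟨hs1, hs2⟩, hs3⟩
      refine ⟨hs1, hs2, ?_⟩
      by_contra h0
      exact ha2 _ (innerM_sub _ hn hs2) h0 hs3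

end Pool.Agent.Run7.h10.QS
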