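import Pool.Agent.Run7.h10.QS.F1

/-!
# Numbers which are independent over the field of the Taylor coefficients at one point
-/

set_option autoImplicit false
set_option linter.unusedSectionVars false

open NumberField Filter Topology

namespace Pool.Agent.Run7.h10.QS

open Pool.Agent.Y890.MV Pool.Agent.Y890.SP

section ring
variable (k : Subfield ℂ)

/-- the function is analytic at zero and its Taylor coefficients are in `k` -/
def TayIn (g : ℂ → ℂ) : Prop := AnalyticAt ℂ g 0 ∧ ∀ n, iteratedDeriv n g 0 ∈ k

variable {k}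

theorem TayIn.add {g h : ℂ → ℂ} (hg : TayIn k g) (hh : TayIn k h) : TayIn k (fun t => g t + h t) := by
  refine ⟨hg.1.add hh.1, fun n => ?_⟩
  rw [iteratedDeriv_fun_add hg.1.contDiffAt hh.1.contDiffAt]
  exact add_mem (hg.2 n) (hh.2 n)

theorem TayIn.mul {g h : ℂ → ℂ} (hg : TayIn k g) (hh : TayIn k h) : TayIn k (fun t => g t * h t) := by
  refine ⟨hg.1.mul hh.1, fun n => ?_⟩
  have h1 : (fun t => g t * h t) = g * h := rfl
  rw [h1, iteratedDeriv_mul hg.1.contDiffAt hh.1.contDiffAt]
  refine sum_mem fun i _ => ?_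
  exact mul_mem (mul_mem (natCast_mem k _) (hg.2 i)) (hh.2 _)

theorem TayIn.const {c : ℂ} (hc : c ∈ k) : TayIn k (fun _ => c) := by
  refine ⟨analyticAt_const, fun n => ?_⟩
  rcases Nat.eq_zero_or_pos n with rfl | hn
  · simpa using hc
  · rw [iteratedDeriv_const]
    rw [if_neg hn.ne']
    exact zero_mem k

theorem TayIn.lin {a b : ℂ} (ha : a ∈ k) (hb : b ∈ k) : TayIn k (fun t => a + t * b) := by
  refine TayIn.add (TayIn.const ha) (TayIn.mul ?_ (TayIn.const hb))
  refine ⟨analyticAt_id, fun n => ?_⟩
  rcases n with _ | n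
  · simp
  · rw [iteratedDeriv_succ']
    have h1 : deriv (fun t : ℂ => t) = fun _ => (1 : ℂ) := by
      funext t
      exact deriv_id t
    rw [h1]
    exact (TayIn.const (one_mem k)).2 n

/-- a function all of whose Taylor coefficients vanish is zero near the point -/
theorem zero_of_taylor {g : ℂ → ℂ} (hg : AnalyticAt ℂ g 0) (h : ∀ n, iteratedDeriv n g 0 = 0) :
    ∀ᶠ t in 𝓝 (0 : ℂ), g t = 0 := by
  have h1 := hg.hasFPowerSeriesAt.eventually_hasSum
  filter_upwards [h1] with t ht
  rw [zero_add] at ht
  refine ht.unique ?_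
  convert hasSum_zero with n
  rw [FormalMultilinearSeries.ofScalars_apply_eq, h n]
  simp

end ring

theorem dense_alg {X : Type} : DenseRange fun v : X → Qbar => fun i => ((v i : Qbar) : ℂ) := by
  have h1 : DenseRange fun a : Qbar => (a : ℂ) := by
    have h2 : DenseRange fun p : ℚ × ℚ => Complex.equivRealProdCLM.symm ((p.1 : ℝ), (p.2 : ℝ)) := by
      have h3 : DenseRange (Prod.map (Rat.cast : ℚ → ℝ) (Rat.cast : ℚ → ℝ)) :=
        Rat.denseRange_cast.prodMap Rat.denseRange_cast
      exact Complex.equivRealProdCLM.symm.surjective.denseRange.comp h3 Complex.equivRealProdCLM.symm.continuous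
    refine Dense.mono ?_ h2
    rintro _ ⟨⟨p, q⟩, rfl⟩
    have hI : IsAlgebraic ℚ Complex.I := by
      refine ⟨Polynomial.X ^ 2 + 1, ?_, ?_⟩
      · intro h
        have h4 := congrArg (Polynomial.eval 0) h
        simp at h4
      · simp
    have h3 : IsAlgebraic ℚ (Complex.equivRealProdCLM.symm ((p : ℝ), (q : ℝ))) := by
      have h4 : Complex.equivRealProdCLM.symm ((p : ℝ), (q : ℝ)) =
          algebraMap ℚ ℂ p + algebraMap ℚ ℂ q * Complex.I := by
        apply Complex.ext
        · simp
        · simp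
      rw [h4]
      exact (isAlgebraic_algebraMap p).add ((isAlgebraic_algebraMap q).mul hI)
    exact ⟨⟨_, mem_algebraicClosure_iff.2 h3⟩, rfl⟩
  exact DenseRange.piMap fun _ => h1

/-- **One point decides.** -/
theorem genInd_of_point {X σ τ : Type} [Fintype X] {U : Set (X → ℂ)} {f : (X → ℂ) → σ → ℂ} (hU : IsPreconnected U)
    (hUo : IsOpen U) (hf : ∀ i, AnalyticOnNhd ℂ (fun z => f z i) U) (ξ : τ → ℂ)
    (k : IntermediateField Qbar ℂ) (s : X → ℂ) (hsU : s ∈ U) (hs : ∀ i, s i ∈ k)
    (ht : ∀ (i : σ) (v : X → Qbar) (n : ℕ), iteratedDeriv n (fun t : ℂ => f (s + t • fun j => (v j : ℂ)) i) 0 ∈ k)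
    (hξ : AlgebraicIndependent k ξ) : GenInd U f ξ := by
  classical
  intro p hp m z hz
  by_contra hne
  -- a point near `s` at which the coefficient does not vanish
  have han : ∀ q : MvPolynomial σ (MvPolynomial X Qbar), AnalyticOnNhd ℂ (fun z => psz f z q) U := by
    intro q
    have h1 := val_anQ hf (flat q)
    intro x hx
    have h2 := h1 x hx
    simp only [← psz_flat] at h2
    exact h2
  obtain ⟨r, hr, hrU⟩ := Metric.isOpen_iff.1 hUo s hsU
  have hex : ∃ w ∈ Metric.ball s r, psz f w (p.coeff m) ≠ 0 := by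
    by_contra hcon
    push Not at hcon
    apply hne
    refine (han (p.coeff m)).eqOn_zero_of_preconnected_of_eventuallyEq_zero hU hsU ?_ hz
    filter_upwards [Metric.ball_mem_nhds s hr] with y hy
    exact hcon y hy
  obtain ⟨w, hw, hw0⟩ := hex
  have hopen : IsOpen (Metric.ball s r ∩ {w | psz f w (p.coeff m) ≠ 0}) :=
    ((han (p.coeff m)).mono hrU).continuousOn.isOpen_inter_preimage Metric.isOpen_ball isOpen_compl_singleton
  have hopen2 : IsOpen {v : X → ℂ | s + v ∈ Metric.ball s r ∩ {w | psz f w (p.coeff m) ≠ 0}} :=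
    hopen.preimage (continuous_const.add continuous_id)
  obtain ⟨v, hv⟩ := dense_alg.exists_mem_open hopen2 ⟨w - s, by
    change s + (w - s) ∈ Metric.ball s r ∩ {w | psz f w (p.coeff m) ≠ 0}
    rw [add_sub_cancel]
    exact ⟨hw, hw0⟩⟩
  set v' : X → ℂ := fun j => ((v j : Qbar) : ℂ) with hv'
  -- the line
  let γ : ℂ → X → ℂ := fun t => s + t • v'
  have hγ : ∀ t, AnalyticAt ℂ γ t := by
    intro t
    exact analyticAt_const.add (analyticAt_id.smul analyticAt_const)
  have hγc : Continuous γ := continuous_const.add (continuous_id.smul continuous_const)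
  have hγ0 : γ 0 = s := by simp [γ]
  have hγ1 : γ 1 = s + v' := by simp [γ]
  have hT : ∀ q : MvPolynomial σ (MvPolynomial X Qbar), TayIn k.toSubfield fun t => psz f (γ t) q := by
    intro q
    have hC : ∀ a : MvPolynomial X Qbar, TayIn k.toSubfield fun t => psz f (γ t) (MvPolynomial.C a) := by
      intro a
      induction a using MvPolynomial.induction_on with
      | C a =>
        have h1 : ∀ t, psz f (γ t) (MvPolynomial.C (MvPolynomial.C a)) = (a : ℂ) := by
          intro t
          simp [psz, mC]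
        simp only [h1]
        exact TayIn.const (k.algebraMap_mem a)
      | add p q hp hq =>
        simp only [map_add]
        exact hp.add hq
      | mul_X p i hp =>
        simp only [map_mul]
        refine hp.mul ?_
        have h1 : ∀ t, psz f (γ t) (MvPolynomial.C (MvPolynomial.X i)) = s i + t * v' i := by
          intro t
          simp [psz, mC, γ]
        simp only [h1]
        exact TayIn.lin (hs i) (k.algebraMap_mem (v i))
    induction q using MvPolynomial.induction_on with
    | C a => exact hC a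
    | add p q hp hq =>
      simp only [map_add]
      exact hp.add hq
    | mul_X p i hp =>
      simp only [map_mul]
      refine hp.mul ?_
      have h1 : ∀ t, psz f (γ t) (MvPolynomial.X i) = f (γ t) i := by
        intro t
        simp [psz]
      simp only [h1]
      refine ⟨?_, fun n => ht i v n⟩
      have h2 : AnalyticAt ℂ (fun z => f z i) (γ 0) := hf i (γ 0) (by rw [hγ0]; exact hsU)
      have h3 : AnalyticAt ℂ ((fun z => f z i) ∘ γ) 0 := h2.comp (hγ 0)
      exact h3
  -- the Taylor coefficients vanish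
  have hnear : ∀ᶠ t in 𝓝 (0 : ℂ), γ t ∈ U := by
    have h1 : Tendsto γ (𝓝 0) (𝓝 s) := by
      have h2 := hγc.tendsto 0
      rw [hγ0] at h2
      exact h2
    exact h1.eventually (hUo.mem_nhds hsU)
  have hTay : ∀ n, iteratedDeriv n (fun t => psz f (γ t) (p.coeff m)) 0 = 0 := by
    intro n
    let P : MvPolynomial τ k := ∑ l ∈ p.support,
      MvPolynomial.monomial l (⟨iteratedDeriv n (fun t => psz f (γ t) (p.coeff l)) 0, (hT (p.coeff l)).2 n⟩ : k)
    have hP : MvPolynomial.aeval ξ P = 0 := by
      have h1 : (fun t => ∑ l ∈ p.support, (∏ i ∈ l.support, ξ i ^ l i) * psz f (γ t) (p.coeff l)) =ᶠ[𝓝 0]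
          fun _ => 0 := by
        filter_upwards [hnear] with t ht
        have h2 := hp (γ t) ht
        rw [MvPolynomial.eval₂_eq] at h2
        rw [← h2]
        refine Finset.sum_congr rfl fun l _ => ?_
        rw [mul_comm]
      have h2 := h1.iteratedDeriv_eq n
      have hcd : ∀ l ∈ p.support, ContDiffAt ℂ (n : ℕ∞)
          (fun t => (∏ i ∈ l.support, ξ i ^ l i) * psz f (γ t) (p.coeff l)) 0 := fun l _ =>
        (analyticAt_const.mul (hT (p.coeff l)).1).contDiffAt
      rw [iteratedDeriv_fun_sum hcd] at h2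
      have h3 : iteratedDeriv n (fun _ : ℂ => (0 : ℂ)) 0 = 0 := by
        rw [iteratedDeriv_const]
        split_ifs <;> rfl
      rw [h3] at h2
      rw [map_sum]
      refine (Finset.sum_congr rfl fun l _ => ?_).trans h2
      rw [iteratedDeriv_const_mul _ (hT (p.coeff l)).1.contDiffAt, MvPolynomial.aeval_monomial, Finsupp.prod,
        mul_comm]
      rfl
    have hP0 : P = 0 := (injective_iff_map_eq_zero _).1 hξ P hP
    by_cases hm : m ∈ p.support
    · have h1 := congrArg (MvPolynomial.coeff m) hP0
      rw [MvPolynomial.coeff_sum, MvPolynomial.coeff_zero, Finset.sum_eq_single m] at h1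
      · rw [MvPolynomial.coeff_monomial, if_pos rfl] at h1
        exact congrArg Subtype.val h1
      · intro l _ hl
        rw [MvPolynomial.coeff_monomial, if_neg hl]
      · intro h
        exact absurd hm h
    · exfalso
      apply hne
      rw [MvPolynomial.notMem_support_iff.1 hm, map_zero]
  have hz0 := zero_of_taylor (hT (p.coeff m)).1 hTay
  -- the identity theorem on the line
  have hconv : Convex ℝ (γ ⁻¹' Metric.ball s r) := by
    have h1 : IsLinearMap ℝ fun t : ℂ => t • v' := by
      constructor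
      · intro x y
        rw [add_smul]
      · intro c x
        rw [smul_assoc]
    have h2 : Convex ℝ ((fun t : ℂ => t • v') ⁻¹' Metric.ball 0 r) := (convex_ball 0 r).is_linear_preimage h1
    have h3 : γ ⁻¹' Metric.ball s r = (fun t : ℂ => t • v') ⁻¹' Metric.ball 0 r := by
      ext t
      simp [γ, Metric.mem_ball, dist_eq_norm]
    rw [h3]
    exact h2
  have hline : AnalyticOnNhd ℂ (fun t => psz f (γ t) (p.coeff m)) (γ ⁻¹' Metric.ball s r) := by
    intro t ht
    have h3 : AnalyticAt ℂ ((fun z => psz f z (p.coeff m)) ∘ γ) t :=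
      AnalyticAt.comp (g := fun z => psz f z (p.coeff m)) (han (p.coeff m) (γ t) (hrU ht)) (hγ t)
    exact h3
  have h0mem : (0 : ℂ) ∈ γ ⁻¹' Metric.ball s r := by
    change γ 0 ∈ Metric.ball s r
    rw [hγ0]
    exact Metric.mem_ball_self hr
  have h1mem : (1 : ℂ) ∈ γ ⁻¹' Metric.ball s r := by
    change γ 1 ∈ Metric.ball s r
    rw [hγ1]
    exact hv.1
  have h1 := hline.eqOn_zero_of_preconnected_of_eventuallyEq_zero hconv.isPreconnected h0mem hz0 h1mem
  have h2 : psz f (γ 1) (p.coeff m) = 0 := h1
  rw [hγ1] at h2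
  exact hv.2 h2

end Pool.Agent.Run7.h10.QS
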