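import Pool.Agent.Run7.h10.QS.F2
import Pool.Agent.H327R2.SC.ExpLat

/-!
# Algebraic independence over a field of small transcendence degree
-/

set_option autoImplicit false
set_option linter.unusedSectionVars false

open NumberField Filter Topology
open Pool.Agent.Y890.MV Pool.Agent.Y890.SP

namespace Pool.Agent.Run7.h10.QS

/-- A family of algebraically independent numbers stays independent over a field of transcendence degree `D` after
removing `D` of them. -/
theorem exists_ind {τ : Type} [Fintype τ] (x : τ → ℂ) (hx : AlgebraicIndependent Qbar x)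
    (k : IntermediateField Qbar ℂ) (D : ℕ) (hD : Algebra.trdeg Qbar k ≤ (D : Cardinal)) :
    ∃ S : Finset τ, Fintype.card τ ≤ S.card + D ∧ AlgebraicIndependent k fun i : S => x i := by
  classical
  let A := Algebra.adjoin k (Set.range x)
  let x' : τ → A := fun i => ⟨x i, Algebra.subset_adjoin ⟨i, rfl⟩⟩
  have htop : Algebra.adjoin k (Set.range x') = ⊤ := by
    have h1 := Algebra.adjoin_adjoin_coe_preimage (R := k) (s := Set.range x)
    convert h1 using 2
    ext a
    constructor
    · rintro ⟨i, rfl⟩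
      exact ⟨i, rfl⟩
    · rintro ⟨i, hi⟩
      exact ⟨i, Subtype.ext hi⟩
  have halg : Algebra.IsAlgebraic (Algebra.adjoin k (Set.range x')) A := by
    rw [htop]
    exact ⟨fun a => isAlgebraic_algebraMap (R := (⊤ : Subalgebra k A)) ⟨a, trivial⟩⟩
  have hfa : FaithfulSMul k A := (faithfulSMul_iff_algebraMap_injective k A).2 (algebraMap k A).injective
  obtain ⟨t, ht, hb⟩ := exists_isTranscendenceBasis_subset (R := k) (A := A) (Set.range x')
  have hx' : AlgebraicIndependent Qbar x' := by
    have h1 : AlgebraicIndependent Qbar ((IsScalarTower.toAlgHom Qbar A ℂ) ∘ x') := hx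
    exact h1.of_comp _
  have h1 : (Fintype.card τ : Cardinal) ≤ Algebra.trdeg Qbar A := by
    rw [← Cardinal.mk_fintype]
    exact hx'.cardinalMk_le_trdeg
  rw [← trdeg_add_eq Qbar k (A := A), ← hb.cardinalMk_eq_trdeg] at h1
  let S : Finset τ := Finset.univ.filter fun i => x' i ∈ t
  have hcard : Cardinal.mk t ≤ (S.card : Cardinal) := by
    have h2 : t ⊆ Set.range fun i : S => x' i := by
      intro a ha
      obtain ⟨i, rfl⟩ := ht ha
      exact ⟨⟨i, by simp [S, ha]⟩, rfl⟩
    refine (Cardinal.mk_le_mk_of_subset h2).trans (Cardinal.mk_range_le.trans ?_)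
    simp
  refine ⟨S, ?_, ?_⟩
  · have h3 : (Fintype.card τ : Cardinal) ≤ (D : Cardinal) + (S.card : Cardinal) :=
      h1.trans (add_le_add hD hcard)
    have h4 : (Fintype.card τ : Cardinal) ≤ ((D + S.card : ℕ) : Cardinal) := by
      push_cast
      exact h3
    have h5 := Nat.cast_le.1 h4
    omega
  · have h2 : AlgebraicIndependent k fun i : S => x' i := by
      have h3 := hb.1
      refine h3.comp (fun i : S => (⟨x' i, (Finset.mem_filter.1 i.2).2⟩ : t)) ?_
      intro i j hij
      have h4 : x' i = x' j := congrArg Subtype.val hij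
      exact Subtype.ext (hx'.injective h4)
    exact h2.map' (f := A.val) Subtype.val_injective

/-- Lindemann and Weierstrass over a field of small transcendence degree -/
theorem exists_exp {N : ℕ} (α : Fin N → ℂ) (hα : ∀ i, IsAlgebraic ℚ (α i)) (hli : LinearIndependent ℚ α)
    (k : IntermediateField Qbar ℂ) (D : ℕ) (hD : Algebra.trdeg Qbar k ≤ (D : Cardinal)) :
    ∃ S : Finset (Fin N), N ≤ S.card + D ∧ AlgebraicIndependent k fun i : S => Complex.exp (α i) := by
  have h1 := Pool.Agent.H327R2.SC.lw_algInd α hα hli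
  have : Algebra.IsAlgebraic ℚ Qbar := algebraicClosure.isAlgebraic ℚ ℂ
  have h2 : AlgebraicIndependent Qbar fun i => Complex.exp (α i) := h1.extendScalars Qbar
  obtain ⟨S, h3, h4⟩ := exists_ind _ h2 k D hD
  rw [Fintype.card_fin] at h3
  exact ⟨S, h3, h4⟩

/-- The derivatives along a line are combinations of the partial derivatives. -/
theorem line_mem {X : Type} [Fintype X] [DecidableEq X] {U : Set (X → ℂ)} {g : (X → ℂ) → ℂ} (hUo : IsOpen U)
    (hg : AnalyticOnNhd ℂ g U) (k : IntermediateField Qbar ℂ) (s : X → ℂ) (hsU : s ∈ U)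
    (h : ∀ (n : ℕ) (e : Fin n → X), iteratedFDeriv ℂ n g s (fun l => Pi.single (e l) 1) ∈ k) (v : X → Qbar) (n : ℕ) :
    iteratedDeriv n (fun t : ℂ => g (s + t • fun j => (v j : ℂ))) 0 ∈ k := by
  let v' : X → ℂ := fun j => (v j : ℂ)
  let L : ℂ →L[ℂ] (X → ℂ) := (1 : ℂ →L[ℂ] ℂ).smulRight v'
  let V : Set (X → ℂ) := (fun y => s + y) ⁻¹' U
  have hVo : IsOpen V := hUo.preimage (continuous_const.add continuous_id)
  have h0V : L 0 ∈ V := by
    simp [V, hsU]
  have hcd : ContDiffOn ℂ n (fun y => g (s + y)) V := by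
    intro y hy
    have h1 : AnalyticAt ℂ (g ∘ fun y => s + y) y :=
      AnalyticAt.comp (g := g) (hg (s + y) hy) (analyticAt_const.add analyticAt_id)
    exact h1.contDiffAt.contDiffWithinAt
  have hLo : IsOpen (L ⁻¹' V) := hVo.preimage L.continuous
  have h1 := L.iteratedFDerivWithin_comp_right hcd hVo.uniqueDiffOn hLo.uniqueDiffOn h0V le_rfl
  rw [iteratedFDerivWithin_of_isOpen n hLo h0V, iteratedFDerivWithin_of_isOpen n hVo h0V,
    iteratedFDeriv_comp_add_left, map_zero, add_zero] at h1
  have h2 : iteratedDeriv n (fun t : ℂ => g (s + t • fun j => (v j : ℂ))) 0 =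
      iteratedFDeriv ℂ n g s fun _ => ∑ j, v' j • (Pi.single j 1 : X → ℂ) := by
    rw [iteratedDeriv_eq_iteratedFDeriv]
    have h3 : (fun t : ℂ => g (s + t • fun j => (v j : ℂ))) = (fun y => g (s + y)) ∘ L := by
      funext t
      simp [L, v']
    rw [h3, h1, ContinuousMultilinearMap.compContinuousLinearMap_apply]
    congr 1
    funext _
    have h4 : L 1 = v' := by simp [L]
    rw [h4]
    exact pi_eq_sum_univ' v'
  rw [h2, (iteratedFDeriv ℂ n g s).map_sum]
  refine sum_mem fun r _ => ?_
  rw [(iteratedFDeriv ℂ n g s).map_smul_univ, smul_eq_mul]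
  exact mul_mem (prod_mem fun l _ => k.algebraMap_mem (v (r l))) (h n r)

end Pool.Agent.Run7.h10.QS
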