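import Mathlib

/-!
# A prime ideal over a given one which contains a given element, from the constant term of the minimal polynomial
-/

set_option autoImplicit false

open Polynomial

namespace Pool.Agent.Run7.h10.QS

theorem exists_dom {R B : Type} [CommRing R] [IsDomain R] [IsIntegrallyClosed R] [CommRing B] [IsDomain B]
    [Algebra R B] [FaithfulSMul R B] [Algebra.IsIntegral R B] (T : B) {R0 : Type} [CommRing R0] [IsDomain R0]
    (σ : R →+* R0) (hG : σ ((minpoly R T).coeff 0) = 0) :
    ∃ (E : Type) (_ : CommRing E) (_ : IsDomain E) (θ : B →+* E), θ T = 0 ∧ Function.Surjective θ ∧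
      ∀ r, θ (algebraMap R B r) = 0 ↔ σ r = 0 := by
  have hT : IsIntegral R T := Algebra.IsIntegral.isIntegral T
  have : Module.IsTorsionFree R B := by
    exact Module.isTorsionFree_iff_faithfulSMul.2 inferInstance
  let e := minpoly.equivAdjoin hT
  let ψ0 : AdjoinRoot (minpoly R T) →+* R0 := AdjoinRoot.lift σ 0 (by
    rw [Polynomial.eval₂_at_zero]
    exact hG)
  let ψ : Algebra.adjoin R {T} →+* R0 := ψ0.comp (e.symm : Algebra.adjoin R {T} →+* AdjoinRoot (minpoly R T))
  have hψr : ∀ r, ψ (algebraMap R _ r) = σ r := by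
    intro r
    change ψ0 (e.symm (algebraMap R _ r)) = _
    rw [AlgEquiv.commutes]
    exact AdjoinRoot.lift_of _
  have hψT : ψ ⟨T, Algebra.self_mem_adjoin_singleton R T⟩ = 0 := by
    change ψ0 (e.symm _) = _
    have h1 : e (AdjoinRoot.root (minpoly R T)) = ⟨T, Algebra.self_mem_adjoin_singleton R T⟩ := by
      apply Subtype.ext
      simp [e]
    rw [← h1, AlgEquiv.symm_apply_apply]
    exact AdjoinRoot.lift_root _
  have hp : (RingHom.ker ψ).IsPrime := RingHom.ker_isPrime ψ
  have : Algebra.IsIntegral (Algebra.adjoin R {T}) B := by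
    refine ⟨fun b => ?_⟩
    exact (Algebra.IsIntegral.isIntegral (R := R) b).tower_top
  obtain ⟨Q, -, hQ, hQc⟩ := Ideal.exists_ideal_over_prime_of_isIntegral (RingHom.ker ψ) (⊥ : Ideal B) (by
    intro x hx
    have h1 : x = 0 := by
      apply Subtype.ext
      simpa using hx
    rw [h1]
    exact Ideal.zero_mem _)
  refine ⟨B ⧸ Q, inferInstance, Ideal.Quotient.isDomain Q, Ideal.Quotient.mk Q, ?_, Ideal.Quotient.mk_surjective, ?_⟩
  · rw [Ideal.Quotient.eq_zero_iff_mem]
    have h1 : (⟨T, Algebra.self_mem_adjoin_singleton R T⟩ : Algebra.adjoin R {T}) ∈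
        Ideal.comap (algebraMap (Algebra.adjoin R {T}) B) Q := by
      rw [hQc]
      exact hψT
    exact h1
  · intro r
    rw [Ideal.Quotient.eq_zero_iff_mem]
    have h1 : algebraMap R B r ∈ Q ↔ algebraMap R (Algebra.adjoin R {T}) r ∈
        Ideal.comap (algebraMap (Algebra.adjoin R {T}) B) Q := Iff.rfl
    rw [h1, hQc, RingHom.mem_ker, hψr]

end Pool.Agent.Run7.h10.QS
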