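import Pool.Agent.Run7.h10.QS.E2

/-!
# The norm form of a linear combination, with a condition on the relations
-/

set_option autoImplicit false
set_option linter.unusedSectionVars false

open Polynomial

namespace Pool.Agent.Run7.h10.QS

open Pool.Agent.Y890.SP (evI)

attribute [local instance] MvPolynomial.algebraMvPolynomial

/-- From a condition on the solutions over the algebraic closure of the fraction field to the condition on the solutions at
almost all points. -/
theorem spread2 {A ρ Λ : Type} [CommRing A] [IsDomain A] [Fintype Λ] (G : MvPolynomial Λ (MvPolynomial ρ A))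
    (lam : MvPolynomial Λ A)
    (hG : ∀ (Ω : Type) [Field Ω] [Algebra A Ω] [FaithfulSMul A Ω] [Algebra.IsAlgebraic A Ω] (c : Λ → Ω),
      MvPolynomial.eval₂Hom (MvPolynomial.map (algebraMap A Ω)) (fun l => MvPolynomial.C (c l)) G = 0 →
        MvPolynomial.eval₂ (algebraMap A Ω) c lam = 0) :
    ∃ Δ : A, Δ ≠ 0 ∧ ∀ (k : Type) [CommRing k] [IsDomain k] (g : A →+* k) (c : Λ → k), g Δ ≠ 0 →
      MvPolynomial.eval₂Hom (MvPolynomial.map g) (fun l => MvPolynomial.C (c l)) G = 0 →
        MvPolynomial.eval₂ g c lam = 0 := by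
  classical
  let F := FractionRing A
  let Ω := AlgebraicClosure F
  have : FaithfulSMul A Ω := by
    rw [faithfulSMul_iff_algebraMap_injective, IsScalarTower.algebraMap_eq A F Ω]
    exact (algebraMap F Ω).injective.comp (IsFractionRing.injective A F)
  have : Algebra.IsAlgebraic A F := IsFractionRing.comap_isAlgebraic_iff.2 (inferInstance : Algebra.IsAlgebraic F F)
  have : Algebra.IsAlgebraic A Ω := Algebra.IsAlgebraic.trans A F Ω
  let I : Ideal (MvPolynomial Λ A) := Ideal.span (Set.range fun m => (swp G).coeff m)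
  let IF : Ideal (MvPolynomial Λ F) := I.map (algebraMap (MvPolynomial Λ A) (MvPolynomial Λ F))
  have hz : ∀ c ∈ MvPolynomial.zeroLocus Ω IF, MvPolynomial.eval₂ (algebraMap A Ω) c lam = 0 := by
    intro c hc
    refine hG Ω c ?_
    rw [swp_spec]
    ext m
    rw [MvPolynomial.coeff_map, MvPolynomial.coeff_zero]
    have h1 := hc (algebraMap (MvPolynomial Λ A) (MvPolynomial Λ F) ((swp G).coeff m))
      (Ideal.mem_map_of_mem _ (Ideal.subset_span ⟨m, rfl⟩))
    rw [MvPolynomial.algebraMap_def, MvPolynomial.aeval_map_algebraMap] at h1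
    exact h1
  have hrad : algebraMap (MvPolynomial Λ A) (MvPolynomial Λ F) lam ∈ IF.radical := by
    rw [← MvPolynomial.vanishingIdeal_zeroLocus_eq_radical (K := Ω)]
    intro c hc
    rw [MvPolynomial.algebraMap_def, MvPolynomial.aeval_map_algebraMap]
    exact hz c hc
  obtain ⟨N, hN⟩ := hrad
  rw [IsLocalization.mem_map_algebraMap_iff ((nonZeroDivisors A).map (MvPolynomial.C (σ := Λ)))
    (MvPolynomial Λ F)] at hN
  obtain ⟨⟨⟨x, hx⟩, ⟨_, ⟨Δ, hΔ, rfl⟩⟩⟩, h1⟩ := hN
  have hinj : Function.Injective (algebraMap (MvPolynomial Λ A) (MvPolynomial Λ F)) :=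
    MvPolynomial.map_injective _ (IsFractionRing.injective A F)
  have h2 : MvPolynomial.C Δ * lam ^ N = x := by
    apply hinj
    rw [← h1, map_mul, mul_comm]
    congr 1
    rw [map_pow]
  refine ⟨Δ, nonZeroDivisors.ne_zero hΔ, ?_⟩
  intro k _ _ g c hg hc
  rw [swp_spec] at hc
  have hker : I ≤ RingHom.ker (MvPolynomial.eval₂Hom g c) := by
    refine Ideal.span_le.2 ?_
    rintro _ ⟨m, rfl⟩
    change MvPolynomial.eval₂Hom g c ((swp G).coeff m) = 0
    rw [← MvPolynomial.coeff_map, hc, MvPolynomial.coeff_zero]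
  have h3 : MvPolynomial.eval₂Hom g c (MvPolynomial.C Δ * lam ^ N) = 0 := hker (h2 ▸ hx)
  rw [map_mul, map_pow, MvPolynomial.eval₂Hom_C] at h3
  exact eq_zero_of_pow_eq_zero ((mul_eq_zero.1 h3).resolve_left hg)

/-- The relations between the elements `y l`, with coefficients algebraic over `A` in any extension of `L`, satisfy the
condition `lam = 0`. -/
def SLIp (A : Type) {L Λ : Type} [CommRing A] [Field L] [Algebra A L] [Fintype Λ] (y : Λ → L)
    (lam : MvPolynomial Λ A) : Prop :=
  ∀ (E : Type) [Field E] (Φ : L →+* E) (c : Λ → E),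
    (∀ l, ∃ p : Polynomial A, p ≠ 0 ∧ p.eval₂ (Φ.comp (algebraMap A L)) (c l) = 0) →
    ∑ l, c l * Φ (y l) = 0 → MvPolynomial.eval₂ (Φ.comp (algebraMap A L)) c lam = 0

/-- The prime ideal argument. -/
theorem norm_zero3 {A B0 L ρ Λ : Type} [CommRing A] [IsDomain A] [UniqueFactorizationMonoid A] [CommRing B0]
    [IsDomain B0] [Algebra (MvPolynomial ρ A) B0] [FaithfulSMul (MvPolynomial ρ A) B0]
    [Algebra.IsIntegral (MvPolynomial ρ A) B0] [Field L] [Algebra B0 L] [IsFractionRing B0 L] [Algebra A L]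
    (htow : ∀ a, algebraMap A L a = algebraMap B0 L (algebraMap (MvPolynomial ρ A) B0 (MvPolynomial.C a)))
    [Fintype Λ] (y : Λ → L) (lam : MvPolynomial Λ A) (hy : SLIp A y lam) (t : Λ → B0)
    (D : MvPolynomial ρ A) (hD : D ≠ 0)
    (ht : ∀ l, algebraMap B0 L (t l) = algebraMap B0 L (algebraMap (MvPolynomial ρ A) B0 D) *
      y l)
    (G : MvPolynomial Λ (MvPolynomial ρ A))
    (hG : G = (minpoly (MvPolynomial Λ (MvPolynomial ρ A))
      (∑ l, MvPolynomial.X l * MvPolynomial.C (t l) : MvPolynomial Λ B0)).coeff 0)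
    (Ω : Type) [Field Ω] [Algebra A Ω] [FaithfulSMul A Ω] [Algebra.IsAlgebraic A Ω] (c : Λ → Ω)
    (hc : MvPolynomial.eval₂Hom (MvPolynomial.map (algebraMap A Ω)) (fun l => MvPolynomial.C (c l)) G = 0) :
    MvPolynomial.eval₂ (algebraMap A Ω) c lam = 0 := by
  classical
  have hSB0 : Function.Injective (algebraMap (MvPolynomial ρ A) B0) := FaithfulSMul.algebraMap_injective _ B0
  have : FaithfulSMul (MvPolynomial Λ (MvPolynomial ρ A)) (MvPolynomial Λ B0) :=
    (faithfulSMul_iff_algebraMap_injective _ _).2 (MvPolynomial.map_injective _ hSB0)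
  have hAΩ : Function.Injective (algebraMap A Ω) := FaithfulSMul.algebraMap_injective A Ω
  rw [hG] at hc
  obtain ⟨E, _, _, θ, hθT, -, hθ⟩ := exists_dom _ _ hc
  let θ0 : B0 →+* E := θ.comp MvPolynomial.C
  have hθ0 : ∀ r : MvPolynomial ρ A, θ0 (algebraMap (MvPolynomial ρ A) B0 r) = 0 → r = 0 := by
    intro r hr
    have h1 : θ (algebraMap (MvPolynomial Λ (MvPolynomial ρ A)) (MvPolynomial Λ B0) (MvPolynomial.C r)) = 0 := by
      rw [MvPolynomial.algebraMap_def, MvPolynomial.map_C]
      exact hr
    rw [hθ, MvPolynomial.eval₂Hom_C] at h1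
    exact (map_eq_zero_iff _ (MvPolynomial.map_injective _ hAΩ)).1 h1
  have hker : RingHom.ker θ0 = ⊥ := by
    apply Ideal.eq_bot_of_comap_eq_bot (R := MvPolynomial ρ A)
    rw [eq_bot_iff]
    intro r hr
    exact hθ0 r hr
  have hθ0i : Function.Injective θ0 := (RingHom.injective_iff_ker_eq_bot θ0).2 hker
  let FE := FractionRing E
  have hEFE : Function.Injective (algebraMap E FE) := IsFractionRing.injective E FE
  let θ1 : B0 →+* FE := (algebraMap E FE).comp θ0
  have hθ1 : Function.Injective θ1 := hEFE.comp hθ0i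
  let Φ : L →+* FE := IsFractionRing.lift hθ1
  have hΦ : ∀ b : B0, Φ (algebraMap B0 L b) = θ1 b := fun b => IsFractionRing.lift_algebraMap hθ1 b
  let algA : Algebra A FE := (Φ.comp (algebraMap A L)).toAlgebra
  have hmapA : ∀ a : A, algebraMap A FE a = Φ (algebraMap A L a) := fun a => rfl
  have hmapA' : ∀ a : A, algebraMap A FE a = algebraMap E FE (θ
      (algebraMap (MvPolynomial Λ (MvPolynomial ρ A)) (MvPolynomial Λ B0) (MvPolynomial.C (MvPolynomial.C a)))) := by
    intro a
    rw [hmapA, htow, hΦ, MvPolynomial.algebraMap_def, MvPolynomial.map_C]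
    rfl
  let c' : Λ → FE := fun l => algebraMap E FE (θ (MvPolynomial.X l))
  have hc'a : ∀ l, IsAlgebraic A (c' l) := by
    intro l
    obtain ⟨p, hp, hp0⟩ := Algebra.IsAlgebraic.isAlgebraic (R := A) (c l)
    refine ⟨p, hp, ?_⟩
    let j : A →+* MvPolynomial Λ (MvPolynomial ρ A) := (MvPolynomial.C).comp MvPolynomial.C
    have h1 : MvPolynomial.eval₂Hom (MvPolynomial.map (σ := ρ) (algebraMap A Ω)) (fun l => MvPolynomial.C (c l))
        (Polynomial.eval₂ j (MvPolynomial.X l) p) = 0 := by
      rw [Polynomial.hom_eval₂]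
      have h2 : (MvPolynomial.eval₂Hom (MvPolynomial.map (σ := ρ) (algebraMap A Ω))
          (fun l => MvPolynomial.C (c l))).comp j = (MvPolynomial.C).comp (algebraMap A Ω) := by
        apply RingHom.ext
        intro a
        simp [j]
      rw [h2, MvPolynomial.eval₂Hom_X', ← Polynomial.hom_eval₂]
      have h4 : Polynomial.eval₂ (algebraMap A Ω) (c l) p = 0 := hp0
      rw [h4, map_zero]
    rw [← hθ] at h1
    have h5 : Polynomial.aeval (c' l) p = algebraMap E FE (θ
        (algebraMap (MvPolynomial Λ (MvPolynomial ρ A)) (MvPolynomial Λ B0)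
          (Polynomial.eval₂ j (MvPolynomial.X l) p))) := by
      rw [Polynomial.hom_eval₂, Polynomial.hom_eval₂, Polynomial.hom_eval₂, Polynomial.aeval_def]
      congr 1
      · apply RingHom.ext
        intro a
        exact hmapA' a
      · rw [MvPolynomial.algebraMap_def, MvPolynomial.map_X]
    rw [h5, h1, map_zero]
  have hsum : ∑ l, c' l * Φ (y l) = 0 := by
    have h1 : algebraMap E FE (θ (∑ l, MvPolynomial.X l * MvPolynomial.C (t l))) = 0 := by rw [hθT, map_zero]
    have h2 : algebraMap E FE (θ (∑ l, MvPolynomial.X l * MvPolynomial.C (t l))) =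
        Φ (algebraMap B0 L (algebraMap (MvPolynomial ρ A) B0 D)) * ∑ l, c' l * Φ (y l) := by
      rw [map_sum, map_sum, Finset.mul_sum]
      refine Finset.sum_congr rfl fun l _ => ?_
      rw [map_mul, map_mul]
      have h3 : algebraMap E FE (θ (MvPolynomial.C (t l))) = Φ (algebraMap B0 L (t l)) := by
        rw [hΦ]
        rfl
      rw [h3, ht, map_mul]
      ring
    rw [h2] at h1
    have h6 : Φ (algebraMap B0 L (algebraMap (MvPolynomial ρ A) B0 D)) ≠ 0 := by
      rw [Ne, map_eq_zero, map_eq_zero_iff _ (IsFractionRing.injective B0 L), map_eq_zero_iff _ hSB0]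
      exact hD
    exact (mul_eq_zero.1 h1).resolve_left h6
  have hc0 : MvPolynomial.eval₂ (Φ.comp (algebraMap A L)) c' lam = 0 := hy FE Φ c' hc'a hsum
  have h1 : θ (algebraMap (MvPolynomial Λ (MvPolynomial ρ A)) (MvPolynomial Λ B0)
      (MvPolynomial.map MvPolynomial.C lam)) = 0 := by
    apply hEFE
    rw [map_zero, ← hc0]
    have h2 : (((algebraMap E FE).comp θ).comp (algebraMap (MvPolynomial Λ (MvPolynomial ρ A)) (MvPolynomial Λ B0))).comp
        (MvPolynomial.map (MvPolynomial.C (σ := ρ))) =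
        MvPolynomial.eval₂Hom (Φ.comp (algebraMap A L)) c' := by
      apply MvPolynomial.ringHom_ext
      · intro a
        simp only [RingHom.comp_apply, MvPolynomial.map_C, MvPolynomial.eval₂Hom_C]
        exact (hmapA' a).symm
      · intro l
        simp only [RingHom.comp_apply, MvPolynomial.map_X, MvPolynomial.eval₂Hom_X']
        rw [MvPolynomial.algebraMap_def, MvPolynomial.map_X]
    exact RingHom.congr_fun h2 lam
  rw [hθ] at h1
  have h3 : (MvPolynomial.eval₂Hom (MvPolynomial.map (σ := ρ) (algebraMap A Ω)) (fun l => MvPolynomial.C (c l))).comp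
      (MvPolynomial.map (MvPolynomial.C (σ := ρ))) =
      (MvPolynomial.C (σ := ρ)).comp (MvPolynomial.eval₂Hom (algebraMap A Ω) c) := by
    apply MvPolynomial.ringHom_ext
    · intro a
      simp only [RingHom.comp_apply, MvPolynomial.map_C, MvPolynomial.eval₂Hom_C]
    · intro l
      simp only [RingHom.comp_apply, MvPolynomial.map_X, MvPolynomial.eval₂Hom_X']
  have h4 := RingHom.congr_fun h3 lam
  rw [RingHom.comp_apply, h1, RingHom.comp_apply] at h4
  exact (MvPolynomial.C_eq_zero.1 h4.symm)

theorem normForm3 {A L ρ Λ : Type} [CommRing A] [IsDomain A] [UniqueFactorizationMonoid A] [Field L] [Algebra A L]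
    [FaithfulSMul A L] [Fintype Λ] (v : ρ → L) (hv : IsTranscendenceBasis A v) (y : Λ → L)
    (lam : MvPolynomial Λ A) (hy : SLIp A y lam) :
    ∃ (D : MvPolynomial ρ A) (q : Polynomial (MvPolynomial Λ (MvPolynomial ρ A))),
      eval₂ (MvPolynomial.map (evI v))
        (∑ l, MvPolynomial.X l * MvPolynomial.C (evI v D * y l) : MvPolynomial Λ L) q = 0 ∧
      ∃ Δ : A, Δ ≠ 0 ∧ ∀ (k : Type) [CommRing k] [IsDomain k] (g : A →+* k) (c : Λ → k), g Δ ≠ 0 →
        MvPolynomial.eval₂Hom (MvPolynomial.map g) (fun l => MvPolynomial.C (c l)) (q.coeff 0) = 0 →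
          MvPolynomial.eval₂ g c lam = 0 := by
  classical
  let algS : Algebra (MvPolynomial ρ A) L := (evI v).toAlgebra
  have hmapS : ∀ p : MvPolynomial ρ A, algebraMap (MvPolynomial ρ A) L p = evI v p := fun p => rfl
  have hSinj : Function.Injective (algebraMap (MvPolynomial ρ A) L) := hv.1
  have : FaithfulSMul (MvPolynomial ρ A) L := (faithfulSMul_iff_algebraMap_injective _ L).2 hSinj
  have htower : IsScalarTower A (MvPolynomial ρ A) L := IsScalarTower.of_algebraMap_eq fun a => by
    rw [hmapS]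
    exact (MvPolynomial.aeval_C v a).symm
  -- algebraic
  have halg1 : Algebra.IsAlgebraic (MvPolynomial ρ A) L := by
    have h1 := hv.isAlgebraic
    refine ⟨fun l => ?_⟩
    have h2 : IsAlgebraic (Algebra.adjoin A (Set.range v)) l := h1.isAlgebraic l
    exact h2.ringHom_of_comp_eq (hv.1.aevalEquiv.symm : _ →+* MvPolynomial ρ A) (RingHom.id L)
      (hv.1.aevalEquiv.symm.injective) (by
        ext y
        obtain ⟨z, rfl⟩ := hv.1.aevalEquiv.surjective y
        simp only [RingHom.comp_apply]
        change algebraMap (MvPolynomial ρ A) L (hv.1.aevalEquiv.symm (hv.1.aevalEquiv z)) = _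
        rw [AlgEquiv.symm_apply_apply, hmapS]
        exact (hv.1.algebraMap_aevalEquiv z).symm)
  have hmul : ∀ l : Λ, ∃ b : MvPolynomial ρ A, b ≠ 0 ∧
      IsIntegral (MvPolynomial ρ A) (algebraMap (MvPolynomial ρ A) L b * y l) := by
    intro l
    obtain ⟨b, hb, hb'⟩ := (halg1.isAlgebraic (y l)).exists_integral_multiple
    refine ⟨b, hb, ?_⟩
    rw [← Algebra.smul_def]
    exact hb'
  choose b hb hbi using hmul
  obtain ⟨D, hD⟩ : ∃ D, D = ∏ l, b l := ⟨_, rfl⟩
  have hDi : ∀ l, IsIntegral (MvPolynomial ρ A)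
      (algebraMap (MvPolynomial ρ A) L D * y l) := by
    intro l
    have h1 : D = (∏ k ∈ Finset.univ.erase l, b k) * b l := by
      rw [hD, mul_comm]
      exact (Finset.mul_prod_erase _ _ (Finset.mem_univ l)).symm
    rw [h1, map_mul, mul_assoc]
    exact isIntegral_algebraMap.mul (hbi l)
  have hD0 : D ≠ 0 := by
    rw [hD]
    exact Finset.prod_ne_zero_iff.2 fun l _ => hb l
  have hfr : IsFractionRing (integralClosure (MvPolynomial ρ A) L) L :=
    integralClosure.isFractionRing_of_algebraic (fun x hx => by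
      rw [← map_zero (algebraMap (MvPolynomial ρ A) L)] at hx
      exact hSinj hx)
  let t : Λ → integralClosure (MvPolynomial ρ A) L := fun l => ⟨_, hDi l⟩
  have ht : ∀ l, algebraMap (integralClosure (MvPolynomial ρ A) L) L (t l) =
      evI v D * y l := fun l => rfl
  refine ⟨D, minpoly (MvPolynomial Λ (MvPolynomial ρ A)) (∑ l, MvPolynomial.X l * MvPolynomial.C (t l) :
    MvPolynomial Λ (integralClosure (MvPolynomial ρ A) L)), ?_, ?_⟩
  · have h1 := map_min (S := MvPolynomial ρ A) (B0 := integralClosure (MvPolynomial ρ A) L) (L := L) (Λ := Λ) t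
      (evI v) (fun s => rfl)
    simp only [ht] at h1
    exact h1
  · apply spread2
    intro Ω _ _ _ _ c hc
    exact norm_zero3 (B0 := integralClosure (MvPolynomial ρ A) L) (L := L) (fun a => (MvPolynomial.aeval_C v a).symm)
      y lam hy t D hD0 (fun l => rfl) _ rfl Ω c hc

theorem sli_comb {F L Λ : Type} [Field F] [Field L] [CharZero L] [Algebra F L] [Fintype Λ] (E : Type) [Field E]
    [Algebra L E] [Algebra F E] [IsScalarTower F L E] (c : Λ → E) (hc : ∀ l, IsAlgebraic F (c l)) :
    ∃ (n : ℕ) (t : Fin n → E) (a : Fin n → Λ → L), (∀ i l, IsAlgebraic F (a i l)) ∧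
      (∀ l, c l = ∑ i, t i * algebraMap L E (a i l)) ∧
      ∀ y : Λ → L, ∑ l, c l * algebraMap L E (y l) = 0 → ∀ i, ∑ l, a i l * y l = 0 := by
  classical
  let Ω := algebraicClosure F L
  have hc' : ∀ l, IsIntegral Ω (c l) := fun l => (hc l).isIntegral.tower_top
  have : CharZero Ω := ((algebraMap Ω L).charZero_iff (algebraMap Ω L).injective).2 inferInstance
  let W := IntermediateField.adjoin Ω (Set.range c)
  have : FiniteDimensional Ω W := IntermediateField.finiteDimensional_adjoin (by
    rintro _ ⟨l, rfl⟩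
    exact hc' l)
  let pb := Field.powerBasisOfFiniteOfSeparable Ω W
  set α : W := pb.gen with hα
  set θ : E := (α : E) with hθ
  have hθi : IsIntegral Ω θ := by
    have h1 : IsIntegral Ω α := Algebra.IsIntegral.isIntegral α
    exact h1.map W.val
  have hθL : IsIntegral L θ := hθi.tower_top
  have hmin : minpoly Ω α = minpoly Ω θ := (minpoly.algebraMap_eq (algebraMap W E).injective α).symm
  -- the degree does not drop
  have hdeg : (minpoly Ω θ).natDegree ≤ (minpoly L θ).natDegree := by
    have hdvd : minpoly L θ ∣ (minpoly Ω θ).map (algebraMap Ω L) := minpoly.dvd_map_of_isScalarTower Ω L θ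
    have hco : ∀ i, IsIntegral Ω ((minpoly L θ).coeff i) := fun i =>
      Polynomial.isIntegral_coeff_of_dvd _ _ (minpoly.monic hθi) (minpoly.monic hθL) hdvd i
    have hmem : ∀ i, (minpoly L θ).coeff i ∈ Ω := by
      intro i
      rw [mem_algebraicClosure_iff]
      have h1 : IsIntegral F ((minpoly L θ).coeff i) := isIntegral_trans (R := F) (A := Ω) _ (hco i)
      exact h1.isAlgebraic
    have hl : minpoly L θ ∈ Polynomial.lifts (algebraMap Ω L) := by
      rw [Polynomial.lifts_iff_coeff_lifts]
      intro i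
      exact ⟨⟨_, hmem i⟩, rfl⟩
    obtain ⟨g, hg, hgd, hgm⟩ := Polynomial.lifts_and_natDegree_eq_and_monic hl (minpoly.monic hθL)
    have hg0 : aeval θ g = 0 := by
      have h1 : aeval θ (g.map (algebraMap Ω L)) = aeval θ g := Polynomial.aeval_map_algebraMap L θ g
      rw [← h1, hg, minpoly.aeval]
    have h2 := Polynomial.natDegree_le_of_dvd (minpoly.dvd Ω θ hg0) hgm.ne_zero
    rw [hgd] at h2
    exact h2
  -- coordinates
  have hcW : ∀ l, c l ∈ W := fun l => IntermediateField.subset_adjoin _ _ ⟨l, rfl⟩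
  have hpb : pb.dim = (minpoly Ω α).natDegree := pb.natDegree_minpoly.symm
  have hco : ∀ l, ∃ f : Polynomial Ω, f.natDegree < pb.dim ∧ (⟨c l, hcW l⟩ : W) = aeval α f := fun l =>
    pb.exists_eq_aeval _
  choose f hfd hf using hco
  have hdpos : 0 < pb.dim := by
    by_contra h0
    have h1 : pb.dim = 0 := by omega
    have h2 : 0 < (minpoly Ω α).natDegree := minpoly.natDegree_pos (Algebra.IsIntegral.isIntegral α)
    omega
  refine ⟨pb.dim, fun i => θ ^ (i : ℕ), fun i l => ((f l).coeff i : L), fun i l =>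
    mem_algebraicClosure_iff.1 ((f l).coeff i).2, fun l => ?_, fun y hsum i => ?_⟩
  · have h1 := congrArg (algebraMap W E) (hf l)
    rw [← Polynomial.aeval_algebraMap_apply] at h1
    have h2 : aeval θ (f l) = ∑ i : Fin pb.dim, θ ^ (i : ℕ) * algebraMap L E ((f l).coeff i : L) := by
      rw [Polynomial.aeval_eq_sum_range' (hfd l), Finset.sum_range]
      refine Finset.sum_congr rfl fun i _ => ?_
      rw [Algebra.smul_def, mul_comm]
      rfl
    exact h1.trans h2
  · set G : Polynomial L := ∑ l, Polynomial.C (y l) * (f l).map (algebraMap Ω L) with hG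
    have hGθ : aeval θ G = 0 := by
      rw [hG, map_sum, ← hsum]
      refine Finset.sum_congr rfl fun l _ => ?_
      rw [map_mul, Polynomial.aeval_C, Polynomial.aeval_map_algebraMap, mul_comm]
      congr 1
      have h1 := congrArg (algebraMap W E) (hf l)
      rw [← Polynomial.aeval_algebraMap_apply] at h1
      exact h1.symm
    have hGd : G.degree < (minpoly L θ).degree := by
      have h1 : G.natDegree < (minpoly L θ).natDegree := by
        have h2 : G.natDegree ≤ pb.dim - 1 := by
          rw [hG]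
          refine Polynomial.natDegree_sum_le_of_forall_le _ _ fun l _ => ?_
          refine (Polynomial.natDegree_C_mul_le _ _).trans ?_
          rw [Polynomial.natDegree_map]
          have := hfd l
          omega
        rw [← hmin] at hdeg
        omega
      exact Polynomial.degree_lt_degree h1
    have hG0 : G = 0 := by
      by_contra hne
      exact absurd hGd (not_lt.2 (minpoly.degree_le_of_ne_zero L θ hne hGθ))
    have h2 := congrArg (fun p : Polynomial L => p.coeff i) hG0
    simp only [hG, Polynomial.finsetSum_coeff, Polynomial.coeff_C_mul, Polynomial.coeff_map,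
      Polynomial.coeff_zero] at h2
    rw [← h2]
    refine Finset.sum_congr rfl fun l _ => ?_
    rw [mul_comm]
    rfl

/-- The same over a domain. -/
theorem sli_comb' {A L Λ : Type} [CommRing A] [IsDomain A] [Field L] [CharZero L] [Algebra A L] [FaithfulSMul A L]
    [Fintype Λ] (E : Type) [Field E] (Φ : L →+* E) (c : Λ → E)
    (hc : ∀ l, ∃ p : Polynomial A, p ≠ 0 ∧ p.eval₂ (Φ.comp (algebraMap A L)) (c l) = 0) :
    ∃ (n : ℕ) (t : Fin n → E) (a : Fin n → Λ → L), (∀ i l, IsAlgebraic A (a i l)) ∧
      (∀ l, c l = ∑ i, t i * Φ (a i l)) ∧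
      ∀ y : Λ → L, ∑ l, c l * Φ (y l) = 0 → ∀ i, ∑ l, a i l * y l = 0 := by
  let F := FractionRing A
  have hinj : Function.Injective (algebraMap A L) := FaithfulSMul.algebraMap_injective A L
  let aF : Algebra F L := (IsFractionRing.lift hinj).toAlgebra
  have tow : IsScalarTower A F L := IsScalarTower.of_algebraMap_eq fun a =>
    (IsFractionRing.lift_algebraMap hinj a).symm
  let aL : Algebra L E := Φ.toAlgebra
  let aE : Algebra F E := (Φ.comp (algebraMap F L)).toAlgebra
  have tow2 : IsScalarTower F L E := IsScalarTower.of_algebraMap_eq fun a => rfl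
  let aA : Algebra A E := (Φ.comp (algebraMap A L)).toAlgebra
  have tow3 : IsScalarTower A F E := IsScalarTower.of_algebraMap_eq fun a => by
    change Φ (algebraMap A L a) = Φ (algebraMap F L (algebraMap A F a))
    rw [← IsScalarTower.algebraMap_apply A F L]
  obtain ⟨n, t, a, h1, h2, h3⟩ := sli_comb (F := F) (L := L) E c (fun l => by
    have h1 : IsAlgebraic A (c l) := by
      obtain ⟨p, hp, hp0⟩ := hc l
      exact ⟨p, hp, hp0⟩
    exact (IsFractionRing.isAlgebraic_iff A F E).1 h1)
  exact ⟨n, t, a, fun i l => (IsFractionRing.isAlgebraic_iff A F L).2 (h1 i l), h2, h3⟩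

end Pool.Agent.Run7.h10.QS
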