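import Pool.Agent.Run7.h10.QS.E3
import Pool.Agent.Run7.h10.QS.H1

/-!
# Counting linear relations between functions, with a condition on the relations
-/

set_option autoImplicit false
set_option linter.unusedSectionVars false

open NumberField

namespace Pool.Agent.Run7.h10.QS

open Pool.Agent.Y890.MV Pool.Agent.Y890.SP
open Pool.Agent.Y124 (Cov)
open Pool.Agent.N207.GS

/-- **Few algebraic points with a linear relation which does not satisfy the condition.** -/
theorem linQ2 {k X σ Λ L : Type} [Field k] [Algebra k ℂ] (hk : AllAlg k) [Fintype X] [DecidableEq X] [Nonempty X]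
    [Fintype σ] [DecidableEq σ] [Fintype Λ] [DecidableEq Λ] {U : Set (X → ℂ)} {f : σ → (X → ℂ) → ℂ}
    (hU : IsPreconnected U) (hUo : IsOpen U)
    (hne : U.Nonempty) (hf : ∀ i, AnalyticOnNhd ℂ (f i) U) [Field L] [Algebra (MvPolynomial X k) L]
    [FaithfulSMul (MvPolynomial X k) L] (F : σ → L)
    (hz : ∀ p : MvPolynomial σ (MvPolynomial X k), MvPolynomial.aeval F p = 0 ↔
      ∀ x ∈ U, evM f x (MvPolynomial.map (mC k X) p) = 0)
    (hfrac : ∀ l : L, ∃ p q : MvPolynomial σ (MvPolynomial X k), MvPolynomial.aeval F q ≠ 0 ∧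
      MvPolynomial.aeval F q * l = MvPolynomial.aeval F p)
    (lm : Λ → MvPolynomial σ (MvPolynomial X k)) (lam : MvPolynomial Λ (MvPolynomial X k))
    (hJ : SLIp (MvPolynomial X k) (fun l => MvPolynomial.aeval F (lm l)) lam)
    (Lc : Set (X → ℂ)) (hLc : IsCompact Lc) (hLU : Lc ⊆ U) (m : ℕ) (A ε : ℝ) (hε : 0 < ε) :
    ∃ (D : ℕ) (C T₀ : ℝ), 0 ≤ C ∧ 2 ≤ T₀ ∧
      ∀ (K : Type) [Field K] [NumberField K], Module.finrank ℚ K ≤ m → ∀ (io : K →+* ℂ) (T : ℝ),
        T₀ ≤ T → Cov D ⌊C * T ^ ε⌋₊ ((fun (s : X → K) i => io (s i)) ''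
          {s | (∀ i, Y120.HtLe K T (s i)) ∧ (fun i => io (s i)) ∈ Lc ∧ ∃ c : Λ → 𝓞 K,
            MvPolynomial.eval₂ ((MvPolynomial.eval fun i => io (s i)).comp (mC k X)) (fun l => io (c l : K)) lam ≠ 0 ∧
            (∀ l (φ : K →+* ℂ), ‖φ (c l : K)‖ ≤ T ^ A) ∧
            ∑ l, io (c l : K) * evM f (fun i => io (s i)) (MvPolynomial.map (mC k X) (lm l)) = 0}) := by
  classical
  obtain ⟨I, _, _, ι, hb⟩ := exists_basis F hfrac
  obtain ⟨D, q, hq, Δ, hΔ, hsp⟩ := normForm3 (F ∘ ι) hb (fun l => MvPolynomial.aeval F (lm l)) lam hJ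
  have hind' : ∀ p : MvPolynomial I (MvPolynomial X k),
      (∀ z ∈ U, evM (fun (i : I) t => f (ι i) t) z (MvPolynomial.map (mC k X) p) = 0) → p = 0 := by
    intro p hp
    apply hb.1
    rw [map_zero]
    have h1 : MvPolynomial.aeval (F ∘ ι) p = MvPolynomial.aeval F (MvPolynomial.rename ι p) := by
      rw [MvPolynomial.aeval_rename]
    rw [h1, hz]
    intro z hzU
    rw [MvPolynomial.map_rename, evM, MvPolynomial.eval₂_rename]
    exact hp z hzU
  obtain ⟨DD, C, T₀, hC, hT₀, H⟩ := countQ hk (swp (q.coeff 0)) hU hUo hne (fun (i : I) t => f (ι i) t)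
    (fun i => hf _) hind' Lc hLc hLU m A ε hε
  refine ⟨DD + (mC k X Δ).totalDegree, C + 1, T₀, by positivity, hT₀, ?_⟩
  intro K _ _ hm io T hT
  have h3 := H K hm io T hT
  have hT1 : 1 ≤ T := by linarith
  have hTp : 0 < T := by linarith
  have h6 : (1 : ℝ) ≤ T ^ ε := Real.one_le_rpow hT1 hε.le
  have hΔ' : mC k X Δ ≠ 0 := by
    rw [Ne, map_eq_zero_iff _ (mC_inj k X)]
    exact hΔ
  have h4 := (h3.mono (Nat.le_add_right DD (mC k X Δ).totalDegree) le_rfl (Set.Subset.refl _)).union
    ((cov_zero _ hΔ').mono (Nat.le_add_left _ DD) le_rfl (Set.Subset.refl _))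
  refine h4.mono le_rfl ?_ ?_
  · apply Nat.le_floor
    push_cast
    have h8 : ((⌊C * T ^ ε⌋₊ : ℕ) : ℝ) ≤ C * T ^ ε := Nat.floor_le (by positivity)
    calc (⌊C * T ^ ε⌋₊ : ℝ) + 1 ≤ C * T ^ ε + T ^ ε := add_le_add h8 h6
      _ = _ := by ring
  · rintro _ ⟨s, ⟨hs1, hs2, c, hc0, hc1, hc2⟩, rfl⟩
    choose s' hs' using fun i => hk K io (s i)
    choose c' hc' using fun l => hk K io (c l : K)
    have e1 : (fun i => io (s i)) = fun i => algebraMap k ℂ (s' i) := funext fun i => (hs' i).symm
    have e2 : (fun l => ∑ i : Unit, (fun _ : Unit => (1 : ℂ)) i * io ((fun _ : Unit => c l) i : K)) =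
        fun l => algebraMap k ℂ (c' l) := by
      funext l
      rw [Finset.univ_unique, Finset.sum_singleton, one_mul]
      exact (hc' l).symm
    by_cases h0 : MvPolynomial.eval s' Δ = 0
    · right
      change MvPolynomial.eval (fun i => io (s i)) (mC k X Δ) = 0
      rw [e1, ev_mC0, h0, map_zero]
    · left
      refine ⟨s, ⟨hs1, hs2, fun l _ => c l, fun l _ φ => hc1 l φ, ?_, ?_⟩, rfl⟩
      · rw [e1, e2]
        intro h5
        apply hc0
        have h6 : spc (MvPolynomial.map (MvPolynomial.map (mC k X)) (swp (q.coeff 0)))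
            (fun i => algebraMap k ℂ (s' i)) (fun l => algebraMap k ℂ (c' l)) =
            MvPolynomial.map (algebraMap k ℂ) (MvPolynomial.eval₂Hom (MvPolynomial.map (MvPolynomial.eval s'))
              (fun l => MvPolynomial.C (c' l)) (q.coeff 0)) := by
          rw [swp_spec, spc, MvPolynomial.map_map, MvPolynomial.map_map, ev_mC]
        rw [h6, map_eq_zero_iff _ (MvPolynomial.map_injective _ (algebraMap k ℂ).injective)] at h5
        have h7 := hsp k (MvPolynomial.eval s') c' h0 h5
        have h8 : ((MvPolynomial.eval fun i => io (s i)).comp (mC k X)) =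
            (algebraMap k ℂ).comp (MvPolynomial.eval s') := by
          apply RingHom.ext
          intro a
          rw [e1]
          exact ev_mC0 s' a
        have h9 : (fun l => io (c l : K)) = fun l => algebraMap k ℂ (c' l) := funext fun l => (hc' l).symm
        rw [h8, h9]
        have h10 := MvPolynomial.eval₂_comp_left (algebraMap k ℂ) (MvPolynomial.eval s') c' lam
        rw [h7, map_zero] at h10
        exact h10.symm
      · rw [e2]
        have hmem : (fun y => f y fun i => io (s i)) ∈ FibQ k U f (fun i => io (s i)) := by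
          intro p hp
          exact hp _ (hLU hs2)
        have h5 := identQ F hz lm ι D q hq (fun i => io (s i)) _ hmem
          (fun l => algebraMap k ℂ (c' l))
        have h6 : ∑ l, algebraMap k ℂ (c' l) * evX (fun i => io (s i)) (fun y => f y fun i => io (s i))
            (MvPolynomial.map (mC k X) (lm l)) = 0 := by
          rw [← hc2]
          refine Finset.sum_congr rfl fun l _ => ?_
          rw [hc' l]
          rfl
        rw [h6, mul_zero, Finset.sum_eq_single 0] at h5
        · rw [pow_zero, mul_one] at h5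
          exact h5
        · intro j _ hj
          rw [zero_pow hj, mul_zero]
        · intro h
          exact absurd (Finset.mem_range.2 (Nat.succ_pos _)) h

end Pool.Agent.Run7.h10.QS
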