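import Pool.Agent.Run7.h10.QS.H2
import Pool.Agent.Run7.h10.QS.E7
import Pool.Agent.Run7.h10.QS.F1

/-!
# A zero-one law for the ring generated by the periods of the members of a family
-/

set_option autoImplicit false
set_option linter.unusedSectionVars false

open NumberField Filter

namespace Pool.Agent.Run7.h10.QS

open Pool.Agent.Y890.MV Pool.Agent.Y890.SP
open Pool.Agent.Y124 (Cov)

/-- specialization of algebraic elements -/
theorem alg_spec {A L σ τ : Type} [CommRing A] [Field L] [Algebra A L] [Fintype τ] (F : σ → L)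
    (hfrac : ∀ l : L, ∃ p q : MvPolynomial σ A, MvPolynomial.aeval F q ≠ 0 ∧
      MvPolynomial.aeval F q * l = MvPolynomial.aeval F p) [IsDomain A] (b : τ → L) (hb : ∀ t, IsAlgebraic A (b t)) :
    ∃ (Q : MvPolynomial σ A) (Δ : A), MvPolynomial.aeval F Q ≠ 0 ∧ Δ ≠ 0 ∧
      ∀ (E : Type) [Field E] (ψ : MvPolynomial σ A →+* E), (∀ p, MvPolynomial.aeval F p = 0 → ψ p = 0) →
        ψ Q ≠ 0 → ψ (MvPolynomial.C Δ) ≠ 0 →
        ∃ β : τ → E, (∀ t, ∃ p : Polynomial A, p.map (ψ.comp MvPolynomial.C) ≠ 0 ∧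
          p.eval₂ (ψ.comp MvPolynomial.C) (β t) = 0) ∧
          ∀ (P : τ → MvPolynomial σ A) (P0 : MvPolynomial σ A),
            ∑ t, b t * MvPolynomial.aeval F (P t) = MvPolynomial.aeval F P0 → ∑ t, β t * ψ (P t) = ψ P0 := by
  classical
  obtain ⟨Q, P, hQ, hP⟩ := common_den F hfrac b
  choose R hR hR0 using hb
  refine ⟨Q, ∏ t, (R t).leadingCoeff, hQ,
    Finset.prod_ne_zero_iff.2 fun t _ => Polynomial.leadingCoeff_ne_zero.2 (hR t), ?_⟩
  intro E _ ψ hψ hψQ hψΔ
  have hlc : ∀ t, ψ (MvPolynomial.C (R t).leadingCoeff) ≠ 0 := by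
    intro t h0
    apply hψΔ
    rw [map_prod, map_prod]
    exact Finset.prod_eq_zero (Finset.mem_univ t) h0
  refine ⟨fun t => ψ (P t) / ψ Q, fun t => ⟨R t, ?_, ?_⟩, ?_⟩
  · intro h0
    have h1 := congrArg (fun p => Polynomial.coeff p (R t).natDegree) h0
    simp only [Polynomial.coeff_map, Polynomial.coeff_natDegree, Polynomial.coeff_zero] at h1
    exact hlc t h1
  · have h1 := homog (MvPolynomial.aeval F : MvPolynomial σ A →ₐ[A] L).toRingHom (P t) Q hQ (R t)
    have h2 : (MvPolynomial.aeval F : MvPolynomial σ A →ₐ[A] L).toRingHom (P t) /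
        (MvPolynomial.aeval F : MvPolynomial σ A →ₐ[A] L).toRingHom Q = b t := by
      change MvPolynomial.aeval F (P t) / MvPolynomial.aeval F Q = _
      rw [div_eq_iff hQ, mul_comm]
      exact (hP t).symm
    have h3 : ((MvPolynomial.aeval F : MvPolynomial σ A →ₐ[A] L).toRingHom).comp MvPolynomial.C =
        algebraMap A L := by
      apply RingHom.ext
      intro a
      exact MvPolynomial.aeval_C F a
    have h4 : Polynomial.eval₂ (algebraMap A L) (b t) (R t) = 0 := hR0 t
    rw [h2, h3, h4, mul_zero] at h1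
    have h5 := hψ _ h1
    rw [homog ψ _ _ hψQ] at h5
    exact (mul_eq_zero.1 h5).resolve_left (pow_ne_zero _ hψQ)
  · intro P' P0 hrel
    have h1 : MvPolynomial.aeval F (Q * P0 - ∑ t, P t * P' t) = 0 := by
      rw [map_sub, map_mul, map_sum, ← hrel, Finset.mul_sum, sub_eq_zero]
      refine Finset.sum_congr rfl fun t _ => ?_
      rw [map_mul, ← hP t, mul_assoc]
    have h2 := hψ _ h1
    rw [map_sub, map_mul, map_sum, sub_eq_zero] at h2
    have h3 : ψ P0 = (∑ t, ψ (P t * P' t)) / ψ Q := by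
      rw [eq_div_iff hψQ, mul_comm]
      exact h2
    rw [h3, Finset.sum_div]
    refine Finset.sum_congr rfl fun t _ => ?_
    rw [map_mul]
    ring

theorem neg_coe {K : Type} [Field K] (x : 𝓞 K) : ((-x : 𝓞 K) : K) = -(x : K) := by
  simp

section law
variable {X σ : Type} [Fintype X] [DecidableEq X] [Nonempty X] [Fintype σ] [DecidableEq σ]

/-- one function more -/
def withF (g : (X → ℂ) → ℂ) (f : (X → ℂ) → σ → ℂ) (z : X → ℂ) : Option σ → ℂ := fun o => o.elim (g z) (f z)

/-- the monomials of degree at most `D` in each variable and the new function -/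
noncomputable def mono (X σ : Type) [Fintype σ] (D : ℕ) :
    Option (σ → Fin (D + 1)) → MvPolynomial (Option σ) (MvPolynomial X Qbar) :=
  fun o => o.elim (MvPolynomial.X none) fun l => ∏ y, MvPolynomial.X (some y) ^ (l y : ℕ)

theorem psz_none (g : (X → ℂ) → ℂ) (f : (X → ℂ) → σ → ℂ) (z : X → ℂ) (D : ℕ) :
    psz (withF g f) z (mono X σ D none) = g z := by
  simp [psz, mono, withF]

theorem psz_some (g : (X → ℂ) → ℂ) (f : (X → ℂ) → σ → ℂ) (z : X → ℂ) (D : ℕ) (l : σ → Fin (D + 1)) :
    psz (withF g f) z (mono X σ D (some l)) = ∏ y, f z y ^ (l y : ℕ) := by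
  simp [psz, mono, withF, map_prod]

/-- **The law for the ring generated by the values.** -/
theorem ring_law {U : Set (X → ℂ)} {f : (X → ℂ) → σ → ℂ} {g : (X → ℂ) → ℂ} (hU : IsPreconnected U) (hUo : IsOpen U)
    (hne : U.Nonempty) (hf : ∀ i, AnalyticOnNhd ℂ (fun z => f z i) U) (hg : AnalyticOnNhd ℂ g U) :
    (∃ D : ℕ,
      (∃ R : MvPolynomial (X ⊕ Option σ) Qbar,
        (∃ z ∈ U, MvPolynomial.aeval (Sum.elim z (withF g f z)) R ≠ 0) ∧
        ∀ z ∈ U, MvPolynomial.aeval (Sum.elim z (withF g f z)) R ≠ 0 →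
          ∃ P : MvPolynomial σ (Const z), (∀ i, P.degreeOf i ≤ D) ∧ MvPolynomial.aeval (f z) P = g z) ∧
      Few fun K _ _ io k T => {s : X → K | s ∈ Points K U io k T ∧
        ¬∃ P : MvPolynomial σ (Const fun i => io (s i)), (∀ i, P.degreeOf i ≤ D) ∧
          MvPolynomial.aeval (f fun i => io (s i)) P = g fun i => io (s i)}) ∨
    Few fun K _ _ io k T => {s : X → K | s ∈ Points K U io k T ∧ ∃ (c : 𝓞 K) (R : MvPolynomial σ (𝓞 K)), c ≠ 0 ∧
      (∀ φ : K →+* ℂ, ‖φ (c : K)‖ ≤ T ^ k) ∧ Bounded K k T R ∧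
      io (c : K) * (g fun i => io (s i)) = value io R (f fun i => io (s i))} := by
  classical
  have hF : ∀ o : Option σ, AnalyticOnNhd ℂ (fun z => withF g f z o) U := by
    rintro (_ | i)
    · exact hg
    · exact hf i
  obtain ⟨L, _, _, _, F, hz, hfrac⟩ := exists_fieldQ Qbar (f := fun o z => withF g f z o) hU hUo hne hF
  have hcA : CharZero (MvPolynomial X Qbar) := inferInstance
  have hcL : CharZero L :=
    ((algebraMap (MvPolynomial X Qbar) L).charZero_iff (FaithfulSMul.algebraMap_injective _ L)).1 hcA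
  have hz' : ∀ p : MvPolynomial (Option σ) (MvPolynomial X Qbar), MvPolynomial.aeval F p = 0 ↔
      ∀ z ∈ U, psz (withF g f) z p = 0 := hz
  by_cases hA : ∃ (D : ℕ) (a : Option (σ → Fin (D + 1)) → L), (∀ l, IsAlgebraic (MvPolynomial X Qbar) (a l)) ∧
      a none ≠ 0 ∧ ∑ l, a l * MvPolynomial.aeval F (mono X σ D l) = 0
  · left
    obtain ⟨D, a, ha, ha0, hsum⟩ := hA
    -- normalize
    have hb : ∀ l : σ → Fin (D + 1), IsAlgebraic (MvPolynomial X Qbar) (-(a (some l)) * (a none)⁻¹) := fun l =>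
      ((ha (some l)).neg).mul (ha none).inv
    obtain ⟨Q, Δ, hQ, hΔ, H⟩ := alg_spec F hfrac _ hb
    have hrel : ∑ l : σ → Fin (D + 1), (-(a (some l)) * (a none)⁻¹) * MvPolynomial.aeval F (mono X σ D (some l)) =
        MvPolynomial.aeval F (mono X σ D none) := by
      rw [Fintype.sum_option] at hsum
      have h1 : MvPolynomial.aeval F (mono X σ D none) =
          (a none)⁻¹ * (a none * MvPolynomial.aeval F (mono X σ D none)) := by
        rw [← mul_assoc, inv_mul_cancel₀ ha0, one_mul]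
      rw [h1, eq_neg_of_add_eq_zero_left hsum, mul_neg, Finset.mul_sum, ← Finset.sum_neg_distrib]
      refine Finset.sum_congr rfl fun l _ => ?_
      ring
    have hup : ∀ z ∈ U, psz (withF g f) z (Q * MvPolynomial.C Δ) ≠ 0 →
        ∃ P : MvPolynomial σ (Const z), (∀ i, P.degreeOf i ≤ D) ∧ MvPolynomial.aeval (f z) P = g z := by
      intro z hzU h0
      rw [map_mul] at h0
      obtain ⟨β, hβ, hβ2⟩ := H ℂ (psz (withF g f) z) (fun p hp => (hz' p).1 hp z hzU) (left_ne_zero_of_mul h0)
        (right_ne_zero_of_mul h0)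
      have hψC : (psz (withF g f) z).comp MvPolynomial.C = evz z := by
        apply RingHom.ext
        intro a
        simp only [psz, RingHom.comp_apply, MvPolynomial.map_C, MvPolynomial.eval₂Hom_C, evz]
      have hβm : ∀ l, β l ∈ Const z := by
        intro l
        obtain ⟨p, hp, hp0⟩ := hβ l
        rw [hψC] at hp hp0
        exact const_of_alg z _ p hp hp0
      have h1 := hβ2 _ _ hrel
      rw [psz_none] at h1
      refine ⟨∑ l : σ → Fin (D + 1), MvPolynomial.monomial (Finsupp.equivFunOnFinite.symm fun y => (l y : ℕ))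
        (⟨β l, hβm l⟩ : Const z), ?_, ?_⟩
      · intro i
        rw [MvPolynomial.degreeOf_le_iff]
        intro m hm
        obtain ⟨l, -, hl⟩ := Finset.mem_biUnion.1 (MvPolynomial.support_sum hm)
        have h2 := Finset.mem_singleton.1 (MvPolynomial.support_monomial_subset hl)
        rw [h2]
        have := (l i).2
        change ((l i : ℕ)) ≤ D
        omega
      · rw [map_sum, ← h1]
        refine Finset.sum_congr rfl fun l _ => ?_
        rw [MvPolynomial.aeval_monomial, psz_some, Finsupp.prod_fintype _ _ (fun _ => pow_zero _)]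
        rfl
    have hR0 : MvPolynomial.aeval F (Q * MvPolynomial.C Δ) ≠ 0 := by
      rw [map_mul, MvPolynomial.aeval_C]
      refine mul_ne_zero hQ ?_
      rw [Ne, map_eq_zero_iff _ (FaithfulSMul.algebraMap_injective _ L)]
      exact hΔ
    have hR1 : ∃ z ∈ U, psz (withF g f) z (Q * MvPolynomial.C Δ) ≠ 0 := by
      by_contra hcon
      push Not at hcon
      exact hR0 ((hz' _).2 hcon)
    refine ⟨D, ⟨flat (Q * MvPolynomial.C Δ), ?_, ?_⟩, ?_⟩
    · obtain ⟨z, hzU, h0⟩ := hR1
      refine ⟨z, hzU, ?_⟩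
      rw [← psz_flat]
      exact h0
    · intro z hzU h0
      rw [← psz_flat] at h0
      exact hup z hzU h0
    · apply few_conv
      refine N207.GS.few_of _ (fun K _ _ io n ξ T s hs => hs.1.1) fun n ε hn hε => ?_
      obtain ⟨D', C, T₀, hC, hT₀, H2⟩ := cov_ring allAlg_Qbar hU hUo hne hF (Q * MvPolynomial.C Δ) hR1
        (InnerM U n) (innerM_compact _ _) (innerM_sub _ hn) n ε hε
      refine ⟨D', C, T₀, hC, hT₀, fun K _ _ hm io _ T hT => (H2 K hm io T hT).mono le_rfl le_rfl ?_⟩
      refine Set.image_mono ?_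
      rintro s ⟨⟨hs1, hs2⟩, hs3⟩
      refine ⟨hs1, hs2, ?_⟩
      by_contra h0
      exact hs3 (hup _ (innerM_sub _ hn hs2) h0)
  · right
    apply few_conv
    refine N207.GS.few_of _ (fun K _ _ io n ξ T s hs => hs.1.1) fun n ε hn hε => ?_
    have hsli : SLIp (MvPolynomial X Qbar) (fun l => MvPolynomial.aeval F (mono X σ n l)) (MvPolynomial.X none) := by
      intro E _ Φ c hc hsum
      obtain ⟨N, t, a, h1, h2, h3⟩ := sli_comb' (A := MvPolynomial X Qbar) (L := L) E Φ c hc
      rw [MvPolynomial.eval₂_X, h2 none]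
      refine Finset.sum_eq_zero fun i _ => ?_
      have h4 : a i none = 0 := by
        by_contra h0
        exact hA ⟨n, a i, h1 i, h0, h3 _ hsum i⟩
      rw [h4, map_zero, mul_zero]
    obtain ⟨D', C, T₀, hC, hT₀, H2⟩ := linQ2 allAlg_Qbar hU hUo hne hF F hz hfrac (mono X σ n) (MvPolynomial.X none)
      hsli (InnerM U n) (innerM_compact _ _) (innerM_sub _ hn) n n ε hε
    refine ⟨D', C, T₀, hC, hT₀, fun K _ _ hm io _ T hT => (H2 K hm io T hT).mono le_rfl le_rfl ?_⟩
    refine Set.image_mono ?_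
    rintro s ⟨⟨hs1, hs2⟩, c, R, hc0, hc1, ⟨h3, h4⟩, hrel⟩
    refine ⟨hs1, hs2, fun o => o.elim c fun l => -(R.coeff (Finsupp.equivFunOnFinite.symm fun y => (l y : ℕ))),
      ?_, ?_, ?_⟩
    · rw [MvPolynomial.eval₂_X]
      change io (c : K) ≠ 0
      rw [Ne, map_eq_zero]
      exact fun h => hc0 (Subtype.ext h)
    · rintro (_ | l) φ
      · rw [Real.rpow_natCast]
        exact hc1 φ
      · rw [Real.rpow_natCast]
        change ‖φ ((-(R.coeff _) : 𝓞 K) : K)‖ ≤ T ^ n
        rw [neg_coe, map_neg, norm_neg]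
        exact h4 _ φ
    · rw [Fintype.sum_option]
      have e1 : evM (fun o z => withF g f z o) (fun i => io (s i)) (MvPolynomial.map (mC Qbar X) (mono X σ n none)) =
        g fun i => io (s i) := psz_none g f _ n
      have e2 : ∀ l, evM (fun o z => withF g f z o) (fun i => io (s i))
          (MvPolynomial.map (mC Qbar X) (mono X σ n (some l))) =
          ∏ y, f (fun i => io (s i)) y ^ (l y : ℕ) := fun l => psz_some g f _ n l
      have h5 := value_eq io R h3 (f fun i => io (s i))
      simp only [e1, e2, Option.elim_none, Option.elim_some]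
      rw [hrel, ← h5, ← Finset.sum_add_distrib]
      refine Finset.sum_eq_zero fun l _ => ?_
      rw [neg_coe, map_neg]
      ring

end law

end Pool.Agent.Run7.h10.QS
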