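import Pool.Agent.Run7.h10.QS.E5

/-!
# Derivations of the field of the functions; vectors with algebraic products
-/

set_option autoImplicit false
set_option linter.unusedSectionVars false

namespace Pool.Agent.Run7.h10.QS

/-- A derivation of a ring which preserves the kernel of a map to a field extends to the field of fractions. -/
theorem exists_der {S L : Type} [CommRing S] [Field L] (ev : S →+* L)
    (hfrac : ∀ l : L, ∃ p q : S, ev q ≠ 0 ∧ ev q * l = ev p) (δ : S → S)
    (hadd : ∀ p q, δ (p + q) = δ p + δ q) (hmul : ∀ p q, δ (p * q) = p * δ q + q * δ p)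
    (hδ : ∀ p, ev p = 0 → ev (δ p) = 0) :
    ∃ D : L → L, (∀ l m, D (l + m) = D l + D m) ∧ (∀ l m, D (l * m) = l * D m + m * D l) ∧
      ∀ p, D (ev p) = ev (δ p) := by
  classical
  have hneg : ∀ p, δ (-p) = -δ p := by
    intro p
    have h0 : δ 0 = 0 := by
      have h := hadd 0 0
      rw [add_zero] at h
      simpa using h
    have h := hadd p (-p)
    rw [add_neg_cancel, h0] at h
    exact (neg_eq_of_add_eq_zero_right h.symm).symm
  have key : ∀ (l : L) (p q p' q' : S), ev q ≠ 0 → ev q * l = ev p → ev q' ≠ 0 → ev q' * l = ev p' →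
      (ev (δ p) - l * ev (δ q)) / ev q = (ev (δ p') - l * ev (δ q')) / ev q' := by
    intro l p q p' q' hq hp hq' hp'
    have h1 : ev (p * q' + -(p' * q)) = 0 := by
      rw [map_add, map_neg, map_mul, map_mul, ← hp, ← hp']
      ring
    have h2 := hδ _ h1
    rw [hadd, hneg, hmul, hmul, map_add, map_neg, map_add, map_add, map_mul, map_mul, map_mul, map_mul,
      ← hp, ← hp'] at h2
    rw [div_eq_div_iff hq hq']
    linear_combination h2
  choose p q hq hp using hfrac
  have hD : ∀ (l : L) (p' q' : S), ev q' ≠ 0 → ev q' * l = ev p' →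
      (ev (δ (p l)) - l * ev (δ (q l))) / ev (q l) = (ev (δ p') - l * ev (δ q')) / ev q' := fun l p' q' h h' =>
    key l _ _ _ _ (hq l) (hp l) h h'
  have hone : δ 1 = 0 := by
    have h := hmul 1 1
    rw [one_mul, one_mul] at h
    simpa using h
  refine ⟨fun l => (ev (δ (p l)) - l * ev (δ (q l))) / ev (q l), ?_, ?_, ?_⟩
  · intro l m
    beta_reduce
    have hl := hq l
    have hm := hq m
    rw [hD (l + m) (p l * q m + p m * q l) (q l * q m) (by rw [map_mul]; exact mul_ne_zero hl hm) (by
      rw [map_mul, map_add, map_mul, map_mul, ← hp, ← hp]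
      ring)]
    rw [hadd, hmul, hmul, hmul]
    simp only [map_add, map_mul]
    rw [← hp l, ← hp m]
    field_simp
    ring
  · intro l m
    beta_reduce
    have hl := hq l
    have hm := hq m
    rw [hD (l * m) (p l * p m) (q l * q m) (by rw [map_mul]; exact mul_ne_zero hl hm) (by
      rw [map_mul, map_mul, ← hp, ← hp]
      ring)]
    rw [hmul, hmul]
    simp only [map_add, map_mul]
    rw [← hp l, ← hp m]
    field_simp
    ring
  · intro r
    have h := hD (ev r) r 1 (by rw [map_one]; exact one_ne_zero) (by rw [map_one, one_mul])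
    beta_reduce
    rw [h, hone, map_zero, mul_zero, sub_zero, map_one, div_one]

theorem isAlg_sum {A L ι : Type} [CommRing A] [IsDomain A] [Field L] [Algebra A L] (s : Finset ι) (g : ι → L)
    (hg : ∀ i, IsAlgebraic A (g i)) : IsAlgebraic A (∑ i ∈ s, g i) := by
  classical
  induction s using Finset.induction_on with
  | empty =>
    rw [Finset.sum_empty]
    exact isAlgebraic_zero
  | insert a s ha ih =>
    rw [Finset.sum_insert ha]
    exact (hg a).add ih

section der
variable {A L : Type} [CommRing A] [IsDomain A] [Field L] [CharZero L] [Algebra A L] [FaithfulSMul A L]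
  (D : L → L) (hadd : ∀ l m, D (l + m) = D l + D m) (hmul : ∀ l m, D (l * m) = l * D m + m * D l)
  (hA : ∀ a : A, ∃ b : A, D (algebraMap A L a) = algebraMap A L b)
include hadd hmul hA

theorem der_pow (l : L) (n : ℕ) : D (l ^ n) = (n : L) * l ^ (n - 1) * D l := by
  have hone : D 1 = 0 := by
    have h := hmul 1 1
    rw [one_mul, one_mul] at h
    simpa using h
  induction n with
  | zero => simp [hone]
  | succ n ih =>
    rw [pow_succ, hmul, ih, Nat.add_sub_cancel]
    rcases Nat.eq_zero_or_pos n with rfl | hn
    · simp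
    · have h1 : l ^ n = l ^ (n - 1) * l := by
        rw [← pow_succ, Nat.sub_add_cancel hn]
      rw [h1]
      push_cast
      ring

theorem der_alg (l : L) (hl : IsAlgebraic A l) : IsAlgebraic A (D l) := by
  classical
  have hinj : Function.Injective (algebraMap A L) := FaithfulSMul.algebraMap_injective A L
  have hone : D 1 = 0 := by
    have h := hmul 1 1
    rw [one_mul, one_mul] at h
    simpa using h
  have hzero : D 0 = 0 := by
    have h := hadd 0 0
    rw [add_zero] at h
    simpa using h
  -- the derivative of a polynomial in `l`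
  have hpoly : ∀ p : Polynomial A, ∃ r : L, IsAlgebraic A r ∧
      D (Polynomial.aeval l p) = r + Polynomial.aeval l (Polynomial.derivative p) * D l := by
    intro p
    induction p using Polynomial.induction_on' with
    | add p q hp hq =>
      obtain ⟨r, hr, h1⟩ := hp
      obtain ⟨r', hr', h2⟩ := hq
      refine ⟨r + r', hr.add hr', ?_⟩
      rw [map_add, hadd, h1, h2, Polynomial.derivative_add, map_add]
      ring
    | monomial n a =>
      obtain ⟨b, hb⟩ := hA a
      refine ⟨algebraMap A L b * l ^ n, (isAlgebraic_algebraMap b).mul (hl.pow n), ?_⟩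
      rw [Polynomial.aeval_monomial, hmul, hb, der_pow D hadd hmul hA, Polynomial.derivative_monomial,
        Polynomial.aeval_monomial, map_mul, map_natCast]
      ring
  -- a relation of minimal degree
  have hex : ∃ n, ∃ p : Polynomial A, p.natDegree = n ∧ p ≠ 0 ∧ Polynomial.aeval l p = 0 := by
    obtain ⟨p, hp, hp0⟩ := hl
    exact ⟨_, p, rfl, hp, hp0⟩
  obtain ⟨p, hpn, hp, hp0⟩ := Nat.find_spec hex
  have hmin := fun m (hm : m < Nat.find hex) => Nat.find_min hex hm
  have hpos : 0 < p.natDegree := by
    by_contra h0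
    have h1 : p.natDegree = 0 := by omega
    rw [Polynomial.eq_C_of_natDegree_eq_zero h1, Polynomial.aeval_C, map_eq_zero_iff _ hinj] at hp0
    apply hp
    rw [Polynomial.eq_C_of_natDegree_eq_zero h1, hp0, Polynomial.C_0]
  have hcA : CharZero A := (algebraMap A L).charZero
  have hd0 : Polynomial.derivative p ≠ 0 := by
    intro h0
    have h1 := Polynomial.derivative_eq_zero.1 h0
    omega
  have hd : Polynomial.aeval l (Polynomial.derivative p) ≠ 0 := by
    intro h0
    exact hmin _ (by rw [← hpn]; exact Polynomial.natDegree_derivative_lt hpos.ne') ⟨_, rfl, hd0, h0⟩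
  obtain ⟨r, hr, h1⟩ := hpoly p
  rw [hp0, hzero] at h1
  have h2 : D l = -r * (Polynomial.aeval l (Polynomial.derivative p))⁻¹ := by
    rw [← div_eq_mul_inv, eq_div_iff hd]
    linear_combination -h1
  rw [h2]
  refine hr.neg.mul ?_
  refine IsAlgebraic.inv ?_
  have h3 : ∀ q : Polynomial A, IsAlgebraic A (Polynomial.aeval l q) := by
    intro q
    induction q using Polynomial.induction_on' with
    | add p q hp hq =>
      rw [map_add]
      exact hp.add hq
    | monomial n a =>
      rw [Polynomial.aeval_monomial]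
      exact (isAlgebraic_algebraMap a).mul (hl.pow n)
  exact h3 _

end der

section lin
variable {A L : Type} [CommRing A] [IsDomain A] [Field L] [CharZero L] [Algebra A L] [FaithfulSMul A L]
  {ι : Type} [Fintype ι] {X : Type} (P : ι → ι → L) (D : X → L → L)

/-- the vectors with algebraic entries and algebraic products with the rows of `P` -/
def AV (a : ι → L) : Prop := (∀ j, IsAlgebraic A (a j)) ∧ ∀ i, IsAlgebraic A (∑ j, P i j * a j)

variable (hadd : ∀ x l m, D x (l + m) = D x l + D x m) (hmul : ∀ x l m, D x (l * m) = l * D x m + m * D x l)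
  (hA : ∀ x (a : A), ∃ b : A, D x (algebraMap A L a) = algebraMap A L b)
  (B : X → ι → ι → L) (hB : ∀ x i k, IsAlgebraic A (B x i k))
  (hP : ∀ x i j, D x (P i j) = ∑ k, B x i k * P k j)
include hadd hmul hA hB hP

theorem der_sum {κ : Type} (x : X) (s : Finset κ) (g : κ → L) : D x (∑ i ∈ s, g i) = ∑ i ∈ s, D x (g i) := by
  classical
  have hzero : D x 0 = 0 := by
    have h := hadd x 0 0
    rw [add_zero] at h
    simpa using h
  induction s using Finset.induction_on with
  | empty => simpa using hzero
  | insert a s ha ih => rw [Finset.sum_insert ha, Finset.sum_insert ha, hadd, ih]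

theorem AV.der {a : ι → L} (ha : AV (A := A) P a) (x : X) : AV (A := A) P fun j => D x (a j) := by
  refine ⟨fun j => der_alg (D x) (hadd x) (hmul x) (hA x) _ (ha.1 j), fun i => ?_⟩
  have h1 : D x (∑ j, P i j * a j) = ∑ j, P i j * D x (a j) + ∑ k, B x i k * ∑ j, P k j * a j := by
    rw [der_sum P D hadd hmul hA B hB hP]
    simp only [hmul, hP, Finset.sum_add_distrib]
    congr 1
    simp only [Finset.mul_sum]
    rw [Finset.sum_comm]
    refine Finset.sum_congr rfl fun j _ => Finset.sum_congr rfl fun k _ => ?_
    ring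
  have h2 : ∑ j, P i j * D x (a j) = D x (∑ j, P i j * a j) - ∑ k, B x i k * ∑ j, P k j * a j := by
    rw [h1]
    ring
  rw [h2]
  refine (der_alg (D x) (hadd x) (hmul x) (hA x) _ (ha.2 i)).sub ?_
  exact isAlg_sum _ _ fun k => (hB x i k).mul (ha.2 k)

omit hadd hmul hA hB hP in
theorem AV.smul {a : ι → L} (ha : AV (A := A) P a) {c : L} (hc : IsAlgebraic A c) :
    AV (A := A) P fun j => c * a j := by
  refine ⟨fun j => hc.mul (ha.1 j), fun i => ?_⟩
  have h1 : ∑ j, P i j * (c * a j) = c * ∑ j, P i j * a j := by
    rw [Finset.mul_sum]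
    refine Finset.sum_congr rfl fun j _ => ?_
    ring
  rw [h1]
  exact hc.mul (ha.2 i)

omit hadd hmul hA hB hP in
theorem AV.sub {a b : ι → L} (ha : AV (A := A) P a) (hb : AV (A := A) P b) :
    AV (A := A) P fun j => a j - b j := by
  refine ⟨fun j => (ha.1 j).sub (hb.1 j), fun i => ?_⟩
  have h1 : ∑ j, P i j * (a j - b j) = ∑ j, P i j * a j - ∑ j, P i j * b j := by
    rw [← Finset.sum_sub_distrib]
    refine Finset.sum_congr rfl fun j _ => ?_
    ring
  rw [h1]
  exact (ha.2 i).sub (hb.2 i)

variable {Q : Type} [Field Q] (co : Q →+* L) (hco : ∀ c, IsAlgebraic A (co c))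
  (hconst : ∀ l : L, IsAlgebraic A l → (∀ x, D x l = 0) → ∃ c : Q, co c = l)
include hconst

open Classical in
/-- A vector of `AV` contains a constant vector in its support. -/
theorem exists_const : ∀ (m : ℕ) (a : ι → L), AV (A := A) P a → (Finset.univ.filter fun j => a j ≠ 0).card = m →
    (∃ j, a j ≠ 0) → ∃ v : ι → Q, (∃ j, v j ≠ 0) ∧ AV (A := A) P (fun j => co (v j)) ∧ ∀ j, a j = 0 → v j = 0 := by
  classical
  intro m
  induction m using Nat.strong_induction_on with
  | _ m ih =>
    intro a ha hm hne
    obtain ⟨j0, hj0⟩ := hne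
    have hone : ∀ x, D x 1 = 0 := by
      intro x
      have h := hmul x 1 1
      rw [one_mul, one_mul] at h
      simpa using h
    have hzero : ∀ x, D x 0 = 0 := by
      intro x
      have h := hadd x 0 0
      rw [add_zero] at h
      simpa using h
    have ha' : AV (A := A) P fun j => (a j0)⁻¹ * a j := ha.smul P (ha.1 j0).inv
    by_cases hc : ∀ x j, D x ((a j0)⁻¹ * a j) = 0
    · choose v hv using fun j => hconst _ (ha'.1 j) fun x => hc x j
      refine ⟨v, ⟨j0, ?_⟩, ?_, ?_⟩
      · intro h0
        have h1 : co (v j0) = (a j0)⁻¹ * a j0 := hv j0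
        rw [h0, map_zero, inv_mul_cancel₀ hj0] at h1
        exact zero_ne_one h1
      · have h1 : (fun j => co (v j)) = fun j => (a j0)⁻¹ * a j := funext hv
        rw [h1]
        exact ha'
      · intro j hj
        have h1 : co (v j) = (a j0)⁻¹ * a j := hv j
        rw [hj, mul_zero] at h1
        exact (map_eq_zero co).1 h1
    · push Not at hc
      obtain ⟨x, j1, hj1⟩ := hc
      have hb := ha'.der P D hadd hmul hA B hB hP x
      have hsub : ∀ j, a j = 0 → D x ((a j0)⁻¹ * a j) = 0 := by
        intro j hj
        rw [hj, mul_zero, hzero]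
      have hlt : (Finset.univ.filter fun j => D x ((a j0)⁻¹ * a j) ≠ 0).card < m := by
        rw [← hm]
        apply Finset.card_lt_card
        rw [Finset.ssubset_iff_of_subset]
        · refine ⟨j0, ?_, ?_⟩
          · simp [hj0]
          · simp [inv_mul_cancel₀ hj0, hone x]
        · intro j hj
          rw [Finset.mem_filter] at hj ⊢
          exact ⟨hj.1, fun h0 => hj.2 (hsub j h0)⟩
      obtain ⟨v, hv1, hv2, hv3⟩ := ih _ hlt _ hb rfl ⟨j1, hj1⟩
      exact ⟨v, hv1, hv2, fun j hj => hv3 j (hsub j hj)⟩

include hco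

open Classical in
/-- The linear forms which vanish on the constant vectors vanish on all vectors. -/
theorem forms_zero (lam : ι → Q) (hlam : ∀ v : ι → Q, AV (A := A) P (fun j => co (v j)) → ∑ j, lam j * v j = 0) :
    ∀ (m : ℕ) (a : ι → L), AV (A := A) P a → (Finset.univ.filter fun j => a j ≠ 0).card = m →
      ∑ j, co (lam j) * a j = 0 := by
  classical
  intro m
  induction m using Nat.strong_induction_on with
  | _ m ih =>
    intro a ha hm
    by_cases hne : ∃ j, a j ≠ 0
    · obtain ⟨v, ⟨j1, hj1⟩, hv2, hv3⟩ := exists_const P D hadd hmul hA B hB hP co hconst m a ha hm hne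
      have haj1 : a j1 ≠ 0 := fun h0 => hj1 (hv3 j1 h0)
      have hcv : co (v j1) ≠ 0 := (map_ne_zero co).2 hj1
      have hc : IsAlgebraic A (a j1 * (co (v j1))⁻¹) := (ha.1 j1).mul (hco _).inv
      have hb := ha.sub P (hv2.smul P hc)
      have hlt : (Finset.univ.filter fun j => a j - a j1 * (co (v j1))⁻¹ * co (v j) ≠ 0).card < m := by
        rw [← hm]
        apply Finset.card_lt_card
        rw [Finset.ssubset_iff_of_subset]
        · refine ⟨j1, ?_, ?_⟩
          · simp [haj1]
          · rw [Finset.mem_filter]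
            rintro ⟨-, h0⟩
            apply h0
            rw [mul_assoc, inv_mul_cancel₀ hcv, mul_one, sub_self]
        · intro j hj
          rw [Finset.mem_filter] at hj ⊢
          refine ⟨hj.1, fun h0 => hj.2 ?_⟩
          rw [h0, hv3 j h0, map_zero, mul_zero, sub_zero]
      have h1 := ih _ hlt _ hb rfl
      have h2 : ∑ j, co (lam j) * co (v j) = 0 := by
        rw [← map_zero co, ← hlam v hv2, map_sum]
        refine Finset.sum_congr rfl fun j _ => ?_
        rw [map_mul]
      have h3 : ∑ j, co (lam j) * (a j - a j1 * (co (v j1))⁻¹ * co (v j)) =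
          ∑ j, co (lam j) * a j - a j1 * (co (v j1))⁻¹ * ∑ j, co (lam j) * co (v j) := by
        rw [Finset.mul_sum, ← Finset.sum_sub_distrib]
        refine Finset.sum_congr rfl fun j _ => ?_
        ring
      rw [h3, h2, mul_zero, sub_zero] at h1
      exact h1
    · push Not at hne
      exact Finset.sum_eq_zero fun j _ => by rw [hne j, mul_zero]

end lin

end Pool.Agent.Run7.h10.QS
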