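import Pool.Agent.Run7.h10.QS.J1
import Pool.Agent.Run7.h10.QS.F2

/-!
# The partial derivatives as derivations of the field of the functions
-/

set_option autoImplicit false
set_option linter.unusedSectionVars false

open NumberField Filter Topology

namespace Pool.Agent.Run7.h10.QS

open Pool.Agent.Y890.MV Pool.Agent.Y890.SP

/-- polynomials in all the variables -/
noncomputable def eqv (X σ : Type) : MvPolynomial σ (MvPolynomial X Qbar) ≃+* MvPolynomial (X ⊕ σ) Qbar :=
  ((MvPolynomial.sumAlgEquiv Qbar σ X).symm.trans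
    (MvPolynomial.renameEquiv Qbar (Equiv.sumComm σ X))).toRingEquiv

theorem eqv_apply {X σ : Type} (p : MvPolynomial σ (MvPolynomial X Qbar)) : eqv X σ p = flat p := rfl

theorem psz_symm {X σ : Type} (f : (X → ℂ) → σ → ℂ) (z : X → ℂ) (p : MvPolynomial (X ⊕ σ) Qbar) :
    psz f z ((eqv X σ).symm p) = MvPolynomial.aeval (Sum.elim z (f z)) p := by
  rw [psz_flat, ← eqv_apply, RingEquiv.apply_symm_apply]

theorem psz_C {X σ : Type} (f : (X → ℂ) → σ → ℂ) (z : X → ℂ) : (psz f z).comp MvPolynomial.C = evz z := by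
  apply RingHom.ext
  intro a
  simp only [psz, RingHom.comp_apply, MvPolynomial.map_C, MvPolynomial.eval₂Hom_C, evz]

theorem aeval_inl {X σ : Type} (z : X → ℂ) (b : σ → ℂ) (a : MvPolynomial X Qbar) :
    MvPolynomial.aeval (Sum.elim z b) (MvPolynomial.rename Sum.inl a) = evz z a := by
  rw [MvPolynomial.aeval_rename]
  induction a using MvPolynomial.induction_on with
  | C a =>
    rw [MvPolynomial.aeval_C, evz_C]
    rfl
  | add p q hp hq => rw [map_add, map_add, hp, hq]
  | mul_X p i hp => rw [map_mul, map_mul, hp, MvPolynomial.aeval_X, evz_X]; rfl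

/-- the derivation with the values `q` at the variable `x` and `G i` at the other variables -/
noncomputable def dq {X σ : Type} [DecidableEq X] (x : X) (q : MvPolynomial X Qbar)
    (G : σ → MvPolynomial (X ⊕ σ) Qbar) : Derivation Qbar (MvPolynomial (X ⊕ σ) Qbar) (MvPolynomial (X ⊕ σ) Qbar) :=
  MvPolynomial.mkDerivation Qbar (Sum.elim (fun y => if y = x then MvPolynomial.rename Sum.inl q else 0) G)

theorem pd_val {X σ : Type} [Fintype X] [DecidableEq X] {U : Set (X → ℂ)} {f : (X → ℂ) → σ → ℂ}
    (hf : ∀ i, AnalyticOnNhd ℂ (fun z => f z i) U) (x : X) (q : MvPolynomial X Qbar)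
    (G : σ → MvPolynomial (X ⊕ σ) Qbar)
    (hG : ∀ i, ∀ z ∈ U, evz z q * fderiv ℂ (fun z => f z i) z (Pi.single x 1) =
      MvPolynomial.aeval (Sum.elim z (f z)) (G i)) (p : MvPolynomial (X ⊕ σ) Qbar) :
    ∀ z ∈ U, evz z q * fderiv ℂ (fun z => MvPolynomial.aeval (Sum.elim z (f z)) p) z (Pi.single x 1) =
      MvPolynomial.aeval (Sum.elim z (f z)) (dq x q G p) := by
  intro z hz
  induction p using MvPolynomial.induction_on with
  | C a =>
    have h1 : (fun z : X → ℂ => MvPolynomial.aeval (Sum.elim z (f z)) (MvPolynomial.C a : MvPolynomial (X ⊕ σ) Qbar)) =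
        fun _ => (a : ℂ) := by
      funext z
      rw [MvPolynomial.aeval_C]
      rfl
    have h2 : dq x q G (MvPolynomial.C a) = 0 := (dq x q G).map_algebraMap a
    rw [h1, h2, fderiv_fun_const, map_zero]
    simp
  | add p r hp hr =>
    have h1 : (fun z : X → ℂ => MvPolynomial.aeval (Sum.elim z (f z)) (p + r)) =
        fun z => MvPolynomial.aeval (Sum.elim z (f z)) p + MvPolynomial.aeval (Sum.elim z (f z)) r := by
      funext z
      rw [map_add]
    rw [h1, fderiv_fun_add ((val_anQ hf p z hz).differentiableAt) ((val_anQ hf r z hz).differentiableAt), map_add,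
      map_add, ContinuousLinearMap.add_apply, mul_add, hp, hr]
  | mul_X p i hp =>
    have hXi : evz z q * fderiv ℂ (fun z : X → ℂ => (Sum.elim z (f z) : X ⊕ σ → ℂ) i) z (Pi.single x 1) =
        MvPolynomial.aeval (Sum.elim z (f z)) (dq x q G (MvPolynomial.X i)) := by
      rcases i with y | i
      · have h1 : dq x q G (MvPolynomial.X (Sum.inl y)) = if y = x then MvPolynomial.rename Sum.inl q else 0 :=
          MvPolynomial.mkDerivation_X _ _ _
        have h2 : (fun z : X → ℂ => (Sum.elim z (f z) : X ⊕ σ → ℂ) (Sum.inl y)) =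
            (ContinuousLinearMap.proj (R := ℂ) (φ := fun _ : X => ℂ) y) := rfl
        rw [h1, h2, ContinuousLinearMap.fderiv, ContinuousLinearMap.proj_apply, Pi.single_apply]
        split_ifs with h
        · rw [aeval_inl, mul_one]
        · rw [mul_zero, map_zero]
      · have h1 : dq x q G (MvPolynomial.X (Sum.inr i)) = G i := MvPolynomial.mkDerivation_X _ _ _
        rw [h1]
        exact hG i z hz
    have hdi : DifferentiableAt ℂ (fun z : X → ℂ => (Sum.elim z (f z) : X ⊕ σ → ℂ) i) z := by
      rcases i with y | i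
      · exact (ContinuousLinearMap.proj (R := ℂ) (φ := fun _ : X => ℂ) y).differentiableAt
      · exact (hf i z hz).differentiableAt
    have h1 : (fun z : X → ℂ => MvPolynomial.aeval (Sum.elim z (f z)) (p * MvPolynomial.X i)) =
        fun z => MvPolynomial.aeval (Sum.elim z (f z)) p * (Sum.elim z (f z) : X ⊕ σ → ℂ) i := by
      funext z
      rw [map_mul, MvPolynomial.aeval_X]
    rw [h1, fderiv_fun_mul ((val_anQ hf p z hz).differentiableAt) hdi, (dq x q G).leibniz, map_add,
      ContinuousLinearMap.add_apply, ContinuousLinearMap.smul_apply, ContinuousLinearMap.smul_apply]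
    simp only [smul_eq_mul, map_mul, MvPolynomial.aeval_X]
    rw [← hXi, ← hp]
    ring

theorem dq_inl {X σ : Type} [DecidableEq X] (x : X) (q : MvPolynomial X Qbar)
    (G : σ → MvPolynomial (X ⊕ σ) Qbar) (a : MvPolynomial X Qbar) :
    ∃ b : MvPolynomial X Qbar, dq x q G (MvPolynomial.rename Sum.inl a) = MvPolynomial.rename Sum.inl b := by
  induction a using MvPolynomial.induction_on with
  | C a =>
    refine ⟨0, ?_⟩
    rw [MvPolynomial.rename_C, map_zero]
    exact (dq x q G).map_algebraMap a
  | add p r hp hr =>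
    obtain ⟨b, hb⟩ := hp
    obtain ⟨c, hc⟩ := hr
    exact ⟨b + c, by rw [map_add, map_add, hb, hc, map_add]⟩
  | mul_X p y hp =>
    obtain ⟨b, hb⟩ := hp
    refine ⟨p * (if y = x then q else 0) + MvPolynomial.X y * b, ?_⟩
    have h1 : dq x q G (MvPolynomial.X (Sum.inl y)) = if y = x then MvPolynomial.rename Sum.inl q else 0 :=
      MvPolynomial.mkDerivation_X _ _ _
    rw [map_mul, MvPolynomial.rename_X, (dq x q G).leibniz, hb, h1]
    simp only [smul_eq_mul, map_add, map_mul, MvPolynomial.rename_X]
    congr 2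
    split_ifs
    · rfl
    · rw [map_zero]

end Pool.Agent.Run7.h10.QS
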