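import Pool.Agent.Run7.h10.QS.J2

/-!
# The derivations of the field of the functions and their constants
-/

set_option autoImplicit false
set_option linter.unusedSectionVars false

open NumberField Filter Topology

namespace Pool.Agent.Run7.h10.QS

open Pool.Agent.Y890.MV Pool.Agent.Y890.SP

theorem exists_ders {X σ L : Type} [Fintype X] [DecidableEq X] {U : Set (X → ℂ)} {f : (X → ℂ) → σ → ℂ}
    (hU : IsPreconnected U) (hUo : IsOpen U)
    (hf : ∀ i, AnalyticOnNhd ℂ (fun z => f z i) U) (q : X → MvPolynomial X Qbar) (hq : ∀ x, q x ≠ 0)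
    (G : X → σ → MvPolynomial (X ⊕ σ) Qbar)
    (hG : ∀ x i, ∀ z ∈ U, evz z (q x) * fderiv ℂ (fun z => f z i) z (Pi.single x 1) =
      MvPolynomial.aeval (Sum.elim z (f z)) (G x i)) [Field L] [CharZero L]
    [Algebra (MvPolynomial X Qbar) L] [FaithfulSMul (MvPolynomial X Qbar) L] (F : σ → L)
    (hz : ∀ p : MvPolynomial σ (MvPolynomial X Qbar), MvPolynomial.aeval F p = 0 ↔ ∀ z ∈ U, psz f z p = 0)
    (hfrac : ∀ l : L, ∃ p q : MvPolynomial σ (MvPolynomial X Qbar), MvPolynomial.aeval F q ≠ 0 ∧
      MvPolynomial.aeval F q * l = MvPolynomial.aeval F p) :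
    ∃ D : X → L → L, (∀ x l m, D x (l + m) = D x l + D x m) ∧
      (∀ x l m, D x (l * m) = l * D x m + m * D x l) ∧
      (∀ x (a : MvPolynomial X Qbar), ∃ b : MvPolynomial X Qbar,
        D x (algebraMap (MvPolynomial X Qbar) L a) = algebraMap (MvPolynomial X Qbar) L b) ∧
      (∀ x i, D x (F i) = MvPolynomial.aeval F ((eqv X σ).symm (G x i))) ∧
      ∀ l : L, IsAlgebraic (MvPolynomial X Qbar) l → (∀ x, D x l = 0) →
        ∃ c : Qbar, algebraMap (MvPolynomial X Qbar) L (MvPolynomial.C c) = l := by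
  classical
  let ev : MvPolynomial (X ⊕ σ) Qbar →+* L :=
    (MvPolynomial.aeval F : MvPolynomial σ (MvPolynomial X Qbar) →ₐ[MvPolynomial X Qbar] L).toRingHom.comp
      ((eqv X σ).symm : MvPolynomial (X ⊕ σ) Qbar →+* MvPolynomial σ (MvPolynomial X Qbar))
  have hevs : ∀ p, ev p = MvPolynomial.aeval F ((eqv X σ).symm p) := fun p => rfl
  have hev : ∀ p : MvPolynomial σ (MvPolynomial X Qbar), ev (eqv X σ p) = MvPolynomial.aeval F p := by
    intro p
    rw [hevs, RingEquiv.symm_apply_apply]
  have hev0 : ∀ p, ev p = 0 ↔ ∀ z ∈ U, MvPolynomial.aeval (Sum.elim z (f z)) p = 0 := by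
    intro p
    rw [hevs, hz]
    refine forall₂_congr fun z _ => ?_
    rw [psz_symm]
  have hfrac' : ∀ l : L, ∃ p q : MvPolynomial (X ⊕ σ) Qbar, ev q ≠ 0 ∧ ev q * l = ev p := by
    intro l
    obtain ⟨p, q, h1, h2⟩ := hfrac l
    exact ⟨eqv X σ p, eqv X σ q, by rw [hev]; exact h1, by rw [hev, hev]; exact h2⟩
  have hval : ∀ x (p : MvPolynomial (X ⊕ σ) Qbar), ∀ z ∈ U, evz z (q x) *
      fderiv ℂ (fun z => MvPolynomial.aeval (Sum.elim z (f z)) p) z (Pi.single x 1) =
      MvPolynomial.aeval (Sum.elim z (f z)) (dq x (q x) (G x) p) := fun x p => pd_val hf x (q x) (G x) (hG x) p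
  have hker : ∀ x p, ev p = 0 → ev (dq x (q x) (G x) p) = 0 := by
    intro x p hp
    rw [hev0] at hp ⊢
    intro z hzU
    rw [← hval x p z hzU]
    have h1 : (fun z => MvPolynomial.aeval (Sum.elim z (f z)) p) =ᶠ[𝓝 z] fun _ => (0 : ℂ) := by
      filter_upwards [hUo.mem_nhds hzU] with w hw
      exact hp w hw
    rw [h1.fderiv_eq, fderiv_fun_const]
    simp
  have hder : ∀ x, ∃ D : L → L, (∀ l m, D (l + m) = D l + D m) ∧ (∀ l m, D (l * m) = l * D m + m * D l) ∧
      ∀ p, D (ev p) = ev (dq x (q x) (G x) p) := fun x =>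
    exists_der ev hfrac' (fun p => dq x (q x) (G x) p) (fun p r => map_add _ p r)
      (fun p r => (dq x (q x) (G x)).leibniz p r) (hker x)
  choose D hD1 hD2 hD3 using hder
  have hinl : ∀ a : MvPolynomial X Qbar, ev (MvPolynomial.rename Sum.inl a) = algebraMap (MvPolynomial X Qbar) L a := by
    intro a
    have h1 : eqv X σ (MvPolynomial.C a) = MvPolynomial.rename Sum.inl a := by
      induction a using MvPolynomial.induction_on with
      | C c =>
        rw [eqv_apply, flat, MvPolynomial.sumAlgEquiv_symm_C_C, MvPolynomial.rename_C, MvPolynomial.rename_C]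
      | add p r hp hr => rw [map_add, map_add, hp, hr, map_add]
      | mul_X p y hp =>
        rw [map_mul, map_mul, hp, map_mul, MvPolynomial.rename_X, eqv_apply, flat,
          MvPolynomial.sumAlgEquiv_symm_C_X, MvPolynomial.rename_X]
        rfl
    rw [← h1, hev, MvPolynomial.aeval_C]
  have hFi : ∀ i, ev (MvPolynomial.X (Sum.inr i)) = F i := by
    intro i
    have h1 : eqv X σ (MvPolynomial.X i) = MvPolynomial.X (Sum.inr i) := by
      rw [eqv_apply, flat, MvPolynomial.sumAlgEquiv_symm_X, MvPolynomial.rename_X]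
      rfl
    rw [← h1, hev, MvPolynomial.aeval_X]
  refine ⟨D, hD1, hD2, ?_, ?_, ?_⟩
  · intro x a
    obtain ⟨b, hb⟩ := dq_inl x (q x) (G x) a
    exact ⟨b, by rw [← hinl, hD3, hb, hinl]⟩
  · intro x i
    rw [← hFi, hD3, hevs]
    congr 2
    exact MvPolynomial.mkDerivation_X _ _ _
  · intro l hl hDl
    obtain ⟨N, Q, hQ, hN⟩ := hfrac' l
    -- a point at which nothing vanishes
    let W : MvPolynomial (X ⊕ σ) Qbar := Q * ∏ x, MvPolynomial.rename Sum.inl (q x)
    have hW : ev W ≠ 0 := by
      rw [map_mul, map_prod]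
      refine mul_ne_zero hQ (Finset.prod_ne_zero_iff.2 fun x _ => ?_)
      rw [hinl, Ne, map_eq_zero_iff _ (FaithfulSMul.algebraMap_injective _ L)]
      exact hq x
    have hW1 : ∃ z ∈ U, MvPolynomial.aeval (Sum.elim z (f z)) W ≠ 0 := by
      by_contra hcon
      push Not at hcon
      exact hW ((hev0 W).2 hcon)
    obtain ⟨z1, hz1U, hz1⟩ := hW1
    have hopen : IsOpen (U ∩ {z | MvPolynomial.aeval (Sum.elim z (f z)) W ≠ 0}) :=
      (val_anQ hf W).continuousOn.isOpen_inter_preimage hUo isOpen_compl_singleton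
    obtain ⟨r, hr, hball⟩ := Metric.isOpen_iff.1 hopen z1 ⟨hz1U, hz1⟩
    have hBU : Metric.ball z1 r ⊆ U := fun z hz => (hball hz).1
    have hBQ : ∀ z ∈ Metric.ball z1 r, MvPolynomial.aeval (Sum.elim z (f z)) Q ≠ 0 := by
      intro z hz h0
      apply (hball hz).2
      change MvPolynomial.aeval (Sum.elim z (f z)) (Q * ∏ x, MvPolynomial.rename Sum.inl (q x)) = 0
      rw [map_mul, h0, zero_mul]
    have hBq : ∀ z ∈ Metric.ball z1 r, ∀ x, evz z (q x) ≠ 0 := by
      intro z hz x h0
      apply (hball hz).2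
      change MvPolynomial.aeval (Sum.elim z (f z)) (Q * ∏ x, MvPolynomial.rename Sum.inl (q x)) = 0
      rw [map_mul, map_prod, Finset.prod_eq_zero (Finset.mem_univ x), mul_zero]
      rw [aeval_inl, h0]
    -- the quotient is constant on the ball
    let g : (X → ℂ) → ℂ := fun z => MvPolynomial.aeval (Sum.elim z (f z)) N / MvPolynomial.aeval (Sum.elim z (f z)) Q
    have hgN : ∀ x, ∀ z ∈ U, MvPolynomial.aeval (Sum.elim z (f z)) Q *
        MvPolynomial.aeval (Sum.elim z (f z)) (dq x (q x) (G x) N) = MvPolynomial.aeval (Sum.elim z (f z)) N *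
        MvPolynomial.aeval (Sum.elim z (f z)) (dq x (q x) (G x) Q) := by
      intro x
      have h1 : D x (ev N) = l * D x (ev Q) := by
        rw [← hN, hD2, hDl, mul_zero, zero_add]
      rw [hD3, hD3] at h1
      have h2 : ev (Q * dq x (q x) (G x) N - N * dq x (q x) (G x) Q) = 0 := by
        rw [map_sub, map_mul, map_mul, h1, ← hN]
        ring
      rw [hev0] at h2
      intro z hzU
      have h3 := h2 z hzU
      rw [map_sub, map_mul, map_mul, sub_eq_zero] at h3
      exact h3
    have hgc : ∃ κ, ∀ z ∈ Metric.ball z1 r, g z = κ := by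
      refine Metric.isOpen_ball.exists_is_const_of_fderiv_eq_zero (𝕜 := ℂ)
        (convex_ball z1 r).isPreconnected ?_ ?_
      · intro z hz
        exact (((val_anQ hf N z (hBU hz)).div (val_anQ hf Q z (hBU hz)) (hBQ z hz)).differentiableAt).differentiableWithinAt
      · intro z hz
        have hzU := hBU hz
        have hQ0 := hBQ z hz
        have hdN := (val_anQ hf N z hzU).differentiableAt
        have hdQ := (val_anQ hf Q z hzU).differentiableAt
        have hsingle : ∀ x, fderiv ℂ g z (Pi.single x 1) = 0 := by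
          intro x
          have h1 : fderiv ℂ (fun z => g z * MvPolynomial.aeval (Sum.elim z (f z)) Q) z =
              fderiv ℂ (fun z => MvPolynomial.aeval (Sum.elim z (f z)) N) z := by
            apply Filter.EventuallyEq.fderiv_eq
            filter_upwards [Metric.isOpen_ball.mem_nhds hz] with w hw
            exact div_mul_cancel₀ _ (hBQ w hw)
          have hdg : DifferentiableAt ℂ g z := ((val_anQ hf N z hzU).div (val_anQ hf Q z hzU) hQ0).differentiableAt
          rw [fderiv_fun_mul hdg hdQ] at h1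
          have h2 := congrArg (fun φ : (X → ℂ) →L[ℂ] ℂ => φ (Pi.single x 1)) h1
          simp only [add_apply, smul_apply, smul_eq_mul] at h2
          have h3 := hgN x z hzU
          rw [← hval x N z hzU, ← hval x Q z hzU] at h3
          have h4 : g z * MvPolynomial.aeval (Sum.elim z (f z)) Q = MvPolynomial.aeval (Sum.elim z (f z)) N :=
            div_mul_cancel₀ _ hQ0
          have h5 : evz z (q x) * (MvPolynomial.aeval (Sum.elim z (f z)) Q *
              (MvPolynomial.aeval (Sum.elim z (f z)) Q * fderiv ℂ g z (Pi.single x 1))) = 0 := by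
            rw [← h4] at h3
            rw [← h2] at h3
            linear_combination h3
          rcases mul_eq_zero.1 h5 with h6 | h6
          · exact absurd h6 (hBq z hz x)
          · rcases mul_eq_zero.1 h6 with h7 | h7
            · exact absurd h7 hQ0
            · exact (mul_eq_zero.1 h7).resolve_left hQ0
        ext v
        rw [pi_eq_sum_univ' v, map_sum]
        simp only [map_smul, hsingle, smul_zero, Finset.sum_const_zero]
        rfl
    obtain ⟨κ, hκ⟩ := hgc
    have hNκ : ∀ z ∈ Metric.ball z1 r, MvPolynomial.aeval (Sum.elim z (f z)) N =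
        κ * MvPolynomial.aeval (Sum.elim z (f z)) Q := by
      intro z hz
      rw [← hκ z hz]
      exact (div_mul_cancel₀ _ (hBQ z hz)).symm
    -- the constant is algebraic
    obtain ⟨p0, hp0, hp1⟩ := hl
    have hroot : ∀ z ∈ Metric.ball z1 r, p0.eval₂ (evz z) κ = 0 := by
      let θ := (MvPolynomial.aeval F : MvPolynomial σ (MvPolynomial X Qbar) →ₐ[MvPolynomial X Qbar] L).toRingHom
      have hQ' : θ ((eqv X σ).symm Q) ≠ 0 := hQ
      have h1 := homog θ ((eqv X σ).symm N) ((eqv X σ).symm Q) hQ' p0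
      have h2 : θ ((eqv X σ).symm N) / θ ((eqv X σ).symm Q) = l := by
        change ev N / ev Q = l
        rw [← hN, mul_div_cancel_left₀ _ hQ]
      have h3 : θ.comp MvPolynomial.C = algebraMap (MvPolynomial X Qbar) L := by
        apply RingHom.ext
        intro a
        exact MvPolynomial.aeval_C F a
      have h4 : Polynomial.eval₂ (algebraMap (MvPolynomial X Qbar) L) l p0 = 0 := hp1
      rw [h2, h3, h4, mul_zero] at h1
      intro z hzB
      have h5 := (hz _).1 h1 z (hBU hzB)
      have hQz : psz f z ((eqv X σ).symm Q) ≠ 0 := by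
        rw [psz_symm]
        exact hBQ z hzB
      rw [homog (psz f z) _ _ hQz, psz_C] at h5
      have h6 := (mul_eq_zero.1 h5).resolve_left (pow_ne_zero _ hQz)
      rw [psz_symm, psz_symm] at h6
      have h7 : MvPolynomial.aeval (Sum.elim z (f z)) N / MvPolynomial.aeval (Sum.elim z (f z)) Q = κ := hκ z hzB
      rw [h7] at h6
      exact h6
    have hlc : p0.leadingCoeff ≠ 0 := Polynomial.leadingCoeff_ne_zero.2 hp0
    have hex : ∃ z ∈ Metric.ball z1 r, evz z p0.leadingCoeff ≠ 0 := by
      by_contra hcon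
      push Not at hcon
      apply hlc
      apply mC_inj Qbar X
      rw [map_zero]
      exact poly_zero Metric.isOpen_ball ⟨z1, Metric.mem_ball_self hr⟩ _ fun z hz => hcon z hz
    have hκalg : IsAlgebraic ℚ κ := by
      obtain ⟨z2, hz2, h2⟩ := hex
      have hcont : Continuous fun z : X → ℂ => evz z p0.leadingCoeff :=
        MvPolynomial.continuous_eval (mC Qbar X p0.leadingCoeff)
      have ho : IsOpen (Metric.ball z1 r ∩ {z | evz z p0.leadingCoeff ≠ 0}) :=
        Metric.isOpen_ball.inter (isOpen_compl_singleton.preimage hcont)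
      obtain ⟨v, hv⟩ := dense_alg.exists_mem_open ho ⟨z2, hz2, h2⟩
      have h3 := const_of_alg _ κ p0 (fun h0 => hv.2 (by
        have h4 := congrArg (fun p => Polynomial.coeff p p0.natDegree) h0
        simp only [Polynomial.coeff_map, Polynomial.coeff_natDegree, Polynomial.coeff_zero] at h4
        exact h4)) (hroot _ hv.1)
      rw [mem_const_iff (fun i => mem_algebraicClosure_iff.1 (v i).2)] at h3
      exact h3
    let c : Qbar := ⟨κ, mem_algebraicClosure_iff.2 hκalg⟩
    have hcz : ∀ z, MvPolynomial.aeval (Sum.elim z (f z)) (MvPolynomial.C c : MvPolynomial (X ⊕ σ) Qbar) = κ := by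
      intro z
      rw [MvPolynomial.aeval_C]
      rfl
    refine ⟨c, ?_⟩
    have h1 : ev (N - MvPolynomial.C c * Q) = 0 := by
      rw [hev0]
      intro z hzU
      refine (val_anQ hf (N - MvPolynomial.C c * Q)).eqOn_zero_of_preconnected_of_eventuallyEq_zero hU hz1U ?_ hzU
      filter_upwards [Metric.ball_mem_nhds z1 hr] with w hw
      rw [map_sub, map_mul, hcz, hNκ w hw, sub_self]
      rfl
    have h2 : ev (MvPolynomial.C c) = algebraMap (MvPolynomial X Qbar) L (MvPolynomial.C c) := by
      rw [← hinl, MvPolynomial.rename_C]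
    rw [map_sub, map_mul, sub_eq_zero, ← hN, h2, mul_comm] at h1
    exact (mul_right_cancel₀ hQ h1).symm

end Pool.Agent.Run7.h10.QS
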