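import Pool.Agent.Run7.h10.QS.J3
import Pool.Agent.Run7.h10.QS.H2

/-!
# Constants independent over the functions
-/

set_option autoImplicit false
set_option linter.unusedSectionVars false

open NumberField Filter Topology

namespace Pool.Agent.Run7.h10.QS

open Pool.Agent.Y890.MV Pool.Agent.Y890.SP

theorem eqv_C {X σ : Type} (a : MvPolynomial X Qbar) :
    eqv X σ (MvPolynomial.C a) = MvPolynomial.rename Sum.inl a := by
  induction a using MvPolynomial.induction_on with
  | C c =>
    rw [eqv_apply, flat, MvPolynomial.sumAlgEquiv_symm_C_C, MvPolynomial.rename_C, MvPolynomial.rename_C]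
  | add p r hp hr => rw [map_add, map_add, hp, hr, map_add]
  | mul_X p y hp =>
    rw [map_mul, map_mul, hp, map_mul, MvPolynomial.rename_X, eqv_apply, flat,
      MvPolynomial.sumAlgEquiv_symm_C_X, MvPolynomial.rename_X]
    rfl

theorem eqv_X {X σ : Type} (i : σ) : eqv X σ (MvPolynomial.X i) = MvPolynomial.X (Sum.inr i) := by
  rw [eqv_apply, flat, MvPolynomial.sumAlgEquiv_symm_X, MvPolynomial.rename_X]
  rfl

/-- **Constants which are independent over the functions.** -/
theorem exists_eta {X σ τ : Type} [Fintype X] [Fintype σ] [Fintype τ] {U : Set (X → ℂ)} {f : (X → ℂ) → σ → ℂ}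
    (hU : IsPreconnected U) (hUo : IsOpen U) (hne : U.Nonempty) (hf : ∀ i, AnalyticOnNhd ℂ (fun z => f z i) U) :
    ∃ η : τ → ℂ, GenInd U f η := by
  classical
  let pr : (X ⊕ τ → ℂ) → X → ℂ := fun u x => u (Sum.inl x)
  let U' : Set (X ⊕ τ → ℂ) := pr ⁻¹' U
  let f' : (X ⊕ τ → ℂ) → σ → ℂ := fun u => f (pr u)
  have hprc : Continuous pr := continuous_pi fun x => continuous_apply _
  have hUo' : IsOpen U' := hUo.preimage hprc
  have hU' : IsPreconnected U' := by
    have h1 := (hU.prod (isPreconnected_univ (α := τ → ℂ))).image (fun zy => (Sum.elim zy.1 zy.2 : X ⊕ τ → ℂ))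
      (Continuous.continuousOn (by
        apply continuous_pi
        rintro (x | t)
        · exact (continuous_apply x).comp continuous_fst
        · exact (continuous_apply t).comp continuous_snd))
    convert h1 using 1
    ext u
    constructor
    · intro hu
      refine ⟨(pr u, fun t => u (Sum.inr t)), ⟨hu, trivial⟩, ?_⟩
      funext j
      rcases j with x | t <;> rfl
    · rintro ⟨⟨z, y⟩, ⟨hz, -⟩, rfl⟩
      exact hz
  have hf' : ∀ i, AnalyticOnNhd ℂ (fun u => f' u i) U' := by
    intro i u hu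
    have h1 : AnalyticAt ℂ pr u :=
      (ContinuousLinearMap.pi fun x : X => ContinuousLinearMap.proj (R := ℂ) (φ := fun _ : X ⊕ τ => ℂ)
        (Sum.inl x)).analyticAt u
    have h2 : AnalyticAt ℂ ((fun z => f z i) ∘ pr) u := AnalyticAt.comp (g := fun z => f z i) (hf i (pr u) hu) h1
    exact h2
  obtain ⟨z0, hz0⟩ := hne
  obtain ⟨u, ⟨-, hu⟩, hvg⟩ := exists_vg hU' hUo' hf' isOpen_univ
    ⟨(Sum.elim z0 fun _ => 0 : X ⊕ τ → ℂ), trivial, hz0⟩
  refine ⟨fun t => u (Sum.inr t), ?_⟩
  intro p hp m z hz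
  let φ : MvPolynomial τ (MvPolynomial σ (MvPolynomial X Qbar)) →+* MvPolynomial ((X ⊕ τ) ⊕ σ) Qbar :=
    MvPolynomial.eval₂Hom (((MvPolynomial.rename (R := Qbar)
      (Sum.map Sum.inl id : X ⊕ σ → (X ⊕ τ) ⊕ σ)).toRingHom).comp (eqv X σ).toRingHom)
      fun t => MvPolynomial.X (Sum.inl (Sum.inr t))
  have hφ : ∀ w : X ⊕ τ → ℂ, MvPolynomial.aeval (Sum.elim w (f' w)) (φ p) =
      MvPolynomial.eval₂ (psz f (pr w)) (fun t => w (Sum.inr t)) p := by
    intro w
    have h1 : ((MvPolynomial.aeval (Sum.elim w (f' w)) : MvPolynomial ((X ⊕ τ) ⊕ σ) Qbar →ₐ[Qbar] ℂ) :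
        MvPolynomial ((X ⊕ τ) ⊕ σ) Qbar →+* ℂ).comp φ =
        MvPolynomial.eval₂Hom (psz f (pr w)) (fun t => w (Sum.inr t)) := by
      apply MvPolynomial.ringHom_ext
      · intro a
        simp only [φ, RingHom.comp_apply, MvPolynomial.eval₂Hom_C]
        change MvPolynomial.aeval (Sum.elim w (f' w)) (MvPolynomial.rename (Sum.map Sum.inl id) (eqv X σ a)) = _
        rw [MvPolynomial.aeval_rename, psz_flat, ← eqv_apply]
        congr 2
        funext j
        rcases j with x | i <;> rfl
      · intro t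
        simp only [φ, RingHom.comp_apply, MvPolynomial.eval₂Hom_X']
        exact MvPolynomial.aeval_X _ _
    exact RingHom.congr_fun h1 p
  have h0 : MvPolynomial.aeval (Sum.elim u (f' u)) (φ p) = 0 := by
    rw [hφ]
    exact hp _ hu
  have h1 := hvg _ h0
  have h2 : MvPolynomial.map (psz f z) p = 0 := by
    apply MvPolynomial.funext
    intro y
    rw [map_zero, MvPolynomial.eval_map]
    have h3 := h1 (Sum.elim z y) hz
    rw [hφ] at h3
    exact h3
  have h3 := congrArg (MvPolynomial.coeff m) h2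
  rw [MvPolynomial.coeff_map, MvPolynomial.coeff_zero] at h3
  exact h3

theorem lin_of_alg {R L τ : Type} [CommRing R] [IsDomain R] [Field L] [Algebra R L] [Fintype τ] (x : τ → L)
    (hx : AlgebraicIndependent R x) (b : τ → L) (hb : ∀ t, IsAlgebraic R (b t)) (hsum : ∑ t, b t * x t = 0) :
    ∀ t, b t = 0 := by
  have hind2 := (hx.extendScalars (Subalgebra.algebraicClosure R L)).linearIndependent
  have h1 := Fintype.linearIndependent_iff.1 hind2 (fun t => ⟨b t, hb t⟩) hsum
  intro t
  exact congrArg Subtype.val (h1 t)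

/-- The constants are linearly independent over the elements algebraic over the ring of the functions. -/
theorem eta_indep {X σ τ L : Type} [Fintype X] [Fintype τ] {U : Set (X → ℂ)} {f : (X → ℂ) → σ → ℂ} (η : τ → ℂ)
    (hη : GenInd U f η) [Field L] [Algebra (MvPolynomial X Qbar) L] (F : σ ⊕ τ → L)
    (hz : ∀ p : MvPolynomial (σ ⊕ τ) (MvPolynomial X Qbar), MvPolynomial.aeval F p = 0 ↔
      ∀ z ∈ U, psz (fun z => (Sum.elim (f z) η : σ ⊕ τ → ℂ)) z p = 0) (b : τ → L)
    (hb : ∀ t, IsAlgebraic (MvPolynomial.aeval (R := MvPolynomial X Qbar) fun i => F (Sum.inl i)).range (b t))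
    (hsum : ∑ t, b t * F (Sum.inr t) = 0) : ∀ t, b t = 0 := by
  classical
  let π0 : MvPolynomial σ (MvPolynomial X Qbar) →ₐ[MvPolynomial X Qbar] L := MvPolynomial.aeval fun i => F (Sum.inl i)
  let J : MvPolynomial τ (MvPolynomial σ (MvPolynomial X Qbar)) →+* MvPolynomial (σ ⊕ τ) (MvPolynomial X Qbar) :=
    MvPolynomial.eval₂Hom (MvPolynomial.rename (R := MvPolynomial X Qbar) (Sum.inl : σ → σ ⊕ τ)).toRingHom
      fun t => MvPolynomial.X (Sum.inr t)
  have hJ : ∀ (M : Type) [CommRing M] (θ : MvPolynomial (σ ⊕ τ) (MvPolynomial X Qbar) →+* M)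
      (p : MvPolynomial τ (MvPolynomial σ (MvPolynomial X Qbar))), θ (J p) =
      MvPolynomial.eval₂ (θ.comp (MvPolynomial.rename (R := MvPolynomial X Qbar) (Sum.inl : σ → σ ⊕ τ)).toRingHom)
        (fun t => θ (MvPolynomial.X (Sum.inr t))) p := by
    intro M _ θ p
    exact MvPolynomial.eval₂_comp_left θ _ _ p
  have hpsz : ∀ z (a : MvPolynomial σ (MvPolynomial X Qbar)),
      psz (fun z => (Sum.elim (f z) η : σ ⊕ τ → ℂ)) z (MvPolynomial.rename Sum.inl a) = psz f z a := by
    intro z a
    have h1 : (psz (fun z => (Sum.elim (f z) η : σ ⊕ τ → ℂ)) z).comp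
        (MvPolynomial.rename (R := MvPolynomial X Qbar) (Sum.inl : σ → σ ⊕ τ)).toRingHom = psz f z := by
      apply MvPolynomial.ringHom_ext
      · intro a
        simp only [RingHom.comp_apply, psz]
        change MvPolynomial.eval₂Hom _ _ (MvPolynomial.map (mC Qbar X) (MvPolynomial.rename Sum.inl
          (MvPolynomial.C a))) = _
        rw [MvPolynomial.rename_C, MvPolynomial.map_C, MvPolynomial.eval₂Hom_C, MvPolynomial.map_C,
          MvPolynomial.eval₂Hom_C]
      · intro i
        simp only [RingHom.comp_apply, psz]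
        change MvPolynomial.eval₂Hom _ _ (MvPolynomial.map (mC Qbar X) (MvPolynomial.rename Sum.inl
          (MvPolynomial.X i))) = _
        rw [MvPolynomial.rename_X, MvPolynomial.map_X, MvPolynomial.eval₂Hom_X', MvPolynomial.map_X,
          MvPolynomial.eval₂Hom_X']
        rfl
    exact RingHom.congr_fun h1 a
  have hπF : ∀ a, MvPolynomial.aeval F (MvPolynomial.rename Sum.inl a) = π0 a := by
    intro a
    rw [MvPolynomial.aeval_rename]
    rfl
  have hind : AlgebraicIndependent π0.range fun t => F (Sum.inr t) := by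
    rw [algebraicIndependent_iff]
    intro p hp
    obtain ⟨p', rfl⟩ := MvPolynomial.map_surjective π0.rangeRestrict.toRingHom
      π0.rangeRestrict_surjective p
    have h1 : (MvPolynomial.aeval F : MvPolynomial (σ ⊕ τ) (MvPolynomial X Qbar) →ₐ[MvPolynomial X Qbar] L) (J p') = 0 := by
      have h2 := hJ L ((MvPolynomial.aeval F : MvPolynomial (σ ⊕ τ) (MvPolynomial X Qbar) →ₐ[MvPolynomial X Qbar] L) :
        _ →+* L) p'
      rw [MvPolynomial.aeval_def, MvPolynomial.eval₂_map] at hp
      refine Eq.trans h2 (Eq.trans ?_ hp)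
      congr 1
      · apply RingHom.ext
        intro a
        exact hπF a
      · funext t
        exact MvPolynomial.aeval_X _ _
    have h2 := (hz _).1 h1
    have h3 : ∀ z ∈ U, MvPolynomial.eval₂ (psz f z) η p' = 0 := by
      intro z hzU
      have h4 := h2 z hzU
      rw [hJ] at h4
      refine Eq.trans ?_ h4
      congr 1
      · apply RingHom.ext
        intro a
        exact (hpsz z a).symm
      · funext t
        simp [psz]
    have h4 := hη p' h3
    ext m
    rw [MvPolynomial.coeff_map, MvPolynomial.coeff_zero]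
    have h5 : π0 (p'.coeff m) = 0 := by
      rw [← hπF, hz]
      intro z hzU
      rw [hpsz]
      exact h4 m z hzU
    exact congrArg Subtype.val (Subtype.ext h5 : (⟨π0 (p'.coeff m), _⟩ : π0.range) = 0)
  exact lin_of_alg _ hind b hb hsum

end Pool.Agent.Run7.h10.QS
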