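import Pool.Agent.Run7.h10.QS.J4
import Pool.Agent.Run7.h10.QS.F1

/-!
# De Rham-Betti classes on the members of a family
-/

set_option autoImplicit false
set_option linter.unusedSectionVars false

open NumberField Filter Topology

namespace Pool.Agent.Run7.h10.QS

open Pool.Agent.Y890.MV Pool.Agent.Y890.SP
open Pool.Agent.Y124 (Cov)

/-- The function `g` satisfies an algebraic equation over the ring of the polynomials with algebraic coefficients. -/
def AlgFun {X : Type} (U : Set (X → ℂ)) (g : (X → ℂ) → ℂ) : Prop :=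
  ∃ p : Polynomial (MvPolynomial X Qbar), p ≠ 0 ∧ ∀ z ∈ U, p.eval₂ (evz z) (g z) = 0

theorem algFun_of {X σ L : Type} {U : Set (X → ℂ)} {f : (X → ℂ) → σ → ℂ} [Field L] [Algebra (MvPolynomial X Qbar) L]
    (F : σ → L) (hz : ∀ p : MvPolynomial σ (MvPolynomial X Qbar), MvPolynomial.aeval F p = 0 ↔ ∀ z ∈ U, psz f z p = 0)
    (r : MvPolynomial σ (MvPolynomial X Qbar)) (hr : IsAlgebraic (MvPolynomial X Qbar) (MvPolynomial.aeval F r : L)) :
    AlgFun U fun z => psz f z r := by
  obtain ⟨p, hp, hp0⟩ := hr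
  refine ⟨p, hp, fun z hzU => ?_⟩
  let θ := (MvPolynomial.aeval F : MvPolynomial σ (MvPolynomial X Qbar) →ₐ[MvPolynomial X Qbar] L).toRingHom
  have h1 : θ (p.eval₂ MvPolynomial.C r) = 0 := by
    rw [Polynomial.hom_eval₂]
    have h3 : θ.comp MvPolynomial.C = algebraMap (MvPolynomial X Qbar) L := by
      apply RingHom.ext
      intro a
      exact MvPolynomial.aeval_C F a
    rw [h3]
    exact hp0
  have h2 := (hz _).1 h1 z hzU
  rw [Polynomial.hom_eval₂, psz_C] at h2
  exact h2

theorem AV.add {A L : Type} [CommRing A] [IsDomain A] [Field L] [CharZero L] [Algebra A L] [FaithfulSMul A L]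
    {ι : Type} [Fintype ι] (P : ι → ι → L) {a b : ι → L} (ha : AV (A := A) P a) (hb : AV (A := A) P b) :
    AV (A := A) P fun j => a j + b j := by
  refine ⟨fun j => (ha.1 j).add (hb.1 j), fun i => ?_⟩
  have h1 : ∑ j, P i j * (a j + b j) = ∑ j, P i j * a j + ∑ j, P i j * b j := by
    rw [← Finset.sum_add_distrib]
    refine Finset.sum_congr rfl fun j _ => ?_
    ring
  rw [h1]
  exact (ha.2 i).add (hb.2 i)

/-- The constant vectors with algebraic products are the common zeros of finitely many linear forms. -/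
theorem exists_forms {A L : Type} [CommRing A] [IsDomain A] [Field L] [CharZero L] [Algebra A L] [FaithfulSMul A L]
    {ι : Type} [Fintype ι] (P : ι → ι → L) {Q : Type} [Field Q] (co : Q →+* L) (hco : ∀ c, IsAlgebraic A (co c)) :
    ∃ (d : ℕ) (lam : Fin d → ι → Q), ∀ v : ι → Q,
      AV (A := A) P (fun j => co (v j)) ↔ ∀ i, ∑ j, lam i j * v j = 0 := by
  classical
  let V0 : Submodule Q (ι → Q) :=
    { carrier := {v | AV (A := A) P fun j => co (v j)}
      add_mem' := by
        intro v w hv hw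
        have h1 := AV.add P hv hw
        simp only [← map_add] at h1
        exact h1
      zero_mem' := by
        refine ⟨fun j => ?_, fun i => ?_⟩
        · simp only [Pi.zero_apply, map_zero]
          exact isAlgebraic_zero
        · simp only [Pi.zero_apply, map_zero, mul_zero, Finset.sum_const_zero]
          exact isAlgebraic_zero
      smul_mem' := by
        intro c v hv
        have h1 := AV.smul P hv (hco c)
        simp only [← map_mul] at h1
        exact h1 }
  let bs := Module.finBasis Q ((ι → Q) ⧸ V0)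
  refine ⟨_, fun i j => (bs.coord i ∘ₗ V0.mkQ) (fun j' => if j = j' then 1 else 0), fun v => ?_⟩
  have h1 : ∀ i, ∑ j, (bs.coord i ∘ₗ V0.mkQ) (fun j' => if j = j' then 1 else 0) * v j = bs.coord i (V0.mkQ v) := by
    intro i
    have h2 := LinearMap.pi_apply_eq_sum_univ (bs.coord i ∘ₗ V0.mkQ) v
    rw [LinearMap.comp_apply] at h2
    rw [h2]
    refine Finset.sum_congr rfl fun j _ => ?_
    rw [smul_eq_mul, mul_comm]
  simp only [h1]
  rw [bs.forall_coord_eq_zero_iff, Submodule.mkQ_apply, Submodule.Quotient.mk_eq_zero]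
  rfl

section cov
variable {X : Type} {k : ℕ} {ε : ℝ}

/-- the sets of points are covered by few hypersurfaces, for number fields of degree at most `k` -/
def CovS (k : ℕ) (ε : ℝ) (E : (K : Type) → [Field K] → [NumberField K] → (K →+* ℂ) → ℝ → Set (X → K)) : Prop :=
  ∃ (D : ℕ) (C T₀ : ℝ), 0 ≤ C ∧ 2 ≤ T₀ ∧
    ∀ (K : Type) [Field K] [NumberField K], Module.finrank ℚ K ≤ k → ∀ (io : K →+* ℂ) (T : ℝ),
      T₀ ≤ T → Cov D ⌊C * T ^ ε⌋₊ ((fun (s : X → K) i => io (s i)) '' E K io T)

theorem CovS.mono {E E' : (K : Type) → [Field K] → [NumberField K] → (K →+* ℂ) → ℝ → Set (X → K)} (h : CovS k ε E)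
    (hs : ∀ (K : Type) [Field K] [NumberField K] (io : K →+* ℂ) (T : ℝ), E' K io T ⊆ E K io T) : CovS k ε E' := by
  obtain ⟨D, C, T₀, hC, hT₀, H⟩ := h
  exact ⟨D, C, T₀, hC, hT₀, fun K _ _ hm io T hT => (H K hm io T hT).mono le_rfl le_rfl
    (Set.image_mono (hs K io T))⟩

theorem CovS.iUnion {J : Type} [Fintype J]
    (E : J → (K : Type) → [Field K] → [NumberField K] → (K →+* ℂ) → ℝ → Set (X → K)) (h : ∀ j, CovS k ε (E j)) :
    CovS k ε fun K _ _ io T => ⋃ j, E j K io T := by
  classical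
  choose DD CC TT hCC hTT HH using h
  refine ⟨∑ i, DD i, Fintype.card J * ∑ i, CC i, ∑ i, TT i + 2,
    mul_nonneg (Nat.cast_nonneg _) (Finset.sum_nonneg fun i _ => hCC i), ?_, ?_⟩
  · have h1 : 0 ≤ ∑ i, TT i := Finset.sum_nonneg fun i _ => by linarith [hTT i]
    linarith
  · intro K _ _ hm io T hT
    have hTi : ∀ i, TT i ≤ T := by
      intro i
      have h1 : TT i ≤ ∑ i, TT i := Finset.single_le_sum (f := TT) (fun j _ => by linarith [hTT j]) (Finset.mem_univ i)
      linarith
    have hT0 : 0 < T := by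
      have h1 : 0 ≤ ∑ i, TT i := Finset.sum_nonneg fun i _ => by linarith [hTT i]
      linarith
    have hTε : 0 ≤ T ^ ε := (Real.rpow_pos_of_pos hT0 ε).le
    have hcov := Cov.biUnion (D := ∑ i, DD i) (m := ⌊(∑ i, CC i) * T ^ ε⌋₊) (Finset.univ : Finset J) _
      (fun i _ => (HH i K hm io T (hTi i)).mono
        (Finset.single_le_sum (f := DD) (fun _ _ => Nat.zero_le _) (Finset.mem_univ i))
        (Nat.floor_le_floor (mul_le_mul_of_nonneg_right
          (Finset.single_le_sum (f := CC) (fun j _ => hCC j) (Finset.mem_univ i)) hTε)) (Set.Subset.refl _))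
    refine hcov.mono le_rfl ?_ ?_
    · rw [Finset.card_univ]
      apply Nat.le_floor
      push_cast
      have h1 : ((⌊(∑ i, CC i) * T ^ ε⌋₊ : ℕ) : ℝ) ≤ (∑ i, CC i) * T ^ ε :=
        Nat.floor_le (mul_nonneg (Finset.sum_nonneg fun i _ => hCC i) hTε)
      calc (Fintype.card J : ℝ) * (⌊(∑ i, CC i) * T ^ ε⌋₊ : ℕ) ≤ Fintype.card J * ((∑ i, CC i) * T ^ ε) :=
            mul_le_mul_of_nonneg_left h1 (Nat.cast_nonneg _)
        _ = _ := by ring
    · rintro _ ⟨s, hs, rfl⟩
      obtain ⟨i, hi⟩ := Set.mem_iUnion.1 hs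
      exact Set.mem_iUnion₂.2 ⟨i, Finset.mem_univ i, s, hi, rfl⟩

end cov

section few
variable {X : Type} [Fintype X] [DecidableEq X] [Nonempty X] {ι : Type} [Fintype ι] [DecidableEq ι]
  {U : Set (X → ℂ)}

/-- **The theorem of Noether and Lefschetz for de Rham-Betti classes.** -/
theorem drb_cov (hU : IsPreconnected U) (hUo : IsOpen U) (hne : U.Nonempty) {P : (X → ℂ) → ι → ι → ℂ}
    (hP : ∀ i j, AnalyticOnNhd ℂ (fun z => P z i j) U)
    (q : X → MvPolynomial X Qbar) (hq : ∀ x, q x ≠ 0) (b : X → ι → ι → MvPolynomial X Qbar)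
    (hb : ∀ x i j, ∀ z ∈ U, evz z (q x) * fderiv ℂ (fun z => P z i j) z (Pi.single x 1) =
      ∑ k, evz z (b x i k) * P z k j) :
    ∀ (k : ℕ) (ε : ℝ), 0 < k → 0 < ε → CovS k ε fun K _ _ io T =>
      {s : X → K | s ∈ Points K U io k T ∧ ∃ v w : ι → 𝓞 K,
      (∀ j (φ : K →+* ℂ), ‖φ (v j : K)‖ ≤ T ^ k) ∧ (∀ j (φ : K →+* ℂ), ‖φ (w j : K)‖ ≤ T ^ k) ∧
      (∀ i, ∑ j, P (fun x => io (s x)) i j * io (v j : K) = io (w i : K)) ∧
      ¬ ∀ i, AlgFun U fun z => ∑ j, P z i j * io (v j : K)} := by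
  classical
  let f : (X → ℂ) → (ι × ι) → ℂ := fun z ij => P z ij.1 ij.2
  have hf : ∀ ij, AnalyticOnNhd ℂ (fun z => f z ij) U := fun ij => hP ij.1 ij.2
  obtain ⟨η, hη⟩ := exists_eta (τ := ι) hU hUo hne hf
  let f' : (X → ℂ) → (ι × ι) ⊕ ι → ℂ := fun z => Sum.elim (f z) η
  have hf' : ∀ o, AnalyticOnNhd ℂ (fun z => f' z o) U := by
    rintro (ij | i)
    · exact hf ij
    · exact fun z _ => analyticAt_const
  obtain ⟨L, _, _, _, F, hz, hfrac⟩ := exists_fieldQ Qbar (f := fun o z => f' z o) hU hUo hne hf'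
  have hcA : CharZero (MvPolynomial X Qbar) := inferInstance
  have hcL : CharZero L :=
    ((algebraMap (MvPolynomial X Qbar) L).charZero_iff (FaithfulSMul.algebraMap_injective _ L)).1 hcA
  have hinj : Function.Injective (algebraMap (MvPolynomial X Qbar) L) := FaithfulSMul.algebraMap_injective _ L
  have hz' : ∀ p : MvPolynomial ((ι × ι) ⊕ ι) (MvPolynomial X Qbar), MvPolynomial.aeval F p = 0 ↔
      ∀ z ∈ U, psz f' z p = 0 := hz
  -- the derivations
  let G : X → (ι × ι) ⊕ ι → MvPolynomial (X ⊕ ((ι × ι) ⊕ ι)) Qbar := fun x =>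
    Sum.elim (fun ij => ∑ k, MvPolynomial.rename Sum.inl (b x ij.1 k) *
      MvPolynomial.X (Sum.inr (Sum.inl (k, ij.2)))) fun _ => 0
  have hG : ∀ x o, ∀ z ∈ U, evz z (q x) * fderiv ℂ (fun z => f' z o) z (Pi.single x 1) =
      MvPolynomial.aeval (Sum.elim z (f' z)) (G x o) := by
    rintro x (ij | i) z hzU
    · have h1 : MvPolynomial.aeval (Sum.elim z (f' z)) (G x (Sum.inl ij)) = ∑ k, evz z (b x ij.1 k) * P z k ij.2 := by
        simp only [G, Sum.elim_inl, map_sum, map_mul, aeval_inl, MvPolynomial.aeval_X, Sum.elim_inr]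
        rfl
      rw [h1]
      exact hb x ij.1 ij.2 z hzU
    · have h1 : (fun z => f' z (Sum.inr i)) = fun _ => η i := rfl
      rw [h1, fderiv_fun_const]
      simp [G]
  obtain ⟨D, hD1, hD2, hD3, hD4, hD5⟩ := exists_ders hU hUo hf' q hq G hG F hz' hfrac
  let PL : ι → ι → L := fun i j => F (Sum.inl (i, j))
  let BL : X → ι → ι → L := fun x i k => algebraMap (MvPolynomial X Qbar) L (b x i k)
  have hPL : ∀ x i j, D x (PL i j) = ∑ k, BL x i k * PL k j := by
    intro x i j
    have h1 : G x (Sum.inl (i, j)) = eqv X _ (∑ k, MvPolynomial.C (b x i k) * MvPolynomial.X (Sum.inl (k, j))) := by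
      simp only [map_sum, map_mul, eqv_C, eqv_X]
      rfl
    rw [hD4, h1, RingEquiv.symm_apply_apply, map_sum]
    refine Finset.sum_congr rfl fun k _ => ?_
    rw [map_mul, MvPolynomial.aeval_C, MvPolynomial.aeval_X]
  let co : Qbar →+* L := (algebraMap (MvPolynomial X Qbar) L).comp MvPolynomial.C
  have hco : ∀ c, IsAlgebraic (MvPolynomial X Qbar) (co c) := fun c => isAlgebraic_algebraMap _
  obtain ⟨d, lam, hlam⟩ := exists_forms (A := MvPolynomial X Qbar) PL co hco
  have hforms : ∀ i (a : ι → L), AV (A := MvPolynomial X Qbar) PL a → ∑ j, co (lam i j) * a j = 0 := by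
    intro i a ha
    exact forms_zero PL D hD1 hD2 hD3 BL (fun x i k => isAlgebraic_algebraMap _) hPL co hco
      (fun l hl h0 => hD5 l hl h0) (lam i) (fun v hv => (hlam v).1 hv i) _ a ha rfl
  -- the linear form
  let lm : ι ⊕ ι → MvPolynomial ((ι × ι) ⊕ ι) (MvPolynomial X Qbar) :=
    Sum.elim (fun j => ∑ i, MvPolynomial.X (Sum.inr i) * MvPolynomial.X (Sum.inl (i, j)))
      fun i => -MvPolynomial.X (Sum.inr i)
  let lamP : Fin d → MvPolynomial (ι ⊕ ι) (MvPolynomial X Qbar) := fun i =>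
    ∑ j, MvPolynomial.C (MvPolynomial.C (lam i j)) * MvPolynomial.X (Sum.inl j)
  have hsli : ∀ i, SLIp (MvPolynomial X Qbar) (fun l => MvPolynomial.aeval F (lm l)) (lamP i) := by
    intro i E _ Φ c hc hsum
    obtain ⟨m, t, a, h1, h2, h3⟩ := sli_comb' E Φ c hc
    have h4 := h3 (fun l => MvPolynomial.aeval F (lm l)) hsum
    have hav : ∀ i', AV (A := MvPolynomial X Qbar) PL fun j => a i' (Sum.inl j) := by
      intro i'
      have h5 := h4 i'
      rw [Fintype.sum_sum_type] at h5
      simp only [lm, Sum.elim_inl, Sum.elim_inr, map_sum, map_mul, map_neg, MvPolynomial.aeval_X] at h5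
      have h6 : ∑ k, (∑ j, PL k j * a i' (Sum.inl j) - a i' (Sum.inr k)) * F (Sum.inr k) = 0 := by
        rw [← h5]
        simp only [sub_mul, Finset.sum_sub_distrib, Finset.sum_mul, Finset.mul_sum, mul_neg, Finset.sum_neg_distrib]
        rw [Finset.sum_comm, sub_eq_add_neg]
        congr 1
        refine Finset.sum_congr rfl fun j _ => Finset.sum_congr rfl fun k _ => ?_
        ring
      have hR : ∀ l : L, IsAlgebraic (MvPolynomial X Qbar) l →
          IsAlgebraic (MvPolynomial.aeval (R := MvPolynomial X Qbar) fun i => F (Sum.inl i)).range l := by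
        intro l hl
        exact hl.extendScalars (fun x y hxy => hinj (congrArg Subtype.val hxy))
      have h7 := eta_indep η hη F hz' _ (fun k => by
        refine IsAlgebraic.sub ?_ (hR _ (h1 i' (Sum.inr k)))
        refine isAlg_sum _ _ fun j => IsAlgebraic.mul ?_ (hR _ (h1 i' (Sum.inl j)))
        exact isAlgebraic_algebraMap (R := (MvPolynomial.aeval (R := MvPolynomial X Qbar)
          fun i => F (Sum.inl i)).range) ⟨PL k j, ⟨MvPolynomial.X (k, j), MvPolynomial.aeval_X _ _⟩⟩) h6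
      refine ⟨fun j => h1 i' _, fun k => ?_⟩
      rw [sub_eq_zero.1 (h7 k)]
      exact h1 i' _
    have h8 : MvPolynomial.eval₂ (Φ.comp (algebraMap (MvPolynomial X Qbar) L)) c (lamP i) =
        ∑ j, Φ (co (lam i j)) * c (Sum.inl j) := by
      simp only [lamP, MvPolynomial.eval₂_sum, MvPolynomial.eval₂_mul, MvPolynomial.eval₂_C, MvPolynomial.eval₂_X]
      rfl
    rw [h8]
    have h9 : ∀ i', ∑ j, Φ (co (lam i j)) * (t i' * Φ (a i' (Sum.inl j))) = 0 := by
      intro i'
      have h10 := congrArg Φ (hforms i _ (hav i'))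
      rw [map_sum, map_zero] at h10
      have h11 : ∑ j, Φ (co (lam i j)) * (t i' * Φ (a i' (Sum.inl j))) =
          t i' * ∑ j, Φ (co (lam i j) * a i' (Sum.inl j)) := by
        rw [Finset.mul_sum]
        refine Finset.sum_congr rfl fun j _ => ?_
        rw [map_mul]
        ring
      rw [h11, h10, mul_zero]
    simp only [h2, Finset.mul_sum]
    rw [Finset.sum_comm]
    exact Finset.sum_eq_zero fun i' _ => h9 i'
  -- the count
  intro k ε hk hε
  have H := fun i : Fin d => linQ2 allAlg_Qbar hU hUo hne hf' F hz hfrac lm (lamP i) (hsli i)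
      (InnerM U k) (innerM_compact _ _) (innerM_sub _ hk) k k ε hε
  refine (CovS.iUnion _ H).mono ?_
  intro K _ _ io T
  · rintro s ⟨⟨hs1, hs2⟩, v, w, hv, hw, hrel, hnot⟩
    choose v' hv' using fun j => allAlg_Qbar K io (v j : K)
    have hex : ∃ i, ∑ j, lam i j * v' j ≠ 0 := by
      by_contra hcon
      push Not at hcon
      apply hnot
      intro i
      have h1 := ((hlam v').2 hcon).2 i
      have h2 := algFun_of F hz' (∑ j, MvPolynomial.X (Sum.inl (i, j)) * MvPolynomial.C (MvPolynomial.C (v' j))) (by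
        rw [map_sum]
        simp only [map_mul, MvPolynomial.aeval_X, MvPolynomial.aeval_C]
        exact h1)
      convert h2 using 2 with z
      rw [map_sum]
      refine Finset.sum_congr rfl fun j _ => ?_
      rw [map_mul, ← hv' j]
      congr 1
      · simp [psz, f', f]
      · have h3 := RingHom.congr_fun (psz_C f' z) (MvPolynomial.C (v' j))
        rw [RingHom.comp_apply, evz_C] at h3
        exact h3.symm
    obtain ⟨i, hi⟩ := hex
    refine Set.mem_iUnion.2 ⟨i, hs1, hs2, Sum.elim v w, ?_, ?_, ?_⟩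
    · have h1 : MvPolynomial.eval₂ ((MvPolynomial.eval fun i => io (s i)).comp (mC Qbar X))
          (fun l => io ((Sum.elim v w l : 𝓞 K) : K)) (lamP i) = ((∑ j, lam i j * v' j : Qbar) : ℂ) := by
        simp only [lamP, MvPolynomial.eval₂_sum, MvPolynomial.eval₂_mul, MvPolynomial.eval₂_C,
          MvPolynomial.eval₂_X, Sum.elim_inl]
        have h2 : ((∑ j, lam i j * v' j : Qbar) : ℂ) = algebraMap Qbar ℂ (∑ j, lam i j * v' j) := rfl
        rw [h2, map_sum]
        refine Finset.sum_congr rfl fun j _ => ?_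
        rw [map_mul, hv' j]
        congr 1
        exact evz_C _ _
      rw [h1]
      intro h0
      exact hi (Subtype.ext h0)
    · rintro (j | j) φ
      · rw [Real.rpow_natCast]
        exact hv j φ
      · rw [Real.rpow_natCast]
        exact hw j φ
    · change ∑ l, io ((Sum.elim v w l : 𝓞 K) : K) * psz f' (fun i => io (s i)) (lm l) = 0
      rw [Fintype.sum_sum_type]
      have hX : ∀ o, psz f' (fun i => io (s i)) (MvPolynomial.X o) = f' (fun i => io (s i)) o := by
        intro o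
        simp [psz]
      simp only [lm, Sum.elim_inl, Sum.elim_inr, map_sum, map_mul, map_neg, hX]
      have h1 : ∀ i, f' (fun i => io (s i)) (Sum.inr i) = η i := fun i => rfl
      have h2 : ∀ i j, f' (fun i => io (s i)) (Sum.inl (i, j)) = P (fun i => io (s i)) i j := fun i j => rfl
      simp only [h1, h2, mul_neg, Finset.sum_neg_distrib, Finset.mul_sum]
      rw [Finset.sum_comm, ← sub_eq_add_neg, ← Finset.sum_sub_distrib]
      refine Finset.sum_eq_zero fun i _ => ?_
      rw [← hrel i, Finset.sum_mul, ← Finset.sum_sub_distrib]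
      refine Finset.sum_eq_zero fun j _ => ?_
      ring

/-- **The theorem of Noether and Lefschetz for de Rham-Betti classes.** -/
theorem drb_few (hU : IsPreconnected U) (hUo : IsOpen U) (hne : U.Nonempty) {P : (X → ℂ) → ι → ι → ℂ}
    (hP : ∀ i j, AnalyticOnNhd ℂ (fun z => P z i j) U)
    (q : X → MvPolynomial X Qbar) (hq : ∀ x, q x ≠ 0) (b : X → ι → ι → MvPolynomial X Qbar)
    (hb : ∀ x i j, ∀ z ∈ U, evz z (q x) * fderiv ℂ (fun z => P z i j) z (Pi.single x 1) =
      ∑ k, evz z (b x i k) * P z k j) :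
    Few fun K _ _ io k T => {s : X → K | s ∈ Points K U io k T ∧ ∃ v w : ι → 𝓞 K,
      (∀ j (φ : K →+* ℂ), ‖φ (v j : K)‖ ≤ T ^ k) ∧ (∀ j (φ : K →+* ℂ), ‖φ (w j : K)‖ ≤ T ^ k) ∧
      (∀ i, ∑ j, P (fun x => io (s x)) i j * io (v j : K) = io (w i : K)) ∧
      ¬ ∀ i, AlgFun U fun z => ∑ j, P z i j * io (v j : K)} := by
  apply few_conv
  refine N207.GS.few_of _ (fun K _ _ io m ξ T s hs => hs.1.1) fun k ε hk hε => ?_
  obtain ⟨D, C, T₀, hC, hT₀, H⟩ := drb_cov hU hUo hne hP q hq b hb k ε hk hε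
  exact ⟨D, C, T₀, hC, hT₀, fun K _ _ hm io _ T hT => H K hm io T hT⟩

end few

end Pool.Agent.Run7.h10.QS
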