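import Pool.Agent.Run7.h10.QS.J5

/-!
# Values of algebraic functions at algebraic points
-/

set_option autoImplicit false
set_option linter.unusedSectionVars false

open NumberField Filter Topology

namespace Pool.Agent.Run7.h10.QS

open Pool.Agent.Y890.MV Pool.Agent.Y890.SP

/-- evaluation of the coefficients -/
noncomputable def evt (t : ℂ) : Polynomial Qbar →+* ℂ := Polynomial.eval₂RingHom (algebraMap Qbar ℂ) t

theorem evt_cont (p : Polynomial Qbar) : Continuous fun t => evt t p := by
  have h1 : (fun t => evt t p) = fun t => (p.map (algebraMap Qbar ℂ)).eval t := by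
    funext t
    rw [Polynomial.eval_map]
    rfl
  rw [h1]
  exact Polynomial.continuous _

theorem val0 (h : ℂ → ℂ) (hc : ContinuousAt h 0) : ∀ (N : ℕ) (q : Polynomial (Polynomial Qbar)), q ≠ 0 →
    q.leadingCoeff.natDegree = N → (∀ᶠ t in 𝓝 (0 : ℂ), q.eval₂ (evt t) (h t) = 0) → IsAlgebraic ℚ (h 0) := by
  intro N
  induction N with
  | zero =>
    intro q hq hN hev
    have h0 := hev.self_of_nhds
    have h1 : IsAlgebraic Qbar (h 0) := by
      refine ⟨q.map ((Polynomial.evalRingHom (0 : Qbar))), ?_, ?_⟩
      · intro h2
        have h3 := congrArg (fun p => Polynomial.coeff p q.natDegree) h2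
        simp only [Polynomial.coeff_map, Polynomial.coeff_natDegree, Polynomial.coeff_zero] at h3
        have h4 := Polynomial.eq_C_of_natDegree_eq_zero hN
        rw [h4] at h3
        simp only [Polynomial.coe_evalRingHom, Polynomial.eval_C] at h3
        apply Polynomial.leadingCoeff_ne_zero.2 hq
        rw [h4, h3, Polynomial.C_0]
      · rw [Polynomial.aeval_def, Polynomial.eval₂_map]
        have h2 : (algebraMap Qbar ℂ).comp (Polynomial.evalRingHom (0 : Qbar)) = evt 0 := by
          apply Polynomial.ringHom_ext
          · intro a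
            simp [evt]
          · simp [evt]
        rw [h2]
        exact h0
    have h2 : Algebra.IsAlgebraic ℚ Qbar := algebraicClosure.isAlgebraic ℚ ℂ
    exact h1.restrictScalars ℚ
  | succ N ih =>
    intro q hq hN hev
    by_cases hall : ∀ i, Polynomial.X ∣ q.coeff i
    · obtain ⟨q1, hq1⟩ := (Polynomial.C_dvd_iff_dvd_coeff _ _).2 hall
      have hq10 : q1 ≠ 0 := by
        rintro rfl
        rw [mul_zero] at hq1
        exact hq hq1
      have hlc : q.leadingCoeff = Polynomial.X * q1.leadingCoeff := by
        rw [hq1, Polynomial.leadingCoeff_mul, Polynomial.leadingCoeff_C]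
      refine ih q1 hq10 ?_ ?_
      · rw [hlc, Polynomial.natDegree_X_mul (Polynomial.leadingCoeff_ne_zero.2 hq10)] at hN
        omega
      · have hw : ContinuousAt (fun t => q1.eval₂ (evt t) (h t)) 0 := by
          simp only [Polynomial.eval₂_eq_sum_range]
          apply tendsto_finsetSum
          intro i _
          exact ((evt_cont _).continuousAt).mul (hc.pow i)
        have h1 : ∀ᶠ t in 𝓝 (0 : ℂ), t * q1.eval₂ (evt t) (h t) = 0 := by
          filter_upwards [hev] with t ht
          rw [hq1, Polynomial.eval₂_mul, Polynomial.eval₂_C] at ht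
          have h2 : evt t Polynomial.X = t := by simp [evt]
          rw [h2] at ht
          exact ht
        have h2 : ∀ᶠ t in 𝓝[≠] (0 : ℂ), q1.eval₂ (evt t) (h t) = 0 := by
          filter_upwards [h1.filter_mono nhdsWithin_le_nhds, self_mem_nhdsWithin] with t ht ht0
          exact (mul_eq_zero.1 ht).resolve_left ht0
        have h3 : q1.eval₂ (evt 0) (h 0) = 0 := by
          have h4 : Tendsto (fun t => q1.eval₂ (evt t) (h t)) (𝓝[≠] (0 : ℂ)) (𝓝 (q1.eval₂ (evt 0) (h 0))) :=
            hw.tendsto.mono_left nhdsWithin_le_nhds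
          have h5 : Tendsto (fun t => q1.eval₂ (evt t) (h t)) (𝓝[≠] (0 : ℂ)) (𝓝 0) :=
            (tendsto_const_nhds).congr' (by
              filter_upwards [h2] with t ht
              exact ht.symm)
          exact tendsto_nhds_unique h4 h5
        rw [eventually_nhdsWithin_iff] at h2
        filter_upwards [h2] with t ht
        by_cases ht0 : t = 0
        · rw [ht0]
          exact h3
        · exact ht ht0
    · push Not at hall
      obtain ⟨i, hi⟩ := hall
      have h0 := hev.self_of_nhds
      have h1 : IsAlgebraic Qbar (h 0) := by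
        refine ⟨q.map ((Polynomial.evalRingHom (0 : Qbar))), ?_, ?_⟩
        · intro h2
          have h3 := congrArg (fun p => Polynomial.coeff p i) h2
          simp only [Polynomial.coeff_map, Polynomial.coeff_zero, Polynomial.coe_evalRingHom] at h3
          apply hi
          rw [Polynomial.X_dvd_iff, Polynomial.coeff_zero_eq_eval_zero]
          exact h3
        · rw [Polynomial.aeval_def, Polynomial.eval₂_map]
          have h2 : (algebraMap Qbar ℂ).comp (Polynomial.evalRingHom (0 : Qbar)) = evt 0 := by
            apply Polynomial.ringHom_ext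
            · intro a
              simp [evt]
            · simp [evt]
          rw [h2]
          exact h0
      have h2 : Algebra.IsAlgebraic ℚ Qbar := algebraicClosure.isAlgebraic ℚ ℂ
      exact h1.restrictScalars ℚ

/-- An algebraic function has algebraic values at algebraic points. -/
theorem algFun_value {X : Type} [Fintype X] {U : Set (X → ℂ)} (hUo : IsOpen U) {g : (X → ℂ) → ℂ}
    (hg : ContinuousOn g U) (h : AlgFun U g) (z : X → ℂ) (hz : z ∈ U) (ha : ∀ x, IsAlgebraic ℚ (z x)) :
    IsAlgebraic ℚ (g z) := by
  classical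
  obtain ⟨p, hp, hp0⟩ := h
  let z' : X → Qbar := fun x => ⟨z x, mem_algebraicClosure_iff.2 (ha x)⟩
  -- a good direction
  have hlc : p.leadingCoeff ≠ 0 := Polynomial.leadingCoeff_ne_zero.2 hp
  have hex : ∃ w : X → ℂ, evz w p.leadingCoeff ≠ 0 := by
    by_contra hcon
    push Not at hcon
    apply hlc
    apply mC_inj Qbar X
    rw [map_zero]
    exact poly_zero isOpen_univ ⟨0, trivial⟩ _ fun z _ => hcon z
  obtain ⟨w, hw⟩ := hex
  have hcont : Continuous fun z : X → ℂ => evz z p.leadingCoeff :=
    MvPolynomial.continuous_eval (mC Qbar X p.leadingCoeff)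
  obtain ⟨v, hv⟩ := dense_alg.exists_mem_open (isOpen_compl_singleton.preimage hcont :
    IsOpen {z : X → ℂ | evz z p.leadingCoeff ≠ 0}) ⟨w, hw⟩
  -- the line
  let ψ : MvPolynomial X Qbar →+* Polynomial Qbar :=
    MvPolynomial.eval₂Hom Polynomial.C fun x => Polynomial.C (z' x) + Polynomial.X * Polynomial.C (v x - z' x)
  let γ : ℂ → X → ℂ := fun t x => z x + t * ((v x : ℂ) - z x)
  have hψ : ∀ t, (evt t).comp ψ = evz (γ t) := by
    intro t
    apply MvPolynomial.ringHom_ext
    · intro a
      rw [RingHom.comp_apply, MvPolynomial.eval₂Hom_C, evz_C]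
      simp only [evt, Polynomial.coe_eval₂RingHom, Polynomial.eval₂_C]
      rfl
    · intro x
      rw [RingHom.comp_apply, MvPolynomial.eval₂Hom_X', evz_X]
      simp only [evt, map_add, map_mul, Polynomial.coe_eval₂RingHom, Polynomial.eval₂_C, Polynomial.eval₂_X, map_sub]
      rfl
  have hγc : Continuous γ := by
    apply continuous_pi
    intro x
    exact continuous_const.add (continuous_id.mul continuous_const)
  have hγ0 : γ 0 = z := by
    funext x
    simp [γ]
  have hγ1 : γ 1 = fun x => (v x : ℂ) := by
    funext x
    simp [γ]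
  have hq : p.map ψ ≠ 0 := by
    intro h0
    have h1 := congrArg (fun p' => Polynomial.coeff p' p.natDegree) h0
    simp only [Polynomial.coeff_map, Polynomial.coeff_natDegree, Polynomial.coeff_zero] at h1
    have h2 := congrArg (evt 1) h1
    rw [← RingHom.comp_apply, hψ, hγ1, map_zero] at h2
    exact hv h2
  have hca : ContinuousAt (fun t => g (γ t)) 0 := by
    have h1 : ContinuousAt g (γ 0) := by
      rw [hγ0]
      exact hg.continuousAt (hUo.mem_nhds hz)
    exact ContinuousAt.comp (f := γ) (g := g) h1 hγc.continuousAt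
  have h1 := val0 (fun t => g (γ t)) hca _ (p.map ψ) hq rfl (by
    have h2 : Tendsto γ (𝓝 0) (𝓝 z) := by
      have h3 := hγc.tendsto 0
      rw [hγ0] at h3
      exact h3
    filter_upwards [h2.eventually (hUo.mem_nhds hz)] with t ht
    rw [Polynomial.eval₂_map, hψ]
    exact hp0 _ ht)
  simp only [hγ0] at h1
  exact h1

end Pool.Agent.Run7.h10.QS
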