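import Pool.Agent.Run7.h10.QS.J6

/-!
# Global de Rham-Betti classes
-/

set_option autoImplicit false
set_option linter.unusedSectionVars false

open NumberField Filter Topology

namespace Pool.Agent.Run7.h10.QS

open Pool.Agent.Y890.MV Pool.Agent.Y890.SP

theorem few_mono {X : Type} [Fintype X]
    {E E' : (K : Type) → [Field K] → [NumberField K] → (K →+* ℂ) → ℕ → ℝ → Set (X → K)}
    (h : Few E)
    (hs : ∀ (K : Type) [Field K] [NumberField K] (io : K →+* ℂ) (k : ℕ) (T : ℝ), E' K io k T ⊆ E K io k T) :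
    Few E' := by
  obtain ⟨ω, T₀, h1, h2, h3⟩ := h
  refine ⟨ω, T₀, h1, h2, fun T hT => ⟨(h3 T hT).1, fun K _ _ hK io => ?_⟩⟩
  obtain ⟨h4, h5, h6⟩ := (h3 T hT).2 K hK io
  refine ⟨h4.mono le_rfl le_rfl (Set.image_mono (hs K io _ T)), h5.subset (hs K io _ T), le_trans ?_ h6⟩
  exact_mod_cast Set.ncard_le_ncard (hs K io _ T) h5

theorem sum_an {X : Type} [Fintype X] {ι : Type} [Fintype ι] {U : Set (X → ℂ)} {P : (X → ℂ) → ι → ι → ℂ}
    (hP : ∀ i j, AnalyticOnNhd ℂ (fun z => P z i j) U) (v : ι → ℂ) (i : ι) :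
    ContinuousOn (fun z => ∑ j, P z i j * v j) U := by
  apply continuousOn_finsetSum
  intro j _
  exact (hP i j).continuousOn.mul continuousOn_const

end Pool.Agent.Run7.h10.QS
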