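import Pool.Agent.Run7.h10.QS.J7

/-!
# De Rham-Betti classes on all the tensor spaces
-/

set_option autoImplicit false
set_option linter.unusedSectionVars false

open NumberField Filter Topology

namespace Pool.Agent.Run7.h10.QS

open Pool.Agent.Y890.MV Pool.Agent.Y890.SP

section flat
variable {X : Type} [Fintype X] [DecidableEq X] {U : Set (X → ℂ)} {q : X → MvPolynomial X Qbar}
  {ι κ : Type} [Fintype ι] [Fintype κ] [DecidableEq ι] [DecidableEq κ]

/-- families of matrices which are flat for a connection with the denominators `q x` -/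
def FlatOn (U : Set (X → ℂ)) (q : X → MvPolynomial X Qbar) (P : (X → ℂ) → ι → ι → ℂ) : Prop :=
  (∀ i j, AnalyticOnNhd ℂ (fun z => P z i j) U) ∧
  ∃ b : X → ι → ι → MvPolynomial X Qbar, ∀ x i j, ∀ z ∈ U,
    evz z (q x) * fderiv ℂ (fun z => P z i j) z (Pi.single x 1) = ∑ k, evz z (b x i k) * P z k j

theorem FlatOn.tensor {P : (X → ℂ) → ι → ι → ℂ} {R : (X → ℂ) → κ → κ → ℂ} (hP : FlatOn U q P) (hR : FlatOn U q R) :
    FlatOn U q fun z (r c : ι × κ) => P z r.1 c.1 * R z r.2 c.2 := by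
  obtain ⟨hPa, bP, hbP⟩ := hP
  obtain ⟨hRa, bR, hbR⟩ := hR
  refine ⟨fun r c => (hPa _ _).mul (hRa _ _), fun x r k => (if r.2 = k.2 then bP x r.1 k.1 else 0) +
    if r.1 = k.1 then bR x r.2 k.2 else 0, ?_⟩
  rintro x ⟨r1, r2⟩ ⟨c1, c2⟩ z hz
  simp only
  rw [fderiv_fun_mul (hPa r1 c1 z hz).differentiableAt (hRa r2 c2 z hz).differentiableAt]
  simp only [add_apply, smul_apply, smul_eq_mul, map_add, add_mul, Finset.sum_add_distrib]
  have h1 : ∑ k : ι × κ, evz z (if r2 = k.2 then bP x r1 k.1 else 0) * (P z k.1 c1 * R z k.2 c2) =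
      R z r2 c2 * ∑ k, evz z (bP x r1 k) * P z k c1 := by
    rw [Fintype.sum_prod_type, Finset.mul_sum]
    refine Finset.sum_congr rfl fun k1 _ => ?_
    rw [Finset.sum_eq_single r2]
    · rw [if_pos rfl]
      ring
    · intro k2 _ hk
      rw [if_neg (Ne.symm hk), map_zero, zero_mul]
    · intro h
      exact absurd (Finset.mem_univ _) h
  have h2 : ∑ k : ι × κ, evz z (if r1 = k.1 then bR x r2 k.2 else 0) * (P z k.1 c1 * R z k.2 c2) =
      P z r1 c1 * ∑ k, evz z (bR x r2 k) * R z k c2 := by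
    rw [Fintype.sum_prod_type, Finset.sum_eq_single r1]
    · rw [Finset.mul_sum]
      refine Finset.sum_congr rfl fun k2 _ => ?_
      rw [if_pos rfl]
      ring
    · intro k1 _ hk
      refine Finset.sum_eq_zero fun k2 _ => ?_
      rw [if_neg (Ne.symm hk), map_zero, zero_mul]
    · intro h
      exact absurd (Finset.mem_univ _) h
  rw [h1, h2, ← hbP x r1 c1 z hz, ← hbR x r2 c2 z hz]
  ring

theorem FlatOn.reindex {P : (X → ℂ) → ι → ι → ℂ} (hP : FlatOn U q P) (e : κ ≃ ι) :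
    FlatOn U q fun z r c => P z (e r) (e c) := by
  obtain ⟨hPa, bP, hbP⟩ := hP
  refine ⟨fun r c => hPa _ _, fun x r k => bP x (e r) (e k), ?_⟩
  intro x r c z hz
  rw [hbP x (e r) (e c) z hz]
  exact (Equiv.sum_comp e fun k => evz z (bP x (e r) k) * P z k (e c)).symm

theorem FlatOn.pow {P : (X → ℂ) → ι → ι → ℂ} (hP : FlatOn U q P) (a : ℕ) :
    FlatOn U q fun z (r c : Fin a → ι) => ∏ l, P z (r l) (c l) := by
  induction a with
  | zero =>
    refine ⟨fun r c => ?_, fun x r k => 0, ?_⟩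
    · simp only [Finset.univ_eq_empty, Finset.prod_empty]
      exact fun z _ => analyticAt_const
    · intro x r c z hz
      simp only [Finset.univ_eq_empty, Finset.prod_empty, map_zero, zero_mul, Finset.sum_const_zero]
      rw [fderiv_fun_const]
      simp
  | succ a ih =>
    have h1 := (hP.tensor ih).reindex (Fin.consEquiv fun _ => ι).symm
    convert h1 using 4 with z r c
    rw [Fin.prod_univ_succ]
    rfl

theorem FlatOn.dual {P R : (X → ℂ) → ι → ι → ℂ} (hUo : IsOpen U) (hP : FlatOn U q P)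
    (hR : ∀ i j, AnalyticOnNhd ℂ (fun z => R z i j) U)
    (hPR : ∀ z ∈ U, ∀ i j, ∑ k, P z i k * R z k j = if i = j then 1 else 0) :
    FlatOn U q fun z r c => R z c r := by
  obtain ⟨hPa, bP, hbP⟩ := hP
  refine ⟨fun r c => hR _ _, fun x r k => -bP x k r, ?_⟩
  intro x r c z hz
  let M : Matrix ι ι ℂ := Matrix.of (P z)
  let N : Matrix ι ι ℂ := Matrix.of (R z)
  let B : Matrix ι ι ℂ := Matrix.of fun i k => evz z (bP x i k)
  let dR : Matrix ι ι ℂ := Matrix.of fun i j => evz z (q x) * fderiv ℂ (fun z => R z i j) z (Pi.single x 1)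
  have hMN : M * N = 1 := by
    ext i j
    rw [Matrix.mul_apply, Matrix.one_apply]
    exact hPR z hz i j
  have hNM : N * M = 1 := mul_eq_one_comm.1 hMN
  have h1 : M * dR = -B := by
    ext i j
    have h2 : (fun w => ∑ k, P w i k * R w k j) =ᶠ[𝓝 z] fun _ => if i = j then 1 else 0 := by
      filter_upwards [hUo.mem_nhds hz] with w hw
      exact hPR w hw i j
    have h3 := h2.fderiv_eq (𝕜 := ℂ)
    have hs : fderiv ℂ (fun w => ∑ k, P w i k * R w k j) z = ∑ k, fderiv ℂ (fun w => P w i k * R w k j) z :=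
      fderiv_fun_sum fun k _ => show DifferentiableAt ℂ (fun w => P w i k * R w k j) z from
        (hPa i k z hz).differentiableAt.mul (hR k j z hz).differentiableAt
    rw [fderiv_fun_const, hs] at h3
    have h4 := congrArg (fun φ : (X → ℂ) →L[ℂ] ℂ => evz z (q x) * φ (Pi.single x 1)) h3
    simp only [sum_apply] at h4
    have h5 : ∀ k, fderiv ℂ (fun w => P w i k * R w k j) z (Pi.single x 1) =
        P z i k * fderiv ℂ (fun w => R w k j) z (Pi.single x 1) +
          R z k j * fderiv ℂ (fun w => P w i k) z (Pi.single x 1) := by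
      intro k
      rw [fderiv_fun_mul (hPa i k z hz).differentiableAt (hR k j z hz).differentiableAt]
      simp only [add_apply, smul_apply, smul_eq_mul]
    simp only [h5] at h4
    have h6 : ∑ k, R z k j * (evz z (q x) * fderiv ℂ (fun w => P w i k) z (Pi.single x 1)) = B i j := by
      have h7 : (B * M) * N = B := by rw [Matrix.mul_assoc, hMN, Matrix.mul_one]
      have h8 := congrFun (congrFun h7 i) j
      rw [Matrix.mul_apply] at h8
      rw [← h8]
      refine Finset.sum_congr rfl fun k _ => ?_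
      rw [hbP x i k z hz, Matrix.mul_apply, mul_comm]
      rfl
    rw [Matrix.neg_apply, Matrix.mul_apply, ← h6, eq_neg_iff_add_eq_zero, ← Finset.sum_add_distrib]
    have h9 : evz z (q x) * ∑ k, (P z i k * fderiv ℂ (fun w => R w k j) z (Pi.single x 1) +
          R z k j * fderiv ℂ (fun w => P w i k) z (Pi.single x 1)) = 0 := by
      rw [h4]
      simp
    rw [← h9, Finset.mul_sum]
    refine Finset.sum_congr rfl fun k _ => ?_
    change P z i k * (evz z (q x) * fderiv ℂ (fun z => R z k j) z (Pi.single x 1)) + _ = _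
    ring
  have h2 : dR = -(N * B) := by
    have h3 : N * (M * dR) = N * -B := by rw [h1]
    rw [← Matrix.mul_assoc, hNM, Matrix.one_mul, Matrix.mul_neg] at h3
    exact h3
  have h3 := congrFun (congrFun h2 c) r
  rw [Matrix.neg_apply, Matrix.mul_apply] at h3
  change dR c r = _
  rw [h3, ← Finset.sum_neg_distrib]
  refine Finset.sum_congr rfl fun k _ => ?_
  rw [map_neg]
  change -(R z c k * evz z (bP x k r)) = _
  ring

/-- the period matrix of the tensor space of type `(a, b)` -/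
def tens {n : Type} (a b : ℕ) (P R : n → n → ℂ) (r c : (Fin a → n) × (Fin b → n)) : ℂ :=
  (∏ l, P (r.1 l) (c.1 l)) * ∏ l, R (c.2 l) (r.2 l)

theorem FlatOn.tens {P R : (X → ℂ) → ι → ι → ℂ} (hUo : IsOpen U) (hP : FlatOn U q P)
    (hR : ∀ i j, AnalyticOnNhd ℂ (fun z => R z i j) U)
    (hPR : ∀ z ∈ U, ∀ i j, ∑ k, P z i k * R z k j = if i = j then 1 else 0) (a b : ℕ) :
    FlatOn U q fun z => Pool.Agent.Run7.h10.QS.tens a b (P z) (R z) :=
  (hP.pow a).tensor ((hP.dual hUo hR hPR).pow b)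

end flat

/-- **De Rham-Betti classes on all the tensor spaces.** -/
theorem tens_few {X ι : Type} [Fintype X] [DecidableEq X] [Nonempty X] [Fintype ι] [DecidableEq ι]
    {U : Set (X → ℂ)} (hU : IsPreconnected U) (hUo : IsOpen U) (hne : U.Nonempty) {P R : (X → ℂ) → ι → ι → ℂ}
    (q : X → MvPolynomial X Qbar) (hq : ∀ x, q x ≠ 0) (hP : FlatOn U q P)
    (hR : ∀ i j, AnalyticOnNhd ℂ (fun z => R z i j) U)
    (hPR : ∀ z ∈ U, ∀ i j, ∑ k, P z i k * R z k j = if i = j then 1 else 0) :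
    Few fun K _ _ io k T => {s : X → K | s ∈ Points K U io k T ∧ ∃ a b : ℕ, a + b ≤ k ∧
      ∃ v w : (Fin a → ι) × (Fin b → ι) → 𝓞 K,
      (∀ j (φ : K →+* ℂ), ‖φ (v j : K)‖ ≤ T ^ k) ∧ (∀ j (φ : K →+* ℂ), ‖φ (w j : K)‖ ≤ T ^ k) ∧
      (∀ i, ∑ j, tens a b (P fun x => io (s x)) (R fun x => io (s x)) i j * io (v j : K) = io (w i : K)) ∧
      ¬ ∀ i, AlgFun U fun z => ∑ j, tens a b (P z) (R z) i j * io (v j : K)} := by
  classical
  apply few_conv
  refine N207.GS.few_of _ (fun K _ _ io m ξ T s hs => hs.1.1) fun k ε hk hε => ?_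
  have H : CovS k ε fun K _ _ io T => ⋃ ab : Fin (k + 1) × Fin (k + 1), {s : X → K | s ∈ Points K U io k T ∧
      ∃ v w : (Fin (ab.1 : ℕ) → ι) × (Fin (ab.2 : ℕ) → ι) → 𝓞 K,
      (∀ j (φ : K →+* ℂ), ‖φ (v j : K)‖ ≤ T ^ k) ∧ (∀ j (φ : K →+* ℂ), ‖φ (w j : K)‖ ≤ T ^ k) ∧
      (∀ i, ∑ j, tens ab.1 ab.2 (P fun x => io (s x)) (R fun x => io (s x)) i j * io (v j : K) = io (w i : K)) ∧
      ¬ ∀ i, AlgFun U fun z => ∑ j, tens ab.1 ab.2 (P z) (R z) i j * io (v j : K)} := by
    refine CovS.iUnion _ fun ab => ?_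
    have h1 := hP.tens hUo hR hPR ab.1 ab.2
    obtain ⟨h2, b, h3⟩ := h1
    exact drb_cov hU hUo hne h2 q hq b h3 k ε hk hε
  obtain ⟨D, C, T₀, hC, hT₀, H⟩ := H
  refine ⟨D, C, T₀, hC, hT₀, fun K _ _ hm io _ T hT => (H K hm io T hT).mono le_rfl le_rfl (Set.image_mono ?_)⟩
  rintro s ⟨hs, a, b, hab, v, w, hv, hw, hrel, hnot⟩
  exact Set.mem_iUnion.2 ⟨(⟨a, by omega⟩, ⟨b, by omega⟩), hs, v, w, hv, hw, hrel, hnot⟩

end Pool.Agent.Run7.h10.QS
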