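import Pool.Agent.Run7.h10.QS.D2
import Pool.Agent.Run7.h10.QS.F2

/-!
# Parallel transport of the fibres of the closure of the graph of a period matrix
-/

set_option autoImplicit false
set_option linter.unusedSectionVars false

open NumberField Filter Topology

namespace Pool.Agent.Run7.h10.QS

open Pool.Agent.Y890.MV Pool.Agent.Y890.SP

section transport
variable {X : Type} [Fintype X] [DecidableEq X] {ι : Type} [Fintype ι] [DecidableEq ι] {U : Set (X → ℂ)}

/-- the value of the polynomial `R` at `(z, M)` -/
noncomputable def evR (R : MvPolynomial (X ⊕ ι × ι) Qbar) (z : X → ℂ) (M : Matrix ι ι ℂ) : ℂ :=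
  MvPolynomial.aeval (Sum.elim z fun e => M e.1 e.2) R

/-- the polynomial vanishes on the graph -/
def Rel (U : Set (X → ℂ)) (P : (X → ℂ) → Matrix ι ι ℂ) (R : MvPolynomial (X ⊕ ι × ι) Qbar) : Prop :=
  ∀ z ∈ U, evR R z (P z) = 0

theorem evR_inl (p : MvPolynomial X Qbar) (z : X → ℂ) (M : Matrix ι ι ℂ) :
    evR (MvPolynomial.rename Sum.inl p) z M = MvPolynomial.aeval z p := by
  unfold evR
  rw [MvPolynomial.aeval_rename]
  rfl

variable {P : (X → ℂ) → Matrix ι ι ℂ} {q : X → MvPolynomial X Qbar} {b : X → ι → ι → MvPolynomial X Qbar}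

theorem exists_D (hP : ∀ i j, AnalyticOnNhd ℂ (fun z => P z i j) U)
    (hb : ∀ x i j, ∀ z ∈ U, MvPolynomial.aeval z (q x) * fderiv ℂ (fun z => P z i j) z (Pi.single x 1) =
      ∑ k, MvPolynomial.aeval z (b x i k) * P z k j) (x : X) (R : MvPolynomial (X ⊕ ι × ι) Qbar) :
    ∃ R' : MvPolynomial (X ⊕ ι × ι) Qbar, ∀ G : Matrix ι ι ℂ, ∀ z ∈ U,
      AnalyticAt ℂ (fun z => evR R z (P z * G)) z ∧
      MvPolynomial.aeval z (q x) * fderiv ℂ (fun z => evR R z (P z * G)) z (Pi.single x 1) = evR R' z (P z * G) := by
  induction R using MvPolynomial.induction_on with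
  | C a =>
    refine ⟨0, fun G z _ => ?_⟩
    have h1 : (fun z => evR (MvPolynomial.C a : MvPolynomial (X ⊕ ι × ι) Qbar) z (P z * G)) =
        fun _ => algebraMap Qbar ℂ a := by
      funext z
      exact MvPolynomial.aeval_C _ a
    rw [h1]
    refine ⟨analyticAt_const, ?_⟩
    rw [fderiv_fun_const]
    simp [evR]
  | add R S hR hS =>
    obtain ⟨R', hR'⟩ := hR
    obtain ⟨S', hS'⟩ := hS
    refine ⟨R' + S', fun G z hz => ?_⟩
    have h1 : (fun z => evR (R + S) z (P z * G)) = fun z => evR R z (P z * G) + evR S z (P z * G) := by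
      funext z
      exact map_add _ R S
    rw [h1]
    refine ⟨(hR' G z hz).1.add (hS' G z hz).1, ?_⟩
    rw [fderiv_fun_add (hR' G z hz).1.differentiableAt (hS' G z hz).1.differentiableAt]
    have h2 : evR (R' + S') z (P z * G) = evR R' z (P z * G) + evR S' z (P z * G) := map_add _ R' S'
    rw [h2, add_apply, mul_add, (hR' G z hz).2, (hS' G z hz).2]
  | mul_X R v hR =>
    obtain ⟨R', hR'⟩ := hR
    -- the derivative of the variable
    have hv : ∃ V' : MvPolynomial (X ⊕ ι × ι) Qbar, ∀ G : Matrix ι ι ℂ, ∀ z ∈ U,
        AnalyticAt ℂ (fun z => evR (MvPolynomial.X v) z (P z * G)) z ∧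
        MvPolynomial.aeval z (q x) * fderiv ℂ (fun z => evR (MvPolynomial.X v) z (P z * G)) z (Pi.single x 1) =
          evR V' z (P z * G) := by
      rcases v with y | ⟨i, j⟩
      · refine ⟨if y = x then MvPolynomial.rename Sum.inl (q x) else 0, fun G z _ => ?_⟩
        have h1 : (fun z => evR (MvPolynomial.X (Sum.inl y) : MvPolynomial (X ⊕ ι × ι) Qbar) z (P z * G)) =
            fun z => z y := by
          funext z
          exact MvPolynomial.aeval_X _ _
        rw [h1]
        have h2 : AnalyticAt ℂ (fun z : X → ℂ => z y) z :=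
          (ContinuousLinearMap.proj (R := ℂ) (φ := fun _ : X => ℂ) y).analyticAt z
        refine ⟨h2, ?_⟩
        have h3 : fderiv ℂ (fun z : X → ℂ => z y) z = ContinuousLinearMap.proj (R := ℂ) (φ := fun _ : X => ℂ) y :=
          (ContinuousLinearMap.proj (R := ℂ) (φ := fun _ : X => ℂ) y).fderiv
        rw [h3, ContinuousLinearMap.proj_apply]
        by_cases hyx : y = x
        · subst hyx
          rw [if_pos rfl, evR_inl, Pi.single_eq_same, mul_one]
        · rw [if_neg hyx, Pi.single_eq_of_ne hyx, mul_zero]
          exact (map_zero (MvPolynomial.aeval (R := Qbar) (Sum.elim z fun e : ι × ι => (P z * G) e.1 e.2))).symm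
      · refine ⟨∑ k, MvPolynomial.rename Sum.inl (b x i k) * MvPolynomial.X (Sum.inr (k, j)), fun G z hz => ?_⟩
        have h1 : (fun z => evR (MvPolynomial.X (Sum.inr (i, j)) : MvPolynomial (X ⊕ ι × ι) Qbar) z (P z * G)) =
            fun z => ∑ l, P z i l * G l j := by
          funext z
          refine (MvPolynomial.aeval_X _ _).trans ?_
          exact Matrix.mul_apply
        rw [h1]
        have h2 : ∀ l ∈ Finset.univ, DifferentiableAt ℂ (fun z => P z i l * G l j) z := fun l _ =>
          ((hP i l z hz).mul analyticAt_const).differentiableAt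
        refine ⟨Finset.analyticAt_fun_sum _ fun l _ => (hP i l z hz).mul analyticAt_const, ?_⟩
        rw [fderiv_fun_sum h2, sum_apply, Finset.mul_sum]
        have h3 : evR (∑ k, MvPolynomial.rename Sum.inl (b x i k) * MvPolynomial.X (Sum.inr (k, j)) :
            MvPolynomial (X ⊕ ι × ι) Qbar) z (P z * G) =
            ∑ k, MvPolynomial.aeval z (b x i k) * ∑ l, P z k l * G l j := by
          unfold evR
          rw [map_sum]
          refine Finset.sum_congr rfl fun k _ => ?_
          rw [map_mul, MvPolynomial.aeval_X]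
          have h4 := evR_inl (b x i k) z (P z * G)
          unfold evR at h4
          rw [h4]
          congr 1
        rw [h3]
        have h5 : ∀ l ∈ Finset.univ, MvPolynomial.aeval z (q x) *
            fderiv ℂ (fun z => P z i l * G l j) z (Pi.single x 1) =
            ∑ k, MvPolynomial.aeval z (b x i k) * (P z k l * G l j) := by
          intro l _
          rw [fderiv_mul_const (hP i l z hz).differentiableAt]
          rw [smul_apply, smul_eq_mul]
          have h6 := hb x i l z hz
          calc MvPolynomial.aeval z (q x) * (G l j * fderiv ℂ (fun z => P z i l) z (Pi.single x 1))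
              = G l j * (MvPolynomial.aeval z (q x) * fderiv ℂ (fun z => P z i l) z (Pi.single x 1)) := by ring
            _ = _ := by
              rw [h6, Finset.mul_sum]
              exact Finset.sum_congr rfl fun k _ => by ring
        rw [Finset.sum_congr rfl h5, Finset.sum_comm]
        exact Finset.sum_congr rfl fun k _ => (Finset.mul_sum _ _ _).symm
    obtain ⟨V', hV'⟩ := hv
    refine ⟨R' * MvPolynomial.X v + R * V', fun G z hz => ?_⟩
    have h1 : (fun z => evR (R * MvPolynomial.X v) z (P z * G)) =
        fun z => evR R z (P z * G) * evR (MvPolynomial.X v) z (P z * G) := by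
      funext z
      exact map_mul _ R _
    rw [h1]
    refine ⟨(hR' G z hz).1.mul (hV' G z hz).1, ?_⟩
    rw [fderiv_fun_mul (hR' G z hz).1.differentiableAt (hV' G z hz).1.differentiableAt]
    have h2 : evR (R' * MvPolynomial.X v + R * V') z (P z * G) =
        evR R' z (P z * G) * evR (MvPolynomial.X v) z (P z * G) + evR R z (P z * G) * evR V' z (P z * G) := by
      unfold evR
      rw [map_add, map_mul, map_mul]
    rw [h2, ← (hR' G z hz).2, ← (hV' G z hz).2, add_apply, smul_apply, smul_apply, smul_eq_mul, smul_eq_mul]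
    ring

/-- **Parallel transport.** If all relations of `P` hold for `P s * G` at one point `s` of `U`, then they hold for `P z * G` at
all points `z` of `U`. -/
theorem transport (hUo : IsOpen U) (hU : IsPreconnected U) (hP : ∀ i j, AnalyticOnNhd ℂ (fun z => P z i j) U)
    (hq : ∀ x, ∀ z ∈ U, MvPolynomial.aeval z (q x) ≠ 0)
    (hb : ∀ x i j, ∀ z ∈ U, MvPolynomial.aeval z (q x) * fderiv ℂ (fun z => P z i j) z (Pi.single x 1) =
      ∑ k, MvPolynomial.aeval z (b x i k) * P z k j) {s : X → ℂ} (hs : s ∈ U) {G : Matrix ι ι ℂ}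
    (h0 : ∀ R, Rel U P R → evR R s (P s * G) = 0) {R : MvPolynomial (X ⊕ ι × ι) Qbar} (hR : Rel U P R) :
    ∀ z ∈ U, evR R z (P z * G) = 0 := by
  classical
  choose D hD using fun (x : X) (R : MvPolynomial (X ⊕ ι × ι) Qbar) => exists_D hP hb x R
  have han : ∀ R : MvPolynomial (X ⊕ ι × ι) Qbar, AnalyticOnNhd ℂ (fun z => evR R z (P z * G)) U := by
    intro R z hz
    by_cases hX : Nonempty X
    · obtain ⟨x⟩ := hX
      exact (hD x R G z hz).1
    · have h1 : ∀ w : X → ℂ, w = z := fun w => funext fun x => absurd ⟨x⟩ hX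
      have h2 : (fun z => evR R z (P z * G)) = fun _ => evR R z (P z * G) := by
        funext w
        rw [h1 w]
      rw [h2]
      exact analyticAt_const
  -- the derivatives of relations are relations
  have hrel : ∀ x R, Rel U P R → Rel U P (D x R) := by
    intro x R hR z hz
    have h1 := (hD x R 1 z hz).2
    rw [mul_one] at h1
    rw [← h1]
    have h2 : (fun z => evR R z (P z * 1)) =ᶠ[𝓝 z] fun _ => (0 : ℂ) := by
      filter_upwards [hUo.mem_nhds hz] with w hw
      rw [mul_one]
      exact hR w hw
    rw [h2.fderiv_eq, fderiv_fun_const]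
    simp
  obtain ⟨r, hr, hrU⟩ := Metric.isOpen_iff.1 hUo s hs
  -- on lines
  have hball : ∀ R, Rel U P R → ∀ z ∈ Metric.ball s r, evR R z (P z * G) = 0 := by
    intro R hR z1 hz1
    set v : X → ℂ := z1 - s with hv
    set γ : ℂ → X → ℂ := fun t => s + t • v with hγ
    have hγan : ∀ t, AnalyticAt ℂ γ t := fun t => analyticAt_const.add (analyticAt_id.smul analyticAt_const)
    have hγ0 : γ 0 = s := by simp [hγ]
    have hγ1 : γ 1 = z1 := by simp [hγ, hv]
    have hγd : ∀ t, HasDerivAt γ v t := by
      intro t
      have h1 : HasDerivAt (fun t : ℂ => t • v) ((1 : ℂ) • v) t := (hasDerivAt_id t).smul_const v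
      rw [one_smul] at h1
      exact h1.const_add s
    have hline : ∀ R, ∀ t, γ t ∈ U → AnalyticAt ℂ (fun t => evR R (γ t) (P (γ t) * G)) t := by
      intro R t ht
      exact AnalyticAt.comp (g := fun z => evR R z (P z * G)) (han R (γ t) ht) (hγan t)
    have hev : ∀ᶠ t in 𝓝 (0 : ℂ), γ t ∈ U := by
      have h1 : γ 0 ∈ U := by rw [hγ0]; exact hs
      exact (hγan 0).continuousAt.eventually (hUo.mem_nhds h1)
    have hord : ∀ (n : ℕ) (R), Rel U P R → (n : ℕ∞) ≤ analyticOrderAt (fun t => evR R (γ t) (P (γ t) * G)) 0 := by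
      intro n
      induction n with
      | zero => intro R _; exact zero_le
      | succ n ih =>
        intro R hR
        have h0mem : γ 0 ∈ U := by rw [hγ0]; exact hs
        have hf := hline R 0 h0mem
        have hf0 : evR R (γ 0) (P (γ 0) * G) = 0 := by
          rw [hγ0]
          exact h0 R hR
        have h1 := hf.analyticOrderAt_deriv_add_one
        have h2 : (fun t => evR R (γ t) (P (γ t) * G) - evR R (γ 0) (P (γ 0) * G)) =
            fun t => evR R (γ t) (P (γ t) * G) := by
          funext t
          rw [hf0, sub_zero]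
        rw [h2] at h1
        rw [← h1]
        push_cast
        refine add_le_add_left ?_ 1
        -- the derivative
        have h3 : deriv (fun t => evR R (γ t) (P (γ t) * G)) =ᶠ[𝓝 0]
            fun t => ∑ x, (v x * (MvPolynomial.aeval (γ t) (q x))⁻¹) * evR (D x R) (γ t) (P (γ t) * G) := by
          filter_upwards [hev] with t ht
          have h4 : HasDerivAt (fun t => evR R (γ t) (P (γ t) * G))
              (fderiv ℂ (fun z => evR R z (P z * G)) (γ t) v) t :=
            ((han R (γ t) ht).differentiableAt.hasFDerivAt).comp_hasDerivAt t (hγd t)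
          rw [h4.deriv]
          have h5 : v = ∑ x, v x • (Pi.single x (1 : ℂ) : X → ℂ) := by
            funext y
            rw [Finset.sum_apply, Finset.sum_eq_single y]
            · rw [Pi.smul_apply, Pi.single_eq_same, smul_eq_mul, mul_one]
            · intro x _ hx
              rw [Pi.smul_apply, Pi.single_eq_of_ne (Ne.symm hx), smul_zero]
            · intro h
              exact absurd (Finset.mem_univ _) h
          conv_lhs => rw [h5]
          rw [map_sum]
          refine Finset.sum_congr rfl fun x _ => ?_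
          rw [map_smul, smul_eq_mul, ← (hD x R G (γ t) ht).2, mul_assoc, ← mul_assoc _⁻¹, inv_mul_cancel₀ (hq x _ ht),
            one_mul]
        rw [analyticOrderAt_congr h3]
        -- the order of the sum
        have hqan : ∀ x, AnalyticAt ℂ (fun t => v x * (MvPolynomial.aeval (γ t) (q x))⁻¹) 0 := by
          intro x
          have h6 := hline (MvPolynomial.rename Sum.inl (q x)) 0 h0mem
          simp only [evR_inl] at h6
          exact analyticAt_const.mul (h6.inv (hq x _ h0mem))
        have hsum : ∀ S : Finset X, (n : ℕ∞) ≤ analyticOrderAt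
            (fun t => ∑ x ∈ S, (v x * (MvPolynomial.aeval (γ t) (q x))⁻¹) * evR (D x R) (γ t) (P (γ t) * G)) 0 := by
          intro S
          induction S using Finset.induction_on with
          | empty =>
            have h7 : analyticOrderAt (fun t : ℂ => ∑ x ∈ (∅ : Finset X), (v x * (MvPolynomial.aeval (γ t) (q x))⁻¹) *
                evR (D x R) (γ t) (P (γ t) * G)) 0 = ⊤ := by
              rw [analyticOrderAt_eq_top]
              simp
            rw [h7]
            exact le_top
          | insert x S hx ihS =>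
            have h7 : (fun t : ℂ => ∑ x ∈ insert x S, (v x * (MvPolynomial.aeval (γ t) (q x))⁻¹) *
                evR (D x R) (γ t) (P (γ t) * G)) =
                (fun t => (v x * (MvPolynomial.aeval (γ t) (q x))⁻¹) * evR (D x R) (γ t) (P (γ t) * G)) +
                fun t => ∑ x ∈ S, (v x * (MvPolynomial.aeval (γ t) (q x))⁻¹) * evR (D x R) (γ t) (P (γ t) * G) := by
              funext t
              rw [Finset.sum_insert hx]
              rfl
            rw [h7]
            refine le_trans (le_min ?_ ihS) le_analyticOrderAt_add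
            have h8 := analyticOrderAt_mul (hqan x) (hline (D x R) 0 h0mem)
            have h9 := ih (D x R) (hrel x R hR)
            have h10 : (fun t => (v x * (MvPolynomial.aeval (γ t) (q x))⁻¹) * evR (D x R) (γ t) (P (γ t) * G)) =
                (fun t => v x * (MvPolynomial.aeval (γ t) (q x))⁻¹) * fun t => evR (D x R) (γ t) (P (γ t) * G) := rfl
            rw [h10, h8]
            exact le_trans h9 le_add_self
        exact hsum Finset.univ
    have hz0 : ∀ᶠ t in 𝓝 (0 : ℂ), evR R (γ t) (P (γ t) * G) = 0 := by
      rw [← analyticOrderAt_eq_top]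
      exact ENat.eq_top_iff_forall_ge.2 fun n => hord n R hR
    have hconv : Convex ℝ (γ ⁻¹' Metric.ball s r) := by
      have h1 : IsLinearMap ℝ fun t : ℂ => t • v := by
        constructor
        · intro x y
          rw [add_smul]
        · intro c x
          rw [smul_assoc]
      have h2 : Convex ℝ ((fun t : ℂ => t • v) ⁻¹' Metric.ball 0 r) := (convex_ball 0 r).is_linear_preimage h1
      have h3 : γ ⁻¹' Metric.ball s r = (fun t : ℂ => t • v) ⁻¹' Metric.ball 0 r := by
        ext t
        simp [γ, Metric.mem_ball, dist_eq_norm]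
      rw [h3]
      exact h2
    have hlin : AnalyticOnNhd ℂ (fun t => evR R (γ t) (P (γ t) * G)) (γ ⁻¹' Metric.ball s r) :=
      fun t ht => hline R t (hrU ht)
    have h0mem : (0 : ℂ) ∈ γ ⁻¹' Metric.ball s r := by
      change γ 0 ∈ Metric.ball s r
      rw [hγ0]
      exact Metric.mem_ball_self hr
    have h1mem : (1 : ℂ) ∈ γ ⁻¹' Metric.ball s r := by
      change γ 1 ∈ Metric.ball s r
      rw [hγ1]
      exact hz1
    have h1 := hlin.eqOn_zero_of_preconnected_of_eventuallyEq_zero hconv.isPreconnected h0mem hz0 h1mem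
    have h2 : evR R (γ 1) (P (γ 1) * G) = 0 := h1
    rw [hγ1] at h2
    exact h2
  have h1 : (fun z => evR R z (P z * G)) =ᶠ[𝓝 s] 0 := by
    filter_upwards [Metric.ball_mem_nhds s hr] with z hz
    exact hball R hR z hz
  intro z hz
  exact (han R).eqOn_zero_of_preconnected_of_eventuallyEq_zero hU hs h1 hz

end transport

end Pool.Agent.Run7.h10.QS
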